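import Pool.Agent.ZAB.Main

set_option autoImplicit false

namespace Pool.Agent.ZAB

open MvPolynomial

theorem fl_mono {p : ℕ} {c : Clause} {m n : ℕ} (h : m ≤ n) (ht : fl p c m) : fl p c n := by
  intro g hg
  obtain ⟨i, hi, hc⟩ := ht g hg
  exact ⟨i, lt_of_lt_of_le hi h, hc⟩

section prim
variable {α β : Type} [Primcodable α] [Primcodable β]

theorem allP' {f : α → List β} {R : α → β → Prop} (hf : Primrec f)
    (hR : PrimrecPred fun q : α × β => R q.1 q.2) : PrimrecPred fun a => ∀ b ∈ f a, R a b := by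
  have h : PrimrecRel fun (b : β) (a : α) => R a b :=
    PrimrecPred.comp hR (Primrec.pair Primrec.snd Primrec.fst)
  exact h.forall_mem_list.comp hf Primrec.id

theorem exP' {f : α → List β} {R : α → β → Prop} (hf : Primrec f)
    (hR : PrimrecPred fun q : α × β => R q.1 q.2) : PrimrecPred fun a => ∃ b ∈ f a, R a b := by
  have h : PrimrecRel fun (b : β) (a : α) => R a b :=
    PrimrecPred.comp hR (Primrec.pair Primrec.snd Primrec.fst)
  exact h.exists_mem_list.comp hf Primrec.id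

theorem allLt' {f : α → ℕ} {R : α → ℕ → Prop} (hf : Primrec f)
    (hR : PrimrecPred fun q : α × ℕ => R q.1 q.2) : PrimrecPred fun a => ∀ b < f a, R a b :=
  (allP' (Primrec.list_range.comp hf) hR).of_eq fun a => by simp

theorem exLt' {f : α → ℕ} {R : α → ℕ → Prop} (hf : Primrec f)
    (hR : PrimrecPred fun q : α × ℕ => R q.1 q.2) : PrimrecPred fun a => ∃ b < f a, R a b :=
  (exP' (Primrec.list_range.comp hf) hR).of_eq fun a => by simp

end prim

/-- the member `a` of a combination is true modulo `p`, with certificates below `B` -/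
def btr (p : ℕ) (a : List Clause × List Clause) (B : ℕ) : Prop :=
  (∃ c ∈ a.1, tr p c B) ∨ ∃ c ∈ a.2, fl p c B

/-- the member `a` of a combination is false modulo `p`, with certificates below `B` -/
def bfl (p : ℕ) (a : List Clause × List Clause) (B : ℕ) : Prop :=
  (∀ c ∈ a.1, fl p c B) ∧ ∀ c ∈ a.2, tr p c B

theorem btr_mono {p : ℕ} {a : List Clause × List Clause} {m n : ℕ} (h : m ≤ n) (ht : btr p a m) :
    btr p a n := by
  rcases ht with ⟨c, hc, h1⟩ | ⟨c, hc, h1⟩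
  · exact Or.inl ⟨c, hc, tr_mono h h1⟩
  · exact Or.inr ⟨c, hc, fl_mono h h1⟩

theorem bfl_mono {p : ℕ} {a : List Clause × List Clause} {m n : ℕ} (h : m ≤ n) (ht : bfl p a m) :
    bfl p a n :=
  ⟨fun c hc => fl_mono h (ht.1 c hc), fun c hc => tr_mono h (ht.2 c hc)⟩

theorem holds_iff_btr {p : ℕ} (hp : p.Prime) (a : List Clause × List Clause) :
    ((∃ c ∈ a.1, Holds (ZabMod p) c) ∨ ∃ c ∈ a.2, ¬ Holds (ZabMod p) c) ↔ ∃ B, btr p a B := by
  constructor
  · rintro (⟨c, hc, h⟩ | ⟨c, hc, h⟩)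
    · obtain ⟨B, hB⟩ := (holds_iff_tr hp c).1 h
      exact ⟨B, Or.inl ⟨c, hc, hB⟩⟩
    · obtain ⟨B, hB⟩ := (not_holds_iff_fl hp c).1 h
      exact ⟨B, Or.inr ⟨c, hc, hB⟩⟩
  · rintro ⟨B, ⟨c, hc, h⟩ | ⟨c, hc, h⟩⟩
    · exact Or.inl ⟨c, hc, (holds_iff_tr hp c).2 ⟨B, h⟩⟩
    · exact Or.inr ⟨c, hc, (not_holds_iff_fl hp c).2 ⟨B, h⟩⟩

theorem not_holds_iff_bfl {p : ℕ} (hp : p.Prime) (a : List Clause × List Clause) :
    ¬ ((∃ c ∈ a.1, Holds (ZabMod p) c) ∨ ∃ c ∈ a.2, ¬ Holds (ZabMod p) c) ↔ ∃ B, bfl p a B := by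
  push Not
  constructor
  · rintro ⟨h1, h2⟩
    obtain ⟨B1, hB1⟩ := exists_common a.1 (fun c B => fl p c B) (fun c m n hmn h => fl_mono hmn h)
      (fun c hc => (not_holds_iff_fl hp c).1 (h1 c hc))
    obtain ⟨B2, hB2⟩ := exists_common a.2 (fun c B => tr p c B) (fun c m n hmn h => tr_mono hmn h)
      (fun c hc => (holds_iff_tr hp c).1 (h2 c hc))
    exact ⟨max B1 B2, fun c hc => fl_mono (le_max_left _ _) (hB1 c hc),
      fun c hc => tr_mono (le_max_right _ _) (hB2 c hc)⟩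
  · rintro ⟨B, h1, h2⟩
    exact ⟨fun c hc => (not_holds_iff_fl hp c).2 ⟨B, h1 c hc⟩, fun c hc => (holds_iff_tr hp c).2 ⟨B, h2 c hc⟩⟩

section prim2
variable {α : Type} [Primcodable α]

theorem primrec_btr {p : α → ℕ} {a : α → List Clause × List Clause} {B : α → ℕ} (hp : Primrec p)
    (ha : Primrec a) (hB : Primrec B) : PrimrecPred fun x => btr (p x) (a x) (B x) := by
  unfold btr
  refine PrimrecPred.or ?_ ?_
  · exact exP' (Primrec.fst.comp ha) (primrec_tr (hp.comp Primrec.fst) Primrec.snd (hB.comp Primrec.fst))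
  · exact exP' (Primrec.snd.comp ha) (primrec_fl (hp.comp Primrec.fst) Primrec.snd (hB.comp Primrec.fst))

theorem primrec_bfl {p : α → ℕ} {a : α → List Clause × List Clause} {B : α → ℕ} (hp : Primrec p)
    (ha : Primrec a) (hB : Primrec B) : PrimrecPred fun x => bfl (p x) (a x) (B x) := by
  unfold bfl
  refine PrimrecPred.and ?_ ?_
  · exact allP' (Primrec.fst.comp ha) (primrec_fl (hp.comp Primrec.fst) Primrec.snd (hB.comp Primrec.fst))
  · exact allP' (Primrec.snd.comp ha) (primrec_tr (hp.comp Primrec.fst) Primrec.snd (hB.comp Primrec.fst))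

end prim2

/-- decidability of the Boolean combinations of clauses, uniformly in `p` -/
theorem decidable_comb :
    ComputablePred fun a : ℕ × Comb => a.1.Prime ∧ HoldsB (ZabMod a.1) a.2 := by
  refine computable_of_search (T := fun a B => a.1.Prime ∧ ∀ b ∈ a.2, btr a.1 b B)
    (F := fun a B => ¬ a.1.Prime ∨ ∃ b ∈ a.2, bfl a.1 b B) ?_ ?_ ?_ ?_
  · refine PrimrecPred.and (primrec_prime (Primrec.fst.comp Primrec.fst)) ?_
    refine allP' (f := fun q : (ℕ × Comb) × ℕ => q.1.2) (Primrec.snd.comp Primrec.fst) ?_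
    exact primrec_btr (Primrec.fst.comp (Primrec.fst.comp Primrec.fst)) Primrec.snd
      (Primrec.snd.comp Primrec.fst)
  · refine PrimrecPred.or (PrimrecPred.not (primrec_prime (Primrec.fst.comp Primrec.fst))) ?_
    refine exP' (f := fun q : (ℕ × Comb) × ℕ => q.1.2) (Primrec.snd.comp Primrec.fst) ?_
    exact primrec_bfl (Primrec.fst.comp (Primrec.fst.comp Primrec.fst)) Primrec.snd
      (Primrec.snd.comp Primrec.fst)
  · rintro ⟨p, φ⟩
    constructor
    · rintro ⟨hp, h⟩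
      obtain ⟨B, hB⟩ := exists_common φ (fun c B => btr p c B) (fun c m n hmn h => btr_mono hmn h)
        (fun c hc => (holds_iff_btr hp c).1 (h c hc))
      exact ⟨B, hp, hB⟩
    · rintro ⟨B, hp, hB⟩
      exact ⟨hp, fun c hc => (holds_iff_btr hp c).2 ⟨B, hB c hc⟩⟩
  · rintro ⟨p, φ⟩
    constructor
    · intro h
      by_cases hp : p.Prime
      · have h1 : ∃ a ∈ φ, ¬ ((∃ c ∈ a.1, Holds (ZabMod p) c) ∨ ∃ c ∈ a.2, ¬ Holds (ZabMod p) c) := by
          by_contra hne
          apply h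
          refine ⟨hp, fun a ha => ?_⟩
          by_contra hn
          exact hne ⟨a, ha, hn⟩
        obtain ⟨a, ha, hn⟩ := h1
        obtain ⟨B, hB⟩ := (not_holds_iff_bfl hp a).1 hn
        exact ⟨B, Or.inr ⟨a, ha, hB⟩⟩
      · exact ⟨0, Or.inl hp⟩
    · rintro ⟨B, h1 | ⟨a, ha, hB⟩⟩ ⟨hp, h2⟩
      · exact h1 hp
      · exact (not_holds_iff_bfl hp a).2 ⟨B, hB⟩ (h2 a ha)

end Pool.Agent.ZAB
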