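import Mathlib

set_option autoImplicit false

/-! Only finitely many primes are invertible in a finitely generated ring containing `ℤ`. -/

namespace Pool.Agent.ZAB

open TensorProduct

theorem exists_char_zero_hom (C : Type) [CommRing C] (h : ∀ M : ℕ, M ≠ 0 → (M : C) ≠ 0) :
    ∃ (L : Type) (_ : Field L) (_ : CharZero L), Nonempty (C →+* L) := by
  classical
  let S : Submonoid C := Submonoid.map (Nat.castRingHom C).toMonoidHom (nonZeroDivisors ℕ)
  have hdis : Disjoint ((⊥ : Ideal C) : Set C) (S : Set C) := by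
    rw [Set.disjoint_left]
    rintro x hx ⟨M, hM, rfl⟩
    have h0 : ((M : ℕ) : C) = 0 := by simpa using hx
    exact h M (nonZeroDivisors.ne_zero hM) h0
  obtain ⟨P, hP, -, hd⟩ := Ideal.exists_le_prime_disjoint ⊥ S hdis
  refine ⟨FractionRing (C ⧸ P), inferInstance, ?_, ⟨(algebraMap (C ⧸ P) _).comp
    (Ideal.Quotient.mk P)⟩⟩
  have hq : CharZero (C ⧸ P) := by
    apply charZero_of_inj_zero
    intro n hn
    by_contra hne
    have h1 : (n : C) ∈ P := by
      rw [← Ideal.Quotient.eq_zero_iff_mem, map_natCast]; exact hn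
    exact Set.disjoint_left.1 hd h1 ⟨n, mem_nonZeroDivisors_of_ne_zero hne, rfl⟩
  apply charZero_of_inj_zero
  intro n hn
  rw [← map_natCast (algebraMap (C ⧸ P) (FractionRing (C ⧸ P)))] at hn
  have := (IsFractionRing.injective (C ⧸ P) (FractionRing (C ⧸ P))) (hn.trans (map_zero _).symm)
  exact_mod_cast this

theorem exists_finite_hom (C : Type) [CommRing C] [Algebra.FiniteType ℤ C]
    (h : ∀ M : ℕ, M ≠ 0 → (M : C) ≠ 0) :
    ∃ (K : Type) (_ : Field K) (_ : Algebra ℚ K), Module.Finite ℚ K ∧ Nonempty (C →+* K) := by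
  obtain ⟨L, hL, hL0, ⟨f⟩⟩ := exists_char_zero_hom C h
  let g : C →ₐ[ℤ] L := f.toIntAlgHom
  let F : ℚ ⊗[ℤ] C →ₐ[ℤ] L := Algebra.TensorProduct.lift (algebraMap ℚ L).toIntAlgHom g
    (fun _ _ => Commute.all _ _)
  have hnt : Nontrivial (ℚ ⊗[ℤ] C) := F.toRingHom.domain_nontrivial
  obtain ⟨m, hm⟩ := Ideal.exists_maximal (ℚ ⊗[ℤ] C)
  let _ : Field ((ℚ ⊗[ℤ] C) ⧸ m) := Ideal.Quotient.field m
  refine ⟨(ℚ ⊗[ℤ] C) ⧸ m, inferInstance, inferInstance, ?_, ⟨(Ideal.Quotient.mk m).comp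
    (Algebra.TensorProduct.includeRight : C →ₐ[ℤ] ℚ ⊗[ℤ] C).toRingHom⟩⟩
  have : Algebra.FiniteType ℚ (ℚ ⊗[ℤ] C) := inferInstance
  have h2 : Algebra.FiniteType ℚ ((ℚ ⊗[ℤ] C) ⧸ m) :=
    Algebra.FiniteType.of_surjective (Ideal.Quotient.mkₐ ℚ m) (Ideal.Quotient.mkₐ_surjective ℚ m)
  exact finite_of_finite_type_of_isJacobsonRing ℚ ((ℚ ⊗[ℤ] C) ⧸ m)

theorem finite_unit_primes (C : Type) [CommRing C] [Algebra.FiniteType ℤ C]
    (h : ∀ M : ℕ, M ≠ 0 → (M : C) ≠ 0) : {p : ℕ | p.Prime ∧ IsUnit (p : C)}.Finite := by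
  classical
  obtain ⟨K, hK, hA, hfin, ⟨χ⟩⟩ := exists_finite_hom C h
  haveI : CharZero K := algebraRat.charZero K
  obtain ⟨S, hS⟩ := (inferInstance : Algebra.FiniteType ℤ C).out
  have halg : ∀ c : C, ∃ y : ℤ, y ≠ 0 ∧ IsIntegral ℤ ((y : K) * χ c) := by
    intro c
    have h1 : IsAlgebraic ℚ (χ c) := Algebra.IsAlgebraic.isAlgebraic _
    have h2 : IsAlgebraic ℤ (χ c) := (IsFractionRing.isAlgebraic_iff ℤ ℚ K).2 h1
    obtain ⟨y, hy, hi⟩ := h2.exists_integral_multiple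
    refine ⟨y, hy, ?_⟩
    rwa [zsmul_eq_mul] at hi
  choose y hy hyi using halg
  let N : ℤ := ∏ s ∈ S, y s
  have hN : N ≠ 0 := Finset.prod_ne_zero_iff.2 fun s _ => hy s
  have hint : ∀ n : ℤ, IsIntegral ℤ (n : K) := fun n => by
    have := isIntegral_algebraMap (R := ℤ) (A := K) (x := n)
    simpa using this
  have key : ∀ c : C, ∃ k : ℕ, IsIntegral ℤ ((N : K) ^ k * χ c) := by
    intro c
    have hc : c ∈ Algebra.adjoin ℤ (S : Set C) := by rw [hS]; trivial
    induction hc using Algebra.adjoin_induction with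
    | mem s hs =>
      refine ⟨1, ?_⟩
      have e : (N : K) = (∏ t ∈ S.erase s, y t : ℤ) * (y s : K) := by
        rw [← Int.cast_mul]; congr 1
        exact (Finset.prod_erase_mul S y hs).symm
      rw [pow_one, e, mul_assoc]
      exact (hint _).mul (hyi s)
    | algebraMap r =>
      refine ⟨0, ?_⟩
      rw [pow_zero, one_mul]
      have : χ (algebraMap ℤ C r) = (r : K) := by simp
      rw [this]; exact hint r
    | add a b _ _ ha hb =>
      obtain ⟨k, hk⟩ := ha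
      obtain ⟨l, hl⟩ := hb
      refine ⟨k + l, ?_⟩
      have e : (N : K) ^ (k + l) * χ (a + b) =
          (N : K) ^ l * ((N : K) ^ k * χ a) + (N : K) ^ k * ((N : K) ^ l * χ b) := by
        rw [map_add]; ring
      rw [e]
      exact (((hint N).pow l).mul hk).add (((hint N).pow k).mul hl)
    | mul a b _ _ ha hb =>
      obtain ⟨k, hk⟩ := ha
      obtain ⟨l, hl⟩ := hb
      refine ⟨k + l, ?_⟩
      have e : (N : K) ^ (k + l) * χ (a * b) =
          ((N : K) ^ k * χ a) * ((N : K) ^ l * χ b) := by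
        rw [map_mul]; ring
      rw [e]
      exact hk.mul hl
  refine (Set.finite_le_nat N.natAbs).subset ?_
  rintro p ⟨hp, hu⟩
  obtain ⟨c, hc⟩ := hu.exists_right_inv
  obtain ⟨k, hk⟩ := key c
  have hp0 : (p : ℚ) ≠ 0 := by exact_mod_cast hp.ne_zero
  have hpK : (p : K) ≠ 0 := by exact_mod_cast hp.ne_zero
  have e1 : (p : K) * χ c = 1 := by
    rw [← map_natCast χ, ← map_mul, hc, map_one]
  have e2 : (N : K) ^ k * χ c = algebraMap ℚ K ((N : ℚ) ^ k / p) := by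
    rw [map_div₀, map_pow, map_intCast, map_natCast, eq_div_iff hpK, mul_assoc, mul_comm (χ c), e1,
      mul_one]
  rw [e2] at hk
  have h3 : IsIntegral ℤ ((N : ℚ) ^ k / p) :=
    (isIntegral_algebraMap_iff (algebraMap ℚ K).injective).1 hk
  obtain ⟨z, hz⟩ := IsIntegrallyClosed.isIntegral_iff.1 h3
  have h4 : z * (p : ℤ) = N ^ k := by
    have : (z : ℚ) * p = (N : ℚ) ^ k := by
      rw [← eq_div_iff hp0]; simpa using hz
    exact_mod_cast this
  have h5 : (p : ℤ) ∣ N ^ k := ⟨z, by rw [← h4]; ring⟩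
  have h6 : (p : ℤ) ∣ N := (Nat.prime_iff_prime_int.1 hp).dvd_of_dvd_pow h5
  exact Nat.le_of_dvd (Int.natAbs_pos.2 hN) (Int.natCast_dvd.1 h6)

end Pool.Agent.ZAB
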