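import Pool.Agent.ZAB.Lang

set_option autoImplicit false

/-!
# Universal sentences, certificates

Everything here is an explicit function on lists, to be shown primitive recursive.
-/

namespace Pool.Agent.ZAB

/-! operations -/

def Pol.one : Pol := [(true, [])]

def Pol.mul (P Q : Pol) : Pol := P.flatMap fun a => Q.map fun b => (a.1 == b.1, a.2 ++ b.2)

def Pol.pow (P : Pol) (n : ℕ) : Pol := (fun Q => Pol.mul P Q)^[n] Pol.one

def Pol.prodl (l : List Pol) : Pol := l.foldr Pol.mul Pol.one

/-- the multiple `j * P` -/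
def Pol.nsc (j : ℕ) (P : Pol) : Pol := (List.range j).flatMap fun _ => P

/-- substitution of the polynomials of the list `Y` (0 beyond its end) for the variables -/
def Pol.subst (Y : List Pol) (P : Pol) : Pol :=
  P.flatMap fun c => (Pol.prodl (c.2.map fun v => Y.getD v [])).map fun d => (c.1 == d.1, d.2)

/-- all variables replaced by the variable 0 -/
def Pol.ren0 (P : Pol) : Pol := P.map fun c => (c.1, c.2.map fun _ => 0)

/-- number of occurrences -/
def cnt (v : ℕ) (m : List ℕ) : ℕ := (m.filter fun a => a = v).length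

/-- the two monomials are equal -/
def same (m m' : List ℕ) : Bool := decide (∀ v ∈ m ++ m', cnt v m = cnt v m')

/-- `P` is zero as a polynomial over `ZMod d` -/
def zer (d : ℕ) (P : Pol) : Prop :=
  ∀ c ∈ P, (P.filter fun c' => c'.1 && same c'.2 c.2).length % d =
    (P.filter fun c' => !c'.1 && same c'.2 c.2).length % d

/-- `M g^(m+1) + sum over (l, h) in L of h * prod l * g^(m+1-|l|)` -/
def eqn (M : ℕ) (g : Pol) (m : ℕ) (L : List (List Pol × Pol)) : Pol :=
  Pol.nsc M (Pol.pow g (m + 1)) ++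
    L.flatMap fun l => Pol.mul l.2 (Pol.mul (Pol.prodl l.1) (Pol.pow g (m + 1 - l.1.length)))

/-- certificate of integral dependence (modulo `d`, with multiplier `M`) of `g` on the ideal of `F` -/
def chk1 (d M : ℕ) (F : List Pol) (g : Pol) (w : ℕ × List (List Pol × Pol)) : Prop :=
  (∀ l ∈ w.2, 1 ≤ l.1.length ∧ l.1.length ≤ w.1 + 1 ∧ ∀ f ∈ l.1, f ∈ F) ∧ zer d (eqn M g w.1 w.2)

/-- in two variables: the polynomial is divisible by the `(N+1)`-st power of the second variable over the group ring (over `ZMod d`, cyclic group of order `r` generated by the first variable) -/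
def ctest (d r N : ℕ) (P : Pol) : Prop :=
  ∀ c ∈ P, cnt 1 c.2 ≤ N →
    (P.filter fun c' => c'.1 && (decide (cnt 1 c'.2 = cnt 1 c.2) &&
      decide (cnt 0 c'.2 % r = cnt 0 c.2 % r))).length % d =
    (P.filter fun c' => !c'.1 && (decide (cnt 1 c'.2 = cnt 1 c.2) &&
      decide (cnt 0 c'.2 % r = cnt 0 c.2 % r))).length % d

/-- certificate of an arc: `w = (s, N, e, Y)` -/
def chk2 (p : ℕ) (F : List Pol) (g : Pol) (w : ℕ × ℕ × Pol × List Pol) : Prop :=
  (∀ f ∈ F, ctest p (p ^ (w.1 + 1) - 1) w.2.1 (Pol.mul (Pol.ren0 w.2.2.1) (Pol.subst w.2.2.2 f))) ∧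
    ¬ ctest p (p ^ (w.1 + 1) - 1) w.2.1 (Pol.mul (Pol.ren0 w.2.2.1) (Pol.subst w.2.2.2 g))

/-! semantics -/

/-- `M g^(m+1) + a_1 g^m + ... + a_(m+1) = 0` with `a_i` in the `i`-th power of `I`. -/
def IntegralM {A : Type} [CommRing A] (M : ℕ) (I : Ideal A) (g : A) : Prop :=
  ∃ (m : ℕ) (a : ℕ → A), (∀ i, a i ∈ I ^ i) ∧
    (M : A) * g ^ (m + 1) + ∑ i ∈ Finset.range (m + 1), a (i + 1) * g ^ (m - i) = 0

/-- over some finite field of characteristic `p` there are polynomials `Y` in one variable for which all `f(Y)`, `f` in `F`, are divisible by a power of the variable which does not divide `g(Y)` -/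
def ArcL (p : ℕ) (F : List Pol) (g : Pol) : Prop :=
  ∃ (k : Type) (_ : Field k) (_ : Finite k) (_ : CharP k p) (N : ℕ) (Y : ℕ → Polynomial k),
    (∀ f ∈ F, Polynomial.X ^ (N + 1) ∣ Pol.ev Y f) ∧ ¬ Polynomial.X ^ (N + 1) ∣ Pol.ev Y g

/-- the variables in the group ring of the cyclic group of order `r` -/
noncomputable def xi (d r : ℕ) (v : ℕ) : Polynomial (MonoidAlgebra (ZMod d) (Multiplicative (ZMod r))) :=
  if v = 0 then Polynomial.C (MonoidAlgebra.of (ZMod d) (Multiplicative (ZMod r)) (Multiplicative.ofAdd 1))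
  else if v = 1 then Polynomial.X else 1

end Pool.Agent.ZAB
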