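import Pool.Agent.ZAB.P3b
import Pool.Agent.ZAB.Dec
import Pool.Agent.ZAB.C2

set_option autoImplicit false

namespace Pool.Agent.ZAB

open Polynomial

/-- a chart of the blow-up, general form: a multiple `a` in the ideal of the exceptional quotients gives an equation with leading coefficient `a` -/
theorem exists_blowup_gen {A : Type} [CommRing A] [IsDomain A] (I : Ideal A) (hI : I.FG) (g : A)
    (hg0 : g ≠ 0) :
    ∃ (B : Type) (_ : CommRing B) (_ : IsDomain B) (_ : Algebra A B),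
      Algebra.FiniteType A B ∧ algebraMap A B g ≠ 0 ∧ ∃ J : Ideal B,
        (∀ x ∈ I, ∃ h ∈ J, algebraMap A B x = algebraMap A B g * h) ∧
        ∀ a : A, algebraMap A B a ∈ J → ∃ (m : ℕ) (c : ℕ → A), (∀ i, c i ∈ I ^ i) ∧
          a * g ^ (m + 1) + ∑ i ∈ Finset.range (m + 1), c (i + 1) * g ^ (m - i) = 0 := by
  classical
  let K := FractionRing A
  have hinj : Function.Injective (algebraMap A K) := IsFractionRing.injective A K
  have hgK : algebraMap A K g ≠ 0 := fun h => hg0 (hinj (by rw [h, map_zero]))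
  let φ : A[X] →ₐ[A] K := aeval (algebraMap A K g)⁻¹
  let B : Subalgebra A K := (reesAlgebra I).map φ
  have hBfg : B.FG := (reesAlgebra.fg hI).map φ
  let J : Ideal B :=
    { carrier := {b | ∃ P ∈ reesAlgebra I, P.coeff 0 = 0 ∧ φ P = (b : K)}
      add_mem' := by
        rintro a b ⟨P, hP, hP0, hPa⟩ ⟨Q, hQ, hQ0, hQb⟩
        refine ⟨P + Q, add_mem hP hQ, by simp [hP0, hQ0], by simp [map_add, hPa, hQb]⟩
      zero_mem' := ⟨0, zero_mem _, by simp, by simp⟩
      smul_mem' := by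
        rintro ⟨c, hc⟩ b ⟨P, hP, hP0, hPb⟩
        obtain ⟨Q, hQ, hQc⟩ := hc
        refine ⟨Q * P, mul_mem hQ hP, by simp [mul_coeff_zero, hP0], ?_⟩
        rw [map_mul, hPb]
        have : φ Q = c := hQc
        rw [this]
        rfl }
  refine ⟨B, inferInstance, inferInstance, inferInstance, ?_, ?_, J, ?_, ?_⟩
  · exact (Subalgebra.fg_iff_finiteType B).1 hBfg
  · intro h
    apply hgK
    have := congrArg (fun b : B => (b : K)) h
    exact this
  · intro x hx
    have hmem : monomial 1 x ∈ reesAlgebra I := reesAlgebra.monomial_mem.2 (by simpa using hx)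
    refine ⟨⟨φ (monomial 1 x), ⟨monomial 1 x, hmem, rfl⟩⟩, ⟨monomial 1 x, hmem, by simp [coeff_monomial], rfl⟩, ?_⟩
    apply Subtype.ext
    change algebraMap A K x = algebraMap A K g * φ (monomial 1 x)
    have : φ (monomial 1 x) = algebraMap A K x * (algebraMap A K g)⁻¹ := by
      simp [φ, aeval_monomial]
    rw [this, mul_comm (algebraMap A K x), ← mul_assoc, mul_inv_cancel₀ hgK, one_mul]
  · intro a ha
    obtain ⟨P, hP, hP0, hP1⟩ := ha
    rw [mem_reesAlgebra_iff] at hP
    have hP1' : aeval (algebraMap A K g)⁻¹ P = algebraMap A K a := hP1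
    by_cases hnd : P.natDegree = 0
    · rw [Polynomial.eq_C_of_natDegree_eq_zero hnd, hP0] at hP1'
      have ha0 : a = 0 := by
        apply hinj
        rw [← hP1', map_zero]
        simp
      exact ⟨0, fun _ => 0, fun i => Ideal.zero_mem _, by simp [ha0]⟩
    obtain ⟨m, hm⟩ := Nat.exists_eq_succ_of_ne_zero hnd
    refine ⟨m, fun i => - P.coeff i, fun i => Ideal.neg_mem_iff _ |>.2 (hP i), ?_⟩
    apply hinj
    rw [aeval_eq_sum_range, hm, Finset.sum_range_succ'] at hP1'
    rw [hP0] at hP1'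
    rw [map_add, map_sum, map_mul, map_pow, map_zero]
    have key : ∀ i ∈ Finset.range (m + 1), algebraMap A K (-P.coeff (i + 1) * g ^ (m - i)) =
        - (algebraMap A K g) ^ (m + 1) * (P.coeff (i + 1) • (algebraMap A K g)⁻¹ ^ (i + 1)) := by
      intro i hi
      have hi' : i ≤ m := Nat.lt_succ_iff.1 (Finset.mem_range.1 hi)
      rw [map_mul, map_neg, map_pow, Algebra.smul_def]
      have : (algebraMap A K g) ^ (m + 1) = (algebraMap A K g) ^ (m - i) * (algebraMap A K g) ^ (i + 1) := by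
        rw [← pow_add]; congr 1; omega
      rw [this, inv_pow]
      have h2 : (algebraMap A K g) ^ (i + 1) * ((algebraMap A K g) ^ (i + 1))⁻¹ = 1 :=
        mul_inv_cancel₀ (pow_ne_zero _ hgK)
      linear_combination (-(algebraMap A K (P.coeff (i + 1))) * (algebraMap A K g) ^ (m - i)) * h2.symm
    rw [Finset.sum_congr rfl key, ← Finset.mul_sum]
    have : ∑ i ∈ Finset.range (m + 1), P.coeff (i + 1) • (algebraMap A K g)⁻¹ ^ (i + 1) = algebraMap A K a := by
      simpa using hP1'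
    rw [this]
    ring

/-- a nonzero element of a Noetherian domain of characteristic zero lies in a minimal prime of `(p)` for finitely many `p` only -/
theorem finite_bad_primes (B : Type) [CommRing B] [IsDomain B] [IsNoetherianRing B]
    (h : ∀ M : ℕ, M ≠ 0 → (M : B) ≠ 0) (g : B) (hg : g ≠ 0) :
    {p : ℕ | p.Prime ∧ ∃ P ∈ (Ideal.span {(p : B)}).minimalPrimes, g ∈ P}.Finite := by
  classical
  have hfin : (Ideal.span {g}).minimalPrimes.Finite := Ideal.finite_minimalPrimes_of_isNoetherianRing B _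
  have hsub : {p : ℕ | p.Prime ∧ ∃ P ∈ (Ideal.span {(p : B)}).minimalPrimes, g ∈ P} ⊆
      ⋃ P ∈ (Ideal.span {g}).minimalPrimes, {p : ℕ | p.Prime ∧ (p : B) ∈ P} := by
    rintro p ⟨hp, P, hP, hgP⟩
    have hPp : P.IsPrime := hP.isPrime
    have hpP : (p : B) ∈ P := hP.le (Ideal.mem_span_singleton_self _)
    have hh : P.height ≤ 1 := Ideal.height_le_one_of_isPrincipal_of_mem_minimalPrimes _ _ hP
    obtain ⟨Q, hQ1, hQ2⟩ := Ideal.exists_minimalPrimes_le (I := Ideal.span {g}) (J := P)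
      ((Ideal.span_singleton_le_iff_mem _).2 hgP)
    have hQ0 : Q ≠ ⊥ := by
      rintro rfl
      exact hg (by simpa using hQ1.le (Ideal.mem_span_singleton_self g))
    have heq : Q = P := eq_of_le_of_not_lt hQ2 (not_lt_of_height_le_one hQ1.isPrime hPp hQ0 hh)
    rw [Set.mem_iUnion₂]
    exact ⟨P, heq ▸ hQ1, hp, hpP⟩
  refine Set.Finite.subset (hfin.biUnion fun P hP => ?_) hsub
  have hPp : P.IsPrime := hP.isPrime
  apply Set.Subsingleton.finite
  rintro p ⟨hp, hpP⟩ q ⟨hq, hqP⟩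
  by_contra hne
  have hcop : Nat.Coprime p q := (Nat.coprime_primes hp hq).2 hne
  obtain ⟨a, b, hab⟩ := (Nat.isCoprime_iff_coprime.2 hcop)
  apply hPp.ne_top
  rw [Ideal.eq_top_iff_one]
  have h1 : ((a : B) * (p : B) + (b : B) * (q : B)) = 1 := by
    have := congrArg (fun z : ℤ => (z : B)) hab
    push_cast at this
    exact this
  rw [← h1]
  exact P.add_mem (P.mul_mem_left _ hpP) (P.mul_mem_left _ hqP)

theorem ft_of_surj (B C : Type) [CommRing B] [CommRing C] [Algebra.FiniteType ℤ B] (f : B →+* C)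
    (hf : Function.Surjective f) : Algebra.FiniteType ℤ C :=
  Algebra.FiniteType.of_surjective f.toIntAlgHom hf

/-- if no multiple of `g` is integral over `I` (in a finitely generated domain of characteristic zero) then for almost all `p` there is a finite chain ring of characteristic `p` separating `g` from `I` -/
theorem almost_all_chain {A : Type} [CommRing A] [IsDomain A] [Algebra.FiniteType ℤ A]
    (I : Ideal A) (hI : I.FG) (g : A) (hg : ∀ M : ℕ, M ≠ 0 → ¬ IntegralM M I g) :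
    {p : ℕ | p.Prime ∧ ¬ ∃ (S : Type) (_ : CommRing S) (_ : FinChain p S) (ψ : A →+* S),
      ψ g ≠ 0 ∧ ∀ x ∈ I, ∃ b : S, ¬ IsUnit b ∧ ψ x = ψ g * b}.Finite := by
  classical
  have hg0 : g ≠ 0 := by
    rintro rfl
    exact hg 1 one_ne_zero ⟨0, fun _ => 0, fun i => Ideal.zero_mem _, by simp⟩
  obtain ⟨B, iB, hB, iAB, hft, hgB, J, hx, hJ⟩ := exists_blowup_gen I hI g hg0
  have hJM : ∀ M : ℕ, M ≠ 0 → (M : B) ∉ J := by
    intro M hM hmem
    have h1 : algebraMap A B (M : A) ∈ J := by rwa [map_natCast]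
    exact hg M hM (hJ _ h1)
  have hB0 : ∀ M : ℕ, M ≠ 0 → (M : B) ≠ 0 := by
    intro M hM h0
    exact hJM M hM (by rw [h0]; exact J.zero_mem)
  have hftZ : Algebra.FiniteType ℤ B := Algebra.FiniteType.trans (S := A) inferInstance hft
  have hnoe : IsNoetherianRing B := Algebra.FiniteType.isNoetherianRing ℤ B
  have hftC := ft_of_surj B (B ⧸ J) (Ideal.Quotient.mk J) Ideal.Quotient.mk_surjective
  have hC : ∀ M : ℕ, M ≠ 0 → (M : B ⧸ J) ≠ 0 := by
    intro M hM h0
    rw [← map_natCast (Ideal.Quotient.mk J), Ideal.Quotient.eq_zero_iff_mem] at h0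
    exact hJM M hM h0
  refine Set.Finite.subset ((finite_unit_primes (B ⧸ J) hC).union (finite_bad_primes B hB0 _ hgB)) ?_
  rintro p ⟨hp, hnot⟩
  by_contra hbad
  rw [Set.mem_union, not_or] at hbad
  obtain ⟨hb1, hb2⟩ := hbad
  apply hnot
  haveI : Fact p.Prime := ⟨hp⟩
  have hnu : ¬ IsUnit (p : B ⧸ J) := fun h => hb1 ⟨hp, h⟩
  obtain ⟨M', hM', hpM'⟩ := exists_max_ideal_of_mem_nonunits (mem_nonunits_iff.2 hnu)
  set M : Ideal B := M'.comap (Ideal.Quotient.mk J) with hM
  have hMmax : M.IsMaximal := Ideal.comap_isMaximal_of_surjective _ Ideal.Quotient.mk_surjective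
  have hJM' : J ≤ M := by
    intro j hj
    rw [hM, Ideal.mem_comap, Ideal.Quotient.eq_zero_iff_mem.2 hj]
    exact M'.zero_mem
  have hpM : (p : B) ∈ M := by
    rw [hM, Ideal.mem_comap, map_natCast]
    exact hpM'
  obtain ⟨P, hP1, hP2⟩ := Ideal.exists_minimalPrimes_le (I := Ideal.span {(p : B)}) (J := M)
    ((Ideal.span_singleton_le_iff_mem _).2 hpM)
  have hPp : P.IsPrime := hP1.isPrime
  have hpP : (p : B) ∈ P := hP1.le (Ideal.mem_span_singleton_self _)
  have hgP : algebraMap A B g ∉ P := fun h => hb2 ⟨hp, P, hP1, h⟩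
  have hnt : Nontrivial (B ⧸ P) := Ideal.Quotient.nontrivial_iff.2 hPp.ne_top
  have hchar : CharP (B ⧸ P) p := by
    rw [CharP.charP_iff_prime_eq_zero hp]
    rw [← map_natCast (Ideal.Quotient.mk P)]
    exact Ideal.Quotient.eq_zero_iff_mem.2 hpP
  letI : Algebra (ZMod p) (B ⧸ P) := ZMod.algebra (B ⧸ P) p
  have hftP := ft_of_surj B (B ⧸ P) (Ideal.Quotient.mk P) Ideal.Quotient.mk_surjective
  haveI : IsScalarTower ℤ (ZMod p) (B ⧸ P) := inferInstance
  haveI : Algebra.FiniteType (ZMod p) (B ⧸ P) := Algebra.FiniteType.of_restrictScalars_finiteType ℤ (ZMod p) (B ⧸ P)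
  have hJ' : J.map (Ideal.Quotient.mk P) ≠ ⊤ := by
    intro htop
    have h1 : (1 : B ⧸ P) ∈ J.map (Ideal.Quotient.mk P) := by rw [htop]; trivial
    rw [Ideal.mem_map_iff_of_surjective _ Ideal.Quotient.mk_surjective] at h1
    obtain ⟨j, hj, hj1⟩ := h1
    rw [← map_one (Ideal.Quotient.mk P), Ideal.Quotient.eq] at hj1
    apply hMmax.ne_top
    rw [Ideal.eq_top_iff_one]
    have : (1 : B) = j - (j - 1) := by ring
    rw [this]
    exact M.sub_mem (hJM' hj) (hP2 hj1)
  obtain ⟨S, iS, hS, ψ, h1, h2⟩ := chain_of_ideal p (Ideal.Quotient.mk P (algebraMap A B g))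
    (by rwa [Ne, Ideal.Quotient.eq_zero_iff_mem]) _ hJ'
  refine ⟨S, iS, hS, (ψ.comp (Ideal.Quotient.mk P)).comp (algebraMap A B), h1, ?_⟩
  intro x hxI
  obtain ⟨h, hh, he⟩ := hx x hxI
  refine ⟨ψ (Ideal.Quotient.mk P h), h2 _ (Ideal.mem_map_of_mem _ hh), ?_⟩
  rw [RingHom.comp_apply, RingHom.comp_apply, he, map_mul, map_mul]
  rfl

end Pool.Agent.ZAB
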