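import Pool.Agent.ZAB.Dec

set_option autoImplicit false

/-!
# Certificates of arcs over number fields
-/

namespace Pool.Agent.ZAB

/-- over some number field there are polynomials `Y` in one variable for which all `f(Y)`, `f` in `F`, are divisible by a power of the variable which does not divide `g(Y)` -/
def ArcZ (F : List Pol) (g : Pol) : Prop :=
  ∃ (K : Type) (_ : Field K) (_ : Algebra ℚ K) (_ : Module.Finite ℚ K) (N : ℕ) (Y : ℕ → Polynomial K),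
    (∀ f ∈ F, Polynomial.X ^ (N + 1) ∣ Pol.ev Y f) ∧ ¬ Polynomial.X ^ (N + 1) ∣ Pol.ev Y g

def Pol.neg (P : Pol) : Pol := P.map fun c => (!c.1, c.2)

/-- a monic polynomial of degree `n + 1` in the variable 0 -/
def hpol (n : ℕ) (h : Pol) : Pol :=
  (true, List.replicate (n + 1) 0) :: (Pol.ren0 h).filter fun c => decide (c.2.length ≤ n)

/-- `D x_2 - 1` -/
def zpol (D : ℕ) : Pol := Pol.nsc D [(true, [2])] ++ [(false, [])]

/-- `x_1 ^ b` -/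
def xpow (b : ℕ) : Pol := [(true, List.replicate b 1)]

/-- the data of a certificate: `((n, h), (D, M), (N, b), Y, (u, E, A, B), L)` -/
abbrev W3 := (ℕ × Pol) × (ℕ × ℕ) × (ℕ × ℕ) × List Pol × (Pol × Pol × Pol × Pol) × List (Pol × Pol × Pol)

/-- identities over the integers: `f(Y) = A h + B (D x_2 - 1) + C x_1^(N+1)` for every `f` in `F`,
with `(A, B, C)` in the list `L`, and `u g(Y) = M x_1^b + E x_1^(b+1) + A h + B (D x_2 - 1)`, `b ≤ N` -/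
def chk3 (F : List Pol) (g : Pol) (w : W3) : Prop :=
  w.2.1.1 ≠ 0 ∧ w.2.1.2 ≠ 0 ∧ w.2.2.1.2 ≤ w.2.2.1.1 ∧
  (∀ f ∈ F, ∃ t ∈ w.2.2.2.2.2,
    zer 0 (Pol.subst w.2.2.2.1 f ++ Pol.neg (Pol.mul t.1 (hpol w.1.1 w.1.2) ++
      (Pol.mul t.2.1 (zpol w.2.1.1) ++ Pol.mul t.2.2 (xpow (w.2.2.1.1 + 1)))))) ∧
  zer 0 (Pol.mul w.2.2.2.2.1.1 (Pol.subst w.2.2.2.1 g) ++
    Pol.neg (Pol.nsc w.2.1.2 (xpow w.2.2.1.2) ++ (Pol.mul w.2.2.2.2.1.2.1 (xpow (w.2.2.1.2 + 1)) ++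
      (Pol.mul w.2.2.2.2.1.2.2.1 (hpol w.1.1 w.1.2) ++ Pol.mul w.2.2.2.2.1.2.2.2 (zpol w.2.1.1)))))

/-- the multiplier of a certificate -/
def mlt (w : W3) : ℕ := w.2.1.1 * w.2.1.2

end Pool.Agent.ZAB
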