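import Mathlib

set_option autoImplicit false

namespace Pool.Agent.ZAB

open MvPolynomial

/-- The ring of cyclotomic integers: the subring of the complex numbers generated by all roots of unity. -/
def Zab : Subring ℂ := Subring.closure {z : ℂ | ∃ n : ℕ, 0 < n ∧ z ^ n = 1}

/-- The quotient of the ring of cyclotomic integers by the ideal generated by `p`. -/
abbrev ZabMod (p : ℕ) : Type := Zab ⧸ Ideal.span {((p : ℕ) : Zab)}

/-- `g` is integral over the ideal `I`: `g^(m+1) + a_1 g^m + ... + a_(m+1) = 0` with `a_i` in the `i`-th power of `I`. -/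
def IntegralOver {A : Type*} [CommRing A] (I : Ideal A) (g : A) : Prop :=
  ∃ (m : ℕ) (a : ℕ → A), (∀ i, a i ∈ I ^ i) ∧
    g ^ (m + 1) + ∑ i ∈ Finset.range (m + 1), a (i + 1) * g ^ (m - i) = 0

/-- a local ring (finite, of characteristic `p`) in which divisibility is total -/
structure FinChain (p : ℕ) (S : Type*) [CommRing S] : Prop where
  fin : Finite S
  loc : IsLocalRing S
  chr : CharP S p
  tot : ∀ a b : S, a ∣ b ∨ b ∣ a

end Pool.Agent.ZAB
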