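import Pool.Agent.ZAB.P5a

set_option autoImplicit false

namespace Pool.Agent.ZAB

open Polynomial IntermediateField

/-- a Dedekind domain is arithmetical -/
theorem dedekind_arith {R : Type*} [CommRing R] [IsDedekindDomain R] (a b : R) :
    ∃ e : R, b ∣ e * a ∧ a ∣ (1 - e) * b := by
  set J1 : Ideal R := Submodule.comap (LinearMap.mulRight R a) (Ideal.span {b}) with hJ1
  set J2 : Ideal R := Submodule.comap (LinearMap.mulRight R b) (Ideal.span {a}) with hJ2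
  have m1 : ∀ x : R, x ∈ J1 ↔ b ∣ x * a := fun x => by
    rw [hJ1, Submodule.mem_comap, LinearMap.mulRight_apply, Ideal.mem_span_singleton]
  have m2 : ∀ x : R, x ∈ J2 ↔ a ∣ x * b := fun x => by
    rw [hJ2, Submodule.mem_comap, LinearMap.mulRight_apply, Ideal.mem_span_singleton]
  have htop : J1 ⊔ J2 = ⊤ := by
    by_contra h
    obtain ⟨M, hM, hle⟩ := Ideal.exists_le_maximal _ h
    have h1 : J1 ≤ M := le_sup_left.trans hle
    have h2 : J2 ≤ M := le_sup_right.trans hle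
    by_cases hb : b = 0
    · apply hM.ne_top
      rw [Ideal.eq_top_iff_one]
      apply h2
      rw [m2, hb, mul_zero]
      exact dvd_zero a
    have hMb : M ≠ ⊥ := by
      rintro rfl
      apply hb
      have : b ∈ J1 := (m1 b).2 (dvd_mul_right b a)
      simpa using h1 this
    have := hM.isPrime
    have hdvr : IsDiscreteValuationRing (Localization.AtPrime M) :=
      IsLocalization.AtPrime.isDiscreteValuationRing_of_dedekind_domain R hMb (Localization.AtPrime M)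
    have key : ∀ u v : R, algebraMap R (Localization.AtPrime M) u ∣
        algebraMap R (Localization.AtPrime M) v → ∃ s, s ∉ M ∧ u ∣ s * v := by
      rintro u v ⟨c, hc⟩
      obtain ⟨⟨r, s⟩, hrs⟩ := IsLocalization.surj M.primeCompl c
      refine ⟨s, s.2, r, ?_⟩
      have hinj := IsLocalization.injective (Localization.AtPrime M)
        (Ideal.primeCompl_le_nonZeroDivisors M)
      apply hinj
      simp only at hrs
      rw [map_mul, map_mul, hc, ← hrs]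
      ring
    rcases ValuationRing.dvd_total (algebraMap R (Localization.AtPrime M) a)
      (algebraMap R (Localization.AtPrime M) b) with h3 | h3
    · obtain ⟨s, hs, h4⟩ := key _ _ h3
      exact hs (h2 ((m2 s).2 h4))
    · obtain ⟨s, hs, h4⟩ := key _ _ h3
      exact hs (h1 ((m1 s).2 h4))
  have h1 : (1 : R) ∈ J1 ⊔ J2 := by rw [htop]; trivial
  obtain ⟨e, he, f, hf, hef⟩ := Submodule.mem_sup.1 h1
  refine ⟨e, (m1 e).1 he, ?_⟩
  have : 1 - e = f := by rw [← hef]; ring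
  rw [this]
  exact (m2 f).1 hf

/-- `Zab` is an arithmetical (Pruefer) domain -/
theorem zab_arith (a b : Zab) : ∃ e : Zab, b ∣ e * a ∧ a ∣ (1 - e) * b := by
  obtain ⟨N1, hN1, h1⟩ := exists_level a a.2
  obtain ⟨N2, hN2, h2⟩ := exists_level b b.2
  have hN : 0 < N1 * N2 := Nat.mul_pos hN1 hN2
  have hζ := Complex.isPrimitiveRoot_exp (N1 * N2) hN.ne'
  set ζ := Complex.exp (2 * Real.pi * Complex.I / ((N1 * N2 : ℕ) : ℂ)) with hζdef
  have hstep : ∀ (N M : ℕ), 0 < N → 0 < M → IsPrimitiveRoot ζ (N * M) →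
      ∀ y : ℂ, (∀ ζ' : ℂ, IsPrimitiveRoot ζ' N → y ∈ Algebra.adjoin ℤ {ζ'}) →
        y ∈ Algebra.adjoin ℤ {ζ} := by
    intro N M hN hM hζ y hy
    have h1 : IsPrimitiveRoot (ζ ^ M) N := hζ.pow (Nat.mul_pos hN hM) (mul_comm N M)
    have h2 : Algebra.adjoin ℤ {ζ ^ M} ≤ Algebra.adjoin ℤ {ζ} := by
      apply Algebra.adjoin_le
      rw [Set.singleton_subset_iff]
      exact pow_mem (Algebra.self_mem_adjoin_singleton ℤ ζ) _
    exact h2 (hy _ h1)
  have ha := adjoin_int_le_field ζ a (hstep N1 N2 hN1 hN2 hζ a h1)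
  have hb := adjoin_int_le_field ζ b (hstep N2 N1 hN2 hN1 (by rwa [mul_comm]) b h2)
  have hint : IsIntegral ℚ ζ := (hζ.isIntegral hN).tower_top
  have hfd : FiniteDimensional ℚ ℚ⟮ζ⟯ := IntermediateField.adjoin.finiteDimensional hint
  have hnf : NumberField ℚ⟮ζ⟯ := { }
  have hint' : ∀ (z : ℂ) (hz : z ∈ ℚ⟮ζ⟯), IsIntegral ℤ z → IsIntegral ℤ (⟨z, hz⟩ : ℚ⟮ζ⟯) := by
    intro z hz h
    rw [← isIntegral_algebraMap_iff (B := ℂ) (algebraMap ℚ⟮ζ⟯ ℂ).injective]
    exact h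
  set a' : NumberField.RingOfIntegers ℚ⟮ζ⟯ := ⟨⟨a, ha⟩, hint' a ha (zab_integral a a.2)⟩ with ha'
  set b' : NumberField.RingOfIntegers ℚ⟮ζ⟯ := ⟨⟨b, hb⟩, hint' b hb (zab_integral b b.2)⟩ with hb'
  obtain ⟨e, ⟨c, hc⟩, ⟨d, hd⟩⟩ := dedekind_arith a' b'
  have hz : ∀ z : NumberField.RingOfIntegers ℚ⟮ζ⟯, ((z : ℚ⟮ζ⟯) : ℂ) ∈ Zab := by
    intro z
    have hzi : IsIntegral ℤ ((z : ℚ⟮ζ⟯) : ℂ) := by
      have := z.2
      exact (isIntegral_algebraMap_iff (B := ℂ) (algebraMap ℚ⟮ζ⟯ ℂ).injective).2 this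
    obtain ⟨g, hg⟩ := exists_poly_zeta hζ hN _ (z : ℚ⟮ζ⟯).2 hzi
    rw [hg]
    exact aeval_mem_zab (mem_zab_of_pow hN hζ.pow_eq_one) g
  refine ⟨⟨_, hz e⟩, ⟨⟨_, hz c⟩, ?_⟩, ⟨⟨_, hz d⟩, ?_⟩⟩
  · apply Subtype.ext
    have := congrArg (fun z : NumberField.RingOfIntegers ℚ⟮ζ⟯ => ((z : ℚ⟮ζ⟯) : ℂ)) hc
    simp only [map_mul, IntermediateField.coe_mul] at this
    exact this
  · apply Subtype.ext
    have := congrArg (fun z : NumberField.RingOfIntegers ℚ⟮ζ⟯ => ((z : ℚ⟮ζ⟯) : ℂ)) hd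
    simp only [map_mul, map_sub, map_one, IntermediateField.coe_mul,
      AddSubgroupClass.coe_sub] at this
    exact this

end Pool.Agent.ZAB
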