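import Pool.Agent.ZAB.P7a
import Pool.Agent.ZAB.N1

set_option autoImplicit false

namespace Pool.Agent.ZAB

open MvPolynomial

/-- the localizations of `Zab` at maximal ideals are valuation rings -/
theorem valuationRing_loc (P : Ideal Zab) [hP : P.IsMaximal] :
    ∃ _ : IsDomain (Localization.AtPrime P), ValuationRing (Localization.AtPrime P) := by
  have hdom : IsDomain (Localization.AtPrime P) :=
    IsLocalization.isDomain_localization (Ideal.primeCompl_le_nonZeroDivisors P)
  refine ⟨hdom, ValuationRing.iff_dvd_total.2 ⟨fun a b => ?_⟩⟩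
  obtain ⟨a, s, rfl⟩ := IsLocalization.exists_mk'_eq P.primeCompl a
  obtain ⟨b, t, rfl⟩ := IsLocalization.exists_mk'_eq P.primeCompl b
  have hdiv : ∀ (e u v : Zab), e ∉ P → v ∣ e * u →
      ∀ s t : P.primeCompl, IsLocalization.mk' (Localization.AtPrime P) v t ∣
        IsLocalization.mk' (Localization.AtPrime P) u s := by
    intro e u v he h s t
    obtain ⟨c, hc⟩ := h
    refine ⟨IsLocalization.mk' (Localization.AtPrime P) (c * t)
      (⟨e, he⟩ * s : P.primeCompl), ?_⟩
    rw [← IsLocalization.mk'_mul, IsLocalization.mk'_eq_iff_eq]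
    congr 1
    push_cast
    linear_combination (t : Zab) * (s : Zab) * hc
  obtain ⟨e, h₁, h₂⟩ := zab_arith a b
  by_cases he : e ∈ P
  · have he' : 1 - e ∉ P := fun h => hP.ne_top ((Ideal.eq_top_iff_one P).2 (by
      have := P.add_mem h he
      simpa using this))
    exact Or.inl (hdiv _ _ _ he' h₂ t s)
  · exact Or.inr (hdiv _ _ _ he h₁ s t)

/-- integral dependence modulo `p` on `F` and `C` puts `g(x)` into the ideal generated by the `c(x)` as soon as the `f(x)` vanish -/
theorem sufficient_mem {p : ℕ} [hp : Fact p.Prime] {σ : Type} (F C : Set (MvPolynomial σ ℤ)) (hC : C.Finite)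
    (g : MvPolynomial σ ℤ)
    (h : IntegralOver (Ideal.span (MvPolynomial.map (Int.castRingHom (ZMod p)) '' (F ∪ C)))
      (MvPolynomial.map (Int.castRingHom (ZMod p)) g))
    (x : σ → ZabMod p) (hx : ∀ f ∈ F, aeval x f = 0) :
    aeval x g ∈ Ideal.span ((fun c => aeval x c) '' C) := by
  classical
  obtain ⟨m, A, H, hA, heq⟩ := lift_integral (F ∪ C) g h
  obtain ⟨s, hs⟩ : ∃ s : ℕ, m + 1 ≤ p ^ s := ⟨m + 1, (Nat.lt_pow_self hp.out.one_lt).le⟩
  choose y hy using fun i => exists_frob_iter p s (x i)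
  choose Y hY using fun i => Ideal.Quotient.mk_surjective (y i)
  choose Z hZ using fun i => Ideal.Quotient.mk_surjective (x i)
  have hxy : x = fun i => y i ^ (p ^ s) := funext fun i => (hy i).symm
  have hyY : y = fun i => Ideal.Quotient.mk (Ideal.span {((p : ℕ) : Zab)}) (Y i) :=
    funext fun i => (hY i).symm
  have hxZ : x = fun i => Ideal.Quotient.mk (Ideal.span {((p : ℕ) : Zab)}) (Z i) :=
    funext fun i => (hZ i).symm
  -- the lifts agree modulo `p`
  have hmkZ : ∀ G : MvPolynomial σ ℤ,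
      Ideal.Quotient.mk (Ideal.span {((p : ℕ) : Zab)}) (aeval Z G) = aeval x G := by
    intro G
    rw [mk_aeval, ← hxZ]
  have hcong : ∀ G : MvPolynomial σ ℤ,
      (aeval Y G) ^ (p ^ s) - aeval Z G ∈ Ideal.span {((p : ℕ) : Zab)} := by
    intro G
    rw [← Ideal.Quotient.eq_zero_iff_mem, map_sub, map_pow, hmkZ, mk_aeval, ← hyY,
      ← aeval_pow_frob, ← hxy, sub_self]
  set J : Ideal Zab := Ideal.span (insert ((p : ℕ) : Zab) ((fun c => aeval Z c) '' C)) with hJ
  have hJfg : J.FG := Submodule.fg_span ((hC.image _).insert _)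
  have hpJ : ((p : ℕ) : Zab) ∈ J := Ideal.subset_span (Set.mem_insert _ _)
  have hspan : Ideal.span {((p : ℕ) : Zab)} ≤ J := by
    rw [Ideal.span_le, Set.singleton_subset_iff]
    exact hpJ
  -- it suffices to work in `Zab`
  suffices hmem : aeval Z g ∈ J by
    have h1 := Ideal.mem_map_of_mem (Ideal.Quotient.mk (Ideal.span {((p : ℕ) : Zab)})) hmem
    rw [hmkZ, hJ, Ideal.map_span] at h1
    refine Ideal.span_le.2 ?_ h1
    rintro _ ⟨z, hz, rfl⟩
    rcases hz with rfl | ⟨c, hc, rfl⟩
    · have h0 : Ideal.Quotient.mk (Ideal.span {((p : ℕ) : Zab)}) ((p : ℕ) : Zab) = 0 :=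
        Ideal.Quotient.eq_zero_iff_mem.2 (Ideal.mem_span_singleton_self _)
      rw [h0]
      exact zero_mem _
    · refine Ideal.subset_span ⟨c, hc, ?_⟩
      exact (hmkZ c).symm
  refine Ideal.mem_of_localization_maximal fun P hP => ?_
  obtain ⟨hdom, hval⟩ := valuationRing_loc P
  have hprin : (Ideal.map (algebraMap Zab (Localization.AtPrime P)) J).IsPrincipal :=
    IsBezout.isPrincipal_of_FG _ (hJfg.map _)
  obtain ⟨β, hβ⟩ := hprin
  have hβ' : Ideal.map (algebraMap Zab (Localization.AtPrime P)) J = Ideal.span {β} := hβ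
  have hin : ∀ z ∈ J, β ∣ algebraMap Zab (Localization.AtPrime P) z := by
    intro z hz
    have h1 := Ideal.mem_map_of_mem (algebraMap Zab (Localization.AtPrime P)) hz
    rw [hβ', Ideal.mem_span_singleton] at h1
    exact h1
  have hβp : β ∣ ((p : ℕ) : Localization.AtPrime P) := by
    have h1 := hin _ hpJ
    rwa [map_natCast] at h1
  have hinj : Function.Injective (algebraMap Zab (Localization.AtPrime P)) :=
    IsLocalization.injective _ (Ideal.primeCompl_le_nonZeroDivisors P)
  have hβ0 : β ≠ 0 := by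
    rintro rfl
    rw [zero_dvd_iff, ← map_natCast (algebraMap Zab (Localization.AtPrime P)),
      ← map_zero (algebraMap Zab (Localization.AtPrime P))] at hβp
    have h1 := congrArg (fun z : Zab => (z : ℂ)) (hinj hβp)
    simp only [Subring.coe_natCast, Subring.coe_zero, Nat.cast_eq_zero] at h1
    exact hp.out.ne_zero h1
  have hY' : ∀ G : MvPolynomial σ ℤ, aeval Z G ∈ J → (aeval Y G) ^ (p ^ s) ∈ J := by
    intro G hG
    have h1 := J.add_mem (hspan (hcong G)) hG
    rwa [sub_add_cancel] at h1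
  have hFC : ∀ f ∈ F ∪ C, β ∣ ((algebraMap Zab (Localization.AtPrime P)).comp
      ((aeval Y : MvPolynomial σ ℤ →ₐ[ℤ] Zab) : MvPolynomial σ ℤ →+* Zab)) f ^ (p ^ s) := by
    intro f hf
    rw [← map_pow]
    have h1 : (aeval Y (f ^ (p ^ s)) : Zab) ∈ J := by
      rw [map_pow]
      apply hY'
      rcases hf with hf | hf
      · apply hspan
        rw [← Ideal.Quotient.eq_zero_iff_mem, hmkZ]
        exact hx f hf
      · exact Ideal.subset_span (Set.mem_insert_of_mem _ ⟨f, hf, rfl⟩)
    exact hin _ h1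
  have hfin := dvd_pow_of_integral ((algebraMap Zab (Localization.AtPrime P)).comp
      ((aeval Y : MvPolynomial σ ℤ →ₐ[ℤ] Zab) : MvPolynomial σ ℤ →+* Zab)) β hβ0 p (p ^ s) m hs
      hβp (F ∪ C) hFC g A H hA heq
  have h2 : β ∣ algebraMap Zab (Localization.AtPrime P) ((aeval Y g) ^ (p ^ s)) := by
    rw [map_pow]
    exact hfin
  have h3 : aeval Z g = (aeval Y g) ^ (p ^ s) - ((aeval Y g) ^ (p ^ s) - aeval Z g) := by ring
  rw [hβ', Ideal.mem_span_singleton, h3, map_sub]
  exact dvd_sub h2 (hin _ (hspan (hcong g)))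

end Pool.Agent.ZAB
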