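import Pool.Agent.ZAB.P6b
import Pool.Agent.ZAB.Dec
import Pool.Agent.ZAB.C1
import Pool.Agent.ZAB.P7

set_option autoImplicit false

namespace Pool.Agent.ZAB

open MvPolynomial

/-! evaluation of lists -/

theorem ev_hom {R S : Type} [CommRing R] [CommRing S] (θ : R →+* S) (x : ℕ → R) (P : Pol) :
    θ (Pol.ev x P) = Pol.ev (fun v => θ (x v)) P := by
  unfold Pol.ev
  rw [map_list_sum, List.map_map]
  congr 1
  apply List.map_congr_left
  intro c _
  simp only [Function.comp_apply, map_mul, map_list_prod, List.map_map]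
  congr 1
  split_ifs <;> simp

theorem ev_congr_lt {R : Type} [CommRing R] {n : ℕ} {P : Pol} (hP : ∀ c ∈ P, ∀ v ∈ c.2, v < n)
    {x y : ℕ → R} (h : ∀ v, v < n → x v = y v) : Pol.ev x P = Pol.ev y P := by
  unfold Pol.ev
  congr 1
  apply List.map_congr_left
  intro c hc
  congr 2
  apply List.map_congr_left
  intro v hv
  exact h v (hP c hc v hv)

theorem evl_one {R : Type} [CommRing R] (x : ℕ → R) : Pol.ev x Pol.one = 1 := by
  simp [Pol.ev, Pol.one]

theorem exists_bound_pol (P : Pol) : ∃ n : ℕ, ∀ c ∈ P, ∀ v ∈ c.2, v < n := by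
  induction P with
  | nil => exact ⟨0, by simp⟩
  | cons a P ih =>
    obtain ⟨n, hn⟩ := ih
    have h2 : ∀ m : List ℕ, ∃ k : ℕ, ∀ v ∈ m, v < k := by
      intro m
      induction m with
      | nil => exact ⟨0, by simp⟩
      | cons b m ihm =>
        obtain ⟨k, hk⟩ := ihm
        refine ⟨max k (b + 1), ?_⟩
        intro v hv
        rcases List.mem_cons.1 hv with h | h
        · subst h
          exact lt_of_lt_of_le (Nat.lt_succ_self v) (le_max_right _ _)
        · exact lt_of_lt_of_le (hk v h) (le_max_left _ _)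
    obtain ⟨k, hk⟩ := h2 a.2
    refine ⟨max n k, ?_⟩
    intro c hc v hv
    rcases List.mem_cons.1 hc with h | h
    · subst h
      exact lt_of_lt_of_le (hk v hv) (le_max_right _ _)
    · exact lt_of_lt_of_le (hn c h v hv) (le_max_left _ _)

theorem exists_bound_list (F : List Pol) : ∃ n : ℕ, ∀ P ∈ F, ∀ c ∈ P, ∀ v ∈ c.2, v < n := by
  induction F with
  | nil => exact ⟨0, by simp⟩
  | cons a F ih =>
    obtain ⟨n, hn⟩ := ih
    obtain ⟨k, hk⟩ := exists_bound_pol a
    refine ⟨max n k, ?_⟩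
    intro P hP c hc v hv
    rcases List.mem_cons.1 hP with h | h
    · subst h
      exact lt_of_lt_of_le (hk c hc v hv) (le_max_right _ _)
    · exact lt_of_lt_of_le (hn P h c hc v hv) (le_max_left _ _)

/-! integral dependence -/

theorem integralM_one {A : Type} [CommRing A] (I : Ideal A) (g : A) :
    IntegralM 1 I g ↔ IntegralOver I g := by
  unfold IntegralM IntegralOver
  simp

theorem IntegralM.map {A B : Type} [CommRing A] [CommRing B] (θ : A →+* B) {M : ℕ} {I : Ideal A} {J : Ideal B}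
    (hIJ : ∀ x ∈ I, θ x ∈ J) {g : A} (h : IntegralM M I g) : IntegralM M J (θ g) := by
  obtain ⟨m, a, ha, he⟩ := h
  refine ⟨m, fun i => θ (a i), ?_, ?_⟩
  · intro i
    have h1 : I.map θ ≤ J := Ideal.map_le_iff_le_comap.2 hIJ
    have h2 := Ideal.mem_map_of_mem θ (ha i)
    rw [Ideal.map_pow] at h2
    exact Ideal.pow_right_mono h1 i h2
  · have := congrArg θ he
    simpa [map_sum] using this

/-- the ideal of a list of polynomials -/
noncomputable abbrev idl (d : ℕ) (F : List Pol) : Ideal (MvPolynomial ℕ (ZMod d)) :=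
  Ideal.span {q : MvPolynomial ℕ (ZMod d) | ∃ f ∈ F, q = Pol.ev MvPolynomial.X f}

/-- a polynomial of a list in finitely many variables -/
noncomputable def toFin (n : ℕ) (P : Pol) : MvPolynomial (Fin n) ℤ :=
  Pol.ev (fun v => if h : v < n then X ⟨v, h⟩ else 0) P

theorem aeval_toFin {R : Type} [CommRing R] [Algebra ℤ R] {n : ℕ} (y : Fin n → R) (P : Pol) :
    aeval y (toFin n P) = Pol.ev (fun v => if h : v < n then y ⟨v, h⟩ else 0) P := by
  have := ev_hom ((aeval y : MvPolynomial (Fin n) ℤ →ₐ[ℤ] R) : MvPolynomial (Fin n) ℤ →+* R)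
    (fun v => if h : v < n then X ⟨v, h⟩ else 0) P
  refine Eq.trans this ?_
  congr 1
  funext v
  split_ifs with h
  · simp
  · simp

theorem aeval_evX {R : Type} [CommRing R] [Algebra ℤ R] (y : ℕ → R) (P : Pol) :
    aeval y (Pol.ev X P : MvPolynomial ℕ ℤ) = Pol.ev y P := by
  have := ev_hom ((aeval y : MvPolynomial ℕ ℤ →ₐ[ℤ] R) : MvPolynomial ℕ ℤ →+* R) X P
  refine Eq.trans this ?_
  congr 1
  funext v
  simp

theorem map_evX {R S : Type} [CommRing R] [CommRing S] (θ : R →+* S) (P : Pol) :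
    MvPolynomial.map θ (Pol.ev X P : MvPolynomial ℕ R) = Pol.ev X P := by
  rw [ev_hom]
  congr 1
  funext v
  simp

section
variable {p : ℕ} [hp : Fact p.Prime]

theorem arc_of_arcL {F : List Pol} {g : Pol} (h : ArcL p F g) :
    Arc p {q : MvPolynomial ℕ ℤ | ∃ f ∈ F, q = Pol.ev X f} (Pol.ev X g) := by
  obtain ⟨k, ik, ikf, ikc, N, Y, h1, h2⟩ := h
  refine ⟨k, ik, ikf, ikc, N, Y, ?_, ?_⟩
  · rintro _ ⟨f, hf, rfl⟩
    rw [aeval_evX]
    exact h1 f hf
  · rw [aeval_evX]
    exact h2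

/-- a chain ring with a point gives an arc (points of `ℤ[x_0, x_1, ...]`) -/
theorem arcL_of_fin {n : ℕ} {F : List Pol} {g : Pol} (h : Arc p (toFin n '' {f | f ∈ F}) (toFin n g)) :
    ArcL p F g := by
  obtain ⟨k, ik, ikf, ikc, N, Y, h1, h2⟩ := h
  refine ⟨k, ik, ikf, ikc, N, fun v => if h : v < n then Y ⟨v, h⟩ else 0, ?_, ?_⟩
  · intro f hf
    rw [← aeval_toFin]
    exact h1 _ ⟨f, hf, rfl⟩
  · rw [← aeval_toFin]
    exact h2

theorem finite_toFin (n : ℕ) (F : List Pol) : (toFin n '' {f | f ∈ F}).Finite := by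
  apply Set.Finite.image
  exact List.finite_toSet F

theorem map_rename_toFin {n d : ℕ} {P : Pol} (hP : ∀ c ∈ P, ∀ v ∈ c.2, v < n) :
    MvPolynomial.map (Int.castRingHom (ZMod d)) (rename (Fin.val : Fin n → ℕ) (toFin n P)) = Pol.ev X P := by
  have h1 : rename (Fin.val : Fin n → ℕ) (toFin n P) = (Pol.ev X P : MvPolynomial ℕ ℤ) := by
    have := ev_hom ((rename (Fin.val : Fin n → ℕ) : MvPolynomial (Fin n) ℤ →ₐ[ℤ] MvPolynomial ℕ ℤ) :
      MvPolynomial (Fin n) ℤ →+* MvPolynomial ℕ ℤ) (fun v => if h : v < n then X ⟨v, h⟩ else 0) P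
    refine Eq.trans this ?_
    apply ev_congr_lt hP
    intro v hv
    simp [hv]
  rw [h1, map_evX]

/-- no integral dependence modulo `p` gives an arc -/
theorem arcL_of_not_integral (F : List Pol) (g : Pol)
    (h : ¬ IntegralM 1 (idl p F) (Pol.ev X g)) : ArcL p F g := by
  obtain ⟨n, hn⟩ := exists_bound_list (g :: F)
  have hg := hn g List.mem_cons_self
  have hF : ∀ f ∈ F, ∀ c ∈ f, ∀ v ∈ c.2, v < n := fun f hf => hn f (List.mem_cons_of_mem _ hf)
  apply arcL_of_fin (n := n)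
  apply arc_of_not_integral _ (finite_toFin n F)
  intro hi
  apply h
  rw [← integralM_one] at hi
  have h1 := hi.map (((rename (Fin.val : Fin n → ℕ) : MvPolynomial (Fin n) (ZMod p) →ₐ[ZMod p]
    MvPolynomial ℕ (ZMod p)) : MvPolynomial (Fin n) (ZMod p) →+* MvPolynomial ℕ (ZMod p))) (J := idl p F) (by
      intro x hx
      have h2 : Ideal.span (MvPolynomial.map (Int.castRingHom (ZMod p)) '' (toFin n '' {f | f ∈ F})) ≤
          (idl p F).comap (((rename (Fin.val : Fin n → ℕ) : MvPolynomial (Fin n) (ZMod p) →ₐ[ZMod p]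
    MvPolynomial ℕ (ZMod p)) : MvPolynomial (Fin n) (ZMod p) →+* MvPolynomial ℕ (ZMod p))) := by
        rw [Ideal.span_le]
        rintro _ ⟨_, ⟨f, hf, rfl⟩, rfl⟩
        apply Ideal.subset_span
        refine ⟨f, hf, ?_⟩
        rw [← map_rename_toFin (hF f hf)]
        exact (MvPolynomial.map_rename _ _ _).symm
      exact h2 hx)
  have h3 : (((rename (Fin.val : Fin n → ℕ) : MvPolynomial (Fin n) (ZMod p) →ₐ[ZMod p]
    MvPolynomial ℕ (ZMod p)) : MvPolynomial (Fin n) (ZMod p) →+* MvPolynomial ℕ (ZMod p)))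
      (MvPolynomial.map (Int.castRingHom (ZMod p)) (toFin n g)) = Pol.ev X g := by
    rw [← map_rename_toFin hg]
    exact (MvPolynomial.map_rename _ _ _).symm
  rwa [h3] at h1

theorem idl_eq (F : List Pol) : idl p F =
    Ideal.span (MvPolynomial.map (Int.castRingHom (ZMod p)) '' {q : MvPolynomial ℕ ℤ | ∃ f ∈ F, q = Pol.ev X f}) := by
  unfold idl
  congr 1
  ext q
  constructor
  · rintro ⟨f, hf, rfl⟩
    exact ⟨_, ⟨f, hf, rfl⟩, map_evX _ _⟩
  · rintro ⟨_, ⟨f, hf, rfl⟩, rfl⟩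
    exact ⟨f, hf, map_evX _ _⟩

theorem not_integral_iff_arcL (F : List Pol) (g : Pol) :
    ¬ IntegralM 1 (idl p F) (Pol.ev X g) ↔ ArcL p F g := by
  refine ⟨arcL_of_not_integral F g, ?_⟩
  intro h hi
  apply not_integral_of_arc _ _ (arc_of_arcL h)
  rw [integralM_one, idl_eq] at hi
  rw [map_evX]
  exact hi

/-- the alternatives of a clause, with the constant polynomial 1 (and no generators) added -/
def alts (c : Clause) : List (Pol × List Pol) := (Pol.one, []) :: c.2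

theorem set_append (F C : List Pol) : {q : MvPolynomial ℕ ℤ | ∃ f ∈ F ++ C, q = Pol.ev X f} =
    {q : MvPolynomial ℕ ℤ | ∃ f ∈ F, q = Pol.ev X f} ∪ {q : MvPolynomial ℕ ℤ | ∃ f ∈ C, q = Pol.ev X f} := by
  ext q
  simp only [List.mem_append, Set.mem_setOf_eq, Set.mem_union]
  constructor
  · rintro ⟨f, hf | hf, rfl⟩
    · exact Or.inl ⟨f, hf, rfl⟩
    · exact Or.inr ⟨f, hf, rfl⟩
  · rintro (⟨f, hf, rfl⟩ | ⟨f, hf, rfl⟩)
    · exact ⟨f, Or.inl hf, rfl⟩
    · exact ⟨f, Or.inr hf, rfl⟩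

theorem image_aeval {R : Type} [CommRing R] [Algebra ℤ R] (x : ℕ → R) (C : List Pol) :
    (fun c => aeval x c) '' {q : MvPolynomial ℕ ℤ | ∃ f ∈ C, q = Pol.ev X f} =
      {z : R | ∃ h ∈ C, z = Pol.ev x h} := by
  ext z
  constructor
  · rintro ⟨_, ⟨f, hf, rfl⟩, rfl⟩
    exact ⟨f, hf, aeval_evX x f⟩
  · rintro ⟨f, hf, rfl⟩
    exact ⟨_, ⟨f, hf, rfl⟩, aeval_evX x f⟩

theorem finite_evX (C : List Pol) : {q : MvPolynomial ℕ ℤ | ∃ f ∈ C, q = Pol.ev X f}.Finite := by
  have : {q : MvPolynomial ℕ ℤ | ∃ f ∈ C, q = Pol.ev X f} = (fun f => Pol.ev X f) '' {f | f ∈ C} := by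
    ext q
    constructor
    · rintro ⟨f, hf, rfl⟩
      exact ⟨f, hf, rfl⟩
    · rintro ⟨f, hf, rfl⟩
      exact ⟨f, hf, rfl⟩
  rw [this]
  exact (List.finite_toSet C).image _

/-- THE CRITERION -/
theorem holds_iff (c : Clause) :
    Holds (ZabMod p) c ↔ ∃ d ∈ alts c, IntegralM 1 (idl p (c.1 ++ d.2)) (Pol.ev X d.1) := by
  classical
  constructor
  · intro h
    by_contra hne
    push Not at hne
    have harc : ∀ i : Fin (c.2.length + 1), Arc p ({q : MvPolynomial ℕ ℤ | ∃ f ∈ c.1, q = Pol.ev X f} ∪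
        {q : MvPolynomial ℕ ℤ | ∃ f ∈ ((alts c).get i).2, q = Pol.ev X f}) (Pol.ev X ((alts c).get i).1) := by
      intro i
      rw [← set_append]
      apply arc_of_arcL
      apply arcL_of_not_integral
      exact hne _ (List.get_mem _ _)
    obtain ⟨x, hx1, hx2⟩ := glue _ _ _ harc
    obtain ⟨d, hd, hd0⟩ := h x (fun f hf => by
      have := hx1 _ ⟨f, hf, rfl⟩
      rwa [aeval_evX] at this)
    obtain ⟨i, hi⟩ := List.mem_iff_get.1 (List.mem_cons_of_mem (Pol.one, ([] : List Pol)) hd)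
    have hi' : (alts c).get i = d := hi
    apply hx2 i
    rw [aeval_evX, image_aeval, hi']
    exact hd0
  · rintro ⟨d, hd, hint⟩ x hx
    rw [integralM_one, idl_eq, set_append] at hint
    have h1 : aeval x (Pol.ev X d.1 : MvPolynomial ℕ ℤ) ∈
        Ideal.span ((fun c => aeval x c) '' {q : MvPolynomial ℕ ℤ | ∃ f ∈ d.2, q = Pol.ev X f}) := by
      apply sufficient_mem (p := p) {q : MvPolynomial ℕ ℤ | ∃ f ∈ c.1, q = Pol.ev X f} _ (finite_evX d.2)
      · rw [map_evX]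
        exact hint
      · rintro _ ⟨f, hf, rfl⟩
        rw [aeval_evX]
        exact hx f hf
    rw [aeval_evX, image_aeval] at h1
    rcases List.mem_cons.1 hd with h2 | h2
    · rw [h2] at h1
      simp only [evl_one, List.not_mem_nil, false_and, exists_false, Set.setOf_false,
        Ideal.span_empty, Ideal.mem_bot] at h1
      exact absurd h1 one_ne_zero
    · exact ⟨d, h2, h1⟩

end

/-! the case of characteristic zero -/

theorem ft_any (B : Type) [CommRing B] (inst : Algebra ℤ B) (h : @Algebra.FiniteType ℤ B _ _ inst) :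
    Algebra.FiniteType ℤ B := by
  have h1 : inst = Ring.toIntAlgebra B := Subsingleton.elim _ _
  subst h1
  exact h

theorem ft_mv (n : ℕ) : Algebra.FiniteType ℤ (MvPolynomial (Fin n) ℤ) := by
  have h : @Algebra.FiniteType ℤ (MvPolynomial (Fin n) ℤ) _ _ AddMonoidAlgebra.algebra := by
    infer_instance
  exact ft_any _ _ h

theorem almost_all_arc (F : List Pol) (g : Pol)
    (h : ∀ M : ℕ, M ≠ 0 → ¬ IntegralM M (idl 0 F) (Pol.ev X g)) :
    {p : ℕ | p.Prime ∧ ¬ ArcL p F g}.Finite := by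
  classical
  obtain ⟨n, hn⟩ := exists_bound_list (g :: F)
  have hg := hn g List.mem_cons_self
  have hF : ∀ f ∈ F, ∀ c ∈ f, ∀ v ∈ c.2, v < n := fun f hf => hn f (List.mem_cons_of_mem _ hf)
  have key := @almost_all_chain (MvPolynomial (Fin n) ℤ) _ _ (ft_mv n) (Ideal.span (toFin n '' {f | f ∈ F})) (Submodule.fg_span (finite_toFin n F))
    (toFin n g) (by
      intro M hM hi
      apply h M hM
      let θ : MvPolynomial (Fin n) ℤ →+* MvPolynomial ℕ (ZMod 0) :=
        (MvPolynomial.map (Int.castRingHom (ZMod 0))).comp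
          ((rename (Fin.val : Fin n → ℕ) : MvPolynomial (Fin n) ℤ →ₐ[ℤ] MvPolynomial ℕ ℤ) :
            MvPolynomial (Fin n) ℤ →+* MvPolynomial ℕ ℤ)
      have hθ : ∀ P : Pol, (∀ c ∈ P, ∀ v ∈ c.2, v < n) → θ (toFin n P) = Pol.ev X P :=
        fun P hP => map_rename_toFin hP
      have h1 := hi.map θ (J := idl 0 F) (by
        intro x hx
        have h2 : Ideal.span (toFin n '' {f | f ∈ F}) ≤ (idl 0 F).comap θ := by
          rw [Ideal.span_le]
          rintro _ ⟨f, hf, rfl⟩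
          apply Ideal.subset_span
          exact ⟨f, hf, hθ f (hF f hf)⟩
        exact h2 hx)
      rwa [hθ g hg] at h1)
  refine Set.Finite.subset key ?_
  rintro p ⟨hp, hna⟩
  refine ⟨hp, fun hS => hna ?_⟩
  haveI : Fact p.Prime := ⟨hp⟩
  obtain ⟨S, iS, hS, ψ, h1, h2⟩ := hS
  apply arcL_of_fin (n := n)
  exact chain_poly hS ψ _ _ h1 (fun f hf => h2 _ (Ideal.subset_span hf))

theorem integral_mod_of_zero {M : ℕ} {F : List Pol} {g : Pol} (h : IntegralM M (idl 0 F) (Pol.ev X g))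
    {p : ℕ} (hp : p.Prime) (hpM : ¬ p ∣ M) : IntegralM 1 (idl p F) (Pol.ev X g) := by
  classical
  haveI : Fact p.Prime := ⟨hp⟩
  have hθ : ∀ P : Pol, MvPolynomial.map (ZMod.castHom (dvd_zero p) (ZMod p)) (Pol.ev X P : MvPolynomial ℕ (ZMod 0)) =
      Pol.ev X P := fun P => map_evX _ P
  have h1 := h.map (MvPolynomial.map (ZMod.castHom (dvd_zero p) (ZMod p))) (J := idl p F) (by
    intro x hx
    have h2 : idl 0 F ≤ (idl p F).comap (MvPolynomial.map (ZMod.castHom (dvd_zero p) (ZMod p))) := by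
      rw [Ideal.span_le]
      rintro _ ⟨f, hf, rfl⟩
      apply Ideal.subset_span
      exact ⟨f, hf, hθ f⟩
    exact h2 hx)
  rw [hθ g] at h1
  obtain ⟨m, a, ha, he⟩ := h1
  have hM0 : ((M : ℕ) : ZMod p) ≠ 0 := by
    rw [Ne, ZMod.natCast_eq_zero_iff]
    exact hpM
  refine ⟨m, fun i => C ((M : ZMod p)⁻¹) * a i, fun i => Ideal.mul_mem_left _ _ (ha i), ?_⟩
  have h3 : C ((M : ZMod p)⁻¹) * ((M : MvPolynomial ℕ (ZMod p)) * (Pol.ev X g) ^ (m + 1) +
      ∑ i ∈ Finset.range (m + 1), a (i + 1) * (Pol.ev X g) ^ (m - i)) = 0 := by rw [he, mul_zero]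
  have h4 : C ((M : ZMod p)⁻¹) * (M : MvPolynomial ℕ (ZMod p)) = 1 := by
    rw [← map_natCast (C : ZMod p →+* MvPolynomial ℕ (ZMod p)), ← map_mul, inv_mul_cancel₀ hM0, map_one]
  rw [mul_add, ← mul_assoc, h4, one_mul, Finset.mul_sum] at h3
  rw [Nat.cast_one, one_mul, ← h3]
  congr 1
  apply Finset.sum_congr rfl
  intro i _
  ring

end Pool.Agent.ZAB
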