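import Pool.Agent.ZAB.P5c
import Pool.Agent.ZAB.Dec

set_option autoImplicit false

/-!
# Arcs over finite fields and over group rings of cyclic groups
-/

namespace Pool.Agent.ZAB

open Polynomial

section PE2

private theorem map_ev {R S : Type} [CommRing R] [CommRing S] (φ : R →+* S) (x : ℕ → R)
    (P : Pol) : φ (Pol.ev x P) = Pol.ev (fun v => φ (x v)) P := by
  unfold Pol.ev
  rw [map_list_sum, List.map_map]
  congr 1
  refine List.map_congr_left fun c _ => ?_
  simp only [Function.comp_apply, map_mul, map_list_prod, List.map_map]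
  congr 1
  split_ifs <;> simp

variable {p : ℕ} [hp : Fact p.Prime]

private theorem pow_groupRing (s : ℕ)
    (x : MonoidAlgebra (ZMod p) (Multiplicative (ZMod (p ^ (s + 1) - 1)))) :
    x ^ (p ^ (s + 1)) = x := by
  have hchar : CharP (MonoidAlgebra (ZMod p) (Multiplicative (ZMod (p ^ (s + 1) - 1)))) p :=
    charP_of_injective_algebraMap
      (algebraMap (ZMod p) (MonoidAlgebra (ZMod p) (Multiplicative (ZMod (p ^ (s + 1) - 1))))).injective
      p
  have hq : 0 < p ^ (s + 1) := pow_pos hp.out.pos _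
  have h : iterateFrobenius (MonoidAlgebra (ZMod p) (Multiplicative (ZMod (p ^ (s + 1) - 1)))) p
      (s + 1) = RingHom.id _ := by
    refine MonoidAlgebra.ringHom_ext (fun r => ?_) fun g => ?_
    · rw [iterateFrobenius_def, MonoidAlgebra.single_pow, one_pow, ZMod.pow_card_pow]
      rfl
    · rw [iterateFrobenius_def, MonoidAlgebra.single_pow, one_pow]
      have h1 : g ^ (p ^ (s + 1)) = g := by
        have h2 : g ^ (p ^ (s + 1) - 1) = 1 := by
          rw [← Multiplicative.toAdd.injective.eq_iff, toAdd_pow, toAdd_one, nsmul_eq_mul,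
            ZMod.natCast_self, zero_mul]
        have h3 : p ^ (s + 1) = (p ^ (s + 1) - 1) + 1 := by omega
        calc g ^ (p ^ (s + 1)) = g ^ ((p ^ (s + 1) - 1) + 1) := congrArg (fun n => g ^ n) h3
          _ = g := (pow_succ g _).trans (by rw [h2, one_mul])
      rw [h1]
      rfl
  have h3 := congrArg (fun f => f x) h
  simpa [iterateFrobenius_def] using h3

private theorem finite_groupRing (s : ℕ) :
    Finite (MonoidAlgebra (ZMod p) (Multiplicative (ZMod (p ^ (s + 1) - 1)))) := by
  have hq : 1 < p ^ (s + 1) := Nat.one_lt_pow (Nat.succ_ne_zero s) hp.out.one_lt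
  have h0 : NeZero (p ^ (s + 1) - 1) := ⟨by omega⟩
  have h1 : Finite (Multiplicative (ZMod (p ^ (s + 1) - 1))) :=
    Finite.of_equiv (ZMod (p ^ (s + 1) - 1)) Multiplicative.ofAdd
  exact Module.finite_of_finite (ZMod p)

theorem arc_iff (p : ℕ) [Fact p.Prime] (F : List Pol) (g : Pol) :
    ArcL p F g ↔
      ∃ (s N : ℕ) (e : MonoidAlgebra (ZMod p) (Multiplicative (ZMod (p ^ (s + 1) - 1))))
        (Y : ℕ → Polynomial (MonoidAlgebra (ZMod p) (Multiplicative (ZMod (p ^ (s + 1) - 1))))),
        (∀ f ∈ F, Polynomial.X ^ (N + 1) ∣ Polynomial.C e * Pol.ev Y f) ∧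
          ¬ Polynomial.X ^ (N + 1) ∣ Polynomial.C e * Pol.ev Y g := by
  classical
  constructor
  · rintro ⟨k, _, _, _, N, Y, hF, hg⟩
    let : Fintype k := Fintype.ofFinite k
    obtain ⟨n, -, hn⟩ := FiniteField.card k p
    obtain ⟨s, hs⟩ : ∃ s, (n : ℕ) = s + 1 := ⟨n - 1, by have := n.pos; omega⟩
    rw [hs] at hn
    let : Algebra (ZMod p) k := ZMod.algebra k p
    have hcard : Nat.card kˣ = p ^ (s + 1) - 1 := by
      rw [Nat.card_eq_fintype_card, Fintype.card_units, hn]
    have hψ : ∃ ψ : Multiplicative (ZMod (p ^ (s + 1) - 1)) →* k, ∀ x : kˣ, ∃ g, ψ g = x := by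
      rw [← hcard]
      have e := zmodCyclicMulEquiv (G := kˣ) inferInstance
      refine ⟨(Units.coeHom k).comp e.toMonoidHom, fun x => ⟨e.symm x, ?_⟩⟩
      simp
    obtain ⟨ψ, hψ⟩ := hψ
    set φ : MonoidAlgebra (ZMod p) (Multiplicative (ZMod (p ^ (s + 1) - 1))) →+* k :=
      (MonoidAlgebra.lift (ZMod p) k (Multiplicative (ZMod (p ^ (s + 1) - 1))) ψ).toRingHom with hφ
    have hsurj : Function.Surjective φ := by
      intro x
      by_cases hx : x = 0
      · exact ⟨0, by rw [hx, map_zero]⟩
      · obtain ⟨g, hg⟩ := hψ (Units.mk0 x hx)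
        refine ⟨MonoidAlgebra.of (ZMod p) _ g, ?_⟩
        rw [hφ]
        simp [hg]
    have hfin := finite_groupRing (p := p) s
    have hq1 : 1 < p ^ (s + 1) := Nat.one_lt_pow (Nat.succ_ne_zero s) (Fact.out : p.Prime).one_lt
    have hred := isReduced_of_pow hq1 (pow_groupRing (p := p) s)
    let I₀ : MaximalSpectrum (MonoidAlgebra (ZMod p) (Multiplicative (ZMod (p ^ (s + 1) - 1)))) :=
      ⟨RingHom.ker φ, RingHom.ker_isMaximal_of_surjective φ hsurj⟩
    set E := IsArtinianRing.equivPi
      (MonoidAlgebra (ZMod p) (Multiplicative (ZMod (p ^ (s + 1) - 1)))) with hE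
    set e := E.symm (Pi.single I₀ 1) with he
    have hEe : E e = Pi.single I₀ 1 := by rw [he, AlgEquiv.apply_symm_apply]
    have he0 : ∀ x, φ x = 0 → e * x = 0 := by
      intro x hx
      apply E.injective
      rw [map_mul, map_zero, hEe]
      funext I
      by_cases hI : I = I₀
      · subst hI
        have hx' : (E x) I₀ = 0 := by
          change Ideal.Quotient.mk I₀.asIdeal x = 0
          rw [Ideal.Quotient.eq_zero_iff_mem]
          exact (RingHom.mem_ker (f := φ)).2 hx
        rw [Pi.mul_apply, hx', mul_zero]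
        rfl
      · rw [Pi.mul_apply, Pi.single_eq_of_ne hI, zero_mul]
        rfl
    have he1 : φ e ≠ 0 := by
      intro h
      have h1 : (E e) I₀ = 0 := by
        change Ideal.Quotient.mk I₀.asIdeal e = 0
        rw [Ideal.Quotient.eq_zero_iff_mem]
        exact (RingHom.mem_ker (f := φ)).2 h
      rw [hEe, Pi.single_eq_same] at h1
      have h2 : Nontrivial (MonoidAlgebra (ZMod p) (Multiplicative (ZMod (p ^ (s + 1) - 1))) ⧸
          I₀.asIdeal) := Ideal.Quotient.nontrivial_iff.2 I₀.isMaximal.ne_top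
      exact one_ne_zero h1
    choose Y' hY' using fun v => Polynomial.map_surjective φ hsurj (Y v)
    have hev : ∀ P : Pol, (Pol.ev Y' P).map φ = Pol.ev Y P := by
      intro P
      have h1 := map_ev (Polynomial.mapRingHom φ) Y' P
      rw [Polynomial.coe_mapRingHom] at h1
      rw [h1]
      congr 1
      funext v
      exact hY' v
    have hco : ∀ (P : Pol) (d : ℕ), φ ((Pol.ev Y' P).coeff d) = (Pol.ev Y P).coeff d := by
      intro P d
      rw [← hev P, Polynomial.coeff_map]
    refine ⟨s, N, e, Y', fun f hf => ?_, fun h => hg ?_⟩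
    · rw [Polynomial.X_pow_dvd_iff]
      intro d hd
      rw [Polynomial.coeff_C_mul]
      apply he0
      rw [hco]
      exact Polynomial.X_pow_dvd_iff.1 (hF f hf) d hd
    · rw [Polynomial.X_pow_dvd_iff] at h ⊢
      intro d hd
      have h1 := h d hd
      rw [Polynomial.coeff_C_mul] at h1
      have h2 := congrArg φ h1
      rw [map_mul, map_zero, hco] at h2
      exact (mul_eq_zero.1 h2).resolve_left he1
  · rintro ⟨s, N, e, Y, hF, hg⟩
    have hfin := finite_groupRing (p := p) s
    have hq1 : 1 < p ^ (s + 1) := Nat.one_lt_pow (Nat.succ_ne_zero s) (Fact.out : p.Prime).one_lt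
    have hred := isReduced_of_pow hq1 (pow_groupRing (p := p) s)
    rw [Polynomial.X_pow_dvd_iff] at hg
    push Not at hg
    obtain ⟨b, hb, hc⟩ := hg
    rw [Polynomial.coeff_C_mul] at hc
    have h1 : IsArtinianRing.equivPi
        (MonoidAlgebra (ZMod p) (Multiplicative (ZMod (p ^ (s + 1) - 1))))
        (e * (Pol.ev Y g).coeff b) ≠ 0 := by
      intro h
      exact hc ((map_eq_zero_iff _ (AlgEquiv.injective _)).1 h)
    obtain ⟨I, hI⟩ := Function.ne_iff.1 h1
    have hI' : Ideal.Quotient.mk I.asIdeal (e * (Pol.ev Y g).coeff b) ≠ 0 := hI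
    rw [map_mul] at hI'
    have hmax := I.isMaximal
    let : Field (MonoidAlgebra (ZMod p) (Multiplicative (ZMod (p ^ (s + 1) - 1))) ⧸ I.asIdeal) :=
      Ideal.Quotient.field _
    have hfq : Finite (MonoidAlgebra (ZMod p) (Multiplicative (ZMod (p ^ (s + 1) - 1))) ⧸
        I.asIdeal) := Finite.of_surjective _ (Ideal.Quotient.mk_surjective (I := I.asIdeal))
    have hchar : CharP (MonoidAlgebra (ZMod p) (Multiplicative (ZMod (p ^ (s + 1) - 1))) ⧸
        I.asIdeal) p := charP_of_injective_algebraMap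
      (algebraMap (ZMod p) (MonoidAlgebra (ZMod p) (Multiplicative (ZMod (p ^ (s + 1) - 1))) ⧸
        I.asIdeal)).injective p
    have he : Ideal.Quotient.mk I.asIdeal e ≠ 0 := left_ne_zero_of_mul hI'
    have hg' : Ideal.Quotient.mk I.asIdeal ((Pol.ev Y g).coeff b) ≠ 0 := right_ne_zero_of_mul hI'
    have hev : ∀ P : Pol, (Pol.ev Y P).map (Ideal.Quotient.mk I.asIdeal) =
        Pol.ev (fun v => (Y v).map (Ideal.Quotient.mk I.asIdeal)) P := by
      intro P
      have h1 := map_ev (Polynomial.mapRingHom (Ideal.Quotient.mk I.asIdeal)) Y P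
      rw [Polynomial.coe_mapRingHom] at h1
      exact h1
    have hco : ∀ (P : Pol) (d : ℕ), (Pol.ev (fun v => (Y v).map (Ideal.Quotient.mk I.asIdeal))
        P).coeff d = Ideal.Quotient.mk I.asIdeal ((Pol.ev Y P).coeff d) := by
      intro P d
      rw [← hev P, Polynomial.coeff_map]
    refine ⟨_, inferInstance, hfq, hchar, N, fun v => (Y v).map (Ideal.Quotient.mk I.asIdeal),
      fun f hf => ?_, fun h => hg' ?_⟩
    · rw [Polynomial.X_pow_dvd_iff]
      intro d hd
      rw [hco]
      have h2 := Polynomial.X_pow_dvd_iff.1 (hF f hf) d hd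
      rw [Polynomial.coeff_C_mul] at h2
      have h3 := congrArg (Ideal.Quotient.mk I.asIdeal) h2
      rw [map_mul, map_zero] at h3
      exact (mul_eq_zero.1 h3).resolve_left he
    · rw [← hco]
      exact Polynomial.X_pow_dvd_iff.1 h b hb

end PE2

end Pool.Agent.ZAB
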