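import Pool.Agent.ZAB.PE1
import Pool.Agent.ZAB.PE2
import Pool.Agent.ZAB.M1

set_option autoImplicit false

namespace Pool.Agent.ZAB

/-! arithmetic of lists -/

section
variable {R : Type} [CommRing R]

theorem evl_append (x : ℕ → R) (P Q : Pol) : Pol.ev x (P ++ Q) = Pol.ev x P + Pol.ev x Q := by
  simp [Pol.ev]

theorem evl_cons (x : ℕ → R) (c : Bool × List ℕ) (P : Pol) :
    Pol.ev x (c :: P) = (if c.1 then 1 else -1) * (c.2.map x).prod + Pol.ev x P := by
  simp [Pol.ev]

theorem evl_neg (x : ℕ → R) (P : Pol) : Pol.ev x (P.map fun c => (!c.1, c.2)) = - Pol.ev x P := by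
  induction P with
  | nil => simp [Pol.ev]
  | cons a P ih =>
    rw [List.map_cons, evl_cons, evl_cons, ih]
    cases h : a.1 <;> simp [h] <;> ring

theorem evl_mulmon (x : ℕ → R) (a : Bool × List ℕ) (Q : Pol) :
    Pol.ev x (Q.map fun b => (a.1 == b.1, a.2 ++ b.2)) = (if a.1 then 1 else -1) * (a.2.map x).prod * Pol.ev x Q := by
  induction Q with
  | nil => simp [Pol.ev]
  | cons b Q ih =>
    rw [List.map_cons, evl_cons, evl_cons, ih, List.map_append, List.prod_append]
    cases h : a.1 <;> cases h' : b.1 <;> simp [h, h'] <;> ring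

theorem evl_mul (x : ℕ → R) (P Q : Pol) : Pol.ev x (Pol.mul P Q) = Pol.ev x P * Pol.ev x Q := by
  induction P with
  | nil => simp [Pol.ev, Pol.mul]
  | cons a P ih =>
    have h1 : Pol.mul (a :: P) Q = (Q.map fun b => (a.1 == b.1, a.2 ++ b.2)) ++ Pol.mul P Q := rfl
    rw [h1, evl_append, evl_mulmon, ih, evl_cons]
    ring

theorem evl_prodl (x : ℕ → R) (l : List Pol) : Pol.ev x (Pol.prodl l) = (l.map (Pol.ev x)).prod := by
  induction l with
  | nil => simp [Pol.prodl, evl_one]
  | cons a l ih =>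
    have h1 : Pol.prodl (a :: l) = Pol.mul a (Pol.prodl l) := rfl
    rw [h1, evl_mul, ih, List.map_cons, List.prod_cons]

theorem evl_sign (x : ℕ → R) (b : Bool) (Q : Pol) :
    Pol.ev x (Q.map fun d => (b == d.1, d.2)) = (if b then 1 else -1) * Pol.ev x Q := by
  have := evl_mulmon x (b, []) Q
  simpa using this

theorem evl_subst (x : ℕ → R) (Y : List Pol) (P : Pol) :
    Pol.ev x (Pol.subst Y P) = Pol.ev (fun v => Pol.ev x (Y.getD v [])) P := by
  induction P with
  | nil => simp [Pol.ev, Pol.subst]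
  | cons a P ih =>
    have h1 : Pol.subst Y (a :: P) = ((Pol.prodl (a.2.map fun v => Y.getD v [])).map fun d => (a.1 == d.1, d.2)) ++
      Pol.subst Y P := rfl
    rw [h1, evl_append, ih, evl_cons, evl_sign, evl_prodl, List.map_map]
    rfl

theorem evl_ren0 (x : ℕ → R) (P : Pol) : Pol.ev x (Pol.ren0 P) = Pol.ev (fun _ => x 0) P := by
  induction P with
  | nil => simp [Pol.ev, Pol.ren0]
  | cons a P ih =>
    have h1 : Pol.ren0 (a :: P) = (a.1, a.2.map fun _ => 0) :: Pol.ren0 P := rfl
    rw [h1, evl_cons, evl_cons, ih, List.map_map]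
    rfl

/-- the values of the lists at `x` are the elements of the subring generated by the coordinates -/
theorem evl_surj (x : ℕ → R) (z : R) (hz : z ∈ Subring.closure (Set.range x)) : ∃ P : Pol, Pol.ev x P = z := by
  induction hz using Subring.closure_induction with
  | mem z hz =>
    obtain ⟨v, rfl⟩ := hz
    exact ⟨[(true, [v])], by simp [Pol.ev]⟩
  | zero => exact ⟨[], by simp [Pol.ev]⟩
  | one => exact ⟨Pol.one, evl_one x⟩
  | add a b _ _ iha ihb =>
    obtain ⟨P, rfl⟩ := iha
    obtain ⟨Q, rfl⟩ := ihb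
    exact ⟨P ++ Q, evl_append x P Q⟩
  | neg a _ iha =>
    obtain ⟨P, rfl⟩ := iha
    exact ⟨_, evl_neg x P⟩
  | mul a b _ _ iha ihb =>
    obtain ⟨P, rfl⟩ := iha
    obtain ⟨Q, rfl⟩ := ihb
    exact ⟨_, evl_mul x P Q⟩

end

/-! surjectivity onto the group ring and the polynomials over it -/

/-- the generator of the group -/
noncomputable abbrev gn (d r : ℕ) : MonoidAlgebra (ZMod d) (Multiplicative (ZMod r)) :=
  MonoidAlgebra.of (ZMod d) (Multiplicative (ZMod r)) (Multiplicative.ofAdd 1)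

theorem mem_closure_gn {d r : ℕ} [NeZero d] (hr : r ≠ 0) (a : MonoidAlgebra (ZMod d) (Multiplicative (ZMod r))) :
    a ∈ Subring.closure (Set.range fun _ : ℕ => gn d r) := by
  haveI : NeZero r := ⟨hr⟩
  have hgn : gn d r ∈ Subring.closure (Set.range fun _ : ℕ => gn d r) := Subring.subset_closure ⟨0, rfl⟩
  have hof : ∀ u : Multiplicative (ZMod r), MonoidAlgebra.of (ZMod d) _ u ∈
      Subring.closure (Set.range fun _ : ℕ => gn d r) := by
    intro u
    have h1 : u = (Multiplicative.ofAdd (1 : ZMod r)) ^ (Multiplicative.toAdd u).val := by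
      rw [← ofAdd_nsmul, nsmul_one, ZMod.natCast_zmod_val]
      rfl
    rw [h1, map_pow]
    exact pow_mem hgn _
  induction a using MonoidAlgebra.induction_on with
  | of u => exact hof u
  | add a b ha hb => exact add_mem ha hb
  | smul c a ha =>
    have h1 : c • a = (c.val : MonoidAlgebra (ZMod d) (Multiplicative (ZMod r))) * a := by
      have h2 : c = ((c.val : ℕ) : ZMod d) := (ZMod.natCast_zmod_val c).symm
      conv_lhs => rw [h2]
      rw [Nat.cast_smul_eq_nsmul, nsmul_eq_mul]
    rw [h1]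
    exact mul_mem (natCast_mem _ _) ha

theorem mem_closure_xi {d r : ℕ} [NeZero d] (hr : r ≠ 0)
    (a : Polynomial (MonoidAlgebra (ZMod d) (Multiplicative (ZMod r)))) :
    a ∈ Subring.closure (Set.range (xi d r)) := by
  have hX : Polynomial.X ∈ Subring.closure (Set.range (xi d r)) :=
    Subring.subset_closure ⟨1, by simp [xi]⟩
  have hC : ∀ b : MonoidAlgebra (ZMod d) (Multiplicative (ZMod r)),
      Polynomial.C b ∈ Subring.closure (Set.range (xi d r)) := by
    intro b
    have h1 : Subring.closure (Set.range fun _ : ℕ => gn d r) ≤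
        (Subring.closure (Set.range (xi d r))).comap (Polynomial.C : _ →+* _) := by
      apply Subring.closure_le.2
      rintro _ ⟨_, rfl⟩
      exact Subring.subset_closure ⟨0, by simp [xi]⟩
    exact h1 (mem_closure_gn hr b)
  induction a using Polynomial.induction_on' with
  | add a b ha hb => exact add_mem ha hb
  | monomial n b =>
    rw [← Polynomial.C_mul_X_pow_eq_monomial]
    exact mul_mem (hC b) (pow_mem hX n)

theorem chk2_iff (p : ℕ) [hp : Fact p.Prime] (F : List Pol) (g : Pol) :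
    (∃ w, chk2 p F g w) ↔ ArcL p F g := by
  rw [arc_iff]
  have hr : ∀ s : ℕ, p ^ (s + 1) - 1 ≠ 0 := by
    intro s
    have : 1 < p ^ (s + 1) := Nat.one_lt_pow (Nat.succ_ne_zero s) hp.out.one_lt
    omega
  have key : ∀ (s N : ℕ) (e : Pol) (Y : List Pol) (P : Pol),
      ctest p (p ^ (s + 1) - 1) N (Pol.mul (Pol.ren0 e) (Pol.subst Y P)) ↔
      Polynomial.X ^ (N + 1) ∣ Polynomial.C (Pol.ev (fun _ => gn p (p ^ (s + 1) - 1)) e) *
        Pol.ev (fun v => Pol.ev (xi p (p ^ (s + 1) - 1)) (Y.getD v [])) P := by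
    intro s N e Y P
    rw [ctest_iff, evl_mul, evl_subst, evl_ren0]
    have h1 : Pol.ev (fun _ => xi p (p ^ (s + 1) - 1) 0) e =
        Polynomial.C (Pol.ev (fun _ => gn p (p ^ (s + 1) - 1)) e) := by
      rw [ev_hom]
      rfl
    rw [h1]
  constructor
  · rintro ⟨⟨s, N, e, Y⟩, h1, h2⟩
    refine ⟨s, N, _, _, fun f hf => (key s N e Y f).1 (h1 f hf), fun h => h2 ((key s N e Y g).2 h)⟩
  · rintro ⟨s, N, e', Y', h1, h2⟩
    haveI : NeZero p := ⟨hp.out.ne_zero⟩
    obtain ⟨e, he⟩ := evl_surj _ e' (mem_closure_gn (hr s) e')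
    choose Yp hYp using fun v => evl_surj _ (Y' v) (mem_closure_xi (hr s) (Y' v))
    obtain ⟨n, hn⟩ := exists_bound_list (g :: F)
    let Y : List Pol := (List.range n).map Yp
    have hY : ∀ v, v < n → Pol.ev (xi p (p ^ (s + 1) - 1)) (Y.getD v []) = Y' v := by
      intro v hv
      rw [← hYp v]
      congr 1
      simp [Y, List.getD, hv]
    have hev : ∀ P ∈ g :: F, Pol.ev (fun v => Pol.ev (xi p (p ^ (s + 1) - 1)) (Y.getD v [])) P = Pol.ev Y' P :=
      fun P hP => ev_congr_lt (hn P hP) hY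
    refine ⟨(s, N, e, Y), ?_, ?_⟩
    · intro f hf
      rw [key, hev f (List.mem_cons_of_mem _ hf), he]
      exact h1 f hf
    · rw [key, hev g List.mem_cons_self, he]
      exact h2

end Pool.Agent.ZAB
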