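import Pool.Agent.ZAB.Dec

set_option autoImplicit false

namespace Pool.Agent.ZAB

open MvPolynomial

/-- denominators of a polynomial -/
theorem z8_clear_poly {σ : Type} (a : MvPolynomial σ ℚ) :
    ∃ D : ℕ, D ≠ 0 ∧ ∃ b : MvPolynomial σ ℤ,
      (D : MvPolynomial σ ℚ) * a = MvPolynomial.map (Int.castRingHom ℚ) b := by
  induction a using MvPolynomial.induction_on with
  | C r =>
    refine ⟨r.den, r.den_nz, C r.num, ?_⟩
    rw [MvPolynomial.map_C]
    have h : ((r.den : ℕ) : MvPolynomial σ ℚ) = C (r.den : ℚ) := by simp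
    rw [h, ← C_mul]
    congr 1
    rw [mul_comm]
    simp
  | add p q hp hq =>
    obtain ⟨D, hD, b, hb⟩ := hp
    obtain ⟨D', hD', b', hb'⟩ := hq
    refine ⟨D * D', mul_ne_zero hD hD', (D' : MvPolynomial σ ℤ) * b + (D : MvPolynomial σ ℤ) * b', ?_⟩
    rw [map_add, map_mul, map_mul, ← hb, ← hb', map_natCast, map_natCast]
    push_cast
    ring
  | mul_X p i hp =>
    obtain ⟨D, hD, b, hb⟩ := hp
    refine ⟨D, hD, b * X i, ?_⟩
    rw [map_mul, ← hb, MvPolynomial.map_X]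
    ring

/-- denominators of an element of an extended ideal -/
theorem z8_clear_ideal {σ : Type} (J : Ideal (MvPolynomial σ ℤ)) (q : MvPolynomial σ ℚ)
    (hq : q ∈ J.map (MvPolynomial.map (Int.castRingHom ℚ))) :
    ∃ D : ℕ, D ≠ 0 ∧ ∃ b ∈ J,
      (D : MvPolynomial σ ℚ) * q = MvPolynomial.map (Int.castRingHom ℚ) b := by
  rw [Ideal.map] at hq
  induction hq using Submodule.span_induction with
  | mem x hx =>
    obtain ⟨b, hb, rfl⟩ := hx
    exact ⟨1, one_ne_zero, b, hb, by simp⟩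
  | zero => exact ⟨1, one_ne_zero, 0, J.zero_mem, by simp⟩
  | add x y _ _ hx hy =>
    obtain ⟨D, hD, b, hbJ, hb⟩ := hx
    obtain ⟨D', hD', b', hbJ', hb'⟩ := hy
    refine ⟨D * D', mul_ne_zero hD hD', (D' : MvPolynomial σ ℤ) * b + (D : MvPolynomial σ ℤ) * b',
      J.add_mem (J.mul_mem_left _ hbJ) (J.mul_mem_left _ hbJ'), ?_⟩
    rw [map_add, map_mul, map_mul, ← hb, ← hb', map_natCast, map_natCast]
    push_cast
    ring
  | smul a x _ hx =>
    obtain ⟨D, hD, b, hbJ, hb⟩ := hx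
    obtain ⟨D', hD', c, hc⟩ := z8_clear_poly a
    refine ⟨D * D', mul_ne_zero hD hD', c * b, J.mul_mem_left _ hbJ, ?_⟩
    rw [map_mul, ← hb, ← hc, smul_eq_mul]
    push_cast
    ring

/-! Z8 -/
theorem integralM_of_rat {n : ℕ} (F : Set (MvPolynomial (Fin n) ℤ)) (g : MvPolynomial (Fin n) ℤ)
    (h : IntegralOver (Ideal.span (MvPolynomial.map (Int.castRingHom ℚ) '' F))
      (MvPolynomial.map (Int.castRingHom ℚ) g)) :
    ∃ M : ℕ, M ≠ 0 ∧ IntegralM M (Ideal.span F) g := by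
  obtain ⟨m, a, ha, he⟩ := h
  have key : ∀ i, ∃ D : ℕ, D ≠ 0 ∧ ∃ b ∈ (Ideal.span F) ^ i,
      (D : MvPolynomial (Fin n) ℚ) * a i = MvPolynomial.map (Int.castRingHom ℚ) b := by
    intro i
    apply z8_clear_ideal
    rw [Ideal.map_pow, Ideal.map_span]
    exact ha i
  choose D hD b hb hab using key
  refine ⟨∏ i ∈ Finset.range (m + 2), D i, Finset.prod_ne_zero_iff.mpr fun i _ => hD i, m,
    fun i => ((∏ k ∈ (Finset.range (m + 2)).erase i, D k : ℕ) : MvPolynomial (Fin n) ℤ) * b i,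
    fun i => Ideal.mul_mem_left _ _ (hb i), ?_⟩
  apply MvPolynomial.map_injective (Int.castRingHom ℚ) Int.cast_injective
  rw [map_zero, map_add, map_sum, map_mul, map_pow, map_natCast]
  have h1 : ∀ i ∈ Finset.range (m + 1),
      (MvPolynomial.map (Int.castRingHom ℚ))
        (((∏ k ∈ (Finset.range (m + 2)).erase (i + 1), D k : ℕ) : MvPolynomial (Fin n) ℤ) *
          b (i + 1) * g ^ (m - i)) =
      ((∏ k ∈ Finset.range (m + 2), D k : ℕ) : MvPolynomial (Fin n) ℚ) *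
        (a (i + 1) * (MvPolynomial.map (Int.castRingHom ℚ) g) ^ (m - i)) := by
    intro i hi
    have hi' : i + 1 ∈ Finset.range (m + 2) := by
      rw [Finset.mem_range] at hi ⊢
      omega
    rw [map_mul, map_mul, map_pow, map_natCast, ← hab (i + 1), ← Finset.mul_prod_erase _ D hi']
    push_cast
    ring
  rw [Finset.sum_congr rfl h1, ← Finset.mul_sum, ← mul_add, he, mul_zero]

end Pool.Agent.ZAB
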