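import Pool.Agent.ZAB.Bool1
import Pool.Agent.ZAB.Z8

set_option autoImplicit false

namespace Pool.Agent.ZAB

open MvPolynomial

theorem integralOver_one_iff {A : Type} [CommRing A] (I : Ideal A) : IntegralOver I 1 ↔ I = ⊤ := by
  constructor
  · rintro ⟨m, a, ha, he⟩
    rw [Ideal.eq_top_iff_one]
    have h1 : ∑ i ∈ Finset.range (m + 1), a (i + 1) * (1 : A) ^ (m - i) ∈ I := by
      refine Ideal.sum_mem _ fun i _ => Ideal.mul_mem_right _ _ ?_
      exact Ideal.pow_le_self (Nat.succ_ne_zero i) (ha (i + 1))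
    have h2 : (1 : A) = - ∑ i ∈ Finset.range (m + 1), a (i + 1) * (1 : A) ^ (m - i) := by
      rw [one_pow] at he
      exact eq_neg_of_add_eq_zero_left he
    rw [h2]
    exact I.neg_mem h1
  · rintro rfl
    exact ⟨0, fun _ => -1, fun i => by rw [Ideal.top_pow]; trivial, by simp⟩

theorem alts_iff (R : Type) [CommRing R] (c : Clause) :
    (∃ d ∈ alts c, IntegralOver (idlR R (c.1 ++ d.2)) (Pol.ev X d.1)) ↔
      (idlR R c.1 = ⊤ ∨ ∃ d ∈ c.2, IntegralOver (idlR R (c.1 ++ d.2)) (Pol.ev X d.1)) := by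
  unfold alts
  constructor
  · rintro ⟨d, hd, h⟩
    rcases List.mem_cons.1 hd with h1 | h1
    · left
      rw [h1] at h
      rw [← integralOver_one_iff]
      simpa [evl_one] using h
    · exact Or.inr ⟨d, h1, h⟩
  · rintro (h | ⟨d, hd, h⟩)
    · refine ⟨(Pol.one, []), List.mem_cons_self, ?_⟩
      rw [← integralOver_one_iff] at h
      simpa [evl_one] using h
    · exact ⟨d, List.mem_cons_of_mem _ hd, h⟩

theorem criterion (p : ℕ) (hp : p.Prime) (c : Clause) :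
    Holds (ZabMod p) c ↔ (idlR (ZMod p) c.1 = ⊤ ∨
      ∃ d ∈ c.2, IntegralOver (idlR (ZMod p) (c.1 ++ d.2)) (Pol.ev X d.1)) := by
  haveI : Fact p.Prime := ⟨hp⟩
  rw [holds_iff, ← alts_iff]
  simp only [integralM_one]
  rfl

theorem rat_iff (L : List Pol) (g : Pol) :
    IntegralOver (idlR ℚ L) (Pol.ev X g) ↔ ∃ M : ℕ, M ≠ 0 ∧ IntegralM M (idl 0 L) (Pol.ev X g) := by
  classical
  constructor
  · intro h
    obtain ⟨n, hn⟩ := exists_bound_list (g :: L)
    have hg := hn g List.mem_cons_self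
    have hL : ∀ f ∈ L, ∀ c ∈ f, ∀ v ∈ c.2, v < n := fun f hf => hn f (List.mem_cons_of_mem _ hf)
    -- to finitely many variables
    let κ : MvPolynomial ℕ ℚ →+* MvPolynomial (Fin n) ℚ :=
      ((aeval (fun v : ℕ => if h : v < n then (X ⟨v, h⟩ : MvPolynomial (Fin n) ℚ) else 0) :
        MvPolynomial ℕ ℚ →ₐ[ℚ] MvPolynomial (Fin n) ℚ) : MvPolynomial ℕ ℚ →+* MvPolynomial (Fin n) ℚ)
    have hκ : ∀ P : Pol, κ (Pol.ev X P) = MvPolynomial.map (Int.castRingHom ℚ) (toFin n P) := by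
      intro P
      rw [ev_hom, toFin, ev_hom]
      congr 1
      funext v
      by_cases hv : v < n
      · simp [κ, hv]
      · simp [κ, hv]
    have h1 : IntegralM 1 (Ideal.span (MvPolynomial.map (Int.castRingHom ℚ) '' (toFin n '' {f | f ∈ L})))
        (κ (Pol.ev X g)) := by
      refine ((integralM_one _ _).2 h).map κ ?_
      intro x hx
      have h2 : idlR ℚ L ≤ (Ideal.span (MvPolynomial.map (Int.castRingHom ℚ) '' (toFin n '' {f | f ∈ L}))).comap κ := by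
        unfold idlR
        rw [Ideal.span_le]
        rintro _ ⟨f, hf, rfl⟩
        rw [SetLike.mem_coe, Ideal.mem_comap, hκ]
        exact Ideal.subset_span ⟨_, ⟨f, hf, rfl⟩, rfl⟩
      exact h2 hx
    rw [hκ, integralM_one] at h1
    obtain ⟨M, hM, hiM⟩ := integralM_of_rat _ _ h1
    refine ⟨M, hM, ?_⟩
    let θ : MvPolynomial (Fin n) ℤ →+* MvPolynomial ℕ (ZMod 0) :=
      (MvPolynomial.map (Int.castRingHom (ZMod 0))).comp
        ((rename (Fin.val : Fin n → ℕ) : MvPolynomial (Fin n) ℤ →ₐ[ℤ] MvPolynomial ℕ ℤ) :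
          MvPolynomial (Fin n) ℤ →+* MvPolynomial ℕ ℤ)
    have hθ : ∀ P : Pol, (∀ c ∈ P, ∀ v ∈ c.2, v < n) → θ (toFin n P) = Pol.ev X P :=
      fun P hP => map_rename_toFin hP
    have h3 := hiM.map θ (J := idl 0 L) (by
      intro x hx
      have h2 : Ideal.span (toFin n '' {f | f ∈ L}) ≤ (idl 0 L).comap θ := by
        rw [Ideal.span_le]
        rintro _ ⟨f, hf, rfl⟩
        apply Ideal.subset_span
        exact ⟨f, hf, hθ f (hL f hf)⟩
      exact h2 hx)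
    rwa [hθ g hg] at h3
  · rintro ⟨M, hM, h⟩
    let η : ZMod 0 →+* ℚ := Int.castRingHom ℚ
    have hη : ∀ P : Pol, MvPolynomial.map η (Pol.ev X P : MvPolynomial ℕ (ZMod 0)) = Pol.ev X P :=
      fun P => map_evX _ P
    have h1 := h.map (MvPolynomial.map η) (J := idlR ℚ L) (by
      intro x hx
      have h2 : idl 0 L ≤ (idlR ℚ L).comap (MvPolynomial.map η) := by
        rw [Ideal.span_le]
        rintro _ ⟨f, hf, rfl⟩
        apply Ideal.subset_span
        exact ⟨f, hf, hη f⟩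
      exact h2 hx)
    rw [hη g] at h1
    obtain ⟨m, a, ha, he⟩ := h1
    have hM0 : ((M : ℕ) : ℚ) ≠ 0 := Nat.cast_ne_zero.2 hM
    rw [← integralM_one]
    refine ⟨m, fun i => C ((M : ℚ)⁻¹) * a i, fun i => Ideal.mul_mem_left _ _ (ha i), ?_⟩
    have h3 : C ((M : ℚ)⁻¹) * ((M : MvPolynomial ℕ ℚ) * (Pol.ev X g) ^ (m + 1) +
        ∑ i ∈ Finset.range (m + 1), a (i + 1) * (Pol.ev X g) ^ (m - i)) = 0 := by rw [he, mul_zero]
    have h4 : C ((M : ℚ)⁻¹) * (M : MvPolynomial ℕ ℚ) = 1 := by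
      rw [← map_natCast (C : ℚ →+* MvPolynomial ℕ ℚ), ← map_mul, inv_mul_cancel₀ hM0, map_one]
    rw [mul_add, ← mul_assoc, h4, one_mul, Finset.mul_sum] at h3
    rw [Nat.cast_one, one_mul, ← h3]
    congr 1
    apply Finset.sum_congr rfl
    intro i _
    ring

/-- the 0-1 law -/
theorem zero_one (c : Clause) :
    ((idlR ℚ c.1 = ⊤ ∨ ∃ d ∈ c.2, IntegralOver (idlR ℚ (c.1 ++ d.2)) (Pol.ev X d.1)) →
      {p : ℕ | p.Prime ∧ ¬ Holds (ZabMod p) c}.Finite) ∧
    (¬ (idlR ℚ c.1 = ⊤ ∨ ∃ d ∈ c.2, IntegralOver (idlR ℚ (c.1 ++ d.2)) (Pol.ev X d.1)) →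
      {p : ℕ | p.Prime ∧ Holds (ZabMod p) c}.Finite) := by
  rw [← alts_iff]
  constructor
  · rintro ⟨d, hd, h⟩
    obtain ⟨M, hM, hi⟩ := (rat_iff _ _).1 h
    exact almost_all_holds hd hM hi
  · intro h
    apply almost_all_not_holds
    intro d hd M hM hi
    exact h ⟨d, hd, (rat_iff _ _).2 ⟨M, hM, hi⟩⟩

end Pool.Agent.ZAB
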