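import Pool.Agent.ZAB.Defs

set_option autoImplicit false

/-!
# The sentences
-/

namespace Pool.Agent.ZAB

/-- Integer polynomials in the variables `x 0, x 1, ...`: lists of signed monomials (`true` is `+`,
`false` is `-`); a monomial is the list of its variables. -/
abbrev Pol := List (Bool × List ℕ)

/-- The value of a polynomial at a point of a commutative ring. -/
def Pol.ev {R : Type} [CommRing R] (x : ℕ → R) (P : Pol) : R :=
  (P.map fun c => (if c.1 then 1 else -1) * (c.2.map x).prod).sum

/-- A clause: the pair `(F, D)` stands for the sentence `for all x, if f(x) = 0 for all f in F then for some (d, C) in D the element d(x) lies in the ideal generated by the c(x), c in C`. If `C` is empty the conclusion is `d(x) = 0`, if `C = [c]` it is `c(x)` divides `d(x)`. -/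
abbrev Clause := List Pol × List (Pol × List Pol)

/-- The clause holds in the ring `R`. -/
def Holds (R : Type) [CommRing R] (c : Clause) : Prop :=
  ∀ x : ℕ → R, (∀ f ∈ c.1, Pol.ev x f = 0) →
    ∃ d ∈ c.2, Pol.ev x d.1 ∈ Ideal.span {z : R | ∃ h ∈ d.2, z = Pol.ev x h}

/-- The ideal of `R[x_0, x_1, ...]` generated by the polynomials of the list `L`. -/
noncomputable def idlR (R : Type) [CommRing R] (L : List Pol) : Ideal (MvPolynomial ℕ R) :=
  Ideal.span {q : MvPolynomial ℕ R | ∃ f ∈ L, q = Pol.ev MvPolynomial.X f}

/-- A finite conjunction of disjunctions of clauses and negated clauses: the pair `(P, Q)` stands for `some clause of P is true or some clause of Q is false`. -/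
abbrev Comb := List (List Clause × List Clause)

/-- The Boolean combination of clauses holds in the ring `R`. -/
def HoldsB (R : Type) [CommRing R] (φ : Comb) : Prop :=
  ∀ a ∈ φ, (∃ c ∈ a.1, Holds R c) ∨ ∃ c ∈ a.2, ¬ Holds R c

end Pool.Agent.ZAB
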