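import Pool.Agent.ZAB.Dec

set_option autoImplicit false

/-!
# The certificate of integral dependence (package D)
-/

namespace Pool.Agent.ZAB

open Finset

section Ev

variable {R : Type} [CommRing R] (x : ℕ → R)

/-- the sign -/
def sg (R : Type) [CommRing R] (b : Bool) : R := if b then 1 else -1

theorem sg_beq (a b : Bool) : sg R (a == b) = sg R a * sg R b := by
  cases a <;> cases b <;> simp [sg]

theorem ev_nil : Pol.ev x [] = 0 := rfl

theorem ev_cons (c : Bool × List ℕ) (P : Pol) :
    Pol.ev x (c :: P) = sg R c.1 * (c.2.map x).prod + Pol.ev x P := by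
  simp [Pol.ev, sg]

theorem ev_append (P Q : Pol) : Pol.ev x (P ++ Q) = Pol.ev x P + Pol.ev x Q := by
  simp [Pol.ev]

theorem ev_flatMap {β : Type*} (L : List β) (f : β → Pol) :
    Pol.ev x (L.flatMap f) = (L.map fun l => Pol.ev x (f l)).sum := by
  induction L with
  | nil => rfl
  | cons a L ih => rw [List.flatMap_cons, ev_append, ih, List.map_cons, List.sum_cons]

theorem ev_map_mul (a : Bool × List ℕ) (Q : Pol) :
    Pol.ev x (Q.map fun b => (a.1 == b.1, a.2 ++ b.2)) =
      sg R a.1 * (a.2.map x).prod * Pol.ev x Q := by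
  induction Q with
  | nil => simp [ev_nil]
  | cons b Q ih =>
    rw [List.map_cons, ev_cons, ev_cons, ih, sg_beq, List.map_append, List.prod_append]
    ring

theorem ev_mul (P Q : Pol) : Pol.ev x (Pol.mul P Q) = Pol.ev x P * Pol.ev x Q := by
  unfold Pol.mul
  induction P with
  | nil => simp [ev_nil]
  | cons a P ih =>
    rw [List.flatMap_cons, ev_append, ih, ev_cons, ev_map_mul]
    ring

theorem ev_one : Pol.ev x Pol.one = 1 := by
  simp [Pol.ev, Pol.one]

theorem ev_pow (P : Pol) (n : ℕ) : Pol.ev x (Pol.pow P n) = Pol.ev x P ^ n := by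
  unfold Pol.pow
  induction n with
  | zero => simpa using ev_one x
  | succ n ih => rw [Function.iterate_succ_apply', ev_mul, ih, pow_succ']

theorem ev_prodl (l : List Pol) : Pol.ev x (Pol.prodl l) = (l.map (Pol.ev x)).prod := by
  unfold Pol.prodl
  induction l with
  | nil => simpa using ev_one x
  | cons a l ih => rw [List.foldr_cons, ev_mul, ih, List.map_cons, List.prod_cons]

theorem ev_nsc (j : ℕ) (P : Pol) : Pol.ev x (Pol.nsc j P) = (j : R) * Pol.ev x P := by
  unfold Pol.nsc
  rw [ev_flatMap]
  simp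

theorem map_sg {S : Type} [CommRing S] (θ : R →+* S) (b : Bool) : θ (sg R b) = sg S b := by
  cases b <;> simp [sg]

theorem ev_signed (a : Bool) (Q : Pol) :
    Pol.ev x (Q.map fun d => (a == d.1, d.2)) = sg R a * Pol.ev x Q := by
  induction Q with
  | nil => simp [ev_nil]
  | cons b Q ih =>
    rw [List.map_cons, ev_cons, ev_cons, ih, sg_beq]
    ring

theorem ev_subst (Y : List Pol) (P : Pol) :
    Pol.ev x (Pol.subst Y P) = Pol.ev (fun v => Pol.ev x (Y.getD v [])) P := by
  unfold Pol.subst
  induction P with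
  | nil => simp [ev_nil]
  | cons c P ih =>
    rw [List.flatMap_cons, ev_append, ih, ev_cons, ev_signed, ev_prodl, List.map_map]
    rfl

end Ev

theorem map_ev {R S : Type} [CommRing R] [CommRing S] (θ : R →+* S) (x : ℕ → R) (P : Pol) :
    θ (Pol.ev x P) = Pol.ev (fun v => θ (x v)) P := by
  induction P with
  | nil => simp [ev_nil]
  | cons c P ih =>
    rw [ev_cons, ev_cons, map_add, map_mul, ih, map_sg, map_list_prod, List.map_map]
    rfl

/-! ## zero test -/

/-- the exponent of a monomial -/
noncomputable def mon (m : List ℕ) : ℕ →₀ ℕ := (m.map fun v => Finsupp.single v 1).sum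

theorem mon_apply (m : List ℕ) (v : ℕ) : mon m v = m.count v := by
  unfold mon
  induction m with
  | nil => simp
  | cons a m ih =>
    rw [List.map_cons, List.sum_cons, Finsupp.add_apply, ih, List.count_cons,
      Finsupp.single_apply]
    by_cases h : a = v
    · simp [h, add_comm]
    · simp [h]

theorem cnt_eq (v : ℕ) (m : List ℕ) : cnt v m = m.count v := by
  unfold cnt
  rw [List.count_eq_length_filter]
  congr 1

theorem same_iff (m m' : List ℕ) : same m m' = true ↔ mon m = mon m' := by
  unfold same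
  rw [decide_eq_true_iff]
  constructor
  · intro h
    ext v
    rw [mon_apply, mon_apply]
    by_cases hv : v ∈ m ++ m'
    · rw [← cnt_eq, ← cnt_eq]
      exact h v hv
    · rw [List.mem_append, not_or] at hv
      rw [List.count_eq_zero_of_not_mem hv.1, List.count_eq_zero_of_not_mem hv.2]
  · intro h v _
    rw [cnt_eq, cnt_eq, ← mon_apply, ← mon_apply, h]

theorem prod_map_X {A : Type} [CommRing A] (m : List ℕ) :
    (m.map (MvPolynomial.X : ℕ → MvPolynomial ℕ A)).prod = MvPolynomial.monomial (mon m) 1 := by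
  unfold mon
  induction m with
  | nil => simp
  | cons a m ih =>
    rw [List.map_cons, List.prod_cons, ih, List.map_cons, List.sum_cons, MvPolynomial.X,
      MvPolynomial.monomial_mul, one_mul]

open Classical in
theorem coeff_ev {A : Type} [CommRing A] (P : Pol) (s : ℕ →₀ ℕ) :
    MvPolynomial.coeff s (Pol.ev (MvPolynomial.X : ℕ → MvPolynomial ℕ A) P) =
      ((P.filter fun c => c.1 && decide (mon c.2 = s)).length : A) -
        ((P.filter fun c => !c.1 && decide (mon c.2 = s)).length : A) := by
  induction P with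
  | nil => simp [ev_nil]
  | cons c P ih =>
    rw [ev_cons, MvPolynomial.coeff_add, ih, prod_map_X]
    obtain ⟨b, m⟩ := c
    by_cases h : mon m = s
    · cases b
      · simp [sg, h]
        ring
      · simp [sg, h]
        ring
    · cases b
      · simp [sg, h, MvPolynomial.coeff_monomial]
      · simp [sg, h, MvPolynomial.coeff_monomial]

theorem zer_iff (d : ℕ) (P : Pol) :
    zer d P ↔ Pol.ev (MvPolynomial.X : ℕ → MvPolynomial ℕ (ZMod d)) P = 0 := by
  classical
  have hf : ∀ (c : Bool × List ℕ), (P.filter fun c' => c'.1 && same c'.2 c.2) =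
      P.filter fun c' => c'.1 && decide (mon c'.2 = mon c.2) := by
    intro c
    apply List.filter_congr
    intro a _
    congr 1
    rw [Bool.eq_iff_iff, same_iff, decide_eq_true_iff]
  have hg : ∀ (c : Bool × List ℕ), (P.filter fun c' => !c'.1 && same c'.2 c.2) =
      P.filter fun c' => !c'.1 && decide (mon c'.2 = mon c.2) := by
    intro c
    apply List.filter_congr
    intro a _
    congr 1
    rw [Bool.eq_iff_iff, same_iff, decide_eq_true_iff]
  constructor
  · intro h
    ext s
    rw [coeff_ev, MvPolynomial.coeff_zero]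
    by_cases hs : ∃ c ∈ P, mon c.2 = s
    · obtain ⟨c, hc, rfl⟩ := hs
      have h1 := h c hc
      rw [hf, hg, ← ZMod.natCast_eq_natCast_iff'] at h1
      rw [h1, sub_self]
    · push Not at hs
      have e1 : (P.filter fun c => c.1 && decide (mon c.2 = s)) = [] := by
        rw [List.filter_eq_nil_iff]
        intro c hc
        simp [hs c hc]
      have e2 : (P.filter fun c => !c.1 && decide (mon c.2 = s)) = [] := by
        rw [List.filter_eq_nil_iff]
        intro c hc
        simp [hs c hc]
      rw [e1, e2]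
      simp
  · intro h c hc
    have h1 := coeff_ev (A := ZMod d) P (mon c.2)
    rw [h, MvPolynomial.coeff_zero] at h1
    rw [hf, hg, ← ZMod.natCast_eq_natCast_iff']
    exact (sub_eq_zero.1 h1.symm)

/-! ## every polynomial is a value -/

theorem ev_surj (d : ℕ) (q : MvPolynomial ℕ (ZMod d)) :
    ∃ h : Pol, Pol.ev (MvPolynomial.X : ℕ → MvPolynomial ℕ (ZMod d)) h = q := by
  induction q using MvPolynomial.induction_on with
  | C a =>
    obtain ⟨z, rfl⟩ := ZMod.intCast_surjective a
    obtain ⟨n, rfl | rfl⟩ := z.eq_nat_or_neg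
    · refine ⟨Pol.nsc n Pol.one, ?_⟩
      rw [ev_nsc, ev_one]
      simp
    · refine ⟨Pol.nsc n [(false, [])], ?_⟩
      rw [ev_nsc, ev_cons, ev_nil]
      simp [sg]
  | add p q hp hq =>
    obtain ⟨h1, rfl⟩ := hp
    obtain ⟨h2, rfl⟩ := hq
    exact ⟨h1 ++ h2, ev_append _ _ _⟩
  | mul_X p i hp =>
    obtain ⟨h1, rfl⟩ := hp
    refine ⟨Pol.mul h1 [(true, [i])], ?_⟩
    rw [ev_mul, ev_cons, ev_nil]
    simp [sg]

/-! ## powers of the ideal -/

theorem list_prod_mem_pow {A : Type} [CommRing A] (I : Ideal A) (l : List A) (h : ∀ a ∈ l, a ∈ I) :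
    l.prod ∈ I ^ l.length := by
  induction l with
  | nil => simp
  | cons a l ih =>
    rw [List.prod_cons, List.length_cons, pow_succ']
    exact Ideal.mul_mem_mul (h a (by simp)) (ih fun b hb => h b (by simp [hb]))

/-- the value of a list of products -/
noncomputable def val (d : ℕ) (L : List (List Pol × Pol)) : MvPolynomial ℕ (ZMod d) :=
  (L.map fun l => Pol.ev MvPolynomial.X l.2 * Pol.ev MvPolynomial.X (Pol.prodl l.1)).sum

theorem val_append (d : ℕ) (L L' : List (List Pol × Pol)) :
    val d (L ++ L') = val d L + val d L' := by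
  simp [val]

/-- the elements which are sums of multiples of products of `i` elements of `F` -/
noncomputable def Rep (d : ℕ) (F : List Pol) (i : ℕ) : Ideal (MvPolynomial ℕ (ZMod d)) where
  carrier := {a | ∃ L : List (List Pol × Pol),
    (∀ l ∈ L, l.1.length = i ∧ ∀ f ∈ l.1, f ∈ F) ∧ val d L = a}
  zero_mem' := ⟨[], by simp, rfl⟩
  add_mem' := by
    rintro a b ⟨L, hL, rfl⟩ ⟨L', hL', rfl⟩
    refine ⟨L ++ L', ?_, val_append d L L'⟩
    intro l hl
    rcases List.mem_append.1 hl with hl | hl
    · exact hL l hl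
    · exact hL' l hl
  smul_mem' := by
    rintro c a ⟨L, hL, rfl⟩
    obtain ⟨h, rfl⟩ := ev_surj d c
    refine ⟨L.map fun l => (l.1, Pol.mul h l.2), ?_, ?_⟩
    · intro l hl
      obtain ⟨l', hl', rfl⟩ := List.mem_map.1 hl
      exact hL l' hl'
    · clear hL
      induction L with
      | nil => simp [val]
      | cons l L ih =>
        simp only [val, List.map_cons, List.sum_cons, smul_eq_mul, mul_add] at ih ⊢
        rw [ih, ev_mul]
        ring

theorem mem_rep {d : ℕ} {F : List Pol} {i : ℕ} {a : MvPolynomial ℕ (ZMod d)} :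
    a ∈ Rep d F i ↔ ∃ L : List (List Pol × Pol),
      (∀ l ∈ L, l.1.length = i ∧ ∀ f ∈ l.1, f ∈ F) ∧ val d L = a := Iff.rfl

theorem mul_mem_rep {d : ℕ} {F : List Pol} {i : ℕ} {a : MvPolynomial ℕ (ZMod d)} {f : Pol}
    (hf : f ∈ F) (ha : a ∈ Rep d F i) : Pol.ev MvPolynomial.X f * a ∈ Rep d F (i + 1) := by
  obtain ⟨L, hL, rfl⟩ := mem_rep.1 ha
  refine mem_rep.2 ⟨L.map fun l => (f :: l.1, l.2), ?_, ?_⟩
  · intro l hl
    obtain ⟨l', hl', rfl⟩ := List.mem_map.1 hl
    refine ⟨by simp [(hL l' hl').1], ?_⟩
    intro g hg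
    rcases List.mem_cons.1 hg with rfl | hg
    · exact hf
    · exact (hL l' hl').2 g hg
  · clear hL ha
    induction L with
    | nil => simp [val]
    | cons l L ih =>
      simp only [val, List.map_cons, List.sum_cons, mul_add] at ih ⊢
      rw [ih, ev_prodl, ev_prodl, List.map_cons, List.prod_cons]
      ring

theorem pow_le_rep (d : ℕ) (F : List Pol) (i : ℕ) :
    (Ideal.span {q : MvPolynomial ℕ (ZMod d) | ∃ f ∈ F, q = Pol.ev MvPolynomial.X f}) ^ i ≤
      Rep d F i := by
  induction i with
  | zero =>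
    intro a _
    obtain ⟨h, rfl⟩ := ev_surj d a
    refine mem_rep.2 ⟨[([], h)], by simp, ?_⟩
    simp [val, ev_prodl]
  | succ i ih =>
    rw [pow_succ', Ideal.mul_le]
    intro r hr s hs
    have hs' := ih hs
    refine Submodule.span_induction (p := fun r _ => r * s ∈ Rep d F (i + 1)) ?_ ?_ ?_ ?_ hr
    · rintro _ ⟨f, hf, rfl⟩
      exact mul_mem_rep hf hs'
    · simp
    · intro a b _ _ ha hb
      rw [add_mul]
      exact add_mem ha hb
    · intro a b _ hb
      rw [smul_eq_mul, mul_assoc]
      exact Ideal.mul_mem_left _ _ hb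

/-! ## the equation -/

theorem ev_eqn {R : Type} [CommRing R] (x : ℕ → R) (M : ℕ) (g : Pol) (m : ℕ)
    (L : List (List Pol × Pol)) :
    Pol.ev x (eqn M g m L) = (M : R) * Pol.ev x g ^ (m + 1) +
      (L.map fun l => Pol.ev x l.2 * Pol.ev x (Pol.prodl l.1) *
        Pol.ev x g ^ (m + 1 - l.1.length)).sum := by
  unfold eqn
  rw [ev_append, ev_nsc, ev_pow, ev_flatMap]
  congr 3
  funext l
  rw [ev_mul, ev_mul, ev_pow]
  ring

/-- regrouping by length -/
theorem regroup {R : Type} [CommRing R] (G : R) (m : ℕ) (t : List Pol × Pol → R)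
    (L : List (List Pol × Pol)) (hL : ∀ l ∈ L, 1 ≤ l.1.length ∧ l.1.length ≤ m + 1) :
    ∑ i ∈ Finset.range (m + 1),
      (L.map fun l => if l.1.length = i + 1 then t l else 0).sum * G ^ (m - i) =
      (L.map fun l => t l * G ^ (m + 1 - l.1.length)).sum := by
  induction L with
  | nil => simp
  | cons l L ih =>
    simp only [List.map_cons, List.sum_cons, add_mul, Finset.sum_add_distrib]
    rw [ih fun l' hl' => hL l' (by simp [hl'])]
    congr 1
    obtain ⟨h1, h2⟩ := hL l (by simp)
    rw [Finset.sum_eq_single (l.1.length - 1)]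
    · rw [if_pos (by omega)]
      congr 2
      omega
    · intro i _ hi
      rw [if_neg (by omega), zero_mul]
    · intro hi
      exact absurd (Finset.mem_range.2 (by omega)) hi

theorem sum_flatMap_range {R : Type} [CommRing R] {β : Type*} (t : β → R) (f : ℕ → List β)
    (n : ℕ) : (((List.range n).flatMap f).map t).sum =
      ∑ i ∈ Finset.range n, ((f i).map t).sum := by
  induction n with
  | zero => simp
  | succ n ih =>
    rw [List.range_succ, List.flatMap_append, List.map_append, List.sum_append, ih,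
      Finset.sum_range_succ]
    simp

theorem cert_iff (d M : ℕ) (F : List Pol) (g : Pol) :
    (∃ w, chk1 d M F g w) ↔
      IntegralM M (Ideal.span {q : MvPolynomial ℕ (ZMod d) | ∃ f ∈ F, q = Pol.ev MvPolynomial.X f})
        (Pol.ev MvPolynomial.X g) := by
  constructor
  · rintro ⟨⟨m, L⟩, hL, hz⟩
    rw [zer_iff, ev_eqn] at hz
    simp only at hL hz
    refine ⟨m, fun i => (L.map fun l => if l.1.length = i then
      Pol.ev MvPolynomial.X l.2 * Pol.ev MvPolynomial.X (Pol.prodl l.1) else 0).sum, ?_, ?_⟩
    · intro i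
      refine list_sum_mem ?_
      intro a ha
      obtain ⟨l, hl, rfl⟩ := List.mem_map.1 ha
      split_ifs with h
      · refine Ideal.mul_mem_left _ _ ?_
        rw [ev_prodl, ← h]
        have := list_prod_mem_pow (Ideal.span {q : MvPolynomial ℕ (ZMod d) |
          ∃ f ∈ F, q = Pol.ev MvPolynomial.X f}) (l.1.map (Pol.ev MvPolynomial.X)) ?_
        · rwa [List.length_map] at this
        · intro b hb
          obtain ⟨f, hf, rfl⟩ := List.mem_map.1 hb
          exact Ideal.subset_span ⟨f, (hL l hl).2.2 f hf, rfl⟩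
      · exact zero_mem _
    · rw [regroup _ _ (fun l => Pol.ev MvPolynomial.X l.2 * Pol.ev MvPolynomial.X (Pol.prodl l.1))
        L fun l hl => ⟨(hL l hl).1, (hL l hl).2.1⟩]
      exact hz
  · rintro ⟨m, a, ha, he⟩
    have hrep : ∀ i, ∃ L : List (List Pol × Pol),
        (∀ l ∈ L, l.1.length = i ∧ ∀ f ∈ l.1, f ∈ F) ∧ val d L = a i :=
      fun i => mem_rep.1 (pow_le_rep d F i (ha i))
    choose L hL hv using hrep
    refine ⟨(m, (List.range (m + 1)).flatMap fun i => L (i + 1)), ?_, ?_⟩
    · intro l hl
      obtain ⟨i, hi, hl⟩ := List.mem_flatMap.1 hl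
      have hi' := List.mem_range.1 hi
      obtain ⟨h1, h2⟩ := hL (i + 1) l hl
      exact ⟨by omega, by simp only; omega, h2⟩
    · rw [zer_iff, ev_eqn]
      simp only
      rw [← he]
      congr 1
      rw [sum_flatMap_range]
      refine Finset.sum_congr rfl fun i hi => ?_
      have hi' := Finset.mem_range.1 hi
      rw [← hv (i + 1)]
      have := hL (i + 1)
      revert this
      generalize L (i + 1) = K
      intro hK
      unfold val
      induction K with
      | nil => simp
      | cons l K ih =>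
        rw [List.map_cons, List.sum_cons, List.map_cons, List.sum_cons, add_mul,
          ih fun l' hl' => hK l' (by simp [hl'])]
        congr 2
        have := (hK l (by simp)).1
        rw [this, Nat.add_sub_add_right]

end Pool.Agent.ZAB
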