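import Pool.Agent.ZAB.Dec

set_option autoImplicit false

/-!
# The certificates are primitive recursive
-/

namespace Pool.Agent.ZAB

section PF

variable {α β γ : Type} [Primcodable α] [Primcodable β] [Primcodable γ]

private theorem filterP {f : α → List β} {p : α → β → Bool} (hf : Primrec f)
    (hp : Primrec₂ p) : Primrec fun a => (f a).filter (p a) := by
  refine (Primrec.listFilterMap hf (g := fun a b => bif p a b then some b else none) ?_).of_eq ?_
  · exact Primrec.cond hp (Primrec.option_some.comp Primrec.snd) (Primrec.const none)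
  · intro a
    induction f a with
    | nil => rfl
    | cons b l ih =>
      cases h : p a b <;> simp [h, ih]

private theorem allP {f : α → List β} {R : α → β → Prop} (hf : Primrec f)
    (hR : PrimrecPred fun q : α × β => R q.1 q.2) : PrimrecPred fun a => ∀ b ∈ f a, R a b := by
  have h : PrimrecRel fun (b : β) (a : α) => R a b :=
    PrimrecPred.comp hR (Primrec.pair Primrec.snd Primrec.fst)
  exact h.forall_mem_list.comp hf Primrec.id

private theorem memP {f : α → List β} {g : α → β} (hf : Primrec f) (hg : Primrec g) :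
    PrimrecPred fun a => g a ∈ f a := by
  have h : PrimrecRel fun (b c : β) => b = c := Primrec.eq
  refine (h.exists_mem_list.comp hf hg).of_eq fun a => ?_
  constructor
  · rintro ⟨b, hb, rfl⟩
    exact hb
  · intro hb
    exact ⟨_, hb, rfl⟩

private theorem nsc_p {j : α → ℕ} {p : α → Pol} (hj : Primrec j) (hp : Primrec p) :
    Primrec fun a => Pol.nsc (j a) (p a) := by
  unfold Pol.nsc
  exact Primrec.list_flatMap (Primrec.list_range.comp hj) (hp.comp Primrec.fst)

private theorem mul_p {p q : α → Pol} (hp : Primrec p) (hq : Primrec q) :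
    Primrec fun a => Pol.mul (p a) (q a) := by
  unfold Pol.mul
  refine Primrec.list_flatMap hp ?_
  refine Primrec.list_map (f := fun r : α × (Bool × List ℕ) => q r.1)
    (g := fun r b => (r.2.1 == b.1, r.2.2 ++ b.2)) (hq.comp Primrec.fst) ?_
  refine Primrec.pair ?_ ?_
  · exact Primrec.beq.comp (Primrec.fst.comp (Primrec.snd.comp Primrec.fst))
      (Primrec.fst.comp Primrec.snd)
  · exact Primrec.list_append.comp (Primrec.snd.comp (Primrec.snd.comp Primrec.fst))
      (Primrec.snd.comp Primrec.snd)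

private theorem pow_p {p : α → Pol} {n : α → ℕ} (hp : Primrec p) (hn : Primrec n) :
    Primrec fun a => Pol.pow (p a) (n a) := by
  unfold Pol.pow
  exact Primrec.nat_iterate (h := fun a Q => Pol.mul (p a) Q) hn (Primrec.const Pol.one)
    (mul_p (hp.comp Primrec.fst) Primrec.snd)

private theorem prodl_p {l : α → List Pol} (hl : Primrec l) :
    Primrec fun a => Pol.prodl (l a) := by
  unfold Pol.prodl
  exact Primrec.list_foldr (h := fun _ b => Pol.mul b.1 b.2) hl (Primrec.const Pol.one)
    (mul_p (Primrec.fst.comp Primrec.snd) (Primrec.snd.comp Primrec.snd))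

private theorem subst_p {Y : α → List Pol} {P : α → Pol} (hY : Primrec Y) (hP : Primrec P) :
    Primrec fun a => Pol.subst (Y a) (P a) := by
  unfold Pol.subst
  refine Primrec.list_flatMap hP ?_
  refine Primrec.list_map
    (f := fun r : α × (Bool × List ℕ) => Pol.prodl (r.2.2.map fun v => (Y r.1).getD v []))
    (g := fun r d => (r.2.1 == d.1, d.2)) ?_ ?_
  · refine prodl_p (Primrec.list_map (Primrec.snd.comp Primrec.snd) ?_)
    exact (Primrec.list_getD []).comp (hY.comp (Primrec.fst.comp Primrec.fst)) Primrec.snd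
  · refine Primrec.pair ?_ (Primrec.snd.comp Primrec.snd)
    exact Primrec.beq.comp (Primrec.fst.comp (Primrec.snd.comp Primrec.fst))
      (Primrec.fst.comp Primrec.snd)

private theorem ren0_p {P : α → Pol} (hP : Primrec P) : Primrec fun a => Pol.ren0 (P a) := by
  unfold Pol.ren0
  refine Primrec.list_map hP (g := fun _ c => (c.1, c.2.map fun _ => 0)) ?_
  refine Primrec.pair (Primrec.fst.comp Primrec.snd) ?_
  exact Primrec.list_map (Primrec.snd.comp Primrec.snd) (Primrec.const 0).to₂

private theorem cnt_p {i : α → ℕ} {m : α → List ℕ} (hi : Primrec i) (hm : Primrec m) :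
    Primrec fun a => cnt (i a) (m a) := by
  unfold cnt
  refine Primrec.list_length.comp (filterP (p := fun a b => decide (b = i a)) hm ?_)
  exact (Primrec.eq.comp Primrec.snd (hi.comp Primrec.fst)).decide

private theorem same_p {m m' : α → List ℕ} (hm : Primrec m) (hm' : Primrec m') :
    Primrec fun a => same (m a) (m' a) := by
  unfold same
  refine PrimrecPred.decide (allP (R := fun a v => cnt v (m a) = cnt v (m' a))
    (Primrec.list_append.comp hm hm') ?_)
  exact Primrec.eq.comp (cnt_p Primrec.snd (hm.comp Primrec.fst))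
    (cnt_p Primrec.snd (hm'.comp Primrec.fst))

private theorem zer_p {d : α → ℕ} {P : α → Pol} (hd : Primrec d) (hP : Primrec P) :
    PrimrecPred fun a => zer (d a) (P a) := by
  unfold zer
  refine allP (R := fun a c => ((P a).filter fun c' => c'.1 && same c'.2 c.2).length % d a =
    ((P a).filter fun c' => !c'.1 && same c'.2 c.2).length % d a) hP ?_
  have h1 : Primrec₂ fun (q : α × (Bool × List ℕ)) (c' : Bool × List ℕ) =>
      same c'.2 q.2.2 := same_p (Primrec.snd.comp Primrec.snd)
        (Primrec.snd.comp (Primrec.snd.comp Primrec.fst))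
  have h2 : Primrec₂ fun (q : α × (Bool × List ℕ)) (c' : Bool × List ℕ) => c'.1 :=
    Primrec.fst.comp Primrec.snd
  refine Primrec.eq.comp (Primrec.nat_mod.comp (Primrec.list_length.comp
    (filterP (p := fun (q : α × (Bool × List ℕ)) c' => c'.1 && same c'.2 q.2.2)
      (hP.comp Primrec.fst) ?_)) (hd.comp Primrec.fst))
    (Primrec.nat_mod.comp (Primrec.list_length.comp
    (filterP (p := fun (q : α × (Bool × List ℕ)) c' => !c'.1 && same c'.2 q.2.2)
      (hP.comp Primrec.fst) ?_)) (hd.comp Primrec.fst))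
  · exact Primrec.and.comp h2 h1
  · exact Primrec.and.comp (Primrec.not.comp h2) h1

private theorem eqn_p {M : α → ℕ} {g : α → Pol} {m : α → ℕ} {L : α → List (List Pol × Pol)}
    (hM : Primrec M) (hg : Primrec g) (hm : Primrec m) (hL : Primrec L) :
    Primrec fun a => eqn (M a) (g a) (m a) (L a) := by
  unfold eqn
  have hm1 : Primrec fun a => m a + 1 := Primrec.succ.comp hm
  refine Primrec.list_append.comp (nsc_p hM (pow_p hg hm1)) (Primrec.list_flatMap hL ?_)
  refine mul_p (Primrec.snd.comp Primrec.snd) (mul_p (prodl_p (Primrec.fst.comp Primrec.snd)) ?_)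
  refine pow_p (hg.comp Primrec.fst) ?_
  exact Primrec.nat_sub.comp (hm1.comp Primrec.fst)
    (Primrec.list_length.comp (Primrec.fst.comp Primrec.snd))

theorem primrec_chk1 {d M : α → ℕ} {F : α → List Pol} {g : α → Pol}
    {w : α → ℕ × List (List Pol × Pol)} (hd : Primrec d) (hM : Primrec M) (hF : Primrec F)
    (hg : Primrec g) (hw : Primrec w) :
    PrimrecPred fun a => chk1 (d a) (M a) (F a) (g a) (w a) := by
  unfold chk1
  have hw1 : Primrec fun a => (w a).1 := Primrec.fst.comp hw
  have hw2 : Primrec fun a => (w a).2 := Primrec.snd.comp hw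
  refine PrimrecPred.and (allP (R := fun a l => 1 ≤ l.1.length ∧ l.1.length ≤ (w a).1 + 1 ∧
    ∀ f ∈ l.1, f ∈ F a) hw2 ?_) (zer_p hd (eqn_p hM hg hw1 hw2))
  have hl : Primrec fun q : α × (List Pol × Pol) => q.2.1 := Primrec.fst.comp Primrec.snd
  refine PrimrecPred.and (Primrec.nat_le.comp (Primrec.const 1) (Primrec.list_length.comp hl))
    (PrimrecPred.and (Primrec.nat_le.comp (Primrec.list_length.comp hl)
      (Primrec.succ.comp (hw1.comp Primrec.fst))) ?_)
  exact allP (R := fun (q : α × (List Pol × Pol)) f => f ∈ F q.1) hl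
    (memP (hF.comp (Primrec.fst.comp Primrec.fst)) Primrec.snd)

private theorem ctest_p {d r N : α → ℕ} {P : α → Pol} (hd : Primrec d) (hr : Primrec r)
    (hN : Primrec N) (hP : Primrec P) : PrimrecPred fun a => ctest (d a) (r a) (N a) (P a) := by
  unfold ctest
  have e : ∀ a, (∀ c ∈ P a, cnt 1 c.2 ≤ N a →
      ((P a).filter fun c' => c'.1 && (decide (cnt 1 c'.2 = cnt 1 c.2) &&
        decide (cnt 0 c'.2 % r a = cnt 0 c.2 % r a))).length % d a =
      ((P a).filter fun c' => !c'.1 && (decide (cnt 1 c'.2 = cnt 1 c.2) &&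
        decide (cnt 0 c'.2 % r a = cnt 0 c.2 % r a))).length % d a) ↔
      (∀ c ∈ P a, ¬ cnt 1 c.2 ≤ N a ∨
      ((P a).filter fun c' => c'.1 && (decide (cnt 1 c'.2 = cnt 1 c.2) &&
        decide (cnt 0 c'.2 % r a = cnt 0 c.2 % r a))).length % d a =
      ((P a).filter fun c' => !c'.1 && (decide (cnt 1 c'.2 = cnt 1 c.2) &&
        decide (cnt 0 c'.2 % r a = cnt 0 c.2 % r a))).length % d a) := fun a =>
    forall₂_congr fun c _ => imp_iff_not_or
  refine PrimrecPred.of_eq ?_ fun a => (e a).symm
  refine allP (R := fun a c => ¬ cnt 1 c.2 ≤ N a ∨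
      ((P a).filter fun c' => c'.1 && (decide (cnt 1 c'.2 = cnt 1 c.2) &&
        decide (cnt 0 c'.2 % r a = cnt 0 c.2 % r a))).length % d a =
      ((P a).filter fun c' => !c'.1 && (decide (cnt 1 c'.2 = cnt 1 c.2) &&
        decide (cnt 0 c'.2 % r a = cnt 0 c.2 % r a))).length % d a) hP ?_
  refine PrimrecPred.or (PrimrecPred.not (Primrec.nat_le.comp
    (cnt_p (Primrec.const 1) (Primrec.snd.comp Primrec.snd)) (hN.comp Primrec.fst))) ?_
  have hm' : Primrec fun s : (α × (Bool × List ℕ)) × (Bool × List ℕ) => s.2.2 :=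
    Primrec.snd.comp Primrec.snd
  have hm : Primrec fun s : (α × (Bool × List ℕ)) × (Bool × List ℕ) => s.1.2.2 :=
    Primrec.snd.comp (Primrec.snd.comp Primrec.fst)
  have hrr : Primrec fun s : (α × (Bool × List ℕ)) × (Bool × List ℕ) => r s.1.1 :=
    hr.comp (Primrec.fst.comp Primrec.fst)
  have h1 : Primrec₂ fun (q : α × (Bool × List ℕ)) (c' : Bool × List ℕ) =>
      (decide (cnt 1 c'.2 = cnt 1 q.2.2) && decide (cnt 0 c'.2 % r q.1 = cnt 0 q.2.2 % r q.1)) :=
    Primrec.and.comp
      (PrimrecPred.decide (Primrec.eq.comp (cnt_p (Primrec.const 1) hm')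
        (cnt_p (Primrec.const 1) hm)))
      (PrimrecPred.decide (Primrec.eq.comp
        (Primrec.nat_mod.comp (cnt_p (Primrec.const 0) hm') hrr)
        (Primrec.nat_mod.comp (cnt_p (Primrec.const 0) hm) hrr)))
  have h2 : Primrec₂ fun (q : α × (Bool × List ℕ)) (c' : Bool × List ℕ) => c'.1 :=
    Primrec.fst.comp Primrec.snd
  refine Primrec.eq.comp (Primrec.nat_mod.comp (Primrec.list_length.comp
    (filterP (p := fun (q : α × (Bool × List ℕ)) c' => c'.1 &&
      (decide (cnt 1 c'.2 = cnt 1 q.2.2) && decide (cnt 0 c'.2 % r q.1 = cnt 0 q.2.2 % r q.1)))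
      (hP.comp Primrec.fst) ?_)) (hd.comp Primrec.fst))
    (Primrec.nat_mod.comp (Primrec.list_length.comp
    (filterP (p := fun (q : α × (Bool × List ℕ)) c' => !c'.1 &&
      (decide (cnt 1 c'.2 = cnt 1 q.2.2) && decide (cnt 0 c'.2 % r q.1 = cnt 0 q.2.2 % r q.1)))
      (hP.comp Primrec.fst) ?_)) (hd.comp Primrec.fst))
  · exact Primrec.and.comp h2 h1
  · exact Primrec.and.comp (Primrec.not.comp h2) h1

private theorem natpow_p {a b : α → ℕ} (ha : Primrec a) (hb : Primrec b) :
    Primrec fun x => a x ^ b x := by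
  have h := Primrec.nat_iterate (h := fun x n => a x * n) hb (Primrec.const 1)
    (Primrec.nat_mul.comp (ha.comp Primrec.fst) Primrec.snd)
  refine h.of_eq fun x => ?_
  generalize b x = n
  induction n with
  | zero => simp
  | succ n ih => rw [Function.iterate_succ_apply', ih, pow_succ, mul_comm]

theorem primrec_chk2 {p : α → ℕ} {F : α → List Pol} {g : α → Pol}
    {w : α → ℕ × ℕ × Pol × List Pol} (hp : Primrec p) (hF : Primrec F)
    (hg : Primrec g) (hw : Primrec w) : PrimrecPred fun a => chk2 (p a) (F a) (g a) (w a) := by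
  unfold chk2
  have hs : Primrec fun a => p a ^ ((w a).1 + 1) - 1 :=
    Primrec.nat_sub.comp (natpow_p hp (Primrec.succ.comp (Primrec.fst.comp hw))) (Primrec.const 1)
  have hN : Primrec fun a => (w a).2.1 := Primrec.fst.comp (Primrec.snd.comp hw)
  have he : Primrec fun a => Pol.ren0 (w a).2.2.1 :=
    ren0_p (Primrec.fst.comp (Primrec.snd.comp (Primrec.snd.comp hw)))
  have hY : Primrec fun a => (w a).2.2.2 :=
    Primrec.snd.comp (Primrec.snd.comp (Primrec.snd.comp hw))
  refine PrimrecPred.and (allP (R := fun a f => ctest (p a) (p a ^ ((w a).1 + 1) - 1) (w a).2.1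
    (Pol.mul (Pol.ren0 (w a).2.2.1) (Pol.subst (w a).2.2.2 f))) hF ?_) (PrimrecPred.not ?_)
  · exact ctest_p (hp.comp Primrec.fst) (hs.comp Primrec.fst) (hN.comp Primrec.fst)
      (mul_p (he.comp Primrec.fst) (subst_p (hY.comp Primrec.fst) Primrec.snd))
  · exact ctest_p hp hs hN (mul_p he (subst_p hY hg))

theorem computable_of_search {P : α → Prop} {T F : α → ℕ → Prop} (hT : PrimrecRel T)
    (hF : PrimrecRel F) (h1 : ∀ a, P a ↔ ∃ n, T a n) (h2 : ∀ a, ¬ P a ↔ ∃ n, F a n) :
    ComputablePred P := by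
  classical
  have hor : PrimrecPred fun q : α × ℕ => T q.1 q.2 ∨ F q.1 q.2 := PrimrecPred.or hT hF
  have hex : ∀ a, ∃ n, T a n ∨ F a n := by
    intro a
    by_cases h : P a
    · obtain ⟨n, hn⟩ := (h1 a).1 h
      exact ⟨n, Or.inl hn⟩
    · obtain ⟨n, hn⟩ := (h2 a).1 h
      exact ⟨n, Or.inr hn⟩
  have hfind : Computable fun a => Nat.find (hex a) :=
    Computable.find (P := fun a n => T a n ∨ F a n) hor.computablePred hex
  have hTd : Computable fun q : α × ℕ => decide (T q.1 q.2) :=
    (PrimrecPred.decide (p := fun q : α × ℕ => T q.1 q.2) hT).to_comp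
  have hc : Computable fun a => decide (T a (Nat.find (hex a))) :=
    hTd.comp (Computable.id.pair hfind)
  refine (Computable.computablePred hc).of_eq fun a => ?_
  constructor
  · intro h
    exact (h1 a).2 ⟨_, h⟩
  · intro h
    rcases Nat.find_spec (hex a) with h3 | h3
    · exact h3
    · exact absurd h ((h2 a).2 ⟨_, h3⟩)

end PF

end Pool.Agent.ZAB
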