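import Pool.Agent.ZAB.E3
import Pool.Agent.ZAB.PD
import Pool.Agent.ZAB.PF

set_option autoImplicit false

namespace Pool.Agent.ZAB

open MvPolynomial

/-! bounded quantifiers -/

section prim
variable {α β : Type} [Primcodable α] [Primcodable β]

private theorem allP {f : α → List β} {R : α → β → Prop} (hf : Primrec f)
    (hR : PrimrecPred fun q : α × β => R q.1 q.2) : PrimrecPred fun a => ∀ b ∈ f a, R a b := by
  have h : PrimrecRel fun (b : β) (a : α) => R a b :=
    PrimrecPred.comp hR (Primrec.pair Primrec.snd Primrec.fst)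
  exact h.forall_mem_list.comp hf Primrec.id

private theorem exP {f : α → List β} {R : α → β → Prop} (hf : Primrec f)
    (hR : PrimrecPred fun q : α × β => R q.1 q.2) : PrimrecPred fun a => ∃ b ∈ f a, R a b := by
  have h : PrimrecRel fun (b : β) (a : α) => R a b :=
    PrimrecPred.comp hR (Primrec.pair Primrec.snd Primrec.fst)
  exact h.exists_mem_list.comp hf Primrec.id

private theorem allLt {f : α → ℕ} {R : α → ℕ → Prop} (hf : Primrec f)
    (hR : PrimrecPred fun q : α × ℕ => R q.1 q.2) : PrimrecPred fun a => ∀ b < f a, R a b :=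
  (allP (Primrec.list_range.comp hf) hR).of_eq fun a => by simp

private theorem exLt {f : α → ℕ} {R : α → ℕ → Prop} (hf : Primrec f)
    (hR : PrimrecPred fun q : α × ℕ => R q.1 q.2) : PrimrecPred fun a => ∃ b < f a, R a b :=
  (exP (Primrec.list_range.comp hf) hR).of_eq fun a => by simp

theorem primrec_prime {p : α → ℕ} (hp : Primrec p) : PrimrecPred fun a => (p a).Prime := by
  have h1 : PrimrecPred fun a => 2 ≤ p a := Primrec.nat_le.comp (Primrec.const 2) hp
  have h2 : PrimrecPred fun a => ∀ m < p a, ¬ (p a % m = 0) ∨ m = 1 := by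
    refine allLt hp ?_
    refine PrimrecPred.or (PrimrecPred.not ?_) ?_
    · exact Primrec.eq.comp (Primrec.nat_mod.comp (hp.comp Primrec.fst) Primrec.snd) (Primrec.const 0)
    · exact Primrec.eq.comp Primrec.snd (Primrec.const 1)
  refine (h1.and h2).of_eq ?_
  intro a
  rw [Nat.prime_def_lt]
  constructor
  · rintro ⟨h1, h2⟩
    refine ⟨h1, fun m hm hd => ?_⟩
    rcases h2 m hm with h | h
    · exact absurd (Nat.mod_eq_zero_of_dvd hd) h
    · exact h
  · rintro ⟨h1, h2⟩
    refine ⟨h1, fun m hm => ?_⟩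
    by_cases hd : p a % m = 0
    · exact Or.inr (h2 m hm (Nat.dvd_of_mod_eq_zero hd))
    · exact Or.inl hd

end prim

/-- decoding with a default value -/
def dec (W : Type) [Encodable W] [Inhabited W] (i : ℕ) : W := (Encodable.decode i : Option W).getD default

theorem dec_encode {W : Type} [Encodable W] [Inhabited W] (w : W) : dec W (Encodable.encode w) = w := by
  simp [dec]

theorem primrec_dec {α W : Type} [Primcodable α] [Primcodable W] [Inhabited W] {i : α → ℕ} (hi : Primrec i) :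
    Primrec fun a => dec W (i a) :=
  Primrec.option_getD.comp (Primrec.decode.comp hi) (Primrec.const default)

/-- the types of the two kinds of certificates -/
abbrev W1 := ℕ × List (List Pol × Pol)
abbrev W2 := ℕ × ℕ × Pol × List Pol

theorem exists_common {α : Type} (L : List α) (S : α → ℕ → Prop) (hm : ∀ a m n, m ≤ n → S a m → S a n)
    (h : ∀ a ∈ L, ∃ B, S a B) : ∃ B, ∀ a ∈ L, S a B := by
  induction L with
  | nil => exact ⟨0, by simp⟩
  | cons a L ih =>
    obtain ⟨B1, hB1⟩ := ih (fun b hb => h b (List.mem_cons_of_mem _ hb))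
    obtain ⟨B2, hB2⟩ := h a List.mem_cons_self
    refine ⟨max B1 B2, fun b hb => ?_⟩
    rcases List.mem_cons.1 hb with h' | h'
    · rw [h']; exact hm _ _ _ (le_max_right _ _) hB2
    · exact hm _ _ _ (le_max_left _ _) (hB1 b h')

/-! certificates for one clause -/

/-- the clause is true modulo `p` with a certificate below `B` -/
def tr (p : ℕ) (c : Clause) (B : ℕ) : Prop :=
  ∃ d ∈ alts c, ∃ i < B, chk1 p 1 (c.1 ++ d.2) d.1 (dec W1 i)

/-- the clause is false modulo `p` with certificates below `B` -/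
def fl (p : ℕ) (c : Clause) (B : ℕ) : Prop :=
  ∀ d ∈ alts c, ∃ i < B, chk2 p (c.1 ++ d.2) d.1 (dec W2 i)

/-- the clause is true for all `p` with certificates below `B` -/
def tr0 (c : Clause) (B : ℕ) : Prop :=
  ∃ M < B, M ≠ 0 ∧ (∃ d ∈ alts c, ∃ i < B, chk1 0 M (c.1 ++ d.2) d.1 (dec W1 i)) ∧
    ∀ p < M + 1, ¬ p.Prime ∨ tr p c B

theorem tr_mono {p : ℕ} {c : Clause} {m n : ℕ} (h : m ≤ n) (ht : tr p c m) : tr p c n := by
  obtain ⟨g, hg, i, hi, hc⟩ := ht
  exact ⟨g, hg, i, lt_of_lt_of_le hi h, hc⟩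

theorem tr0_mono {c : Clause} {m n : ℕ} (h : m ≤ n) (ht : tr0 c m) : tr0 c n := by
  obtain ⟨M, hM, hM0, ⟨g, hg, i, hi, hc⟩, hp⟩ := ht
  refine ⟨M, lt_of_lt_of_le hM h, hM0, ⟨g, hg, i, lt_of_lt_of_le hi h, hc⟩, fun p hpM => ?_⟩
  rcases hp p hpM with h1 | h1
  · exact Or.inl h1
  · exact Or.inr (tr_mono h h1)

theorem holds_iff_tr {p : ℕ} (hp : p.Prime) (c : Clause) : Holds (ZabMod p) c ↔ ∃ B, tr p c B := by
  haveI : Fact p.Prime := ⟨hp⟩
  rw [holds_iff]
  constructor
  · rintro ⟨g, hg, hi⟩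
    obtain ⟨w, hw⟩ := (cert_iff p 1 (c.1 ++ g.2) g.1).2 hi
    exact ⟨Encodable.encode w + 1, g, hg, Encodable.encode w, Nat.lt_succ_self _, by rwa [dec_encode]⟩
  · rintro ⟨B, g, hg, i, -, hc⟩
    exact ⟨g, hg, (cert_iff p 1 (c.1 ++ g.2) g.1).1 ⟨_, hc⟩⟩

theorem not_holds_iff_fl {p : ℕ} (hp : p.Prime) (c : Clause) : ¬ Holds (ZabMod p) c ↔ ∃ B, fl p c B := by
  haveI : Fact p.Prime := ⟨hp⟩
  rw [holds_iff]
  push Not
  constructor
  · intro h
    apply exists_common
    · rintro g m n hmn ⟨i, hi, hc⟩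
      exact ⟨i, lt_of_lt_of_le hi hmn, hc⟩
    · intro g hg
      obtain ⟨w, hw⟩ := (chk2_iff p (c.1 ++ g.2) g.1).2 ((not_integral_iff_arcL (c.1 ++ g.2) g.1).1 (h g hg))
      exact ⟨Encodable.encode w + 1, Encodable.encode w, Nat.lt_succ_self _, by rwa [dec_encode]⟩
  · rintro ⟨B, hB⟩ g hg
    obtain ⟨i, -, hc⟩ := hB g hg
    exact (not_integral_iff_arcL (c.1 ++ g.2) g.1).2 ((chk2_iff p (c.1 ++ g.2) g.1).1 ⟨_, hc⟩)

/-- if some multiple-integral equation exists over the integers the clause holds for almost all `p` -/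
theorem holds_of_zero {c : Clause} {g : Pol × List Pol} (hg : g ∈ alts c) {M : ℕ}
    (h : IntegralM M (idl 0 (c.1 ++ g.2)) (Pol.ev X g.1)) {p : ℕ} (hp : p.Prime) (hpM : ¬ p ∣ M) :
    Holds (ZabMod p) c := by
  haveI : Fact p.Prime := ⟨hp⟩
  exact (holds_iff c).2 ⟨g, hg, integral_mod_of_zero h hp hpM⟩

theorem almost_all_not_holds (c : Clause)
    (h : ∀ g ∈ alts c, ∀ M : ℕ, M ≠ 0 → ¬ IntegralM M (idl 0 (c.1 ++ g.2)) (Pol.ev X g.1)) :
    {p : ℕ | p.Prime ∧ Holds (ZabMod p) c}.Finite := by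
  classical
  have hfin : (⋃ g ∈ {g | g ∈ alts c}, {p : ℕ | p.Prime ∧ ¬ ArcL p (c.1 ++ g.2) g.1}).Finite :=
    Set.Finite.biUnion (List.finite_toSet _) fun g hg => almost_all_arc (c.1 ++ g.2) g.1 (h g hg)
  refine hfin.subset ?_
  rintro p ⟨hp, hh⟩
  haveI : Fact p.Prime := ⟨hp⟩
  obtain ⟨g, hg, hi⟩ := (holds_iff c).1 hh
  rw [Set.mem_iUnion₂]
  exact ⟨g, hg, hp, fun ha => (not_integral_iff_arcL (c.1 ++ g.2) g.1).2 ha hi⟩

theorem almost_all_holds {c : Clause} {g : Pol × List Pol} (hg : g ∈ alts c) {M : ℕ} (hM : M ≠ 0)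
    (h : IntegralM M (idl 0 (c.1 ++ g.2)) (Pol.ev X g.1)) : {p : ℕ | p.Prime ∧ ¬ Holds (ZabMod p) c}.Finite := by
  refine Set.Finite.subset (Finset.finite_toSet M.divisors) ?_
  rintro p ⟨hp, hh⟩
  by_contra hd
  apply hh
  apply holds_of_zero hg h hp
  intro hpM
  exact hd (by simpa using ⟨hpM, hM⟩)

theorem zero_of_forall (c : Clause) (h : ∀ p : ℕ, p.Prime → Holds (ZabMod p) c) :
    ∃ g ∈ alts c, ∃ M : ℕ, M ≠ 0 ∧ IntegralM M (idl 0 (c.1 ++ g.2)) (Pol.ev X g.1) := by
  by_contra hne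
  push Not at hne
  have h1 := almost_all_not_holds c hne
  have h2 : {p : ℕ | p.Prime ∧ Holds (ZabMod p) c} = {p : ℕ | p.Prime} := by
    ext p
    exact ⟨fun h => h.1, fun hp => ⟨hp, h p hp⟩⟩
  rw [h2] at h1
  exact Nat.infinite_setOf_prime h1

theorem forall_holds_iff_tr0 (c : Clause) :
    (∀ p : ℕ, p.Prime → Holds (ZabMod p) c) ↔ ∃ B, tr0 c B := by
  constructor
  · intro h
    obtain ⟨g, hg, M, hM0, hM⟩ := zero_of_forall c h
    obtain ⟨w, hw⟩ := (cert_iff 0 M (c.1 ++ g.2) g.1).2 hM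
    obtain ⟨B, hB⟩ := exists_common (List.range (M + 1)) (fun p B => ¬ p.Prime ∨ tr p c B)
      (by
        rintro p m n hmn (h1 | h1)
        · exact Or.inl h1
        · exact Or.inr (tr_mono hmn h1))
      (by
        intro p _
        by_cases hp : p.Prime
        · obtain ⟨B, hB⟩ := (holds_iff_tr hp c).1 (h p hp)
          exact ⟨B, Or.inr hB⟩
        · exact ⟨0, Or.inl hp⟩)
    refine ⟨max B (max (M + 1) (Encodable.encode w + 1)), M, ?_, hM0, ⟨g, hg, Encodable.encode w, ?_, ?_⟩, ?_⟩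
    · exact lt_of_lt_of_le (Nat.lt_succ_self M) (le_trans (le_max_left _ _) (le_max_right _ _))
    · exact lt_of_lt_of_le (Nat.lt_succ_self _) (le_trans (le_max_right _ _) (le_max_right _ _))
    · rwa [dec_encode]
    · intro p hp
      rcases hB p (List.mem_range.2 hp) with h1 | h1
      · exact Or.inl h1
      · exact Or.inr (tr_mono (le_max_left _ _) h1)
  · rintro ⟨B, M, -, hM0, ⟨g, hg, i, -, hc⟩, hp⟩ p hpp
    by_cases hpM : p ∣ M
    · have hle := Nat.le_of_dvd (Nat.pos_of_ne_zero hM0) hpM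
      rcases hp p (Nat.lt_succ_of_le hle) with h1 | h1
      · exact absurd hpp h1
      · exact (holds_iff_tr hpp c).2 ⟨B, h1⟩
    · exact holds_of_zero hg ((cert_iff 0 M (c.1 ++ g.2) g.1).1 ⟨_, hc⟩) hpp hpM

/-! primitive recursiveness -/

section prim2
variable {α : Type} [Primcodable α]

theorem primrec_alts {c : α → Clause} (hc : Primrec c) : Primrec fun a => alts (c a) :=
  Primrec.list_cons.comp (Primrec.const (Pol.one, [])) (Primrec.snd.comp hc)

theorem primrec_tr {p : α → ℕ} {c : α → Clause} {B : α → ℕ} (hp : Primrec p) (hc : Primrec c)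
    (hB : Primrec B) : PrimrecPred fun a => tr (p a) (c a) (B a) := by
  unfold tr
  refine exP (primrec_alts hc) ?_
  refine exLt (hB.comp Primrec.fst) ?_
  exact primrec_chk1 (hp.comp (Primrec.fst.comp Primrec.fst)) (Primrec.const 1)
    (Primrec.list_append.comp (Primrec.fst.comp (hc.comp (Primrec.fst.comp Primrec.fst)))
      (Primrec.snd.comp (Primrec.snd.comp Primrec.fst)))
    (Primrec.fst.comp (Primrec.snd.comp Primrec.fst)) (primrec_dec Primrec.snd)

theorem primrec_fl {p : α → ℕ} {c : α → Clause} {B : α → ℕ} (hp : Primrec p) (hc : Primrec c)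
    (hB : Primrec B) : PrimrecPred fun a => fl (p a) (c a) (B a) := by
  unfold fl
  refine allP (primrec_alts hc) ?_
  refine exLt (hB.comp Primrec.fst) ?_
  exact primrec_chk2 (hp.comp (Primrec.fst.comp Primrec.fst))
    (Primrec.list_append.comp (Primrec.fst.comp (hc.comp (Primrec.fst.comp Primrec.fst)))
      (Primrec.snd.comp (Primrec.snd.comp Primrec.fst)))
    (Primrec.fst.comp (Primrec.snd.comp Primrec.fst)) (primrec_dec Primrec.snd)

theorem primrec_tr0 {c : α → Clause} {B : α → ℕ} (hc : Primrec c)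
    (hB : Primrec B) : PrimrecPred fun a => tr0 (c a) (B a) := by
  unfold tr0
  refine exLt hB ?_
  refine PrimrecPred.and (PrimrecPred.not (Primrec.eq.comp Primrec.snd (Primrec.const 0))) ?_
  refine PrimrecPred.and ?_ ?_
  · refine exP (primrec_alts (hc.comp Primrec.fst)) ?_
    refine exLt (hB.comp (Primrec.fst.comp Primrec.fst)) ?_
    exact primrec_chk1 (Primrec.const 0) (Primrec.snd.comp (Primrec.fst.comp Primrec.fst))
      (Primrec.list_append.comp (Primrec.fst.comp (hc.comp (Primrec.fst.comp (Primrec.fst.comp Primrec.fst))))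
        (Primrec.snd.comp (Primrec.snd.comp Primrec.fst)))
      (Primrec.fst.comp (Primrec.snd.comp Primrec.fst)) (primrec_dec Primrec.snd)
  · refine allLt (Primrec.succ.comp Primrec.snd) ?_
    refine PrimrecPred.or (PrimrecPred.not (primrec_prime Primrec.snd)) ?_
    exact primrec_tr Primrec.snd (hc.comp (Primrec.fst.comp Primrec.fst))
      (hB.comp (Primrec.fst.comp Primrec.fst))

end prim2

/-- the universal theories of the rings `Z^ab/p` are decidable, uniformly in `p` -/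
theorem decidable_each :
    ComputablePred fun a : ℕ × List Clause => a.1.Prime ∧ ∀ c ∈ a.2, Holds (ZabMod a.1) c := by
  refine computable_of_search (T := fun a B => a.1.Prime ∧ ∀ c ∈ a.2, tr a.1 c B)
    (F := fun a B => ¬ a.1.Prime ∨ ∃ c ∈ a.2, fl a.1 c B) ?_ ?_ ?_ ?_
  · refine PrimrecPred.and (primrec_prime (Primrec.fst.comp Primrec.fst)) ?_
    refine allP (f := fun q : (ℕ × List Clause) × ℕ => q.1.2) (Primrec.snd.comp Primrec.fst) ?_
    exact primrec_tr (Primrec.fst.comp (Primrec.fst.comp Primrec.fst)) Primrec.snd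
      (Primrec.snd.comp Primrec.fst)
  · refine PrimrecPred.or (PrimrecPred.not (primrec_prime (Primrec.fst.comp Primrec.fst))) ?_
    refine exP (f := fun q : (ℕ × List Clause) × ℕ => q.1.2) (Primrec.snd.comp Primrec.fst) ?_
    exact primrec_fl (Primrec.fst.comp (Primrec.fst.comp Primrec.fst)) Primrec.snd
      (Primrec.snd.comp Primrec.fst)
  · rintro ⟨p, φ⟩
    constructor
    · rintro ⟨hp, h⟩
      obtain ⟨B, hB⟩ := exists_common φ (fun c B => tr p c B) (fun c m n hmn h => tr_mono hmn h)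
        (fun c hc => (holds_iff_tr hp c).1 (h c hc))
      exact ⟨B, hp, hB⟩
    · rintro ⟨B, hp, hB⟩
      exact ⟨hp, fun c hc => (holds_iff_tr hp c).2 ⟨B, hB c hc⟩⟩
  · rintro ⟨p, φ⟩
    constructor
    · intro h
      by_cases hp : p.Prime
      · have h1 : ∃ c ∈ φ, ¬ Holds (ZabMod p) c := by
          by_contra hne
          push Not at hne
          exact h ⟨hp, hne⟩
        obtain ⟨c, hc, hn⟩ := h1
        obtain ⟨B, hB⟩ := (not_holds_iff_fl hp c).1 hn
        exact ⟨B, Or.inr ⟨c, hc, hB⟩⟩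
      · exact ⟨0, Or.inl hp⟩
    · rintro ⟨B, h1 | ⟨c, hc, hB⟩⟩ ⟨hp, h2⟩
      · exact h1 hp
      · exact (not_holds_iff_fl hp c).2 ⟨B, hB⟩ (h2 c hc)

/-- the universal theory common to all rings `Z^ab/p` is decidable -/
theorem decidable_all :
    ComputablePred fun φ : List Clause => ∀ p : ℕ, p.Prime → ∀ c ∈ φ, Holds (ZabMod p) c := by
  refine computable_of_search (T := fun φ B => ∀ c ∈ φ, tr0 c B)
    (F := fun φ B => ∃ p < B, p.Prime ∧ ∃ c ∈ φ, fl p c B) ?_ ?_ ?_ ?_
  · refine allP (f := fun q : List Clause × ℕ => q.1) Primrec.fst ?_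
    exact primrec_tr0 Primrec.snd (Primrec.snd.comp Primrec.fst)
  · refine exLt (f := fun q : List Clause × ℕ => q.2) Primrec.snd ?_
    refine PrimrecPred.and (primrec_prime Primrec.snd) ?_
    refine exP (f := fun q : (List Clause × ℕ) × ℕ => q.1.1) (Primrec.fst.comp Primrec.fst) ?_
    exact primrec_fl (Primrec.snd.comp Primrec.fst) Primrec.snd
      (Primrec.snd.comp (Primrec.fst.comp Primrec.fst))
  · intro φ
    constructor
    · intro h
      exact exists_common φ (fun c B => tr0 c B) (fun c m n hmn h => tr0_mono hmn h)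
        (fun c hc => (forall_holds_iff_tr0 c).1 (fun p hp => h p hp c hc))
    · rintro ⟨B, hB⟩ p hp c hc
      exact (forall_holds_iff_tr0 c).2 ⟨B, hB c hc⟩ p hp
  · intro φ
    constructor
    · intro h
      push Not at h
      obtain ⟨p, hp, c, hc, hn⟩ := h
      obtain ⟨B, hB⟩ := (not_holds_iff_fl hp c).1 hn
      refine ⟨max B (p + 1), p, lt_of_lt_of_le (Nat.lt_succ_self p) (le_max_right _ _), hp, c, hc, ?_⟩
      intro g hg
      obtain ⟨i, hi, hc'⟩ := hB g hg
      exact ⟨i, lt_of_lt_of_le hi (le_max_left _ _), hc'⟩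
    · rintro ⟨B, p, -, hp, c, hc, hB⟩ h
      exact (not_holds_iff_fl hp c).2 ⟨B, hB⟩ (h p hp c hc)

end Pool.Agent.ZAB
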