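import Pool.Agent.ZAB.Defs

set_option autoImplicit false

namespace Pool.Agent.ZAB

open MvPolynomial IsLocalRing

section chain

variable {p : ℕ} [hp : Fact p.Prime] {S : Type} [CommRing S]

omit hp in
theorem exists_gen (hS : FinChain p S) [IsLocalRing S] :
    ∃ u : S, maximalIdeal S = Ideal.span {u} := by
  have := hS.fin
  have hB : IsBezout S := by
    rw [IsBezout.iff_span_pair_isPrincipal]
    intro x y
    rcases hS.tot x y with h | h
    · exact ⟨⟨x, Ideal.span_pair_eq_span_left_iff_dvd.2 h⟩⟩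
    · exact ⟨⟨y, Ideal.span_pair_eq_span_right_iff_dvd.2 h⟩⟩
  have hM : (maximalIdeal S).FG := IsNoetherian.noetherian _
  obtain ⟨u, hu⟩ := IsBezout.isPrincipal_of_FG _ hM
  exact ⟨u, hu⟩

theorem dvd_of_not_isUnit [IsLocalRing S] {u : S} (hu : maximalIdeal S = Ideal.span {u}) {b : S}
    (hb : ¬ IsUnit b) : u ∣ b := by
  rw [← Ideal.mem_span_singleton, ← hu]
  exact (mem_maximalIdeal b).2 hb

omit hp in
theorem gen_nilpotent (hS : FinChain p S) [IsLocalRing S] {u : S}
    (hu : maximalIdeal S = Ideal.span {u}) : ∃ n, u ^ n = 0 := by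
  have := hS.fin
  obtain ⟨n, hn⟩ := IsArtinianRing.isNilpotent_jacobson_bot (R := S)
  rw [IsLocalRing.jacobson_eq_maximalIdeal _ bot_ne_top, hu, Ideal.span_singleton_pow] at hn
  exact ⟨n, by simpa using hn⟩

theorem decomp [IsLocalRing S] {u : S} (hu : maximalIdeal S = Ideal.span {u}) (a : S) (j : ℕ) :
    (∃ i w, IsUnit w ∧ a = u ^ i * w) ∨ u ^ j ∣ a := by
  induction j with
  | zero => right; simp
  | succ j ih =>
    rcases ih with h | ⟨c, hc⟩
    · exact Or.inl h
    · by_cases h : IsUnit c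
      · exact Or.inl ⟨j, c, h, hc⟩
      · obtain ⟨d, hd⟩ := dvd_of_not_isUnit hu h
        right
        exact ⟨d, by rw [hc, hd]; ring⟩

/-- if `u^m` is a multiple of `u^(m+1)` (`u` nilpotent) then it is zero. -/
theorem pow_eq_zero_of_dvd {R : Type} [CommRing R] {u : R} {n : ℕ} (hn : u ^ n = 0) {m : ℕ} {w : R}
    (hw : IsUnit w) (h : u ^ (m + 1) ∣ u ^ m * w) : u ^ m = 0 := by
  obtain ⟨d, hd⟩ := h
  have h1 : u ^ m * (w - u * d) = 0 := by
    rw [mul_sub, hd]
    ring
  have h2 : IsNilpotent (u * d) := ⟨n, by rw [mul_pow, hn, zero_mul]⟩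
  have h3 : IsUnit (w - u * d) := by
    have := IsNilpotent.isUnit_add_left_of_commute (u := w) (r := -(u * d)) h2.neg hw (Commute.all _ _)
    rwa [← sub_eq_add_neg] at this
  exact (h3.mul_left_eq_zero).1 h1

theorem charP_residue (hS : FinChain p S) [IsLocalRing S] : CharP (ResidueField S) p := by
  have := hS.chr
  have h : residue S ((p : ℕ) : S) = residue S 0 := by rw [CharP.cast_eq_zero]
  rw [map_natCast, map_zero] at h
  exact (CharP.charP_iff_prime_eq_zero hp.out).2 h

/-- the Teichmueller homomorphism of a finite local ring of characteristic `p` -/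
theorem exists_teich (hS : FinChain p S) [IsLocalRing S] {u : S}
    (hu : maximalIdeal S = Ideal.span {u}) :
    ∃ τ : ResidueField S →+* S, ∀ c, residue S (τ c) = c := by
  have := hS.fin
  have := hS.chr
  obtain ⟨n, hn⟩ := gen_nilpotent hS hu
  have hfin : Finite (ResidueField S) := Finite.of_surjective _ (residue_surjective (R := S))
  have hchar : CharP (ResidueField S) p :=
    charP_residue hS
  have : Fintype (ResidueField S) := Fintype.ofFinite _
  obtain ⟨r, -, hr⟩ := FiniteField.card (ResidueField S) p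
  have hpow : ∀ c : ResidueField S, c ^ p ^ ((r : ℕ) * n) = c := by
    intro c
    rw [pow_mul, ← hr]
    exact FiniteField.pow_card_pow n c
  have hge : n ≤ p ^ ((r : ℕ) * n) := by
    have h1 : n ≤ (r : ℕ) * n := Nat.le_mul_of_pos_left n r.pos
    exact h1.trans (Nat.lt_pow_self hp.out.one_lt).le
  have : ExpChar S p := ExpChar.prime hp.out
  have hker : ∀ a ∈ maximalIdeal S, iterateFrobenius S p ((r : ℕ) * n) a = 0 := by
    intro a ha
    rw [hu, Ideal.mem_span_singleton] at ha
    obtain ⟨b, rfl⟩ := ha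
    rw [iterateFrobenius_def, mul_pow, pow_eq_zero_of_le hge hn, zero_mul]
  refine ⟨Ideal.Quotient.lift (maximalIdeal S) (iterateFrobenius S p ((r : ℕ) * n)) hker, ?_⟩
  intro c
  obtain ⟨x, rfl⟩ := residue_surjective (R := S) c
  have h1 : (Ideal.Quotient.lift (maximalIdeal S) (iterateFrobenius S p ((r : ℕ) * n)) hker)
      (residue S x) = x ^ p ^ ((r : ℕ) * n) := by
    show (Ideal.Quotient.lift (maximalIdeal S) (iterateFrobenius S p ((r : ℕ) * n)) hker)
      (Ideal.Quotient.mk _ x) = _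
    rw [Ideal.Quotient.lift_mk, iterateFrobenius_def]
  exact (congrArg (residue S) h1).trans (by rw [map_pow, hpow])

omit hp in
theorem chain_poly_aux [IsLocalRing S] {k : Type} [Field k] (ρ : S →+* k) (τ : k →+* S)
    (hτ : ∀ c, ρ (τ c) = c) {u : S} (hρ : ∀ x, ρ x = 0 ↔ u ∣ x) {m : ℕ} (hm : u ^ m = 0)
    {σ : Type} (G : MvPolynomial σ ℤ →+* S)
    (F : Set (MvPolynomial σ ℤ)) (g : MvPolynomial σ ℤ)
    (hg : G g ≠ 0) (hf : ∀ f ∈ F, ∃ b : S, u ∣ b ∧ G f = G g * b)
    (hdec : ∃ i w, IsUnit w ∧ G g = u ^ i * w) (hnu : ∀ x : S, ρ x ≠ 0 → IsUnit x) :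
    ∃ (N : ℕ) (Y : σ → Polynomial k), (∀ f ∈ F, Polynomial.X ^ (N + 1) ∣ aeval Y f) ∧
        ¬ Polynomial.X ^ (N + 1) ∣ aeval Y g := by
  obtain ⟨N, w, hw, hNw⟩ := hdec
  have hN : u ^ N ≠ 0 := fun h => hg (by rw [hNw, h, zero_mul])
  let ev : Polynomial k →+* S := Polynomial.eval₂RingHom τ u
  have hevX : ev Polynomial.X = u := by simp [ev]
  have hevC : ∀ c, ev (Polynomial.C c) = τ c := by intro c; simp [ev]
  -- approximation
  have happ : ∀ (i : ℕ) (x : S), ∃ Y : Polynomial k, u ^ i ∣ x - ev Y := by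
    intro i
    induction i with
    | zero => intro x; exact ⟨0, by simp⟩
    | succ i ih =>
      intro x
      have h1 : u ∣ x - τ (ρ x) := by
        rw [← hρ, map_sub, hτ, sub_self]
      obtain ⟨x', hx'⟩ := h1
      obtain ⟨Y, d, hd⟩ := ih x'
      refine ⟨Polynomial.C (ρ x) + Polynomial.X * Y, d, ?_⟩
      rw [map_add, map_mul, hevX, hevC]
      have : x - (τ (ρ x) + u * ev Y) = u * (x' - ev Y) := by
        rw [mul_sub, ← hx']
        ring
      rw [this, hd]
      ring
  -- divisibility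
  have hdiv : ∀ (h : Polynomial k), u ^ (N + 1) ∣ ev h → ∀ i, i ≤ N + 1 →
      Polynomial.X ^ i ∣ h := by
    intro h hh i
    induction i with
    | zero => intro _; simp
    | succ i ih =>
      intro hi
      obtain ⟨h', rfl⟩ := ih (by omega)
      have hc : h'.coeff 0 = 0 := by
        by_contra hc
        have hunit : IsUnit (ev h') := by
          apply hnu
          have h3 : h' = Polynomial.C (h'.coeff 0) + Polynomial.X * h'.divX := by
            rw [add_comm, Polynomial.X_mul_divX_add h']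
          rw [h3, map_add, map_mul, hevC, hevX, map_add, hτ, map_mul]
          have h4 : ρ u = 0 := (hρ u).2 dvd_rfl
          rw [h4, zero_mul, add_zero]
          exact hc
        have h5 : u ^ (i + 1) ∣ u ^ i * ev h' := by
          have h6 : ev (Polynomial.X ^ i * h') = u ^ i * ev h' := by
            rw [map_mul, map_pow, hevX]
          rw [← h6]
          exact (pow_dvd_pow u hi).trans hh
        have h7 := pow_eq_zero_of_dvd hm hunit h5
        exact hN (pow_eq_zero_of_le (by omega) h7)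
      obtain ⟨h'', hh''⟩ := Polynomial.X_dvd_iff.2 hc
      rw [hh'', pow_succ]
      exact mul_dvd_mul_left _ (Dvd.intro _ rfl)
  choose Y hY using fun i : σ => happ (N + 1) (G (X i))
  -- congruence of the two evaluations
  have hcong : ∀ P : MvPolynomial σ ℤ, u ^ (N + 1) ∣ G P - ev (aeval Y P) := by
    intro P
    have h1 : (Ideal.Quotient.mk (Ideal.span {u ^ (N + 1)})).comp G =
        ((Ideal.Quotient.mk (Ideal.span {u ^ (N + 1)})).comp ev).comp
          (aeval Y : MvPolynomial σ ℤ →ₐ[ℤ] Polynomial k).toRingHom := by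
      apply MvPolynomial.ringHom_ext
      · intro a
        simp
      · intro i
        simp only [RingHom.comp_apply, AlgHom.toRingHom_eq_coe, RingHom.coe_coe, aeval_X]
        rw [Ideal.Quotient.mk_eq_mk_iff_sub_mem, Ideal.mem_span_singleton]
        exact hY i
    have h2 := congrArg (fun φ => φ P) h1
    simp only [RingHom.comp_apply, AlgHom.toRingHom_eq_coe, RingHom.coe_coe] at h2
    rw [Ideal.Quotient.mk_eq_mk_iff_sub_mem, Ideal.mem_span_singleton] at h2
    exact h2
  refine ⟨N, Y, ?_, ?_⟩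
  · intro f hfF
    apply hdiv _ _ (N + 1) le_rfl
    obtain ⟨b, ⟨b', rfl⟩, hb2⟩ := hf f hfF
    have h1 : u ^ (N + 1) ∣ G f := by
      rw [hb2, hNw]
      exact ⟨w * b', by ring⟩
    have h2 := hcong f
    have h3 : ev (aeval Y f) = G f - (G f - ev (aeval Y f)) := by ring
    rw [h3]
    exact dvd_sub h1 h2
  · rintro ⟨h', hh'⟩
    have h1 := hcong g
    have h2 : u ^ (N + 1) ∣ G g := by
      have h3 : G g = (G g - ev (aeval Y g)) + ev (aeval Y g) := by ring
      rw [h3]
      refine dvd_add h1 ?_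
      rw [hh', map_mul, map_pow, hevX]
      exact Dvd.intro _ rfl
    rw [hNw] at h2
    exact hN (pow_eq_zero_of_dvd hm hw h2)

theorem chain_poly (hS : FinChain p S) {σ : Type} (G : MvPolynomial σ ℤ →+* S)
    (F : Set (MvPolynomial σ ℤ)) (g : MvPolynomial σ ℤ)
    (hg : G g ≠ 0) (hf : ∀ f ∈ F, ∃ b : S, ¬ IsUnit b ∧ G f = G g * b) :
    ∃ (k : Type) (_ : Field k) (_ : Finite k) (_ : CharP k p) (N : ℕ)
      (Y : σ → Polynomial k), (∀ f ∈ F, Polynomial.X ^ (N + 1) ∣ aeval Y f) ∧
        ¬ Polynomial.X ^ (N + 1) ∣ aeval Y g := by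
  have hloc := hS.loc
  have := hS.fin
  obtain ⟨u, hu⟩ := exists_gen hS
  obtain ⟨m, hm⟩ := gen_nilpotent hS hu
  obtain ⟨τ, hτ⟩ := exists_teich hS hu
  have hfin : Finite (ResidueField S) := Finite.of_surjective _ (residue_surjective (R := S))
  have hdec : ∃ i w, IsUnit w ∧ G g = u ^ i * w := by
    rcases decomp hu (G g) m with h | h
    · exact h
    · rw [hm, zero_dvd_iff] at h
      exact absurd h hg
  obtain ⟨N, Y, h1, h2⟩ := chain_poly_aux (residue S) τ hτ (u := u)
    (fun x => by rw [residue_eq_zero_iff, hu, Ideal.mem_span_singleton]) hm G F g hg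
    (fun f hfF => by
      obtain ⟨b, hb, hb2⟩ := hf f hfF
      exact ⟨b, dvd_of_not_isUnit hu hb, hb2⟩) hdec
    (fun x hx => by
      by_contra hnu
      exact hx (by rw [residue_eq_zero_iff]; exact (mem_maximalIdeal _).2 hnu))
  exact ⟨ResidueField S, inferInstance, hfin, charP_residue hS, N, Y, h1, h2⟩

end chain

end Pool.Agent.ZAB
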