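import Mathlib

set_option autoImplicit false

namespace Pool.Agent.ZAB

/-- the dimension of `I/zI` is the dimension of `R/zR`. -/
theorem finrank_ker_factor {k₀ R : Type} [Field k₀] [CommRing R] [IsDomain R] [Algebra k₀ R]
    (z : R) (hz : z ≠ 0) (I J : Ideal R) (hJ : ∀ w, w ∈ J ↔ ∃ u ∈ I, z * u = w) (hJI : J ≤ I)
    (hJz : J ≤ Ideal.span {z}) [Module.Finite k₀ (R ⧸ J)] :
    Module.finrank k₀ (LinearMap.ker (Ideal.Quotient.factorₐ k₀ hJI).toLinearMap) =
      Module.finrank k₀ (R ⧸ Ideal.span {z}) := by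
  have hIJ : I ≤ Submodule.comap (LinearMap.mulLeft R z) J := by
    intro u hu
    rw [Submodule.mem_comap]
    exact (hJ _).2 ⟨u, hu, rfl⟩
  let μ : (R ⧸ I) →ₗ[k₀] (R ⧸ J) := (Submodule.mapQ I J (LinearMap.mulLeft R z) hIJ).restrictScalars k₀
  have hμ : ∀ r : R, μ (Ideal.Quotient.mk I r) = Ideal.Quotient.mk J (z * r) := fun r => rfl
  have hinj : Function.Injective μ := by
    rw [injective_iff_map_eq_zero]
    intro x hx
    obtain ⟨r, rfl⟩ := Ideal.Quotient.mk_surjective x
    rw [hμ, Ideal.Quotient.eq_zero_iff_mem, hJ] at hx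
    obtain ⟨u, hu, huz⟩ := hx
    rw [Ideal.Quotient.eq_zero_iff_mem, ← mul_left_cancel₀ hz huz]
    exact hu
  have hrange : LinearMap.range μ = LinearMap.ker (Ideal.Quotient.factorₐ k₀ hJz).toLinearMap := by
    ext x
    obtain ⟨r, rfl⟩ := Ideal.Quotient.mk_surjective x
    rw [LinearMap.mem_ker, LinearMap.mem_range]
    have e1 : (Ideal.Quotient.factorₐ k₀ hJz).toLinearMap (Ideal.Quotient.mk J r) =
      Ideal.Quotient.mk (Ideal.span {z}) r := rfl
    rw [e1, Ideal.Quotient.eq_zero_iff_mem, Ideal.mem_span_singleton]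
    constructor
    · rintro ⟨y, hy⟩
      obtain ⟨t, rfl⟩ := Ideal.Quotient.mk_surjective y
      rw [hμ, Ideal.Quotient.mk_eq_mk_iff_sub_mem] at hy
      obtain ⟨u, -, hu⟩ := (hJ _).1 hy
      exact ⟨t - u, by rw [mul_sub, hu]; ring⟩
    · rintro ⟨t, rfl⟩
      exact ⟨Ideal.Quotient.mk I t, hμ t⟩
  have h1 := LinearMap.finrank_range_add_finrank_ker (Ideal.Quotient.factorₐ k₀ hJI).toLinearMap
  have h2 := LinearMap.finrank_range_add_finrank_ker (Ideal.Quotient.factorₐ k₀ hJz).toLinearMap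
  have s1 : LinearMap.range (Ideal.Quotient.factorₐ k₀ hJI).toLinearMap = ⊤ :=
    LinearMap.range_eq_top.2 (Ideal.Quotient.factor_surjective hJI)
  have s2 : LinearMap.range (Ideal.Quotient.factorₐ k₀ hJz).toLinearMap = ⊤ :=
    LinearMap.range_eq_top.2 (Ideal.Quotient.factor_surjective hJz)
  rw [s1, finrank_top] at h1
  rw [s2, finrank_top, ← hrange, LinearMap.finrank_range_of_inj hinj] at h2
  omega

/-- Krull-Akizuki by counting dimensions. -/
theorem finite_quot_field {k₀ R K : Type} [Field k₀] [CommRing R] [IsDomain R] [Algebra k₀ R]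
    [Field K] [Algebra R K] [IsFractionRing R K]
    (hfin : ∀ a : R, a ≠ 0 → Module.Finite k₀ (R ⧸ Ideal.span {a})) (V : ValuationSubring K)
    (hV : ∀ r : R, algebraMap R K r ∈ V) (z : R) (hz : z ≠ 0) :
    ((Ideal.Quotient.mk (Ideal.span {(⟨algebraMap R K z, hV z⟩ : V)})).comp
      (((algebraMap R K).codRestrict V.toSubring hV).comp (algebraMap k₀ R))).Finite := by
  classical
  set zV : V := ⟨algebraMap R K z, hV z⟩ with hzV
  let ι : R →+* V := (algebraMap R K).codRestrict V.toSubring hV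
  let _ : Algebra k₀ (V ⧸ Ideal.span {zV}) :=
    ((Ideal.Quotient.mk (Ideal.span {zV})).comp (ι.comp (algebraMap k₀ R))).toAlgebra
  have halg : ∀ (a : k₀) (v : V), a • (Ideal.Quotient.mk (Ideal.span {zV}) v) =
      Ideal.Quotient.mk (Ideal.span {zV}) (ι (algebraMap k₀ R a) * v) := by
    intro a v
    rw [Algebra.smul_def, map_mul]
    rfl
  change Module.Finite k₀ (V ⧸ Ideal.span {zV})
  by_contra hinf
  have hinj : Function.Injective (algebraMap R K) := IsFractionRing.injective R K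
  let c : ℕ := Module.finrank k₀ (R ⧸ Ideal.span {z})
  have hrank : ((c + 1 : ℕ) : Cardinal) ≤ Module.rank k₀ (V ⧸ Ideal.span {zV}) := by
    have h1 : ¬ Module.rank k₀ (V ⧸ Ideal.span {zV}) < Cardinal.aleph0 := by
      rw [Module.rank_lt_aleph0_iff]
      exact hinf
    exact (Cardinal.natCast_lt_aleph0.le).trans (not_lt.1 h1)
  obtain ⟨s, hs, hli⟩ := exists_finset_linearIndependent_of_le_rank hrank
  choose x hx using fun i : s => Ideal.Quotient.mk_surjective (i : V ⧸ Ideal.span {zV})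
  obtain ⟨b, hb⟩ := IsLocalization.exist_integer_multiples_of_finset (nonZeroDivisors R)
    (Finset.univ.image (fun i : s => (x i : K)))
  have hb' : ∀ i : s, ∃ r : R, algebraMap R K r = algebraMap R K b * (x i : K) := by
    intro i
    obtain ⟨r, hr⟩ := hb (x i : K) (Finset.mem_image.2 ⟨i, Finset.mem_univ _, rfl⟩)
    exact ⟨r, by rw [hr, Algebra.smul_def]⟩
  choose ρ hρ using hb'
  have hb0 : algebraMap R K b ≠ 0 := by
    have : (b : R) ≠ 0 := nonZeroDivisors.ne_zero b.2
    intro h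
    exact this (hinj (by rw [h, map_zero]))
  let I : Ideal R := Ideal.span (Set.range ρ)
  have hmem : ∀ i, ρ i ∈ I := fun i => Ideal.subset_span ⟨i, rfl⟩
  let J : Ideal R := Ideal.span {z} * I
  have hJ : ∀ w, w ∈ J ↔ ∃ u ∈ I, z * u = w := fun w => Ideal.mem_span_singleton_mul
  have hJI : J ≤ I := Ideal.mul_le_right
  have hJz : J ≤ Ideal.span {z} := Ideal.mul_le_left
  have hne : ∃ i, ρ i ≠ 0 := by
    have hcard : 0 < s.card := by omega
    obtain ⟨i₀', hi₀⟩ := Finset.card_pos.1 hcard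
    let i₀ : s := ⟨i₀', hi₀⟩
    refine ⟨i₀, ?_⟩
    intro h0
    have k0 := hρ i₀
    rw [h0, map_zero] at k0
    have l0 : ((x i₀ : V) : K) = 0 := by
      rcases mul_eq_zero.1 k0.symm with h | h
      · exact absurd h hb0
      · exact h
    have l1 : x i₀ = 0 := Subtype.ext l0
    have l2 := hx i₀
    rw [l1, map_zero] at l2
    exact hli.ne_zero i₀.2 l2.symm
  obtain ⟨i₁, hi₁⟩ := hne
  have hJfin : Module.Finite k₀ (R ⧸ J) := by
    have h1 := hfin (z * ρ i₁) (mul_ne_zero hz hi₁)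
    have hle : Ideal.span {z * ρ i₁} ≤ J := by
      rw [Ideal.span_singleton_le_iff_mem]
      exact (hJ _).2 ⟨ρ i₁, hmem i₁, rfl⟩
    exact Module.Finite.of_surjective (Ideal.Quotient.factorₐ k₀ hle).toLinearMap
      (Ideal.Quotient.factor_surjective hle)
  have hspan : ∀ w ∈ I, ∃ v : V, algebraMap R K w = algebraMap R K b * (v : K) := by
    intro w hw
    refine Submodule.span_induction ?_ ?_ ?_ ?_ hw
    · rintro _ ⟨i, rfl⟩
      exact ⟨x i, hρ i⟩
    · exact ⟨0, by simp⟩
    · rintro u v _ _ ⟨a, ha⟩ ⟨a', ha'⟩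
      exact ⟨a + a', by rw [map_add, ha, ha']; push_cast; ring⟩
    · rintro r u _ ⟨a, ha⟩
      refine ⟨⟨algebraMap R K r, hV r⟩ * a, ?_⟩
      rw [smul_eq_mul, map_mul, ha]
      push_cast
      ring
  have hker := finrank_ker_factor (k₀ := k₀) z hz I J hJ hJI hJz
  let F : s → LinearMap.ker (Ideal.Quotient.factorₐ k₀ hJI).toLinearMap := fun i =>
    ⟨Ideal.Quotient.mk J (ρ i), by
      rw [LinearMap.mem_ker]
      exact Ideal.Quotient.eq_zero_iff_mem.2 (hmem i)⟩
  have hF : LinearIndependent k₀ F := by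
    rw [Fintype.linearIndependent_iff]
    intro a ha
    have h1 : ∑ i, a i • (Ideal.Quotient.mk J (ρ i)) = 0 := by
      have := congrArg (fun y : LinearMap.ker (Ideal.Quotient.factorₐ k₀ hJI).toLinearMap =>
        (y : R ⧸ J)) ha
      simpa [F] using this
    have h2 : Ideal.Quotient.mk J (∑ i, algebraMap k₀ R (a i) * ρ i) = 0 := by
      rw [map_sum, ← h1]
      refine Finset.sum_congr rfl fun i _ => ?_
      rw [Algebra.smul_def, map_mul]
      rfl
    obtain ⟨w, hw, hw2⟩ := (hJ _).1 (Ideal.Quotient.eq_zero_iff_mem.1 h2)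
    obtain ⟨v, hv⟩ := hspan w hw
    have h3 : algebraMap R K b * (∑ i, algebraMap R K (algebraMap k₀ R (a i)) * (x i : K)) =
        algebraMap R K b * (algebraMap R K z * (v : K)) := by
      have h4 := congrArg (algebraMap R K) hw2
      rw [map_mul, map_sum, hv] at h4
      rw [Finset.mul_sum]
      have h5 : ∀ i : s, algebraMap R K b * (algebraMap R K (algebraMap k₀ R (a i)) * (x i : K)) =
          algebraMap R K (algebraMap k₀ R (a i) * ρ i) := by
        intro i
        rw [map_mul, hρ]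
        ring
      rw [Finset.sum_congr rfl fun i _ => h5 i, ← h4]
      ring
    have h6 : (∑ i, ι (algebraMap k₀ R (a i)) * x i) = zV * v := by
      apply Subtype.ext
      have h7 := mul_left_cancel₀ hb0 h3
      push_cast
      exact h7
    have h8 : ∑ i, a i • (i : V ⧸ Ideal.span {zV}) = 0 := by
      have h9 : ∀ i : s, a i • (i : V ⧸ Ideal.span {zV}) =
          Ideal.Quotient.mk (Ideal.span {zV}) (ι (algebraMap k₀ R (a i)) * x i) := by
        intro i
        rw [← halg, hx]
      rw [Finset.sum_congr rfl fun i _ => h9 i, ← map_sum, h6, Ideal.Quotient.eq_zero_iff_mem]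
      exact Ideal.mul_mem_right _ _ (Ideal.mem_span_singleton_self zV)
    exact Fintype.linearIndependent_iff.1 hli a h8
  have h10 := hF.fintype_card_le_finrank
  rw [hker, Fintype.card_coe, hs] at h10
  omega

end Pool.Agent.ZAB
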