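import Pool.Agent.ZAB.P2

set_option autoImplicit false

namespace Pool.Agent.ZAB

open IsLocalRing

theorem finite_of_prime_field {k₀ R : Type} [Field k₀] [CommRing R] [IsDomain R] [IsNoetherianRing R]
    [IsLocalRing R] [Algebra k₀ R] (hk : Module.Finite k₀ (ResidueField R)) (y : R) (hy0 : y ≠ 0)
    (hy : y ∈ maximalIdeal R) (hP : ∀ Q : Ideal R, Q.IsPrime → Q ≠ ⊥ → y ∈ Q) (a : R) (ha : a ≠ 0) :
    Module.Finite k₀ (R ⧸ Ideal.span {a}) := by
  have hmax : ∀ Q : Ideal R, Q.IsPrime → a ∈ Q → Q = maximalIdeal R := by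
    intro Q hQ haQ
    refine eq_max y hy0 hy hP Q hQ ?_
    rintro rfl
    exact ha (by simpa using haQ)
  have hrad : maximalIdeal R ≤ (Ideal.span {a}).radical := by
    rw [Ideal.radical_eq_sInf, le_sInf_iff]
    rintro Q ⟨hQ1, hQ2⟩
    rw [hmax Q hQ2 (hQ1 (Ideal.mem_span_singleton_self a))]
  have hsurj : Function.Surjective (Ideal.Quotient.mk (Ideal.span {a})) :=
    Ideal.Quotient.mk_surjective
  haveI : Ring.KrullDimLE 0 (R ⧸ Ideal.span {a}) := by
    rw [Ring.krullDimLE_zero_iff]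
    intro P hPr
    have h1 : (P.comap (Ideal.Quotient.mk (Ideal.span {a}))).IsPrime := Ideal.comap_isPrime _ _
    have h2 : P.comap (Ideal.Quotient.mk (Ideal.span {a})) = maximalIdeal R := by
      refine hmax _ h1 ?_
      rw [Ideal.mem_comap]
      have : Ideal.Quotient.mk (Ideal.span {a}) a = 0 :=
        Ideal.Quotient.eq_zero_iff_mem.2 (Ideal.mem_span_singleton_self a)
      rw [this]
      exact P.zero_mem
    have h3 : (P.comap (Ideal.Quotient.mk (Ideal.span {a}))).IsMaximal := by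
      rw [h2]
      exact maximalIdeal.isMaximal R
    rcases Ideal.map_eq_top_or_isMaximal_of_surjective _ hsurj h3 with h4 | h4
    · rw [Ideal.map_comap_of_surjective _ hsurj] at h4
      exact absurd h4 hPr.ne_top
    · rwa [Ideal.map_comap_of_surjective _ hsurj] at h4
  haveI : IsArtinianRing (R ⧸ Ideal.span {a}) := isArtinianRing_iff_krullDimLE_zero.2 inferInstance
  haveI hJ : Module.Finite k₀ ((R ⧸ Ideal.span {a}) ⧸ Ring.jacobson (R ⧸ Ideal.span {a})) := by
    have hker : ∀ m ∈ maximalIdeal R, ((Ideal.Quotient.mkₐ k₀ (Ring.jacobson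
        (R ⧸ Ideal.span {a}))).comp (Ideal.Quotient.mkₐ k₀ (Ideal.span {a}))) m = 0 := by
      intro m hm
      obtain ⟨n, hn⟩ := hrad hm
      have h1 : IsNilpotent (Ideal.Quotient.mk (Ideal.span {a}) m) := by
        refine ⟨n, ?_⟩
        rw [← map_pow]
        exact Ideal.Quotient.eq_zero_iff_mem.2 hn
      show Ideal.Quotient.mk _ (Ideal.Quotient.mk (Ideal.span {a}) m) = 0
      rw [Ideal.Quotient.eq_zero_iff_mem, ← Ideal.jacobson_bot, Ideal.mem_jacobson_bot]
      intro z
      exact ((Commute.all _ z).isNilpotent_mul_right h1).isUnit_add_one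
    have h0 : Module.Finite k₀ (R ⧸ maximalIdeal R) := hk
    exact Module.Finite.of_surjective
      (Ideal.Quotient.liftₐ (maximalIdeal R) ((Ideal.Quotient.mkₐ k₀ (Ring.jacobson
        (R ⧸ Ideal.span {a}))).comp (Ideal.Quotient.mkₐ k₀ (Ideal.span {a}))) hker).toLinearMap
      (by
        intro x
        obtain ⟨x', rfl⟩ := Ideal.Quotient.mk_surjective x
        obtain ⟨x'', rfl⟩ := Ideal.Quotient.mk_surjective x'
        exact ⟨Ideal.Quotient.mk _ x'', rfl⟩)
  exact IsSemiprimaryRing.finite_of_isNoetherian k₀ (R ⧸ Ideal.span {a}) (R ⧸ Ideal.span {a})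

end Pool.Agent.ZAB
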