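import Pool.Agent.ZAB.P3b
import Pool.Agent.ZAB.Z1
import Pool.Agent.ZAB.Z2

set_option autoImplicit false

namespace Pool.Agent.ZAB

open IsLocalRing

theorem chain_local_field {k₀ O : Type} [Field k₀] [CommRing O] [IsDomain O] [IsNoetherianRing O]
    [IsLocalRing O] [Algebra k₀ O] (hk : Module.Finite k₀ (ResidueField O)) (y : O) (hy0 : y ≠ 0)
    (hy : y ∈ maximalIdeal O) :
    ∃ (S : Type) (_ : CommRing S) (_ : Algebra k₀ S) (_ : Module.Finite k₀ S) (_ : IsLocalRing S)
      (ψ : O →+* S), (∀ a b : S, a ∣ b ∨ b ∣ a) ∧ ψ y ≠ 0 ∧ IsLocalHom ψ := by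
  classical
  -- a prime maximal among those not containing `y`
  have hwf : WellFounded ((· > ·) : Ideal O → Ideal O → Prop) := wellFounded_gt
  obtain ⟨P, ⟨hPp, hyP⟩, hPmax⟩ := hwf.has_min {P : Ideal O | P.IsPrime ∧ y ∉ P}
    ⟨⊥, Ideal.isPrime_bot, by simpa using hy0⟩
  have hPmax' : ∀ Q : Ideal O, Q.IsPrime → P < Q → y ∈ Q := by
    intro Q hQ hlt
    by_contra h
    exact hPmax Q ⟨hQ, h⟩ hlt
  have hlm := isLocalHom_mk P hPp.ne_top
  have hlr := isLocalRing_quot P hPp.ne_top
  have hyR0 : Ideal.Quotient.mk P y ≠ 0 := by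
    rwa [Ne, Ideal.Quotient.eq_zero_iff_mem]
  have hyRn : ¬ IsUnit (Ideal.Quotient.mk P y) :=
    fun h => (mem_maximalIdeal y).1 hy (isUnit_of_map_unit _ _ h)
  have hyR : Ideal.Quotient.mk P y ∈ maximalIdeal (O ⧸ P) := (mem_maximalIdeal _).2 hyRn
  have hkR : Module.Finite k₀ (ResidueField (O ⧸ P)) := by
    have h1 : Module.Finite k₀ (O ⧸ maximalIdeal O) := hk
    have hle : ∀ a : O, a ∈ maximalIdeal O →
        ((IsScalarTower.toAlgHom k₀ (O ⧸ P) (ResidueField (O ⧸ P))).comp
          (Ideal.Quotient.mkₐ k₀ P)) a = 0 := by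
      intro a ha
      show residue (O ⧸ P) (Ideal.Quotient.mk P a) = 0
      rw [residue_eq_zero_iff, mem_maximalIdeal]
      exact fun h => (mem_maximalIdeal a).1 ha (isUnit_of_map_unit _ _ h)
    refine Module.Finite.of_surjective (Ideal.Quotient.liftₐ (maximalIdeal O) _ hle).toLinearMap ?_
    intro x
    obtain ⟨x', rfl⟩ := residue_surjective (R := O ⧸ P) x
    obtain ⟨x'', rfl⟩ := Ideal.Quotient.mk_surjective x'
    exact ⟨Ideal.Quotient.mk _ x'', rfl⟩
  have hQ : ∀ Q : Ideal (O ⧸ P), Q.IsPrime → Q ≠ ⊥ → Ideal.Quotient.mk P y ∈ Q := by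
    intro Q hQp hQ0
    have h1 : (Q.comap (Ideal.Quotient.mk P)).IsPrime := Ideal.comap_isPrime _ _
    have h2 : P < Q.comap (Ideal.Quotient.mk P) := by
      refine lt_of_le_of_ne ?_ ?_
      · intro a ha
        rw [Ideal.mem_comap, Ideal.Quotient.eq_zero_iff_mem.2 ha]
        exact Q.zero_mem
      · intro h
        apply hQ0
        rw [eq_bot_iff]
        intro q hq
        obtain ⟨a, rfl⟩ := Ideal.Quotient.mk_surjective q
        have : a ∈ P := by rw [h]; exact hq
        rw [Ideal.mem_bot]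
        exact Ideal.Quotient.eq_zero_iff_mem.2 this
    exact hPmax' _ h1 h2
  have hfin := finite_of_prime_field hkR (Ideal.Quotient.mk P y) hyR0 hyR hQ
  let K := FractionRing (O ⧸ P)
  obtain ⟨V, hV, hloc⟩ := IsLocalRing.exists_factor_valuationRing (algebraMap (O ⧸ P) K)
  have hz : (Ideal.Quotient.mk P y) ^ 2 ≠ 0 := pow_ne_zero _ hyR0
  have hSfin := finite_quot_field (K := K) hfin V hV _ hz
  set zV : V := ⟨algebraMap (O ⧸ P) K ((Ideal.Quotient.mk P y) ^ 2), hV _⟩ with hzV
  set c : (O ⧸ P) →+* V := (algebraMap (O ⧸ P) K).codRestrict V.toSubring hV with hc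
  have hloc' : IsLocalHom c := hloc
  have hzc : zV = c (Ideal.Quotient.mk P y) ^ 2 := by
    rw [← map_pow]
    rfl
  have hyV : ¬ IsUnit (c (Ideal.Quotient.mk P y)) := fun h => hyRn (isUnit_of_map_unit c _ h)
  have hyV0 : c (Ideal.Quotient.mk P y) ≠ 0 := by
    intro h
    apply hyR0
    apply IsFractionRing.injective (O ⧸ P) K
    rw [map_zero]
    exact congrArg (fun v : V => (v : K)) h
  have hne : Ideal.span {zV} ≠ ⊤ := by
    rw [Ne, Ideal.span_singleton_eq_top, hzc]
    intro h
    exact hyV ((isUnit_pow_iff two_ne_zero).1 h)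
  have hl2 := isLocalHom_mk (Ideal.span {zV}) hne
  have hl3 := isLocalRing_quot (Ideal.span {zV}) hne
  let φ : k₀ →+* V ⧸ Ideal.span {zV} :=
    (Ideal.Quotient.mk (Ideal.span {zV})).comp (c.comp (algebraMap k₀ (O ⧸ P)))
  refine ⟨V ⧸ Ideal.span {zV}, inferInstance, φ.toAlgebra, hSfin, hl3,
    ((Ideal.Quotient.mk (Ideal.span {zV})).comp c).comp (Ideal.Quotient.mk P), ?_, ?_, ?_⟩
  · intro a b
    obtain ⟨a, rfl⟩ := Ideal.Quotient.mk_surjective a
    obtain ⟨b, rfl⟩ := Ideal.Quotient.mk_surjective b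
    rcases ValuationRing.dvd_total a b with h | h
    · exact Or.inl (map_dvd _ h)
    · exact Or.inr (map_dvd _ h)
  · rw [RingHom.comp_apply, RingHom.comp_apply]
    intro h
    rw [Ideal.Quotient.eq_zero_iff_mem, Ideal.mem_span_singleton, hzc] at h
    obtain ⟨w, hw⟩ := h
    apply hyV
    have h1 : c (Ideal.Quotient.mk P y) * (c (Ideal.Quotient.mk P y) * w) =
        c (Ideal.Quotient.mk P y) * 1 := by
      rw [mul_one, ← mul_assoc, ← pow_two, ← hw]
    exact IsUnit.of_mul_eq_one _ (mul_left_cancel₀ hyV0 h1)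
  · have h1 : IsLocalHom ((Ideal.Quotient.mk (Ideal.span {zV})).comp c) :=
      RingHom.isLocalHom_comp _ _
    exact RingHom.isLocalHom_comp _ _

theorem chain_of_ideal_field {k₀ B : Type} [Field k₀] [CommRing B] [IsDomain B] [Algebra k₀ B]
    [Algebra.FiniteType k₀ B] (y : B) (hy : y ≠ 0) (J : Ideal B) (hJ : J ≠ ⊤) :
    ∃ (S : Type) (_ : CommRing S) (_ : Algebra k₀ S) (_ : Module.Finite k₀ S) (_ : IsLocalRing S)
      (ψ : B →+* S), (∀ a b : S, a ∣ b ∨ b ∣ a) ∧ ψ y ≠ 0 ∧ ∀ h ∈ J, ¬ IsUnit (ψ h) := by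
  classical
  obtain ⟨M, hM, hJM⟩ := Ideal.exists_le_maximal J hJ
  have hBM : Module.Finite k₀ (B ⧸ M) := by
    letI : Field (B ⧸ M) := Ideal.Quotient.field M
    exact finite_of_finite_type_of_isJacobsonRing k₀ (B ⧸ M)
  by_cases hyM : y ∈ M
  · have hdom : IsDomain (Localization.AtPrime M) :=
      IsLocalization.isDomain_localization M.primeCompl_le_nonZeroDivisors
    have hnoeB : IsNoetherianRing B := Algebra.FiniteType.isNoetherianRing k₀ B
    have hnoe : IsNoetherianRing (Localization.AtPrime M) :=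
      IsLocalization.isNoetherianRing M.primeCompl _ hnoeB
    have hk : Module.Finite k₀ (ResidueField (Localization.AtPrime M)) := by
      let e := IsLocalization.AtPrime.equivQuotMaximalIdeal M (Localization.AtPrime M)
      let e' : (B ⧸ M) →ₗ[k₀] ResidueField (Localization.AtPrime M) :=
        { toFun := fun x => e x
          map_add' := fun x y => map_add e x y
          map_smul' := fun c x => by
            obtain ⟨x, rfl⟩ := Ideal.Quotient.mk_surjective x
            show e (Ideal.Quotient.mk M (c • x)) = c • e (Ideal.Quotient.mk M x)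
            rw [IsLocalization.AtPrime.equivQuotMaximalIdeal_apply_mk,
              IsLocalization.AtPrime.equivQuotMaximalIdeal_apply_mk, Algebra.smul_def, map_mul,
              ← IsScalarTower.algebraMap_apply, ← Algebra.smul_def]
            rfl }
      exact Module.Finite.of_surjective e' e.surjective
    have hy0 : algebraMap B (Localization.AtPrime M) y ≠ 0 := by
      intro h
      apply hy
      apply IsLocalization.injective (Localization.AtPrime M) M.primeCompl_le_nonZeroDivisors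
      rw [h, map_zero]
    have hym : ∀ h ∈ M, algebraMap B (Localization.AtPrime M) h ∈
        maximalIdeal (Localization.AtPrime M) := by
      intro h hh
      exact (IsLocalization.AtPrime.to_map_mem_maximal_iff (Localization.AtPrime M) M h).2 hh
    obtain ⟨S, i1, i2, i3, i4, ψ, h0, h1, h2⟩ := chain_local_field hk _ hy0 (hym y hyM)
    refine ⟨S, i1, i2, i3, i4, ψ.comp (algebraMap B _), h0, h1, ?_⟩
    intro h hh hu
    exact (mem_maximalIdeal _).1 (hym h (hJM hh)) (isUnit_of_map_unit ψ _ hu)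
  · letI : Field (B ⧸ M) := Ideal.Quotient.field M
    refine ⟨B ⧸ M, inferInstance, inferInstance, hBM, inferInstance, Ideal.Quotient.mk M,
      ?_, ?_, ?_⟩
    · intro a b
      by_cases ha : a = 0
      · right; rw [ha]; exact dvd_zero _
      · left; exact (IsUnit.mk0 a ha).dvd
    · rwa [Ne, Ideal.Quotient.eq_zero_iff_mem]
    · intro h hh
      rw [Ideal.Quotient.eq_zero_iff_mem.2 (hJM hh)]
      exact not_isUnit_zero

end Pool.Agent.ZAB
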