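import Pool.Agent.ZAB.P4

set_option autoImplicit false

namespace Pool.Agent.ZAB

open MvPolynomial IsLocalRing

theorem exists_gen_field {S : Type} [CommRing S] [IsNoetherianRing S] [IsLocalRing S]
    (htot : ∀ a b : S, a ∣ b ∨ b ∣ a) : ∃ u : S, maximalIdeal S = Ideal.span {u} := by
  have hB : IsBezout S := by
    rw [IsBezout.iff_span_pair_isPrincipal]
    intro x y
    rcases htot x y with h | h
    · exact ⟨⟨x, Ideal.span_pair_eq_span_left_iff_dvd.2 h⟩⟩
    · exact ⟨⟨y, Ideal.span_pair_eq_span_right_iff_dvd.2 h⟩⟩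
  have hM : (maximalIdeal S).FG := IsNoetherian.noetherian _
  obtain ⟨u, hu⟩ := IsBezout.isPrincipal_of_FG _ hM
  exact ⟨u, hu⟩

theorem chain_poly_field {S : Type} [CommRing S] [Algebra ℚ S] [Module.Finite ℚ S] [IsLocalRing S]
    (htot : ∀ a b : S, a ∣ b ∨ b ∣ a) {σ : Type} (G : MvPolynomial σ ℤ →+* S)
    (F : Set (MvPolynomial σ ℤ)) (g : MvPolynomial σ ℤ)
    (hg : G g ≠ 0) (hf : ∀ f ∈ F, ∃ b : S, ¬ IsUnit b ∧ G f = G g * b) :
    ∃ (k : Type) (_ : Field k) (_ : Algebra ℚ k) (_ : Module.Finite ℚ k) (N : ℕ)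
      (Y : σ → Polynomial k), (∀ f ∈ F, Polynomial.X ^ (N + 1) ∣ MvPolynomial.aeval Y f) ∧
        ¬ Polynomial.X ^ (N + 1) ∣ MvPolynomial.aeval Y g := by
  haveI : IsArtinianRing S := IsArtinianRing.of_finite ℚ S
  obtain ⟨u, hu⟩ := exists_gen_field htot
  have hnil : IsNilpotent (maximalIdeal S) := by
    have h := IsArtinianRing.isNilpotent_jacobson_bot (R := S)
    rwa [IsLocalRing.jacobson_eq_maximalIdeal _ bot_ne_top] at h
  obtain ⟨m, hm⟩ : ∃ n, u ^ n = 0 := by
    obtain ⟨n, hn⟩ := hnil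
    rw [hu, Ideal.span_singleton_pow] at hn
    exact ⟨n, by simpa using hn⟩
  have hfin : Module.Finite ℚ (ResidueField S) :=
    Module.Finite.of_surjective (IsScalarTower.toAlgHom ℚ S (ResidueField S)).toLinearMap
      (residue_surjective (R := S))
  haveI : Algebra.IsAlgebraic ℚ (ResidueField S) := Algebra.IsAlgebraic.of_finite ℚ _
  haveI : Algebra.IsSeparable ℚ (ResidueField S) := inferInstance
  haveI : Algebra.FormallyEtale ℚ (ResidueField S) := Algebra.FormallyEtale.of_isSeparable ℚ _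
  haveI : Algebra.FormallySmooth ℚ (ResidueField S) := inferInstance
  let g₀ : ResidueField S →ₐ[ℚ] S ⧸ maximalIdeal S :=
    { toFun := fun x => x
      map_one' := rfl
      map_mul' := fun _ _ => rfl
      map_zero' := rfl
      map_add' := fun _ _ => rfl
      commutes' := fun _ => rfl }
  obtain ⟨f, hf'⟩ := Algebra.FormallySmooth.exists_lift (maximalIdeal S) hnil g₀
  have hτ : ∀ c : ResidueField S, residue S (f c) = c := fun c => DFunLike.congr_fun hf' c
  have hdec : ∃ i w, IsUnit w ∧ G g = u ^ i * w := by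
    rcases decomp hu (G g) m with h | h
    · exact h
    · rw [hm, zero_dvd_iff] at h
      exact absurd h hg
  obtain ⟨N, Y, h1, h2⟩ := chain_poly_aux (residue S) f.toRingHom hτ (u := u)
    (fun x => by rw [residue_eq_zero_iff, hu, Ideal.mem_span_singleton]) hm G F g hg
    (fun f hfF => by
      obtain ⟨b, hb, hb2⟩ := hf f hfF
      exact ⟨b, dvd_of_not_isUnit hu hb, hb2⟩) hdec
    (fun x hx => by
      by_contra hnu
      exact hx (by rw [residue_eq_zero_iff]; exact (mem_maximalIdeal _).2 hnu))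
  exact ⟨ResidueField S, inferInstance, inferInstance, hfin, N, Y, h1, h2⟩

end Pool.Agent.ZAB
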