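import Pool.Agent.ZAB.DecZ
import Pool.Agent.ZAB.PD

set_option autoImplicit false

/-!
# A certificate of an arc gives arcs over finite fields (package Z5)
-/

namespace Pool.Agent.ZAB

theorem ev_neg {R : Type} [CommRing R] (x : ℕ → R) (P : Pol) :
    Pol.ev x (Pol.neg P) = - Pol.ev x P := by
  induction P with
  | nil => simp [Pol.neg, ev_nil]
  | cons c P ih =>
    have h1 : Pol.neg (c :: P) = (!c.1, c.2) :: Pol.neg P := rfl
    have h2 : sg R (!c.1) = - sg R c.1 := by cases c.1 <;> simp [sg]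
    rw [h1, ev_cons, ev_cons, ih, h2]
    ring

/-- a list which is zero as an integer polynomial vanishes in every ring -/
theorem ev_of_zer {R : Type} [CommRing R] (x : ℕ → R) {P : Pol} (h : zer 0 P) :
    Pol.ev x P = 0 := by
  rw [zer_iff] at h
  obtain ⟨φ⟩ : Nonempty (ZMod 0 →+* R) := ⟨Int.castRingHom R⟩
  have h1 := map_ev (MvPolynomial.eval₂Hom φ x)
    (MvPolynomial.X : ℕ → MvPolynomial ℕ (ZMod 0)) P
  rw [h, map_zero] at h1
  rw [h1]
  congr 1
  funext v
  simp

theorem ev_congr_zero {R : Type} [CommRing R] (x y : ℕ → R) (hxy : x 0 = y 0) (P : Pol)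
    (hP : ∀ c ∈ P, ∀ v ∈ c.2, v = 0) : Pol.ev x P = Pol.ev y P := by
  induction P with
  | nil => rfl
  | cons c P ih =>
    rw [ev_cons, ev_cons, ih fun c' hc' => hP c' (List.mem_cons_of_mem _ hc')]
    congr 2
    refine congrArg List.prod (List.map_congr_left fun v hv => ?_)
    rw [hP c (List.mem_cons_self) v hv, hxy]

theorem hpol_vars (n : ℕ) (h : Pol) : ∀ c ∈ hpol n h, ∀ v ∈ c.2, v = 0 := by
  intro c hc v hv
  rcases List.mem_cons.1 hc with rfl | hc
  · exact List.eq_of_mem_replicate hv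
  · have h1 := (List.mem_filter.1 hc).1
    obtain ⟨c', _, rfl⟩ := List.mem_map.1 h1
    obtain ⟨_, _, rfl⟩ := List.mem_map.1 hv
    rfl

/-- the value of the monic polynomial -/
theorem ev_hpol_monic {k₀ : Type} [Field k₀] (n : ℕ) (h : Pol) :
    (Pol.ev (fun _ => (Polynomial.X : Polynomial k₀)) (hpol n h)).natDegree = n + 1 := by
  have h1 : ∀ P : Pol, (∀ c ∈ P, c.2.length ≤ n) →
      (Pol.ev (fun _ => (Polynomial.X : Polynomial k₀)) P).degree < ((n + 1 : ℕ) : WithBot ℕ) := by
    intro P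
    induction P with
    | nil =>
      intro _
      rw [ev_nil, Polynomial.degree_zero]
      exact WithBot.bot_lt_coe _
    | cons c P ih =>
      intro hP
      rw [ev_cons]
      refine lt_of_le_of_lt (Polynomial.degree_add_le _ _) (max_lt ?_ (ih fun c' hc' =>
        hP c' (List.mem_cons_of_mem _ hc')))
      have h2 : (c.2.map fun _ => (Polynomial.X : Polynomial k₀)).prod =
          Polynomial.X ^ c.2.length := by
        rw [List.map_const', List.prod_replicate]
      have h3 : sg (Polynomial k₀) c.1 = Polynomial.C (sg k₀ c.1) := by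
        rw [map_sg]
      rw [h2, h3]
      refine lt_of_le_of_lt (Polynomial.degree_C_mul_X_pow_le _ _) ?_
      have := hP c (List.mem_cons_self)
      exact_mod_cast Nat.lt_succ_of_le this
  have h2 := h1 ((Pol.ren0 h).filter fun c => decide (c.2.length ≤ n)) (by
    intro c hc
    exact of_decide_eq_true (List.mem_filter.1 hc).2)
  unfold hpol
  rw [ev_cons, List.map_replicate, List.prod_replicate]
  simp only [sg, if_true, one_mul]
  rw [Polynomial.natDegree_add_eq_left_of_degree_lt]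
  · simp
  · rw [Polynomial.degree_X_pow]
    exact h2

theorem chk3_arc {F : List Pol} {g : Pol} {w : W3} (h : chk3 F g w) (p : ℕ) [Fact p.Prime]
    (hp : ¬ p ∣ mlt w) : ArcL p F g := by
  obtain ⟨⟨n, hh⟩, ⟨D, M⟩, ⟨N, b⟩, Y, ⟨u, E, A, B⟩, L⟩ := w
  obtain ⟨hD0, hM0, hb, hF, hg⟩ := h
  simp only at hD0 hM0 hb hF hg
  have hD : ¬ p ∣ D := fun h1 => hp (Dvd.dvd.mul_right h1 M)
  have hM : ¬ p ∣ M := fun h1 => hp (Dvd.dvd.mul_left h1 D)
  set hbar : Polynomial (ZMod p) := Pol.ev (fun _ => (Polynomial.X : Polynomial (ZMod p)))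
    (hpol n hh) with hhbar
  have hdeg : hbar.natDegree = n + 1 := ev_hpol_monic n hh
  obtain ⟨q, hq, hqd⟩ := Polynomial.exists_irreducible_of_natDegree_pos (f := hbar) (by omega)
  have : Fact (Irreducible q) := ⟨hq⟩
  have : Module.Finite (ZMod p) (AdjoinRoot q) := (AdjoinRoot.powerBasis hq.ne_zero).finite
  have hfin : Finite (AdjoinRoot q) := Module.finite_of_finite (ZMod p)
  have hchar : CharP (AdjoinRoot q) p :=
    charP_of_injective_algebraMap (algebraMap (ZMod p) (AdjoinRoot q)).injective p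
  have hDk : ((D : ℕ) : AdjoinRoot q) ≠ 0 := by
    rw [Ne, CharP.cast_eq_zero_iff (AdjoinRoot q) p]
    exact hD
  have hMk : ((M : ℕ) : AdjoinRoot q) ≠ 0 := by
    rw [Ne, CharP.cast_eq_zero_iff (AdjoinRoot q) p]
    exact hM
  set x : ℕ → Polynomial (AdjoinRoot q) := fun v =>
    if v = 0 then Polynomial.C (AdjoinRoot.root q) else
      if v = 1 then Polynomial.X else
        if v = 2 then Polynomial.C ((D : AdjoinRoot q)⁻¹) else 0 with hx
  have hx0 : x 0 = Polynomial.C (AdjoinRoot.root q) := rfl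
  have hx1 : x 1 = Polynomial.X := rfl
  have hx2 : x 2 = Polynomial.C ((D : AdjoinRoot q)⁻¹) := rfl
  -- the three special values
  have e1 : Pol.ev x (hpol n hh) = 0 := by
    have h1 : Pol.ev x (hpol n hh) = Pol.ev (fun _ => Polynomial.C (AdjoinRoot.root q))
        (hpol n hh) := ev_congr_zero _ _ hx0 _ (hpol_vars n hh)
    have h2 := map_ev ((Polynomial.C : AdjoinRoot q →+* Polynomial (AdjoinRoot q)).comp
      (AdjoinRoot.mk q)) (fun _ => (Polynomial.X : Polynomial (ZMod p))) (hpol n hh)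
    have h3 : AdjoinRoot.mk q hbar = 0 := AdjoinRoot.mk_eq_zero.2 hqd
    rw [h1]
    rw [RingHom.comp_apply, ← hhbar, h3, map_zero] at h2
    rw [h2]
    rfl
  have e2 : Pol.ev x (zpol D) = 0 := by
    unfold zpol
    rw [ev_append, ev_nsc, ev_cons, ev_cons, ev_nil]
    simp only [List.map_cons, List.map_nil, List.prod_cons, List.prod_nil, sg, if_true, hx2]
    have h1 : ((D : ℕ) : Polynomial (AdjoinRoot q)) = Polynomial.C ((D : ℕ) : AdjoinRoot q) := by
      simp
    rw [h1]
    simp only [mul_one, one_mul, add_zero, ← Polynomial.C_mul, mul_inv_cancel₀ hDk]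
    simp
  have e3 : ∀ j : ℕ, Pol.ev x (xpow j) = Polynomial.X ^ j := by
    intro j
    unfold xpow
    rw [ev_cons, ev_nil, List.map_replicate, List.prod_replicate, hx1]
    simp [sg]
  refine ⟨AdjoinRoot q, inferInstance, hfin, hchar, N, fun v => Pol.ev x (Y.getD v []), ?_, ?_⟩
  · intro f hf
    obtain ⟨t, _, ht⟩ := hF f hf
    have h1 := ev_of_zer x ht
    rw [ev_append, ev_neg, ev_append, ev_append, ev_mul, ev_mul, ev_mul, e1, e2, e3,
      ev_subst] at h1
    refine ⟨Pol.ev x t.2.2, ?_⟩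
    rw [mul_zero, mul_zero, zero_add, zero_add] at h1
    rw [add_neg_eq_zero.1 h1, mul_comm]
  · rintro ⟨c, hc⟩
    have h1 := ev_of_zer x hg
    rw [ev_append, ev_neg, ev_append, ev_append, ev_append, ev_mul, ev_mul, ev_mul, ev_mul, ev_nsc,
      e1, e2, e3, e3, ev_subst, hc] at h1
    rw [mul_zero, mul_zero, add_zero, add_zero] at h1
    have h2 := congrArg (fun P : Polynomial (AdjoinRoot q) => P.coeff b) (add_neg_eq_zero.1 h1)
    have h3 : Pol.ev x u * (Polynomial.X ^ (N + 1) * c) =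
        (Pol.ev x u * c) * Polynomial.X ^ (N + 1) := by ring
    have h4 : ((M : ℕ) : Polynomial (AdjoinRoot q)) = Polynomial.C ((M : ℕ) : AdjoinRoot q) := by
      simp
    have h5 : (Pol.ev x E * Polynomial.X ^ (b + 1)).coeff b = 0 := by
      rw [Polynomial.coeff_mul_X_pow', if_neg (by omega)]
    have h6 : (((M : ℕ) : Polynomial (AdjoinRoot q)) * Polynomial.X ^ b).coeff b =
        ((M : ℕ) : AdjoinRoot q) := by
      rw [h4, Polynomial.coeff_C_mul, Polynomial.coeff_X_pow, if_pos rfl, mul_one]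
    rw [h3, Polynomial.coeff_mul_X_pow', if_neg (by omega), Polynomial.coeff_add, h5, h6,
      add_zero] at h2
    exact hMk h2.symm

end Pool.Agent.ZAB
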