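import Pool.Agent.ZAB.DecZ
import Pool.Agent.ZAB.PD
import Pool.Agent.ZAB.E3

set_option autoImplicit false

/-!
# Z6: arcs over number fields have certificates
-/

namespace Pool.Agent.ZAB

namespace Z6

open Polynomial

/-! ### lists -/

section lists
variable {R : Type} [CommRing R]

theorem ev_replicate (x : ℕ → R) (k : ℕ) (c : Bool × List ℕ) :
    Pol.ev x (List.replicate k c) = (k : R) * (sg R c.1 * (c.2.map x).prod) := by
  induction k with
  | zero => simp [ev_nil]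
  | succ k ih => rw [List.replicate_succ, ev_cons, ih]; push_cast; ring

/-- the list of a polynomial of degree at most `n` in the variable 0 -/
noncomputable def lowl (n : ℕ) (p : ℤ[X]) : Pol :=
  (List.range (n + 1)).flatMap fun i =>
    List.replicate (p.coeff i).natAbs (decide (0 ≤ p.coeff i), List.replicate i 0)

theorem lowl_len (n : ℕ) (p : ℤ[X]) : ∀ c ∈ Pol.ren0 (lowl n p), c.2.length ≤ n := by
  intro c hc
  simp only [Pol.ren0, lowl, List.mem_map, List.mem_flatMap, List.mem_range] at hc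
  obtain ⟨c', ⟨i, hi, hc'⟩, rfl⟩ := hc
  have := List.eq_of_mem_replicate hc'
  subst this
  simp
  omega

theorem ev_term (x : ℕ → R) (p : ℤ[X]) (i : ℕ) :
    Pol.ev (fun _ => x 0) (List.replicate (p.coeff i).natAbs (decide (0 ≤ p.coeff i), List.replicate i 0)) =
      ((p.coeff i : ℤ) : R) * x 0 ^ i := by
  rw [ev_replicate]
  by_cases h : 0 ≤ p.coeff i
  · have h1 : ((p.coeff i).natAbs : ℤ) = p.coeff i := Int.natAbs_of_nonneg h
    have h2 : (((p.coeff i).natAbs : ℕ) : R) = ((p.coeff i : ℤ) : R) := by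
      rw [← Int.cast_natCast, h1]
    rw [h2]
    simp [sg, h]
  · have h1 : ((p.coeff i).natAbs : ℤ) = - p.coeff i := Int.ofNat_natAbs_of_nonpos (by omega)
    have h2 : (((p.coeff i).natAbs : ℕ) : R) = - ((p.coeff i : ℤ) : R) := by
      rw [← Int.cast_natCast, h1, Int.cast_neg]
    rw [h2]
    simp [sg, h]

theorem ev_lowl (x : ℕ → R) (n : ℕ) (p : ℤ[X]) (hp : p.natDegree < n + 1) :
    Pol.ev x (Pol.ren0 (lowl n p)) = aeval (x 0) p := by
  rw [evl_ren0, lowl, ev_flatMap, aeval_eq_sum_range' hp]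
  have h1 : ((List.range (n + 1)).map fun i => Pol.ev (fun _ => x 0)
      (List.replicate (p.coeff i).natAbs (decide (0 ≤ p.coeff i), List.replicate i 0))) =
      (List.range (n + 1)).map fun i => p.coeff i • x 0 ^ i := by
    apply List.map_congr_left
    intro i _
    rw [ev_term, zsmul_eq_mul]
  rw [h1]
  rfl

theorem exists_hpol {n : ℕ} {p : ℤ[X]} (hm : p.Monic) (hn : p.natDegree = n + 1) :
    ∃ h : Pol, ∀ {R : Type} [CommRing R] (x : ℕ → R), Pol.ev x (hpol n h) = aeval (x 0) p := by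
  refine ⟨lowl n p.eraseLead, ?_⟩
  intro R _ x
  have hf : (Pol.ren0 (lowl n p.eraseLead)).filter (fun c => decide (c.2.length ≤ n)) =
      Pol.ren0 (lowl n p.eraseLead) := by
    rw [List.filter_eq_self]
    intro c hc
    exact decide_eq_true (lowl_len n _ c hc)
  have hd : p.eraseLead.natDegree < n + 1 := by
    have := eraseLead_natDegree_le p
    omega
  rw [hpol, hf, ev_cons, ev_lowl x n _ hd]
  conv_rhs => rw [← eraseLead_add_C_mul_X_pow p]
  rw [hm.leadingCoeff, hn]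
  simp [sg]
  ring

theorem ev_zpol (x : ℕ → R) (D : ℕ) : Pol.ev x (zpol D) = (D : R) * x 2 - 1 := by
  rw [zpol, ev_append, ev_nsc, ev_cons, ev_cons, ev_nil]
  simp [sg]
  ring

theorem ev_xpow (x : ℕ → R) (b : ℕ) : Pol.ev x (xpow b) = x 1 ^ b := by
  rw [xpow, ev_cons, ev_nil]
  simp [sg]

theorem ev_neg (x : ℕ → R) (P : Pol) : Pol.ev x (Pol.neg P) = - Pol.ev x P := evl_neg x P

end lists

/-! ### the field -/

theorem exists_int_elt (K : Type) [Field K] [Algebra ℚ K] [Module.Finite ℚ K] :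
    ∃ θ : K, IsIntegral ℤ θ ∧
      ∀ a : K, ∃ m : ℤ, m ≠ 0 ∧ ∃ q : ℤ[X], aeval θ q = (m : K) * a := by
  have : CharZero K := algebraRat.charZero K
  obtain ⟨α, hα⟩ := Field.exists_primitive_element ℚ K
  have halgQ : IsAlgebraic ℚ α := (IsIntegral.of_finite ℚ α).isAlgebraic
  have halg : IsAlgebraic ℤ α := (IsFractionRing.isAlgebraic_iff ℤ ℚ K).2 halgQ
  obtain ⟨y, hy0, hy⟩ := halg.exists_integral_multiple
  refine ⟨y • α, hy, ?_⟩
  have hy0' : (y : K) ≠ 0 := by exact_mod_cast hy0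
  have htop : Algebra.adjoin ℚ {α} = ⊤ := by
    have h1 := IntermediateField.adjoin_simple_toSubalgebra_of_isAlgebraic halgQ
    rw [hα] at h1
    rw [← h1]
    rfl
  intro a
  have ha : a ∈ Algebra.adjoin ℚ {α} := by rw [htop]; trivial
  induction ha using Algebra.adjoin_induction with
  | mem a ha =>
    rw [Set.mem_singleton_iff] at ha
    subst ha
    exact ⟨y, hy0, X, by simp⟩
  | algebraMap r =>
    refine ⟨r.den, by exact_mod_cast r.den_nz, C r.num, ?_⟩
    have h1 : (r.den : K) * (algebraMap ℚ K r) = (r.num : K) := by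
      have h2 : (algebraMap ℚ K) ((r.den : ℚ) * r) = algebraMap ℚ K (r.num : ℚ) := by
        rw [mul_comm, Rat.mul_den_eq_num]
      rw [map_mul, map_natCast, map_intCast] at h2
      exact h2
    rw [aeval_C]
    have h3 : ((r.den : ℤ) : K) = (r.den : K) := Int.cast_natCast _
    rw [h3, h1]
    simp
  | add a b _ _ iha ihb =>
    obtain ⟨m, hm, q, hq⟩ := iha
    obtain ⟨m', hm', q', hq'⟩ := ihb
    refine ⟨m * m', mul_ne_zero hm hm', C m' * q + C m * q', ?_⟩
    rw [map_add, map_mul, map_mul, hq, hq', aeval_C, aeval_C]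
    simp
    ring
  | mul a b _ _ iha ihb =>
    obtain ⟨m, hm, q, hq⟩ := iha
    obtain ⟨m', hm', q', hq'⟩ := ihb
    refine ⟨m * m', mul_ne_zero hm hm', q * q', ?_⟩
    rw [map_mul, hq, hq']
    push_cast
    ring

section ker
variable {K : Type} [Field K]

/-- evaluation at `θ` -/
noncomputable abbrev tev (θ : K) : ℤ[X] →+* K := ((aeval θ : ℤ[X] →ₐ[ℤ] K) : ℤ[X] →+* K)

theorem den_poly {θ : K} (hθ : ∀ a : K, ∃ m : ℤ, m ≠ 0 ∧ ∃ q : ℤ[X], aeval θ q = (m : K) * a)
    (s : K[X]) : ∃ m : ℤ, m ≠ 0 ∧ ∃ r : ℤ[X][X], r.map (tev θ) = (m : K[X]) * s := by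
  induction s using Polynomial.induction_on' with
  | add p q ihp ihq =>
    obtain ⟨m, hm, r, hr⟩ := ihp
    obtain ⟨m', hm', r', hr'⟩ := ihq
    refine ⟨m * m', mul_ne_zero hm hm', C (C m') * r + C (C m) * r', ?_⟩
    rw [Polynomial.map_add, Polynomial.map_mul, Polynomial.map_mul, hr, hr']
    simp
    ring
  | monomial n a =>
    obtain ⟨m, hm, q, hq⟩ := hθ a
    refine ⟨m, hm, monomial n q, ?_⟩
    rw [Polynomial.map_monomial]
    have h1 : tev θ q = (m : K) * a := hq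
    rw [h1, ← C_mul_X_pow_eq_monomial, ← C_mul_X_pow_eq_monomial, C_mul]
    simp [mul_assoc]

theorem den_list {θ : K} (hθ : ∀ a : K, ∃ m : ℤ, m ≠ 0 ∧ ∃ q : ℤ[X], aeval θ q = (m : K) * a)
    (L : List K[X]) : ∃ D : ℕ, D ≠ 0 ∧ ∀ s ∈ L, ∃ r : ℤ[X][X], r.map (tev θ) = (D : K[X]) * s := by
  induction L with
  | nil => exact ⟨1, one_ne_zero, by simp⟩
  | cons s L ih =>
    obtain ⟨D, hD, hL⟩ := ih
    obtain ⟨m, hm, r, hr⟩ := den_poly hθ s
    have hmm : ((m.natAbs * m.natAbs : ℕ) : ℤ) = m * m := by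
      push_cast
      rw [← Int.natAbs_mul_self (a := m)]
      push_cast
      rfl
    have hmm' : (((m.natAbs * m.natAbs : ℕ) : ℕ) : K[X]) = (m : K[X]) * (m : K[X]) := by
      rw [← Int.cast_natCast, hmm, Int.cast_mul]
    refine ⟨D * (m.natAbs * m.natAbs), mul_ne_zero hD
      (mul_ne_zero (Int.natAbs_ne_zero.2 hm) (Int.natAbs_ne_zero.2 hm)), ?_⟩
    intro s' hs'
    rcases List.mem_cons.1 hs' with h | h
    · subst h
      refine ⟨C (C ((D : ℤ) * m)) * r, ?_⟩
      rw [Polynomial.map_mul, hr, Nat.cast_mul, hmm']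
      simp
      ring
    · obtain ⟨r', hr'⟩ := hL s' h
      refine ⟨C (C (m * m)) * r', ?_⟩
      rw [Polynomial.map_mul, hr', Nat.cast_mul, hmm']
      simp
      ring

variable {R : Type} [CommRing R]

/-- the map `x_0 ↦ t0`, `x_1 ↦ t1` -/
noncomputable def io (t0 t1 : R) : ℤ[X][X] →+* R :=
  eval₂RingHom ((aeval t0 : ℤ[X] →ₐ[ℤ] R) : ℤ[X] →+* R) t1

theorem io_C (t0 t1 : R) (q : ℤ[X]) : io t0 t1 (C q) = aeval t0 q := by
  simp [io]

theorem io_X (t0 t1 : R) : io t0 t1 X = t1 := by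
  simp [io]

theorem phi_io (φ : R →+* K[X]) {θ : K} {t0 t1 : R} (h0 : φ t0 = C θ) (h1 : φ t1 = X) (r : ℤ[X][X]) :
    φ (io t0 t1 r) = r.map (tev θ) := by
  have h : φ.comp (io t0 t1) = mapRingHom (tev θ) := by
    apply Polynomial.ringHom_ext'
    · apply Polynomial.ringHom_ext'
      · exact Subsingleton.elim _ _
      · simp only [RingHom.comp_apply, io_C, aeval_X, h0, coe_mapRingHom, map_C]
        simp
    · simp only [RingHom.comp_apply, io_X, h1, coe_mapRingHom, map_X]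
  exact congrArg (fun f => f r) h

theorem io_mem (t0 t1 t2 : R) (r : ℤ[X][X]) : io t0 t1 r ∈ Subring.closure ({t0, t1, t2} : Set R) := by
  have h0 : t0 ∈ Subring.closure ({t0, t1, t2} : Set R) := Subring.subset_closure (by simp)
  have h1 : t1 ∈ Subring.closure ({t0, t1, t2} : Set R) := Subring.subset_closure (by simp)
  have hC : ∀ q : ℤ[X], aeval t0 q ∈ Subring.closure ({t0, t1, t2} : Set R) := by
    intro q
    rw [aeval_eq_sum_range]
    refine sum_mem fun i _ => ?_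
    exact zsmul_mem (pow_mem h0 i) _
  induction r using Polynomial.induction_on' with
  | add p q ihp ihq => rw [map_add]; exact add_mem ihp ihq
  | monomial n a =>
    rw [← C_mul_X_pow_eq_monomial, map_mul, map_pow, io_C, io_X]
    exact mul_mem (hC a) (pow_mem h1 n)

theorem clear (t0 t1 t2 : R) (D : ℕ) {q : R} (hq : q ∈ Subring.closure ({t0, t1, t2} : Set R)) :
    ∃ (k : ℕ) (r : ℤ[X][X]) (b : R), (D : R) ^ k * q = io t0 t1 r + b * ((D : R) * t2 - 1) := by
  induction hq using Subring.closure_induction with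
  | mem q hq =>
    simp only [Set.mem_insert_iff, Set.mem_singleton_iff] at hq
    rcases hq with rfl | rfl | rfl
    · exact ⟨0, C X, 0, by simp [io_C]⟩
    · exact ⟨0, X, 0, by simp [io_X]⟩
    · exact ⟨1, 1, 1, by simp⟩
  | zero => exact ⟨0, 0, 0, by simp⟩
  | one => exact ⟨0, 1, 0, by simp⟩
  | add a b _ _ iha ihb =>
    obtain ⟨k, r, c, h⟩ := iha
    obtain ⟨k', r', c', h'⟩ := ihb
    refine ⟨k + k', (D : ℤ[X][X]) ^ k' * r + (D : ℤ[X][X]) ^ k * r', (D : R) ^ k' * c + (D : R) ^ k * c', ?_⟩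
    rw [map_add, map_mul, map_mul, map_pow, map_pow, map_natCast]
    linear_combination (D : R) ^ k' * h + (D : R) ^ k * h'
  | neg a _ iha =>
    obtain ⟨k, r, c, h⟩ := iha
    refine ⟨k, -r, -c, ?_⟩
    rw [map_neg]
    linear_combination - h
  | mul a b _ _ iha ihb =>
    obtain ⟨k, r, c, h⟩ := iha
    obtain ⟨k', r', c', h'⟩ := ihb
    refine ⟨k + k', r * r', c * ((D : R) ^ k' * b) + io t0 t1 r * c', ?_⟩
    rw [map_mul]
    linear_combination (D : R) ^ k' * b * h + io t0 t1 r * h'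

theorem ker (φ : R →+* K[X]) {θ : K} (hθ : IsIntegral ℤ θ) {t0 t1 t2 : R} {D : ℕ} (h0 : φ t0 = C θ)
    (h1 : φ t1 = X) (h2 : φ ((D : R) * t2 - 1) = 0) [CharZero K]
    {q : R} (hq : q ∈ Subring.closure ({t0, t1, t2} : Set R)) (hφ : φ q = 0) :
    ∃ a b : R, q = a * aeval t0 (minpoly ℤ θ) + b * ((D : R) * t2 - 1) := by
  obtain ⟨k, r, b, hk⟩ := clear t0 t1 t2 D hq
  have h3 : r.map (tev θ) = 0 := by
    rw [← phi_io φ h0 h1]
    have h4 := congrArg φ hk
    rw [map_mul, hφ, mul_zero, map_add, map_mul, h2, mul_zero, add_zero] at h4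
    exact h4.symm
  have h5 : C (minpoly ℤ θ) ∣ r := by
    rw [C_dvd_iff_dvd_coeff]
    intro i
    apply minpoly.isIntegrallyClosed_dvd hθ
    have h6 := congrArg (fun p => p.coeff i) h3
    simpa [coeff_map] using h6
  obtain ⟨a, rfl⟩ := h5
  rw [map_mul, io_C] at hk
  obtain ⟨e, he⟩ := sub_dvd_pow_sub_pow ((D : R) * t2) 1 k
  refine ⟨t2 ^ k * io t0 t1 a, t2 ^ k * b - e * q, ?_⟩
  rw [one_pow, mul_pow] at he
  linear_combination t2 ^ k * hk - q * he

end ker

theorem lead_term {K : Type} [Field K] {N : ℕ} {G : K[X]} (h : ¬ X ^ (N + 1) ∣ G) :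
    ∃ b, b ≤ N ∧ ∃ u E : K[X], u * G = X ^ b + E * X ^ (b + 1) := by
  classical
  have h1 : ∃ d, d < N + 1 ∧ G.coeff d ≠ 0 := by
    by_contra hne
    push Not at hne
    exact h (X_pow_dvd_iff.2 hne)
  let b := Nat.find h1
  have hb : b < N + 1 ∧ G.coeff b ≠ 0 := Nat.find_spec h1
  have hlt : ∀ d < b, G.coeff d = 0 := by
    intro d hd
    by_contra hne
    exact Nat.find_min h1 hd ⟨by omega, hne⟩
  obtain ⟨G1, hG1⟩ := X_pow_dvd_iff.2 hlt
  have hc : G1.coeff 0 ≠ 0 := by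
    have h2 : G.coeff b = G1.coeff 0 := by
      rw [hG1]
      have := coeff_X_pow_mul G1 b 0
      simpa using this
    rw [← h2]
    exact hb.2
  have hX : X ∣ C (G1.coeff 0)⁻¹ * G1 - 1 := by
    rw [X_dvd_iff]
    simp [hc]
  obtain ⟨E, hE⟩ := hX
  refine ⟨b, by omega, C (G1.coeff 0)⁻¹, E, ?_⟩
  conv_lhs => rw [hG1]
  linear_combination X ^ b * hE

end Z6

open Z6 in
theorem exists_chk3 {F : List Pol} {g : Pol} (h : ArcZ F g) : ∃ w : W3, chk3 F g w := by
  classical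
  obtain ⟨K, iK, iA, iF, N, Y, hF, hg⟩ := h
  have : CharZero K := algebraRat.charZero K
  obtain ⟨θ, hθ, hfrac⟩ := exists_int_elt K
  obtain ⟨b, hb, u, E, huE⟩ := lead_term hg
  obtain ⟨n0, hn0⟩ := exists_bound_list (g :: F)
  choose! Q hQ using hF
  obtain ⟨D, hD, hden⟩ := den_list hfrac (u :: E :: (F.map Q ++ (List.range n0).map Y))
  have hDK : (D : K) ≠ 0 := by exact_mod_cast hD
  -- the evaluation
  let x : ℕ → Polynomial K := fun v => if v = 0 then Polynomial.C θ else if v = 1 then Polynomial.X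
    else Polynomial.C ((D : K)⁻¹)
  have : CharP (Polynomial K) 0 := CharP.ofCharZero _
  let φ : MvPolynomial ℕ (ZMod 0) →+* Polynomial K :=
    MvPolynomial.eval₂Hom (ZMod.castHom (dvd_refl 0) (Polynomial K)) x
  let t : ℕ → MvPolynomial ℕ (ZMod 0) := MvPolynomial.X
  have hφ : ∀ v, φ (t v) = x v := fun v => by
    simp only [φ, t, MvPolynomial.coe_eval₂Hom, MvPolynomial.eval₂_X]
  have h0 : φ (t 0) = Polynomial.C θ := by rw [hφ]; simp [x]
  have h1 : φ (t 1) = Polynomial.X := by rw [hφ]; simp [x]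
  have h2 : φ ((D : MvPolynomial ℕ (ZMod 0)) * t 2 - 1) = 0 := by
    rw [map_sub, map_mul, map_natCast, map_one, hφ]
    have h3 : (D : Polynomial K) = Polynomial.C (D : K) := by simp
    simp only [x]
    rw [h3]
    simp only [OfNat.ofNat_ne_zero, ↓reduceIte, OfNat.ofNat_ne_one]
    rw [← Polynomial.C_mul, mul_inv_cancel₀ hDK]
    simp
  let T := Subring.closure ({t 0, t 1, t 2} : Set (MvPolynomial ℕ (ZMod 0)))
  have ht1 : t 1 ∈ T := Subring.subset_closure (by simp)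
  have ht2 : t 2 ∈ T := Subring.subset_closure (by simp)
  -- lifts
  have lift : ∀ s ∈ (u :: E :: (F.map Q ++ (List.range n0).map Y)), ∃ p ∈ T, φ p = s := by
    intro s hs
    obtain ⟨r, hr⟩ := hden s hs
    refine ⟨t 2 * io (t 0) (t 1) r, mul_mem ht2 (io_mem _ _ _ _), ?_⟩
    rw [map_mul, phi_io φ h0 h1, hr]
    have h3 : φ (t 2) * (D : Polynomial K) = 1 := by
      have h4 := h2
      rw [map_sub, map_mul, map_natCast, map_one] at h4
      rw [mul_comm]
      exact sub_eq_zero.1 h4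
    rw [← mul_assoc, h3, one_mul]
  obtain ⟨u', hu', hu⟩ := lift u (by simp)
  obtain ⟨E', hE', hE⟩ := lift E (by simp)
  have lQ : ∀ f ∈ F, ∃ p ∈ T, φ p = Q f := fun f hf => lift (Q f) (by
    simp only [List.mem_cons, List.mem_append, List.mem_map]
    exact Or.inr (Or.inr (Or.inl ⟨f, hf, rfl⟩)))
  have lY : ∀ v, v < n0 → ∃ p ∈ T, φ p = Y v := fun v hv => lift (Y v) (by
    simp only [List.mem_cons, List.mem_append, List.mem_map, List.mem_range]
    exact Or.inr (Or.inr (Or.inr ⟨v, hv, rfl⟩)))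
  have lY' : ∀ v, ∃ p ∈ T, v < n0 → φ p = Y v := by
    intro v
    by_cases hv : v < n0
    · obtain ⟨p, hp, hp'⟩ := lY v hv
      exact ⟨p, hp, fun _ => hp'⟩
    · exact ⟨0, zero_mem _, fun h => absurd h hv⟩
  choose Y' hY'T hY' using lY'
  choose Yp hYp using fun v => ev_surj 0 (Y' v)
  let Yl : List Pol := (List.range n0).map Yp
  let y : ℕ → MvPolynomial ℕ (ZMod 0) := fun v => Pol.ev MvPolynomial.X (Yl.getD v [])
  have hy1 : ∀ v, v < n0 → y v = Y' v := by
    intro v hv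
    have : Yl.getD v [] = Yp v := by simp [Yl, List.getD, hv]
    simp only [y]
    rw [this, hYp v]
  have hev : ∀ P ∈ g :: F, Pol.ev MvPolynomial.X (Pol.subst Yl P) = Pol.ev Y' P := by
    intro P hP
    rw [ev_subst]
    exact ev_congr_lt (hn0 P hP) hy1
  have hevT : ∀ P : Pol, Pol.ev Y' P ∈ T := by
    intro P
    induction P with
    | nil => rw [ev_nil]; exact zero_mem _
    | cons c P ih =>
      rw [ev_cons]
      refine add_mem (mul_mem ?_ (list_prod_mem ?_)) ih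
      · cases c.1
        · simp only [sg]; exact neg_mem (one_mem _)
        · simp only [sg]; exact one_mem _
      · intro z hz
        obtain ⟨v, _, rfl⟩ := List.mem_map.1 hz
        exact hY'T v
  have hevφ : ∀ P ∈ g :: F, φ (Pol.ev Y' P) = Pol.ev Y P := by
    intro P hP
    rw [map_ev]
    exact ev_congr_lt (hn0 P hP) hY'
  -- the minimal polynomial
  have hmon : (minpoly ℤ θ).Monic := minpoly.monic hθ
  have hdeg : (minpoly ℤ θ).natDegree ≠ 0 := (minpoly.natDegree_pos hθ).ne'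
  obtain ⟨n, hn⟩ := Nat.exists_eq_succ_of_ne_zero hdeg
  obtain ⟨hl, hhl⟩ := exists_hpol hmon hn
  -- the identities
  have key : ∀ q ∈ T, φ q = 0 → ∃ A B : Pol,
      q = Pol.ev MvPolynomial.X A * Pol.ev MvPolynomial.X (hpol n hl) +
        Pol.ev MvPolynomial.X B * Pol.ev MvPolynomial.X (zpol D) := by
    intro q hq hq0
    obtain ⟨a, b, hab⟩ := ker φ hθ h0 h1 h2 hq hq0
    obtain ⟨A, hA⟩ := ev_surj 0 a
    obtain ⟨B, hB⟩ := ev_surj 0 b
    refine ⟨A, B, ?_⟩
    rw [hhl, ev_zpol, hA, hB]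
    exact hab
  have keyF : ∀ f ∈ F, ∃ tr : Pol × Pol × Pol,
      zer 0 (Pol.subst Yl f ++ Pol.neg (Pol.mul tr.1 (hpol n hl) ++
        (Pol.mul tr.2.1 (zpol D) ++ Pol.mul tr.2.2 (xpow (N + 1))))) := by
    intro f hf
    obtain ⟨c, hcT, hc⟩ := lQ f hf
    obtain ⟨A, B, hAB⟩ := key (Pol.ev Y' f - c * t 1 ^ (N + 1))
      (sub_mem (hevT f) (mul_mem hcT (pow_mem ht1 _))) (by
        rw [map_sub, map_mul, map_pow, h1, hc, hevφ f (List.mem_cons_of_mem _ hf), hQ f hf]
        ring)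
    obtain ⟨Cc, hCc⟩ := ev_surj 0 c
    refine ⟨(A, B, Cc), ?_⟩
    rw [zer_iff, ev_append, ev_neg, ev_append, ev_append, ev_mul, ev_mul, ev_mul, hev f
      (List.mem_cons_of_mem _ hf), ev_xpow, hCc]
    linear_combination hAB
  choose! tr htr using keyF
  obtain ⟨A, B, hAB⟩ := key (u' * Pol.ev Y' g - (t 1 ^ b + E' * t 1 ^ (b + 1)))
    (sub_mem (mul_mem hu' (hevT g)) (add_mem (pow_mem ht1 _) (mul_mem hE' (pow_mem ht1 _)))) (by
      rw [map_sub, map_add, map_mul, map_mul, map_pow, map_pow, h1, hu, hE,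
        hevφ g List.mem_cons_self, huE]
      ring)
  obtain ⟨ul, hul⟩ := ev_surj 0 u'
  obtain ⟨El, hEl⟩ := ev_surj 0 E'
  refine ⟨((n, hl), (D, 1), (N, b), Yl, (ul, El, A, B), F.map tr), hD, one_ne_zero, hb, ?_, ?_⟩
  · intro f hf
    exact ⟨tr f, List.mem_map.2 ⟨f, hf, rfl⟩, htr f hf⟩
  · show zer 0 (Pol.mul ul (Pol.subst Yl g) ++ Pol.neg (Pol.nsc 1 (xpow b) ++
      (Pol.mul El (xpow (b + 1)) ++ (Pol.mul A (hpol n hl) ++ Pol.mul B (zpol D)))))
    rw [zer_iff, ev_append, ev_neg, ev_append, ev_append, ev_append, ev_mul, ev_mul, ev_mul, ev_mul,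
      ev_nsc, hev g List.mem_cons_self, ev_xpow, ev_xpow, hul, hEl]
    push_cast
    linear_combination hAB

end Pool.Agent.ZAB
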