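import Pool.Agent.ZAB.DecZ

set_option autoImplicit false

/-!
# The certificates over number fields are primitive recursive
-/

namespace Pool.Agent.ZAB

section Z7

variable {α β γ : Type} [Primcodable α] [Primcodable β] [Primcodable γ]

private theorem filterP {f : α → List β} {p : α → β → Bool} (hf : Primrec f)
    (hp : Primrec₂ p) : Primrec fun a => (f a).filter (p a) := by
  refine (Primrec.listFilterMap hf (g := fun a b => bif p a b then some b else none) ?_).of_eq ?_
  · exact Primrec.cond hp (Primrec.option_some.comp Primrec.snd) (Primrec.const none)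
  · intro a
    induction f a with
    | nil => rfl
    | cons b l ih =>
      cases h : p a b <;> simp [h, ih]

private theorem allP {f : α → List β} {R : α → β → Prop} (hf : Primrec f)
    (hR : PrimrecPred fun q : α × β => R q.1 q.2) : PrimrecPred fun a => ∀ b ∈ f a, R a b := by
  have h : PrimrecRel fun (b : β) (a : α) => R a b :=
    PrimrecPred.comp hR (Primrec.pair Primrec.snd Primrec.fst)
  exact h.forall_mem_list.comp hf Primrec.id

private theorem nsc_p {j : α → ℕ} {p : α → Pol} (hj : Primrec j) (hp : Primrec p) :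
    Primrec fun a => Pol.nsc (j a) (p a) := by
  unfold Pol.nsc
  exact Primrec.list_flatMap (Primrec.list_range.comp hj) (hp.comp Primrec.fst)

private theorem mul_p {p q : α → Pol} (hp : Primrec p) (hq : Primrec q) :
    Primrec fun a => Pol.mul (p a) (q a) := by
  unfold Pol.mul
  refine Primrec.list_flatMap hp ?_
  refine Primrec.list_map (f := fun r : α × (Bool × List ℕ) => q r.1)
    (g := fun r b => (r.2.1 == b.1, r.2.2 ++ b.2)) (hq.comp Primrec.fst) ?_
  refine Primrec.pair ?_ ?_
  · exact Primrec.beq.comp (Primrec.fst.comp (Primrec.snd.comp Primrec.fst))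
      (Primrec.fst.comp Primrec.snd)
  · exact Primrec.list_append.comp (Primrec.snd.comp (Primrec.snd.comp Primrec.fst))
      (Primrec.snd.comp Primrec.snd)

private theorem prodl_p {l : α → List Pol} (hl : Primrec l) :
    Primrec fun a => Pol.prodl (l a) := by
  unfold Pol.prodl
  exact Primrec.list_foldr (h := fun _ b => Pol.mul b.1 b.2) hl (Primrec.const Pol.one)
    (mul_p (Primrec.fst.comp Primrec.snd) (Primrec.snd.comp Primrec.snd))

private theorem subst_p {Y : α → List Pol} {P : α → Pol} (hY : Primrec Y) (hP : Primrec P) :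
    Primrec fun a => Pol.subst (Y a) (P a) := by
  unfold Pol.subst
  refine Primrec.list_flatMap hP ?_
  refine Primrec.list_map
    (f := fun r : α × (Bool × List ℕ) => Pol.prodl (r.2.2.map fun v => (Y r.1).getD v []))
    (g := fun r d => (r.2.1 == d.1, d.2)) ?_ ?_
  · refine prodl_p (Primrec.list_map (Primrec.snd.comp Primrec.snd) ?_)
    exact (Primrec.list_getD []).comp (hY.comp (Primrec.fst.comp Primrec.fst)) Primrec.snd
  · refine Primrec.pair ?_ (Primrec.snd.comp Primrec.snd)
    exact Primrec.beq.comp (Primrec.fst.comp (Primrec.snd.comp Primrec.fst))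
      (Primrec.fst.comp Primrec.snd)

private theorem ren0_p {P : α → Pol} (hP : Primrec P) : Primrec fun a => Pol.ren0 (P a) := by
  unfold Pol.ren0
  refine Primrec.list_map hP (g := fun _ c => (c.1, c.2.map fun _ => 0)) ?_
  refine Primrec.pair (Primrec.fst.comp Primrec.snd) ?_
  exact Primrec.list_map (Primrec.snd.comp Primrec.snd) (Primrec.const 0).to₂

private theorem cnt_p {i : α → ℕ} {m : α → List ℕ} (hi : Primrec i) (hm : Primrec m) :
    Primrec fun a => cnt (i a) (m a) := by
  unfold cnt
  refine Primrec.list_length.comp (filterP (p := fun a b => decide (b = i a)) hm ?_)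
  exact (Primrec.eq.comp Primrec.snd (hi.comp Primrec.fst)).decide

private theorem same_p {m m' : α → List ℕ} (hm : Primrec m) (hm' : Primrec m') :
    Primrec fun a => same (m a) (m' a) := by
  unfold same
  refine PrimrecPred.decide (allP (R := fun a v => cnt v (m a) = cnt v (m' a))
    (Primrec.list_append.comp hm hm') ?_)
  exact Primrec.eq.comp (cnt_p Primrec.snd (hm.comp Primrec.fst))
    (cnt_p Primrec.snd (hm'.comp Primrec.fst))

private theorem zer_p {d : α → ℕ} {P : α → Pol} (hd : Primrec d) (hP : Primrec P) :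
    PrimrecPred fun a => zer (d a) (P a) := by
  unfold zer
  refine allP (R := fun a c => ((P a).filter fun c' => c'.1 && same c'.2 c.2).length % d a =
    ((P a).filter fun c' => !c'.1 && same c'.2 c.2).length % d a) hP ?_
  have h1 : Primrec₂ fun (q : α × (Bool × List ℕ)) (c' : Bool × List ℕ) =>
      same c'.2 q.2.2 := same_p (Primrec.snd.comp Primrec.snd)
        (Primrec.snd.comp (Primrec.snd.comp Primrec.fst))
  have h2 : Primrec₂ fun (q : α × (Bool × List ℕ)) (c' : Bool × List ℕ) => c'.1 :=
    Primrec.fst.comp Primrec.snd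
  refine Primrec.eq.comp (Primrec.nat_mod.comp (Primrec.list_length.comp
    (filterP (p := fun (q : α × (Bool × List ℕ)) c' => c'.1 && same c'.2 q.2.2)
      (hP.comp Primrec.fst) ?_)) (hd.comp Primrec.fst))
    (Primrec.nat_mod.comp (Primrec.list_length.comp
    (filterP (p := fun (q : α × (Bool × List ℕ)) c' => !c'.1 && same c'.2 q.2.2)
      (hP.comp Primrec.fst) ?_)) (hd.comp Primrec.fst))
  · exact Primrec.and.comp h2 h1
  · exact Primrec.and.comp (Primrec.not.comp h2) h1

private theorem exP {f : α → List β} {R : α → β → Prop} (hf : Primrec f)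
    (hR : PrimrecPred fun q : α × β => R q.1 q.2) : PrimrecPred fun a => ∃ b ∈ f a, R a b := by
  have h : PrimrecRel fun (b : β) (a : α) => R a b :=
    PrimrecPred.comp hR (Primrec.pair Primrec.snd Primrec.fst)
  exact h.exists_mem_list.comp hf Primrec.id

private theorem replicate_p {n : α → ℕ} (hn : Primrec n) (v : β) :
    Primrec fun a => List.replicate (n a) v := by
  refine (Primrec.list_map (g := fun _ _ => v) (Primrec.list_range.comp hn)
    (Primrec.const v).to₂).of_eq fun a => ?_
  rw [List.map_const', List.length_range]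

private theorem neg_p {P : α → Pol} (hP : Primrec P) : Primrec fun a => Pol.neg (P a) := by
  unfold Pol.neg
  refine Primrec.list_map hP (g := fun _ c => (!c.1, c.2)) ?_
  exact Primrec.pair (Primrec.not.comp (Primrec.fst.comp Primrec.snd))
    (Primrec.snd.comp Primrec.snd)

private theorem hpol_p {n : α → ℕ} {h : α → Pol} (hn : Primrec n) (hh : Primrec h) :
    Primrec fun a => hpol (n a) (h a) := by
  unfold hpol
  refine Primrec.list_cons.comp (Primrec.pair (Primrec.const true)
    (replicate_p (Primrec.succ.comp hn) 0)) (filterP (p := fun a c => decide (c.2.length ≤ n a))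
    (ren0_p hh) ?_)
  exact PrimrecPred.decide (Primrec.nat_le.comp
    (Primrec.list_length.comp (Primrec.snd.comp Primrec.snd)) (hn.comp Primrec.fst))

private theorem zpol_p {D : α → ℕ} (hD : Primrec D) : Primrec fun a => zpol (D a) := by
  unfold zpol
  exact Primrec.list_append.comp (nsc_p hD (Primrec.const _)) (Primrec.const _)

private theorem xpow_p {b : α → ℕ} (hb : Primrec b) : Primrec fun a => xpow (b a) := by
  unfold xpow
  exact Primrec.list_cons.comp (Primrec.pair (Primrec.const true) (replicate_p hb 1))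
    (Primrec.const [])

private theorem app_p {P Q : α → Pol} (hP : Primrec P) (hQ : Primrec Q) :
    Primrec fun a => P a ++ Q a := Primrec.list_append.comp hP hQ

/-! Z7 -/
theorem primrec_chk3 {α : Type} [Primcodable α] {F : α → List Pol} {g : α → Pol}
    {w : α → W3} (hF : Primrec F) (hg : Primrec g) (hw : Primrec w) :
    PrimrecPred fun a => chk3 (F a) (g a) (w a) := by
  unfold chk3
  have hn : Primrec fun a => (w a).1.1 := Primrec.fst.comp (Primrec.fst.comp hw)
  have hh : Primrec fun a => (w a).1.2 := Primrec.snd.comp (Primrec.fst.comp hw)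
  have h2 : Primrec fun a => (w a).2 := Primrec.snd.comp hw
  have hD : Primrec fun a => (w a).2.1.1 := Primrec.fst.comp (Primrec.fst.comp h2)
  have hM : Primrec fun a => (w a).2.1.2 := Primrec.snd.comp (Primrec.fst.comp h2)
  have h3 : Primrec fun a => (w a).2.2 := Primrec.snd.comp h2
  have hN : Primrec fun a => (w a).2.2.1.1 := Primrec.fst.comp (Primrec.fst.comp h3)
  have hb : Primrec fun a => (w a).2.2.1.2 := Primrec.snd.comp (Primrec.fst.comp h3)
  have h4 : Primrec fun a => (w a).2.2.2 := Primrec.snd.comp h3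
  have hY : Primrec fun a => (w a).2.2.2.1 := Primrec.fst.comp h4
  have h5 : Primrec fun a => (w a).2.2.2.2 := Primrec.snd.comp h4
  have h6 : Primrec fun a => (w a).2.2.2.2.1 := Primrec.fst.comp h5
  have hL : Primrec fun a => (w a).2.2.2.2.2 := Primrec.snd.comp h5
  have hu : Primrec fun a => (w a).2.2.2.2.1.1 := Primrec.fst.comp h6
  have h7 : Primrec fun a => (w a).2.2.2.2.1.2 := Primrec.snd.comp h6
  have hE : Primrec fun a => (w a).2.2.2.2.1.2.1 := Primrec.fst.comp h7
  have h8 : Primrec fun a => (w a).2.2.2.2.1.2.2 := Primrec.snd.comp h7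
  have hA : Primrec fun a => (w a).2.2.2.2.1.2.2.1 := Primrec.fst.comp h8
  have hB : Primrec fun a => (w a).2.2.2.2.1.2.2.2 := Primrec.snd.comp h8
  have hhp : Primrec fun a => hpol (w a).1.1 (w a).1.2 := hpol_p hn hh
  have hzp : Primrec fun a => zpol (w a).2.1.1 := zpol_p hD
  refine PrimrecPred.and (PrimrecPred.not (Primrec.eq.comp hD (Primrec.const 0)))
    (PrimrecPred.and (PrimrecPred.not (Primrec.eq.comp hM (Primrec.const 0)))
    (PrimrecPred.and (Primrec.nat_le.comp hb hN) (PrimrecPred.and ?_ ?_)))
  · refine allP (R := fun a f => ∃ t ∈ (w a).2.2.2.2.2,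
      zer 0 (Pol.subst (w a).2.2.2.1 f ++ Pol.neg (Pol.mul t.1 (hpol (w a).1.1 (w a).1.2) ++
      (Pol.mul t.2.1 (zpol (w a).2.1.1) ++ Pol.mul t.2.2 (xpow ((w a).2.2.1.1 + 1)))))) hF ?_
    refine exP (R := fun (q : α × Pol) t =>
      zer 0 (Pol.subst (w q.1).2.2.2.1 q.2 ++
      Pol.neg (Pol.mul t.1 (hpol (w q.1).1.1 (w q.1).1.2) ++
      (Pol.mul t.2.1 (zpol (w q.1).2.1.1) ++ Pol.mul t.2.2 (xpow ((w q.1).2.2.1.1 + 1))))))
      (hL.comp Primrec.fst) ?_
    have ha : Primrec fun r : (α × Pol) × (Pol × Pol × Pol) => r.1.1 :=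
      Primrec.fst.comp Primrec.fst
    refine zer_p (Primrec.const 0) (app_p (subst_p (hY.comp ha) (Primrec.snd.comp Primrec.fst))
      (neg_p (app_p (mul_p (Primrec.fst.comp Primrec.snd) (hhp.comp ha))
        (app_p (mul_p (Primrec.fst.comp (Primrec.snd.comp Primrec.snd)) (hzp.comp ha))
          (mul_p (Primrec.snd.comp (Primrec.snd.comp Primrec.snd))
            (xpow_p (Primrec.succ.comp (hN.comp ha))))))))
  · exact zer_p (Primrec.const 0) (app_p (mul_p hu (subst_p hY hg))
      (neg_p (app_p (nsc_p hM (xpow_p hb)) (app_p (mul_p hE (xpow_p (Primrec.succ.comp hb)))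
        (app_p (mul_p hA hhp) (mul_p hB hzp))))))

end Z7

end Pool.Agent.ZAB
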