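import Pool.Agent.ZAB.Bool1
import Pool.Agent.ZAB.Z3
import Pool.Agent.ZAB.Z4
import Pool.Agent.ZAB.Z5
import Pool.Agent.ZAB.Z6
import Pool.Agent.ZAB.Z7
import Pool.Agent.ZAB.Z8
import Pool.Agent.ZAB.P4
import Pool.Agent.ZAB.PD
import Pool.Agent.ZAB.DecZ

set_option autoImplicit false

namespace Pool.Agent.ZAB

open MvPolynomial

/-- no multiple is integral over the ideal: there is an arc over a number field -/
theorem arcZ_of_not_integral (F : List Pol) (g : Pol)
    (h : ∀ M : ℕ, M ≠ 0 → ¬ IntegralM M (idl 0 F) (Pol.ev X g)) : ArcZ F g := by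
  classical
  obtain ⟨n, hn⟩ := exists_bound_list (g :: F)
  have hg := hn g List.mem_cons_self
  have hF : ∀ f ∈ F, ∀ c ∈ f, ∀ v ∈ c.2, v < n := fun f hf => hn f (List.mem_cons_of_mem _ hf)
  set F' : Set (MvPolynomial (Fin n) ℤ) := toFin n '' {f | f ∈ F} with hF'
  have hnot : ¬ IntegralOver (Ideal.span (MvPolynomial.map (Int.castRingHom ℚ) '' F'))
      (MvPolynomial.map (Int.castRingHom ℚ) (toFin n g)) := by
    intro hi
    obtain ⟨M, hM, hiM⟩ := integralM_of_rat F' (toFin n g) hi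
    apply h M hM
    let θ : MvPolynomial (Fin n) ℤ →+* MvPolynomial ℕ (ZMod 0) :=
      (MvPolynomial.map (Int.castRingHom (ZMod 0))).comp
        ((rename (Fin.val : Fin n → ℕ) : MvPolynomial (Fin n) ℤ →ₐ[ℤ] MvPolynomial ℕ ℤ) :
          MvPolynomial (Fin n) ℤ →+* MvPolynomial ℕ ℤ)
    have hθ : ∀ P : Pol, (∀ c ∈ P, ∀ v ∈ c.2, v < n) → θ (toFin n P) = Pol.ev X P :=
      fun P hP => map_rename_toFin hP
    have h1 := hiM.map θ (J := idl 0 F) (by
      intro x hx
      have h2 : Ideal.span F' ≤ (idl 0 F).comap θ := by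
        rw [Ideal.span_le]
        rintro _ ⟨f, hf, rfl⟩
        apply Ideal.subset_span
        exact ⟨f, hf, hθ f (hF f hf)⟩
      exact h2 hx)
    rwa [hθ g hg] at h1
  obtain ⟨B, iB, hB, iAB, hft, hgB, J, hJ, hx⟩ := exists_blowup
    (Ideal.span (MvPolynomial.map (Int.castRingHom ℚ) '' F'))
    (Submodule.fg_span ((finite_toFin n F).image _)) (MvPolynomial.map (Int.castRingHom ℚ) (toFin n g)) hnot
  letI : Algebra ℚ B := ((algebraMap (MvPolynomial (Fin n) ℚ) B).comp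
    (algebraMap ℚ (MvPolynomial (Fin n) ℚ))).toAlgebra
  haveI : IsScalarTower ℚ (MvPolynomial (Fin n) ℚ) B := IsScalarTower.of_algebraMap_eq (fun _ => rfl)
  haveI : Algebra.FiniteType ℚ B := Algebra.FiniteType.trans (S := MvPolynomial (Fin n) ℚ) inferInstance hft
  obtain ⟨S, iS, iQS, hfS, hlS, ψ, htot, h1, h2⟩ := chain_of_ideal_field (k₀ := ℚ) _ hgB J hJ
  obtain ⟨k, ik, iQk, hfk, N, Y, hY1, hY2⟩ := chain_poly_field htot
    ((ψ.comp (algebraMap (MvPolynomial (Fin n) ℚ) B)).comp (MvPolynomial.map (Int.castRingHom ℚ)))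
    F' (toFin n g) h1 (by
      intro f hf
      obtain ⟨h, hh, he⟩ := hx (MvPolynomial.map (Int.castRingHom ℚ) f) (Ideal.subset_span ⟨f, hf, rfl⟩)
      refine ⟨ψ h, h2 h hh, ?_⟩
      simp only [RingHom.comp_apply]
      rw [he, map_mul])
  refine ⟨k, ik, iQk, hfk, N, fun v => if h : v < n then Y ⟨v, h⟩ else 0, ?_, ?_⟩
  · intro f hf
    rw [← aeval_toFin]
    exact hY1 _ ⟨f, hf, rfl⟩
  · rw [← aeval_toFin]
    exact hY2

/-- the clause is true for all `p > M`, with a certificate below `B` -/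
def ta (c : Clause) (M B : ℕ) : Prop :=
  ∃ d ∈ alts c, ∃ i < B, ∃ K < M + 1, K ≠ 0 ∧ chk1 0 K (c.1 ++ d.2) d.1 (dec W1 i)

/-- the clause is false for all `p > M`, with certificates below `B` -/
def fa (c : Clause) (M B : ℕ) : Prop :=
  ∀ d ∈ alts c, ∃ i < B, chk3 (c.1 ++ d.2) d.1 (dec W3 i) ∧ mlt (dec W3 i) < M + 1

theorem ta_holds {c : Clause} {M B : ℕ} (h : ta c M B) {p : ℕ} (hp : p.Prime) (hpM : M < p) :
    Holds (ZabMod p) c := by
  obtain ⟨d, hd, i, -, K, hK, hK0, hc⟩ := h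
  refine holds_of_zero hd ((cert_iff 0 K (c.1 ++ d.2) d.1).1 ⟨_, hc⟩) hp ?_
  intro hdvd
  have := Nat.le_of_dvd (Nat.pos_of_ne_zero hK0) hdvd
  omega

theorem mlt_ne_zero {F : List Pol} {g : Pol} {w : W3} (h : chk3 F g w) : mlt w ≠ 0 :=
  Nat.mul_ne_zero h.1 h.2.1

theorem fa_not_holds {c : Clause} {M B : ℕ} (h : fa c M B) {p : ℕ} (hp : p.Prime) (hpM : M < p) :
    ¬ Holds (ZabMod p) c := by
  haveI : Fact p.Prime := ⟨hp⟩
  rw [holds_iff]
  rintro ⟨d, hd, hi⟩
  obtain ⟨i, -, hc, hm⟩ := h d hd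
  refine (not_integral_iff_arcL (c.1 ++ d.2) d.1).2 (chk3_arc hc p ?_) hi
  intro hdvd
  have := Nat.le_of_dvd (Nat.pos_of_ne_zero (mlt_ne_zero hc)) hdvd
  omega

/-- the member `a` holds for all `p`, with certificates below `B` -/
def bt0 (a : List Clause × List Clause) (B : ℕ) : Prop :=
  ∃ M < B, ((∃ c ∈ a.1, ta c M B) ∨ ∃ c ∈ a.2, fa c M B) ∧ ∀ p < M + 1, ¬ p.Prime ∨ btr p a B

theorem ta_mono {c : Clause} {M m n : ℕ} (h : m ≤ n) (ht : ta c M m) : ta c M n := by
  obtain ⟨d, hd, i, hi, K, hK⟩ := ht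
  exact ⟨d, hd, i, lt_of_lt_of_le hi h, K, hK⟩

theorem fa_mono {c : Clause} {M m n : ℕ} (h : m ≤ n) (ht : fa c M m) : fa c M n := by
  intro d hd
  obtain ⟨i, hi, hc⟩ := ht d hd
  exact ⟨i, lt_of_lt_of_le hi h, hc⟩

theorem fa_mono' {c : Clause} {M M' m n : ℕ} (hM : M ≤ M') (h : m ≤ n) (ht : fa c M m) : fa c M' n := by
  intro d hd
  obtain ⟨i, hi, hc, hm⟩ := ht d hd
  exact ⟨i, lt_of_lt_of_le hi h, hc, lt_of_lt_of_le hm (Nat.succ_le_succ hM)⟩

theorem bt0_mono {a : List Clause × List Clause} {m n : ℕ} (h : m ≤ n) (ht : bt0 a m) : bt0 a n := by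
  obtain ⟨M, hM, h1, h2⟩ := ht
  refine ⟨M, lt_of_lt_of_le hM h, ?_, fun p hp => ?_⟩
  · rcases h1 with ⟨c, hc, h1⟩ | ⟨c, hc, h1⟩
    · exact Or.inl ⟨c, hc, ta_mono h h1⟩
    · exact Or.inr ⟨c, hc, fa_mono h h1⟩
  · rcases h2 p hp with h2 | h2
    · exact Or.inl h2
    · exact Or.inr (btr_mono h h2)

theorem exists_fa {c : Clause}
    (h : ∀ d ∈ alts c, ∀ M : ℕ, M ≠ 0 → ¬ IntegralM M (idl 0 (c.1 ++ d.2)) (Pol.ev X d.1)) :
    ∃ M, fa c M M := by
  obtain ⟨M, hM⟩ := exists_common (alts c)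
    (fun d M => ∃ i < M, chk3 (c.1 ++ d.2) d.1 (dec W3 i) ∧ mlt (dec W3 i) < M + 1)
    (by
      rintro d m n hmn ⟨i, hi, hc, hm⟩
      exact ⟨i, lt_of_lt_of_le hi hmn, hc, lt_of_lt_of_le hm (Nat.succ_le_succ hmn)⟩)
    (by
      intro d hd
      obtain ⟨w, hw⟩ := exists_chk3 (arcZ_of_not_integral _ _ (h d hd))
      refine ⟨max (Encodable.encode w + 1) (mlt w), Encodable.encode w, ?_, ?_, ?_⟩
      · exact lt_of_lt_of_le (Nat.lt_succ_self _) (le_max_left _ _)
      · rwa [dec_encode]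
      · rw [dec_encode]
        exact Nat.lt_succ_of_le (le_max_right _ _))
  exact ⟨M, hM⟩

theorem forall_iff_bt0 (a : List Clause × List Clause) :
    (∀ p : ℕ, p.Prime → ((∃ c ∈ a.1, Holds (ZabMod p) c) ∨ ∃ c ∈ a.2, ¬ Holds (ZabMod p) c)) ↔
      ∃ B, bt0 a B := by
  classical
  constructor
  · intro h
    -- the certificate for almost all `p`
    have hcert : ∃ M B, (∃ c ∈ a.1, ta c M B) ∨ ∃ c ∈ a.2, fa c M B := by
      by_cases h1 : ∃ c ∈ a.1, ∃ d ∈ alts c, ∃ M : ℕ, M ≠ 0 ∧ IntegralM M (idl 0 (c.1 ++ d.2)) (Pol.ev X d.1)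
      · obtain ⟨c, hc, d, hd, M, hM0, hM⟩ := h1
        obtain ⟨w, hw⟩ := (cert_iff 0 M (c.1 ++ d.2) d.1).2 hM
        exact ⟨M, Encodable.encode w + 1, Or.inl ⟨c, hc, d, hd, Encodable.encode w, Nat.lt_succ_self _,
          M, Nat.lt_succ_self _, hM0, by rwa [dec_encode]⟩⟩
      · by_cases h2 : ∃ c ∈ a.2, ∀ d ∈ alts c, ∀ M : ℕ, M ≠ 0 → ¬ IntegralM M (idl 0 (c.1 ++ d.2)) (Pol.ev X d.1)
        · obtain ⟨c, hc, h2⟩ := h2
          obtain ⟨M, hM⟩ := exists_fa h2
          exact ⟨M, M, Or.inr ⟨c, hc, hM⟩⟩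
        · exfalso
          push Not at h1 h2
          have hfin1 : (⋃ c ∈ {c | c ∈ a.1}, {p : ℕ | p.Prime ∧ Holds (ZabMod p) c}).Finite :=
            Set.Finite.biUnion (List.finite_toSet _) fun c hc => almost_all_not_holds c (h1 c hc)
          have hfin2 : (⋃ c ∈ {c | c ∈ a.2}, {p : ℕ | p.Prime ∧ ¬ Holds (ZabMod p) c}).Finite :=
            Set.Finite.biUnion (List.finite_toSet _) fun c hc => by
              obtain ⟨d, hd, M, hM0, hM⟩ := h2 c hc
              exact almost_all_holds hd hM0 hM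
          apply Nat.infinite_setOf_prime
          refine (hfin1.union hfin2).subset ?_
          intro p hp
          rcases h p hp with ⟨c, hc, hh⟩ | ⟨c, hc, hh⟩
          · left
            rw [Set.mem_iUnion₂]
            exact ⟨c, hc, hp, hh⟩
          · right
            rw [Set.mem_iUnion₂]
            exact ⟨c, hc, hp, hh⟩
    obtain ⟨M, B0, hMB⟩ := hcert
    obtain ⟨B1, hB1⟩ := exists_common (List.range (M + 1)) (fun p B => ¬ p.Prime ∨ btr p a B)
      (by
        rintro p m n hmn (h1 | h1)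
        · exact Or.inl h1
        · exact Or.inr (btr_mono hmn h1))
      (by
        intro p _
        by_cases hp : p.Prime
        · obtain ⟨B, hB⟩ := (holds_iff_btr hp a).1 (h p hp)
          exact ⟨B, Or.inr hB⟩
        · exact ⟨0, Or.inl hp⟩)
    refine ⟨max (M + 1) (max B0 B1), M, lt_of_lt_of_le (Nat.lt_succ_self M) (le_max_left _ _), ?_, ?_⟩
    · have hle : B0 ≤ max (M + 1) (max B0 B1) := le_trans (le_max_left _ _) (le_max_right _ _)
      rcases hMB with ⟨c, hc, h1⟩ | ⟨c, hc, h1⟩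
      · exact Or.inl ⟨c, hc, ta_mono hle h1⟩
      · exact Or.inr ⟨c, hc, fa_mono hle h1⟩
    · intro p hp
      rcases hB1 p (List.mem_range.2 hp) with h1 | h1
      · exact Or.inl h1
      · exact Or.inr (btr_mono (le_trans (le_max_right _ _) (le_max_right _ _)) h1)
  · rintro ⟨B, M, -, h1, h2⟩ p hp
    by_cases hpM : p < M + 1
    · rcases h2 p hpM with h3 | h3
      · exact absurd hp h3
      · exact (holds_iff_btr hp a).2 ⟨B, h3⟩
    · have hlt : M < p := by omega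
      rcases h1 with ⟨c, hc, h1⟩ | ⟨c, hc, h1⟩
      · exact Or.inl ⟨c, hc, ta_holds h1 hp hlt⟩
      · exact Or.inr ⟨c, hc, fa_not_holds h1 hp hlt⟩

section prim
variable {α : Type} [Primcodable α]

theorem primrec_ta {c : α → Clause} {M B : α → ℕ} (hc : Primrec c) (hM : Primrec M) (hB : Primrec B) :
    PrimrecPred fun x => ta (c x) (M x) (B x) := by
  unfold ta
  refine exP' (primrec_alts hc) ?_
  refine exLt' (hB.comp Primrec.fst) ?_
  refine exLt' (Primrec.succ.comp (hM.comp (Primrec.fst.comp Primrec.fst))) ?_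
  refine PrimrecPred.and (PrimrecPred.not (Primrec.eq.comp Primrec.snd (Primrec.const 0))) ?_
  exact primrec_chk1 (Primrec.const 0) Primrec.snd
    (Primrec.list_append.comp (Primrec.fst.comp (hc.comp (Primrec.fst.comp (Primrec.fst.comp Primrec.fst))))
      (Primrec.snd.comp (Primrec.snd.comp (Primrec.fst.comp Primrec.fst))))
    (Primrec.fst.comp (Primrec.snd.comp (Primrec.fst.comp Primrec.fst)))
    (primrec_dec (Primrec.snd.comp Primrec.fst))

theorem primrec_fa {c : α → Clause} {M B : α → ℕ} (hc : Primrec c) (hM : Primrec M) (hB : Primrec B) :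
    PrimrecPred fun x => fa (c x) (M x) (B x) := by
  unfold fa
  refine allP' (primrec_alts hc) ?_
  refine exLt' (hB.comp Primrec.fst) ?_
  refine PrimrecPred.and ?_ ?_
  · exact primrec_chk3 (Primrec.list_append.comp (Primrec.fst.comp (hc.comp (Primrec.fst.comp Primrec.fst)))
      (Primrec.snd.comp (Primrec.snd.comp Primrec.fst)))
      (Primrec.fst.comp (Primrec.snd.comp Primrec.fst)) (primrec_dec Primrec.snd)
  · refine Primrec.nat_lt.comp ?_ (Primrec.succ.comp (hM.comp (Primrec.fst.comp Primrec.fst)))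
    have hd : Primrec fun q : (α × (Pol × List Pol)) × ℕ => dec W3 q.2 := primrec_dec Primrec.snd
    exact Primrec.nat_mul.comp (Primrec.fst.comp (Primrec.fst.comp (Primrec.snd.comp hd)))
      (Primrec.snd.comp (Primrec.fst.comp (Primrec.snd.comp hd)))

theorem primrec_bt0 {a : α → List Clause × List Clause} {B : α → ℕ} (ha : Primrec a) (hB : Primrec B) :
    PrimrecPred fun x => bt0 (a x) (B x) := by
  unfold bt0
  refine exLt' hB ?_
  refine PrimrecPred.and ?_ ?_
  · refine PrimrecPred.or ?_ ?_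
    · exact exP' (Primrec.fst.comp (ha.comp Primrec.fst)) (primrec_ta Primrec.snd
        (Primrec.snd.comp Primrec.fst) (hB.comp (Primrec.fst.comp Primrec.fst)))
    · exact exP' (Primrec.snd.comp (ha.comp Primrec.fst)) (primrec_fa Primrec.snd
        (Primrec.snd.comp Primrec.fst) (hB.comp (Primrec.fst.comp Primrec.fst)))
  · refine allLt' (Primrec.succ.comp Primrec.snd) ?_
    refine PrimrecPred.or (PrimrecPred.not (primrec_prime Primrec.snd)) ?_
    exact primrec_btr Primrec.snd (ha.comp (Primrec.fst.comp Primrec.fst)) (hB.comp (Primrec.fst.comp Primrec.fst))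

end prim

/-- decidability of the Boolean combinations of clauses true for all `p` -/
theorem decidable_comb_all :
    ComputablePred fun φ : Comb => ∀ p : ℕ, p.Prime → HoldsB (ZabMod p) φ := by
  refine computable_of_search (T := fun φ B => ∀ a ∈ φ, bt0 a B)
    (F := fun φ B => ∃ p < B, p.Prime ∧ ∃ a ∈ φ, bfl p a B) ?_ ?_ ?_ ?_
  · exact allP' (f := fun q : Comb × ℕ => q.1) Primrec.fst (primrec_bt0 Primrec.snd (Primrec.snd.comp Primrec.fst))
  · refine exLt' (f := fun q : Comb × ℕ => q.2) Primrec.snd ?_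
    refine PrimrecPred.and (primrec_prime Primrec.snd) ?_
    refine exP' (f := fun q : (Comb × ℕ) × ℕ => q.1.1) (Primrec.fst.comp Primrec.fst) ?_
    exact primrec_bfl (Primrec.snd.comp Primrec.fst) Primrec.snd
      (Primrec.snd.comp (Primrec.fst.comp Primrec.fst))
  · intro φ
    constructor
    · intro h
      exact exists_common φ (fun a B => bt0 a B) (fun a m n hmn h => bt0_mono hmn h)
        (fun a ha => (forall_iff_bt0 a).1 (fun p hp => h p hp a ha))
    · rintro ⟨B, hB⟩ p hp a ha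
      exact (forall_iff_bt0 a).2 ⟨B, hB a ha⟩ p hp
  · intro φ
    constructor
    · intro h
      have h1 : ∃ p : ℕ, p.Prime ∧ ∃ a ∈ φ,
          ¬ ((∃ c ∈ a.1, Holds (ZabMod p) c) ∨ ∃ c ∈ a.2, ¬ Holds (ZabMod p) c) := by
        by_contra hne
        apply h
        intro p hp a ha
        by_contra hn
        exact hne ⟨p, hp, a, ha, hn⟩
      obtain ⟨p, hp, a, ha, hn⟩ := h1
      obtain ⟨B, hB⟩ := (not_holds_iff_bfl hp a).1 hn
      exact ⟨max B (p + 1), p, lt_of_lt_of_le (Nat.lt_succ_self p) (le_max_right _ _), hp, a, ha,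
        bfl_mono (le_max_left _ _) hB⟩
    · rintro ⟨B, p, -, hp, a, ha, hB⟩ h
      exact (not_holds_iff_bfl hp a).2 ⟨B, hB⟩ (h p hp a ha)

end Pool.Agent.ZAB
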