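import Pool.Agent.ZAB.Defs

set_option autoImplicit false

namespace Pool.Agent.ZAB

/-- the index of `zI` in `I` is the index of `zR` in `R`. -/
theorem relIndex_mul {R : Type} [CommRing R] [IsDomain R] (z : R) (hz : z ≠ 0) (I : Ideal R)
    (hI : Finite (R ⧸ I)) :
    (I.toAddSubgroup.map (AddMonoidHom.mulLeft z)).relIndex I.toAddSubgroup =
      (Ideal.span {z}).toAddSubgroup.index := by
  have hle : I.toAddSubgroup.map (AddMonoidHom.mulLeft z) ≤ I.toAddSubgroup := by
    rintro _ ⟨w, hw, rfl⟩
    exact I.mul_mem_left z hw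
  have hle2 : I.toAddSubgroup.map (AddMonoidHom.mulLeft z) ≤ (Ideal.span {z}).toAddSubgroup := by
    rintro _ ⟨w, hw, rfl⟩
    exact Ideal.mul_mem_right _ _ (Ideal.mem_span_singleton_self z)
  have htop : (⊤ : AddSubgroup R).map (AddMonoidHom.mulLeft z) = (Ideal.span {z}).toAddSubgroup := by
    ext w
    constructor
    · rintro ⟨u, -, rfl⟩
      exact Ideal.mul_mem_right _ _ (Ideal.mem_span_singleton_self z)
    · intro hw
      obtain ⟨u, rfl⟩ := Ideal.mem_span_singleton.1 hw
      exact ⟨u, trivial, rfl⟩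
  have h1 := AddSubgroup.relIndex_mul_index hle
  have h2 := AddSubgroup.relIndex_mul_index hle2
  have h3 : (I.toAddSubgroup.map (AddMonoidHom.mulLeft z)).relIndex (Ideal.span {z}).toAddSubgroup =
      I.toAddSubgroup.index := by
    rw [← htop, AddSubgroup.relIndex_map_map_of_injective]
    · exact AddSubgroup.relIndex_top_right _
    · intro a b hab
      exact mul_left_cancel₀ hz hab
  rw [h3] at h2
  have h4 : I.toAddSubgroup.index ≠ 0 := by
    have : Finite (R ⧸ I.toAddSubgroup) := hI
    exact AddSubgroup.index_ne_zero_of_finite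
  have h5 : (I.toAddSubgroup.map (AddMonoidHom.mulLeft z)).relIndex I.toAddSubgroup *
      I.toAddSubgroup.index = (Ideal.span {z}).toAddSubgroup.index * I.toAddSubgroup.index := by
    rw [h1, ← h2, mul_comm]
  exact Nat.eq_of_mul_eq_mul_right (Nat.pos_of_ne_zero h4) h5

/-- Krull-Akizuki by counting. -/
theorem finite_quot {R K : Type} [CommRing R] [IsDomain R] [Field K] [Algebra R K] [IsFractionRing R K]
    (hfin : ∀ a : R, a ≠ 0 → Finite (R ⧸ Ideal.span {a})) (V : ValuationSubring K)
    (hV : ∀ r : R, algebraMap R K r ∈ V) (z : R) (hz : z ≠ 0) :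
    Finite (V ⧸ Ideal.span {(⟨algebraMap R K z, hV z⟩ : V)}) := by
  classical
  by_contra hinf
  rw [not_finite_iff_infinite] at hinf
  set zV : V := ⟨algebraMap R K z, hV z⟩ with hzV
  have hinj : Function.Injective (algebraMap R K) := IsFractionRing.injective R K
  let c : ℕ := (Ideal.span {z}).toAddSubgroup.index
  have hc : c ≠ 0 := by
    have : Finite (R ⧸ (Ideal.span {z}).toAddSubgroup) := hfin z hz
    exact AddSubgroup.index_ne_zero_of_finite
  let φ : ℕ ↪ (V ⧸ Ideal.span {zV}) := Infinite.natEmbedding _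
  choose x hx using fun i : ℕ => Ideal.Quotient.mk_surjective (φ i)
  obtain ⟨b, hb⟩ := IsLocalization.exist_integer_multiples_of_finset (nonZeroDivisors R)
    ((Finset.range (c + 1)).image (fun i => (x i : K)))
  have hb' : ∀ i : Fin (c + 1), ∃ r : R, algebraMap R K r = algebraMap R K b * (x i : K) := by
    intro i
    obtain ⟨r, hr⟩ := hb (x i : K) (Finset.mem_image.2 ⟨i, Finset.mem_range.2 i.2, rfl⟩)
    exact ⟨r, by rw [hr, Algebra.smul_def]⟩
  choose ρ hρ using hb'
  have hb0 : algebraMap R K b ≠ 0 := by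
    have : (b : R) ≠ 0 := nonZeroDivisors.ne_zero b.2
    intro h
    exact this (hinj (by rw [h, map_zero]))
  let I : Ideal R := Ideal.span (Set.range ρ)
  have hmem : ∀ i, ρ i ∈ I := fun i => Ideal.subset_span ⟨i, rfl⟩
  have hIfin : Finite (R ⧸ I) := by
    by_cases h0 : ∀ i, ρ i = 0
    · exfalso
      have e0 : (0 : ℕ) < c + 1 := Nat.succ_pos c
      have e1 : (1 : ℕ) < c + 1 := Nat.succ_lt_succ (Nat.pos_of_ne_zero hc)
      have k0 := hρ ⟨0, e0⟩
      have k1 := hρ ⟨1, e1⟩
      rw [h0, map_zero] at k0 k1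
      have l0 : ((x 0 : V) : K) = 0 := by
        rcases mul_eq_zero.1 k0.symm with h | h
        · exact absurd h hb0
        · exact h
      have l1 : ((x 1 : V) : K) = 0 := by
        rcases mul_eq_zero.1 k1.symm with h | h
        · exact absurd h hb0
        · exact h
      have l2 : x 0 = x 1 := Subtype.ext (by rw [l0, l1])
      have := φ.injective (by rw [← hx 0, ← hx 1, l2] : φ 0 = φ 1)
      exact absurd this (by norm_num)
    · push_neg at h0
      obtain ⟨i, hi⟩ := h0
      have := hfin (ρ i) hi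
      have hle : Ideal.span {ρ i} ≤ I := by
        rw [Ideal.span_singleton_le_iff_mem]
        exact hmem i
      exact Finite.of_surjective _ (Ideal.Quotient.factor_surjective hle)
  have hspan : ∀ w ∈ I, ∃ v : V, algebraMap R K w = algebraMap R K b * (v : K) := by
    intro w hw
    refine Submodule.span_induction ?_ ?_ ?_ ?_ hw
    · rintro _ ⟨i, rfl⟩
      exact ⟨x i, hρ i⟩
    · exact ⟨0, by simp⟩
    · rintro u v _ _ ⟨a, ha⟩ ⟨a', ha'⟩
      exact ⟨a + a', by rw [map_add, ha, ha']; push_cast; ring⟩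
    · rintro r u _ ⟨a, ha⟩
      refine ⟨⟨algebraMap R K r, hV r⟩ * a, ?_⟩
      rw [smul_eq_mul, map_mul, ha]
      push_cast
      ring
  have hrel := relIndex_mul z hz I hIfin
  let H := I.toAddSubgroup
  let Z := H.map (AddMonoidHom.mulLeft z)
  have hcard : Nat.card (H ⧸ Z.addSubgroupOf H) = c := hrel
  have hfinq : Finite (H ⧸ Z.addSubgroupOf H) := Nat.finite_of_card_ne_zero (by rw [hcard]; exact hc)
  let F : Fin (c + 1) → H ⧸ Z.addSubgroupOf H := fun i => QuotientAddGroup.mk ⟨ρ i, hmem i⟩
  have hF : Function.Injective F := by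
    intro i j hij
    have h1 : (-(⟨ρ i, hmem i⟩ : H) + ⟨ρ j, hmem j⟩) ∈ Z.addSubgroupOf H := QuotientAddGroup.eq.1 hij
    rw [AddSubgroup.mem_addSubgroupOf] at h1
    obtain ⟨w, hw, hw2⟩ := h1
    obtain ⟨v, hv⟩ := hspan w hw
    have h2 : z * w = -ρ i + ρ j := hw2
    have h3 : algebraMap R K b * ((x j : K) - (x i : K)) =
        algebraMap R K b * (algebraMap R K z * (v : K)) := by
      have h4 := congrArg (algebraMap R K) h2
      rw [map_mul, map_add, map_neg, hρ, hρ, hv] at h4
      linear_combination -h4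
    have h5 : (x j : K) - (x i : K) = algebraMap R K z * (v : K) := mul_left_cancel₀ hb0 h3
    have h6 : x j - x i = zV * v := Subtype.ext (by push_cast; exact h5)
    have h7 : φ j = φ i := by
      rw [← hx j, ← hx i, Ideal.Quotient.mk_eq_mk_iff_sub_mem, h6]
      exact Ideal.mul_mem_right _ _ (Ideal.mem_span_singleton_self zV)
    exact Fin.ext (φ.injective h7).symm
  have h8 := Nat.card_le_card_of_injective F hF
  rw [hcard, Nat.card_eq_fintype_card, Fintype.card_fin] at h8
  omega

end Pool.Agent.ZAB
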