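import Pool.Agent.ZAB.Defs

set_option autoImplicit false

namespace Pool.Agent.ZAB

open IsLocalRing

theorem not_lt_of_height_le_one {R : Type} [CommRing R] [IsDomain R] {Q Q' : Ideal R}
    (hQ : Q.IsPrime) (hQ' : Q'.IsPrime) (h0 : Q ≠ ⊥) (h1 : Q'.height ≤ 1) : ¬ Q < Q' := by
  intro h
  have hb : (⊥ : Ideal R) < Q := bot_lt_iff_ne_bot.2 h0
  have : (⊥ : Ideal R).IsPrime := Ideal.isPrime_bot
  have k1 := Ideal.height_add_one_le_of_lt_of_isPrime hb
  have k2 := Ideal.height_add_one_le_of_lt_of_isPrime h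
  have k3 : (1 : ℕ∞) + 1 ≤ 1 :=
    calc (1 : ℕ∞) + 1 ≤ Q.height + 1 := by
          gcongr
          exact le_trans (by simp) k1
      _ ≤ Q'.height := k2
      _ ≤ 1 := h1
  exact absurd k3 (by decide)

/-- in a local Noetherian domain in which every nonzero prime contains `y`, every nonzero prime is maximal. -/
theorem eq_max {R : Type} [CommRing R] [IsDomain R] [IsNoetherianRing R] [IsLocalRing R]
    (y : R) (hy0 : y ≠ 0) (hy : y ∈ maximalIdeal R)
    (hP : ∀ Q : Ideal R, Q.IsPrime → Q ≠ ⊥ → y ∈ Q) (Q : Ideal R) (hQ : Q.IsPrime) (hQ0 : Q ≠ ⊥) :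
    Q = maximalIdeal R := by
  have hne : ∀ P : Ideal R, y ∈ P → P ≠ ⊥ := by
    rintro P h rfl
    exact hy0 (by simpa using h)
  have hfin : (Ideal.span {y}).minimalPrimes.Finite :=
    Ideal.finite_minimalPrimes_of_isNoetherianRing R _
  have hMprime : (maximalIdeal R).IsPrime := inferInstance
  have hsub : ((maximalIdeal R : Ideal R) : Set R) ⊆ ⋃ P ∈ (Ideal.span {y}).minimalPrimes, (P : Set R) := by
    intro a ha
    rw [Set.mem_iUnion₂]
    by_cases ha0 : a = 0
    · obtain ⟨P, hP1, hP2⟩ := Ideal.exists_minimalPrimes_le (I := Ideal.span {y}) (J := maximalIdeal R)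
        ((Ideal.span_singleton_le_iff_mem _).2 hy)
      exact ⟨P, hP1, by rw [ha0]; exact P.zero_mem⟩
    · obtain ⟨P', hP1, hP2⟩ := Ideal.exists_minimalPrimes_le (I := Ideal.span {a}) (J := maximalIdeal R)
        ((Ideal.span_singleton_le_iff_mem _).2 ha)
      have hP'prime : P'.IsPrime := hP1.isPrime
      have haP : a ∈ P' := hP1.le (Ideal.mem_span_singleton_self a)
      have hP'0 : P' ≠ ⊥ := by
        rintro rfl
        exact ha0 (by simpa using haP)
      have hyP : y ∈ P' := hP P' hP'prime hP'0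
      have hh : P'.height ≤ 1 := Ideal.height_le_one_of_isPrincipal_of_mem_minimalPrimes _ _ hP1
      obtain ⟨P, hP3, hP4⟩ := Ideal.exists_minimalPrimes_le (I := Ideal.span {y}) (J := P')
        ((Ideal.span_singleton_le_iff_mem _).2 hyP)
      have hPy : y ∈ P := hP3.le (Ideal.mem_span_singleton_self y)
      have hlt := not_lt_of_height_le_one hP3.isPrime hP'prime (hne P hPy) hh
      have heq : P = P' := eq_of_le_of_not_lt hP4 hlt
      exact ⟨P, hP3, by rw [heq]; exact haP⟩
  obtain ⟨P, hP1, hP2⟩ := (Ideal.subset_union_prime_finite hfin (f := fun P => P) ⊥ ⊥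
    (fun P hP _ _ => hP.isPrime)).1 hsub
  have hPm : P = maximalIdeal R := le_antisymm (le_maximalIdeal hP1.isPrime.ne_top) hP2
  have hh : (maximalIdeal R).height ≤ 1 := by
    rw [← hPm]
    exact Ideal.height_le_one_of_isPrincipal_of_mem_minimalPrimes (Ideal.span {y}) _ hP1
  have hle : Q ≤ maximalIdeal R := le_maximalIdeal hQ.ne_top
  exact eq_of_le_of_not_lt hle (not_lt_of_height_le_one hQ hMprime hQ0 hh)

theorem finite_of_prime {R : Type} [CommRing R] [IsDomain R] [IsNoetherianRing R] [IsLocalRing R]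
    (hk : Finite (ResidueField R)) (y : R) (hy0 : y ≠ 0) (hy : y ∈ maximalIdeal R)
    (hP : ∀ Q : Ideal R, Q.IsPrime → Q ≠ ⊥ → y ∈ Q) (a : R) (ha : a ≠ 0) :
    Finite (R ⧸ Ideal.span {a}) := by
  have hrad : maximalIdeal R ≤ (Ideal.span {a}).radical := by
    rw [Ideal.radical_eq_sInf, le_sInf_iff]
    rintro Q ⟨hQ1, hQ2⟩
    have hQ0 : Q ≠ ⊥ := by
      rintro rfl
      exact ha (by simpa using hQ1 (Ideal.mem_span_singleton_self a))
    rw [eq_max y hy0 hy hP Q hQ2 hQ0]
  obtain ⟨n, hn⟩ := Ideal.exists_pow_le_of_le_radical_of_fg hrad (IsNoetherian.noetherian _)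
  have h1 : Finite (R ⧸ maximalIdeal R) := hk
  have h2 : Finite (R ⧸ (maximalIdeal R) ^ n) := Ideal.finite_quotient_pow (IsNoetherian.noetherian _) n
  exact Finite.of_surjective _ (Ideal.Quotient.factor_surjective hn)

end Pool.Agent.ZAB
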