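import Pool.Agent.ZAB.Defs

set_option autoImplicit false

namespace Pool.Agent.ZAB

open Polynomial

/-- a chart of the blow-up: `g` is not integral over `I`, so the ideal generated by the quotients `x/g`, `x` in `I`, is proper. -/
theorem exists_blowup {A : Type} [CommRing A] [IsDomain A] (I : Ideal A) (hI : I.FG) (g : A)
    (hg : ¬ IntegralOver I g) :
    ∃ (B : Type) (_ : CommRing B) (_ : IsDomain B) (_ : Algebra A B),
      Algebra.FiniteType A B ∧ algebraMap A B g ≠ 0 ∧ ∃ J : Ideal B, J ≠ ⊤ ∧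
        ∀ x ∈ I, ∃ h ∈ J, algebraMap A B x = algebraMap A B g * h := by
  classical
  have hg0 : g ≠ 0 := by
    rintro rfl
    exact hg ⟨0, fun _ => 0, fun i => Ideal.zero_mem _, by simp⟩
  let K := FractionRing A
  have hinj : Function.Injective (algebraMap A K) := IsFractionRing.injective A K
  have hgK : algebraMap A K g ≠ 0 := fun h => hg0 (hinj (by rw [h, map_zero]))
  let φ : A[X] →ₐ[A] K := aeval (algebraMap A K g)⁻¹
  let B : Subalgebra A K := (reesAlgebra I).map φ
  have hBfg : B.FG := (reesAlgebra.fg hI).map φ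
  let J : Ideal B :=
    { carrier := {b | ∃ P ∈ reesAlgebra I, P.coeff 0 = 0 ∧ φ P = (b : K)}
      add_mem' := by
        rintro a b ⟨P, hP, hP0, hPa⟩ ⟨Q, hQ, hQ0, hQb⟩
        refine ⟨P + Q, add_mem hP hQ, by simp [hP0, hQ0], by simp [map_add, hPa, hQb]⟩
      zero_mem' := ⟨0, zero_mem _, by simp, by simp⟩
      smul_mem' := by
        rintro ⟨c, hc⟩ b ⟨P, hP, hP0, hPb⟩
        obtain ⟨Q, hQ, hQc⟩ := hc
        refine ⟨Q * P, mul_mem hQ hP, by simp [mul_coeff_zero, hP0], ?_⟩
        rw [map_mul, hPb]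
        have : φ Q = c := hQc
        rw [this]
        rfl }
  refine ⟨B, inferInstance, inferInstance, inferInstance, ?_, ?_, J, ?_, ?_⟩
  · exact (Subalgebra.fg_iff_finiteType B).1 hBfg
  · intro h
    apply hgK
    have := congrArg (fun b : B => (b : K)) h
    exact this
  · intro hJ
    have h1 : (1 : B) ∈ J := by rw [hJ]; trivial
    obtain ⟨P, hP, hP0, hP1⟩ := h1
    rw [mem_reesAlgebra_iff] at hP
    have hP1' : aeval (algebraMap A K g)⁻¹ P = 1 := hP1
    have hnd : P.natDegree ≠ 0 := by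
      intro h0
      rw [Polynomial.eq_C_of_natDegree_eq_zero h0, hP0] at hP1'
      simp at hP1'
    obtain ⟨m, hm⟩ := Nat.exists_eq_succ_of_ne_zero hnd
    apply hg
    refine ⟨m, fun i => - P.coeff i, fun i => Ideal.neg_mem_iff _ |>.2 (hP i), ?_⟩
    apply hinj
    rw [aeval_eq_sum_range, hm, Finset.sum_range_succ'] at hP1'
    rw [hP0] at hP1'
    rw [map_add, map_sum, map_pow, map_zero]
    have key : ∀ i ∈ Finset.range (m + 1), algebraMap A K (-P.coeff (i + 1) * g ^ (m - i)) =
        - (algebraMap A K g) ^ (m + 1) * (P.coeff (i + 1) • (algebraMap A K g)⁻¹ ^ (i + 1)) := by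
      intro i hi
      have hi' : i ≤ m := Nat.lt_succ_iff.1 (Finset.mem_range.1 hi)
      rw [map_mul, map_neg, map_pow, Algebra.smul_def]
      have : (algebraMap A K g) ^ (m + 1) = (algebraMap A K g) ^ (m - i) * (algebraMap A K g) ^ (i + 1) := by
        rw [← pow_add]; congr 1; omega
      rw [this, inv_pow]
      have h2 : (algebraMap A K g) ^ (i + 1) * ((algebraMap A K g) ^ (i + 1))⁻¹ = 1 :=
        mul_inv_cancel₀ (pow_ne_zero _ hgK)
      linear_combination (-(algebraMap A K (P.coeff (i + 1))) * (algebraMap A K g) ^ (m - i)) * h2.symm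
    rw [Finset.sum_congr rfl key, ← Finset.mul_sum]
    have : ∑ i ∈ Finset.range (m + 1), P.coeff (i + 1) • (algebraMap A K g)⁻¹ ^ (i + 1) = 1 := by
      simpa using hP1'
    rw [this]
    ring
  · intro x hx
    have hmem : monomial 1 x ∈ reesAlgebra I := reesAlgebra.monomial_mem.2 (by simpa using hx)
    refine ⟨⟨φ (monomial 1 x), ⟨monomial 1 x, hmem, rfl⟩⟩, ⟨monomial 1 x, hmem, by simp [coeff_monomial], rfl⟩, ?_⟩
    apply Subtype.ext
    change algebraMap A K x = algebraMap A K g * φ (monomial 1 x)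
    have : φ (monomial 1 x) = algebraMap A K x * (algebraMap A K g)⁻¹ := by
      simp [φ, aeval_monomial]
    rw [this, mul_comm (algebraMap A K x), ← mul_assoc, mul_inv_cancel₀ hgK, one_mul]

end Pool.Agent.ZAB
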