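import Pool.Agent.ZAB.P1
import Pool.Agent.ZAB.P2
import Pool.Agent.ZAB.P3a

set_option autoImplicit false

namespace Pool.Agent.ZAB

open IsLocalRing

theorem isLocalHom_mk {O : Type} [CommRing O] [IsLocalRing O] (P : Ideal O) (hP : P ≠ ⊤) :
    IsLocalHom (Ideal.Quotient.mk P) := by
  have : Nontrivial (O ⧸ P) := Ideal.Quotient.nontrivial_iff.2 hP
  exact IsLocalHom.of_surjective _ Ideal.Quotient.mk_surjective

theorem isLocalRing_quot {O : Type} [CommRing O] [IsLocalRing O] (P : Ideal O) (hP : P ≠ ⊤) :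
    IsLocalRing (O ⧸ P) := by
  have : Nontrivial (O ⧸ P) := Ideal.Quotient.nontrivial_iff.2 hP
  exact IsLocalRing.of_surjective' (Ideal.Quotient.mk P) Ideal.Quotient.mk_surjective

theorem chain_local (p : ℕ) [Fact p.Prime] {O : Type} [CommRing O] [IsDomain O] [IsNoetherianRing O]
    [IsLocalRing O] [Algebra (ZMod p) O] (hk : Finite (ResidueField O)) (y : O) (hy0 : y ≠ 0)
    (hy : y ∈ maximalIdeal O) :
    ∃ (S : Type) (_ : CommRing S) (_ : FinChain p S) (ψ : O →+* S), ψ y ≠ 0 ∧ IsLocalHom ψ := by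
  classical
  -- a prime maximal among those not containing `y`
  have hwf : WellFounded ((· > ·) : Ideal O → Ideal O → Prop) := wellFounded_gt
  obtain ⟨P, ⟨hPp, hyP⟩, hPmax⟩ := hwf.has_min {P : Ideal O | P.IsPrime ∧ y ∉ P}
    ⟨⊥, Ideal.isPrime_bot, by simpa using hy0⟩
  have hPmax' : ∀ Q : Ideal O, Q.IsPrime → P < Q → y ∈ Q := by
    intro Q hQ hlt
    by_contra h
    exact hPmax Q ⟨hQ, h⟩ hlt
  have hlm := isLocalHom_mk P hPp.ne_top
  have hlr := isLocalRing_quot P hPp.ne_top
  have hyR0 : Ideal.Quotient.mk P y ≠ 0 := by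
    rwa [Ne, Ideal.Quotient.eq_zero_iff_mem]
  have hyRn : ¬ IsUnit (Ideal.Quotient.mk P y) := fun h => (mem_maximalIdeal y).1 hy (isUnit_of_map_unit _ _ h)
  have hyR : Ideal.Quotient.mk P y ∈ maximalIdeal (O ⧸ P) := (mem_maximalIdeal _).2 hyRn
  have hkR : Finite (ResidueField (O ⧸ P)) := by
    have hle : ∀ a : O, a ∈ maximalIdeal O → ((residue (O ⧸ P)).comp (Ideal.Quotient.mk P)) a = 0 := by
      intro a ha
      rw [RingHom.comp_apply, residue_eq_zero_iff, mem_maximalIdeal]
      exact fun h => (mem_maximalIdeal a).1 ha (isUnit_of_map_unit _ _ h)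
    have h1 : Finite (O ⧸ maximalIdeal O) := hk
    refine Finite.of_surjective (Ideal.Quotient.lift (maximalIdeal O) _ hle) ?_
    apply Ideal.Quotient.lift_surjective_of_surjective
    exact residue_surjective.comp Ideal.Quotient.mk_surjective
  have hQ : ∀ Q : Ideal (O ⧸ P), Q.IsPrime → Q ≠ ⊥ → Ideal.Quotient.mk P y ∈ Q := by
    intro Q hQp hQ0
    have h1 : (Q.comap (Ideal.Quotient.mk P)).IsPrime := Ideal.comap_isPrime _ _
    have h2 : P < Q.comap (Ideal.Quotient.mk P) := by
      refine lt_of_le_of_ne ?_ ?_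
      · intro a ha
        rw [Ideal.mem_comap, Ideal.Quotient.eq_zero_iff_mem.2 ha]
        exact Q.zero_mem
      · intro h
        apply hQ0
        rw [eq_bot_iff]
        intro q hq
        obtain ⟨a, rfl⟩ := Ideal.Quotient.mk_surjective q
        have : a ∈ P := by rw [h]; exact hq
        rw [Ideal.mem_bot]
        exact Ideal.Quotient.eq_zero_iff_mem.2 this
    exact hPmax' _ h1 h2
  have hfin := finite_of_prime hkR (Ideal.Quotient.mk P y) hyR0 hyR hQ
  let K := FractionRing (O ⧸ P)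
  obtain ⟨V, hV, hloc⟩ := IsLocalRing.exists_factor_valuationRing (algebraMap (O ⧸ P) K)
  have hz : (Ideal.Quotient.mk P y) ^ 2 ≠ 0 := pow_ne_zero _ hyR0
  have hSfin := finite_quot (K := K) hfin V hV _ hz
  set zV : V := ⟨algebraMap (O ⧸ P) K ((Ideal.Quotient.mk P y) ^ 2), hV _⟩ with hzV
  set c : (O ⧸ P) →+* V := (algebraMap (O ⧸ P) K).codRestrict V.toSubring hV with hc
  have hloc' : IsLocalHom c := hloc
  have hzc : zV = c (Ideal.Quotient.mk P y) ^ 2 := by
    rw [← map_pow]
    rfl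
  have hyV : ¬ IsUnit (c (Ideal.Quotient.mk P y)) := fun h => hyRn (isUnit_of_map_unit c _ h)
  have hyV0 : c (Ideal.Quotient.mk P y) ≠ 0 := by
    intro h
    apply hyR0
    apply IsFractionRing.injective (O ⧸ P) K
    rw [map_zero]
    exact congrArg (fun v : V => (v : K)) h
  have hne : Ideal.span {zV} ≠ ⊤ := by
    rw [Ne, Ideal.span_singleton_eq_top, hzc]
    intro h
    exact hyV ((isUnit_pow_iff two_ne_zero).1 h)
  have hl2 := isLocalHom_mk (Ideal.span {zV}) hne
  have hl3 := isLocalRing_quot (Ideal.span {zV}) hne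
  refine ⟨V ⧸ Ideal.span {zV}, inferInstance, ⟨hSfin, hl3, ?_, ?_⟩,
    ((Ideal.Quotient.mk (Ideal.span {zV})).comp c).comp (Ideal.Quotient.mk P), ?_, ?_⟩
  · have : Nontrivial (V ⧸ Ideal.span {zV}) := Ideal.Quotient.nontrivial_iff.2 hne
    exact charP_of_injective_ringHom (RingHom.injective
      ((((Ideal.Quotient.mk (Ideal.span {zV})).comp c).comp (Ideal.Quotient.mk P)).comp
        (algebraMap (ZMod p) O))) p
  · intro a b
    obtain ⟨a, rfl⟩ := Ideal.Quotient.mk_surjective a
    obtain ⟨b, rfl⟩ := Ideal.Quotient.mk_surjective b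
    rcases ValuationRing.dvd_total a b with h | h
    · exact Or.inl (map_dvd _ h)
    · exact Or.inr (map_dvd _ h)
  · rw [RingHom.comp_apply, RingHom.comp_apply]
    intro h
    rw [Ideal.Quotient.eq_zero_iff_mem, Ideal.mem_span_singleton, hzc] at h
    obtain ⟨w, hw⟩ := h
    apply hyV
    have h1 : c (Ideal.Quotient.mk P y) * (c (Ideal.Quotient.mk P y) * w) = c (Ideal.Quotient.mk P y) * 1 := by
      rw [mul_one, ← mul_assoc, ← pow_two, ← hw]
    exact IsUnit.of_mul_eq_one _ (mul_left_cancel₀ hyV0 h1)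
  · have h1 : IsLocalHom ((Ideal.Quotient.mk (Ideal.span {zV})).comp c) := RingHom.isLocalHom_comp _ _
    exact RingHom.isLocalHom_comp _ _

theorem chain_of_ideal (p : ℕ) [Fact p.Prime] {B : Type} [CommRing B] [IsDomain B] [Algebra (ZMod p) B]
    [Algebra.FiniteType (ZMod p) B] (y : B) (hy : y ≠ 0) (J : Ideal B) (hJ : J ≠ ⊤) :
    ∃ (S : Type) (_ : CommRing S) (_ : FinChain p S) (ψ : B →+* S), ψ y ≠ 0 ∧ ∀ h ∈ J, ¬ IsUnit (ψ h) := by
  classical
  obtain ⟨M, hM, hJM⟩ := Ideal.exists_le_maximal J hJ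
  have hBM : Finite (B ⧸ M) := by
    letI : Field (B ⧸ M) := Ideal.Quotient.field M
    have := finite_of_finite_type_of_isJacobsonRing (ZMod p) (B ⧸ M)
    exact Module.finite_of_finite (ZMod p)
  by_cases hyM : y ∈ M
  · have hdom : IsDomain (Localization.AtPrime M) :=
      IsLocalization.isDomain_localization M.primeCompl_le_nonZeroDivisors
    have hnoeB : IsNoetherianRing B := Algebra.FiniteType.isNoetherianRing (ZMod p) B
    have hnoe : IsNoetherianRing (Localization.AtPrime M) :=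
      IsLocalization.isNoetherianRing M.primeCompl _ hnoeB
    have hk : Finite (ResidueField (Localization.AtPrime M)) :=
      Finite.of_equiv _ (IsLocalization.AtPrime.equivQuotMaximalIdeal M (Localization.AtPrime M)).toEquiv
    have hy0 : algebraMap B (Localization.AtPrime M) y ≠ 0 := by
      intro h
      apply hy
      apply IsLocalization.injective (Localization.AtPrime M) M.primeCompl_le_nonZeroDivisors
      rw [h, map_zero]
    have hym : ∀ h ∈ M, algebraMap B (Localization.AtPrime M) h ∈ maximalIdeal (Localization.AtPrime M) := by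
      intro h hh
      exact (IsLocalization.AtPrime.to_map_mem_maximal_iff (Localization.AtPrime M) M h).2 hh
    obtain ⟨S, iS, hS, ψ, h1, h2⟩ := chain_local p hk _ hy0 (hym y hyM)
    refine ⟨S, iS, hS, ψ.comp (algebraMap B _), h1, ?_⟩
    intro h hh hu
    exact (mem_maximalIdeal _).1 (hym h (hJM hh)) (isUnit_of_map_unit ψ _ hu)
  · letI : Field (B ⧸ M) := Ideal.Quotient.field M
    refine ⟨B ⧸ M, inferInstance, ⟨hBM, inferInstance, charP_of_injective_algebraMap
      (RingHom.injective (algebraMap (ZMod p) (B ⧸ M))) p, ?_⟩, Ideal.Quotient.mk M, ?_, ?_⟩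
    · intro a b
      by_cases ha : a = 0
      · right; rw [ha]; exact dvd_zero _
      · left; exact (IsUnit.mk0 a ha).dvd
    · rwa [Ne, Ideal.Quotient.eq_zero_iff_mem]
    · intro h hh
      rw [Ideal.Quotient.eq_zero_iff_mem.2 (hJM hh)]
      exact not_isUnit_zero

theorem exists_chain (p : ℕ) [Fact p.Prime] {A : Type} [CommRing A] [IsDomain A] [Algebra (ZMod p) A]
    [Algebra.FiniteType (ZMod p) A] (I : Ideal A) (hI : I.FG) (g : A)
    (hg : ¬ IntegralOver I g) :
    ∃ (S : Type) (_ : CommRing S) (_ : FinChain p S) (ψ : A →+* S),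
      ψ g ≠ 0 ∧ ∀ x ∈ I, ∃ b : S, ¬ IsUnit b ∧ ψ x = ψ g * b := by
  obtain ⟨B, iB, hB, iAB, hft, hgB, J, hJ, hx⟩ := exists_blowup I hI g hg
  letI : Algebra (ZMod p) B := ((algebraMap A B).comp (algebraMap (ZMod p) A)).toAlgebra
  haveI : IsScalarTower (ZMod p) A B := IsScalarTower.of_algebraMap_eq (fun _ => rfl)
  haveI : Algebra.FiniteType (ZMod p) B := Algebra.FiniteType.trans (S := A) inferInstance hft
  obtain ⟨S, iS, hS, ψ, h1, h2⟩ := chain_of_ideal p (algebraMap A B g) hgB J hJ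
  refine ⟨S, iS, hS, ψ.comp (algebraMap A B), h1, ?_⟩
  intro x hxI
  obtain ⟨h, hh, he⟩ := hx x hxI
  exact ⟨ψ h, h2 h hh, by rw [RingHom.comp_apply, he, map_mul]; rfl⟩

end Pool.Agent.ZAB
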