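import Pool.Agent.ZAB.Defs

set_option autoImplicit false

namespace Pool.Agent.ZAB

open Polynomial IntermediateField

/-- integral elements of `ℚ(ζ)` are polynomials in `ζ` with integer coefficients -/
theorem exists_poly_zeta {ζ : ℂ} {N : ℕ}
    (hζ : IsPrimitiveRoot ζ N) (hN : 0 < N) (a : ℂ) (ha : a ∈ ℚ⟮ζ⟯) (hai : IsIntegral ℤ a) :
    ∃ g : ℤ[X], a = aeval ζ g := by
  have : NeZero N := ⟨hN.ne'⟩
  have hcyc : IsCyclotomicExtension {N} ℚ (IntermediateField.adjoin ℚ {ζ}) := by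
    change IsCyclotomicExtension {N} ℚ (IntermediateField.adjoin ℚ {ζ}).toSubalgebra
    rw [IntermediateField.adjoin_simple_toSubalgebra_of_isAlgebraic
      ((hζ.isIntegral hN).tower_top (A := ℚ)).isAlgebraic]
    exact hζ.adjoin_isCyclotomicExtension ℚ
  have hgen : IsPrimitiveRoot (AdjoinSimple.gen ℚ ζ) N := by
    apply IsPrimitiveRoot.of_map_of_injective (f := algebraMap ℚ⟮ζ⟯ ℂ)
    · rw [AdjoinSimple.algebraMap_gen]
      exact hζ
    · exact (algebraMap ℚ⟮ζ⟯ ℂ).injective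
  have hcl := IsCyclotomicExtension.Rat.isIntegralClosure_adjoin_singleton
    (hcycl := by
      convert hcyc) hgen
  have hai' : IsIntegral ℤ (⟨a, ha⟩ : ℚ⟮ζ⟯) := by
    rw [← isIntegral_algebraMap_iff (B := ℂ) (algebraMap ℚ⟮ζ⟯ ℂ).injective]
    exact hai
  obtain ⟨y, hy⟩ := hcl.isIntegral_iff.1 hai'
  have hy2 : (y : ℚ⟮ζ⟯) ∈ (aeval (R := ℤ) (AdjoinSimple.gen ℚ ζ)).range := by
    rw [← Algebra.adjoin_singleton_eq_range_aeval]
    exact y.2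
  obtain ⟨g, hg⟩ := hy2
  refine ⟨g, ?_⟩
  have h1 : a = algebraMap ℚ⟮ζ⟯ ℂ ⟨a, ha⟩ := rfl
  rw [h1, ← hy]
  show algebraMap ℚ⟮ζ⟯ ℂ (y : ℚ⟮ζ⟯) = _
  rw [← hg]
  show algebraMap ℚ⟮ζ⟯ ℂ (aeval (AdjoinSimple.gen ℚ ζ) g) = _
  rw [← aeval_algebraMap_apply, AdjoinSimple.algebraMap_gen]

theorem zab_integral (x : ℂ) (hx : x ∈ Zab) : IsIntegral ℤ x := by
  have h : Zab ≤ (integralClosure ℤ ℂ).toSubring := by
    apply Subring.closure_le.2
    rintro z ⟨n, hn, hz⟩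
    exact IsIntegral.of_pow hn (by rw [hz]; exact isIntegral_one)
  exact h hx

theorem mem_zab_of_pow {z : ℂ} {n : ℕ} (hn : 0 < n) (hz : z ^ n = 1) : z ∈ Zab :=
  Subring.subset_closure ⟨n, hn, hz⟩

theorem exists_level (x : ℂ) (hx : x ∈ Zab) :
    ∃ N : ℕ, 0 < N ∧ ∀ ζ : ℂ, IsPrimitiveRoot ζ N → x ∈ Algebra.adjoin ℤ {ζ} := by
  have hstep : ∀ (N M : ℕ) (ζ : ℂ), 0 < N → 0 < M → IsPrimitiveRoot ζ (N * M) →
      ∀ y : ℂ, (∀ ζ' : ℂ, IsPrimitiveRoot ζ' N → y ∈ Algebra.adjoin ℤ {ζ'}) → y ∈ Algebra.adjoin ℤ {ζ} := by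
    intro N M ζ hN hM hζ y hy
    have h1 : IsPrimitiveRoot (ζ ^ M) N := hζ.pow (Nat.mul_pos hN hM) (mul_comm N M)
    have h2 : Algebra.adjoin ℤ {ζ ^ M} ≤ Algebra.adjoin ℤ {ζ} := by
      apply Algebra.adjoin_le
      rw [Set.singleton_subset_iff]
      exact pow_mem (Algebra.self_mem_adjoin_singleton ℤ ζ) _
    exact h2 (hy _ h1)
  induction hx using Subring.closure_induction with
  | mem x hx =>
    obtain ⟨n, hn, hz⟩ := hx
    refine ⟨n, hn, fun ζ hζ => ?_⟩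
    have : NeZero n := ⟨hn.ne'⟩
    obtain ⟨i, -, rfl⟩ := hζ.eq_pow_of_pow_eq_one hz
    exact pow_mem (Algebra.self_mem_adjoin_singleton ℤ ζ) _
  | zero => exact ⟨1, one_pos, fun ζ _ => zero_mem _⟩
  | one => exact ⟨1, one_pos, fun ζ _ => one_mem _⟩
  | add x y _ _ ihx ihy =>
    obtain ⟨N, hN, hx⟩ := ihx
    obtain ⟨M, hM, hy⟩ := ihy
    refine ⟨N * M, Nat.mul_pos hN hM, fun ζ hζ => add_mem (hstep N M ζ hN hM hζ x hx) ?_⟩
    exact hstep M N ζ hM hN (by rwa [mul_comm]) y hy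
  | neg x _ ihx =>
    obtain ⟨N, hN, hx⟩ := ihx
    exact ⟨N, hN, fun ζ hζ => neg_mem (hx ζ hζ)⟩
  | mul x y _ _ ihx ihy =>
    obtain ⟨N, hN, hx⟩ := ihx
    obtain ⟨M, hM, hy⟩ := ihy
    refine ⟨N * M, Nat.mul_pos hN hM, fun ζ hζ => mul_mem (hstep N M ζ hN hM hζ x hx) ?_⟩
    exact hstep M N ζ hM hN (by rwa [mul_comm]) y hy

theorem adjoin_int_le_field (ζ x : ℂ) (hx : x ∈ Algebra.adjoin ℤ {ζ}) : x ∈ ℚ⟮ζ⟯ := by
  have h : Algebra.adjoin ℤ {ζ} ≤ (ℚ⟮ζ⟯.toSubalgebra).restrictScalars ℤ := by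
    apply Algebra.adjoin_le
    rw [Set.singleton_subset_iff]
    exact mem_adjoin_simple_self ℚ ζ
  exact h hx

theorem aeval_mem_zab {ζ : ℂ} (hζ : ζ ∈ Zab) (g : ℤ[X]) : aeval ζ g ∈ Zab := by
  have h := Polynomial.aeval_mem_adjoin_singleton ℤ ζ (p := g)
  rw [Algebra.adjoin_int] at h
  have h2 : Subring.closure {ζ} ≤ Zab := by
    apply Subring.closure_le.2
    rw [Set.singleton_subset_iff]
    exact hζ
  exact h2 h

/-- an element of `Zab` which is `p` times an algebraic integer is `p` times an element of `Zab` -/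
theorem mem_span_of_integral (p : ℕ) (hp : p ≠ 0) (x : Zab) (b : ℂ) (hb : IsIntegral ℤ b)
    (h : (x : ℂ) = p * b) : x ∈ Ideal.span {((p : ℕ) : Zab)} := by
  obtain ⟨N, hN, hx⟩ := exists_level x x.2
  have hζ := Complex.isPrimitiveRoot_exp N hN.ne'
  set ζ := Complex.exp (2 * Real.pi * Complex.I / N) with hζdef
  have hxf := adjoin_int_le_field ζ x (hx ζ hζ)
  have hp' : (p : ℂ) ≠ 0 := Nat.cast_ne_zero.2 hp
  have hb' : b = (x : ℂ) / (p : ℂ) := by rw [h]; field_simp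
  have hbf : b ∈ ℚ⟮ζ⟯ := by
    rw [hb']
    exact div_mem hxf (IntermediateField.natCast_mem _ p)
  obtain ⟨g, hg⟩ := exists_poly_zeta hζ hN b hbf hb
  have hbz : b ∈ Zab := by
    rw [hg]
    exact aeval_mem_zab (mem_zab_of_pow hN hζ.pow_eq_one) g
  rw [Ideal.mem_span_singleton]
  refine ⟨⟨b, hbz⟩, ?_⟩
  apply Subtype.ext
  simpa using h

theorem not_isUnit_p (p : ℕ) [hp : Fact p.Prime] : ((p : ℕ) : Zab) ∈ nonunits Zab := by
  intro h
  obtain ⟨u, hu⟩ := h.exists_right_inv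
  have h1 : ((p : ℕ) : ℂ) * (u : ℂ) = 1 := by
    have := congrArg (fun z : Zab => (z : ℂ)) hu
    simpa using this
  have hp0 : ((p : ℕ) : ℂ) ≠ 0 := Nat.cast_ne_zero.2 hp.out.ne_zero
  have h2 : IsIntegral ℤ (u : ℂ) := zab_integral u u.2
  have h3 : (u : ℂ) = algebraMap ℚ ℂ (1 / (p : ℚ)) := by
    rw [eq_comm, map_div₀, map_one, map_natCast, div_eq_iff hp0, mul_comm]
    exact h1.symm
  rw [h3, isIntegral_algebraMap_iff (algebraMap ℚ ℂ).injective] at h2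
  obtain ⟨m, hm⟩ := IsIntegrallyClosed.isIntegral_iff.1 h2
  have hp0' : ((p : ℕ) : ℚ) ≠ 0 := Nat.cast_ne_zero.2 hp.out.ne_zero
  have h4 : (m : ℚ) * (p : ℚ) = 1 := by
    have : (m : ℚ) = 1 / (p : ℚ) := by simpa using hm
    rw [this]; field_simp
  have h5 : m * (p : ℤ) = 1 := by exact_mod_cast h4
  have h6 : (p : ℤ) ∣ 1 := ⟨m, by rw [mul_comm]; exact h5.symm⟩
  have h7 : p ∣ 1 := by exact_mod_cast h6
  exact hp.out.one_lt.ne' (Nat.dvd_one.1 h7)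

instance charP_zab (p : ℕ) [Fact p.Prime] : CharP (ZabMod p) p :=
  CharP.quotient Zab p (not_isUnit_p p)

instance nontrivial_zab (p : ℕ) [Fact p.Prime] : Nontrivial (ZabMod p) :=
  CharP.nontrivial_of_char_ne_one (v := p) (Fact.out : p.Prime).ne_one

/-- in the ring of cyclotomic integers modulo `p` every element is a `p`-th power -/
theorem exists_frob (p : ℕ) [hp : Fact p.Prime] (x : ZabMod p) : ∃ y : ZabMod p, y ^ p = x := by
  obtain ⟨⟨x, hx⟩, rfl⟩ := Ideal.Quotient.mk_surjective x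
  have key : Zab ≤ (((frobenius (ZabMod p) p).range.comap
      (Ideal.Quotient.mk (Ideal.span {((p : ℕ) : Zab)}))).map Zab.subtype) := by
    apply Subring.closure_le.2
    rintro z ⟨n, hn, hz⟩
    obtain ⟨w, hw⟩ := IsAlgClosed.exists_pow_nat_eq z hp.out.pos
    have hwn : w ^ (p * n) = 1 := by rw [pow_mul, hw, hz]
    have hwz : w ∈ Zab := mem_zab_of_pow (Nat.mul_pos hp.out.pos hn) hwn
    have hzz : z ∈ Zab := mem_zab_of_pow hn hz
    refine ⟨⟨z, hzz⟩, ?_, rfl⟩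
    refine ⟨Ideal.Quotient.mk _ ⟨w, hwz⟩, ?_⟩
    rw [frobenius_def, ← map_pow]
    congr 1
    exact Subtype.ext hw
  obtain ⟨x', ⟨y, hy⟩, hx'⟩ := key hx
  refine ⟨y, ?_⟩
  have : x' = ⟨x, hx⟩ := Subtype.ext hx'
  rw [← this]
  exact hy

theorem exists_frob_iter (p : ℕ) [hp : Fact p.Prime] (s : ℕ) (x : ZabMod p) :
    ∃ y : ZabMod p, y ^ (p ^ s) = x := by
  induction s generalizing x with
  | zero => exact ⟨x, by simp⟩
  | succ s ih =>
    obtain ⟨y, hy⟩ := exists_frob p x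
    obtain ⟨z, hz⟩ := ih y
    exact ⟨z, by rw [pow_succ, pow_mul, hz, hy]⟩

end Pool.Agent.ZAB
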