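import Pool.Agent.ZAB.P5a

set_option autoImplicit false

namespace Pool.Agent.ZAB

open Polynomial

/-- `1 - z^k` is a multiple of `1 - z` in `Zab` -/
theorem one_sub_dvd {z w : Zab} (h : ∃ k : ℕ, z ^ k = w) : (1 - z) ∣ (1 - w) := by
  obtain ⟨k, rfl⟩ := h
  have := sub_dvd_pow_sub_pow (1 : Zab) z k
  rwa [one_pow] at this

/-- `p` and `(1-ζ)^φ` divide each other in `Zab`, `ζ` a primitive root of unity of order `p^(k+1)` -/
theorem one_sub_pow (p : ℕ) [hp : Fact p.Prime] (k : ℕ) (ζ : Zab) (hζ : IsPrimitiveRoot ζ (p ^ (k + 1))) :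
    ((p : ℕ) : Zab) ∣ (1 - ζ) ^ (p ^ (k + 1)).totient ∧
      (1 - ζ) ^ (p ^ (k + 1)).totient ∣ ((p : ℕ) : Zab) := by
  have hpos : 0 < p ^ (k + 1) := pow_pos hp.out.pos _
  have hne : NeZero (p ^ (k + 1)) := ⟨hpos.ne'⟩
  have h1 : ((p : ℕ) : Zab) = ∏ μ ∈ primitiveRoots (p ^ (k + 1)) Zab, (1 - μ) := by
    have h := cyclotomic_eq_prod_X_sub_primitiveRoots hζ
    have h2 := eval_one_cyclotomic_prime_pow (R := Zab) (p := p) k
    rw [h, eval_prod] at h2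
    rw [← h2]
    apply Finset.prod_congr rfl
    intro μ _
    simp
  have hcard : (primitiveRoots (p ^ (k + 1)) Zab).card = (p ^ (k + 1)).totient := hζ.card_primitiveRoots
  have hpr : ∀ μ ∈ primitiveRoots (p ^ (k + 1)) Zab, (1 - μ) ∣ (1 - ζ) ∧ (1 - ζ) ∣ (1 - μ) := by
    intro μ hμ
    have hμ' : IsPrimitiveRoot μ (p ^ (k + 1)) := (mem_primitiveRoots hpos).1 hμ
    constructor
    · obtain ⟨i, -, hi⟩ := hμ'.eq_pow_of_pow_eq_one hζ.pow_eq_one
      exact one_sub_dvd ⟨i, hi⟩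
    · obtain ⟨i, -, hi⟩ := hζ.eq_pow_of_pow_eq_one hμ'.pow_eq_one
      exact one_sub_dvd ⟨i, hi⟩
  have h3 : (1 - ζ) ^ (p ^ (k + 1)).totient = ∏ μ ∈ primitiveRoots (p ^ (k + 1)) Zab, (1 - ζ) := by
    rw [Finset.prod_const, hcard]
  rw [h1, h3]
  exact ⟨Finset.prod_dvd_prod_of_dvd _ _ fun μ hμ => (hpr μ hμ).1,
    Finset.prod_dvd_prod_of_dvd _ _ fun μ hμ => (hpr μ hμ).2⟩

theorem exists_unif (p : ℕ) [hp : Fact p.Prime] (N : ℕ) :
    ∃ t : ZabMod p, t ^ (N + 1) = 0 ∧ ∀ e : ZabMod p, e ≠ 0 → e * e = e → e * t ^ N ≠ 0 := by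
  set k := N * (N + 1) with hk
  have hpos : 0 < p ^ (k + 1) := pow_pos hp.out.pos _
  have hφ : k < (p ^ (k + 1)).totient := by
    rw [Nat.totient_prime_pow_succ hp.out]
    calc k < 2 ^ k := Nat.lt_two_pow_self
      _ ≤ p ^ k := Nat.pow_le_pow_left hp.out.two_le k
      _ = p ^ k * 1 := (mul_one _).symm
      _ ≤ p ^ k * (p - 1) := Nat.mul_le_mul_left _ (Nat.le_sub_one_of_lt hp.out.one_lt)
  have hζC := Complex.isPrimitiveRoot_exp (p ^ (k + 1)) hpos.ne'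
  have hζmem : Complex.exp (2 * Real.pi * Complex.I / ((p ^ (k + 1) : ℕ) : ℂ)) ∈ Zab :=
    mem_zab_of_pow hpos hζC.pow_eq_one
  set ζ : Zab := ⟨_, hζmem⟩ with hζdef
  have hζ : IsPrimitiveRoot ζ (p ^ (k + 1)) := by
    apply IsPrimitiveRoot.of_map_of_injective (f := Zab.subtype) (hf := Subtype.val_injective)
    exact hζC
  obtain ⟨⟨d, hd⟩, ⟨c, hc⟩⟩ := one_sub_pow p k ζ hζ
  set φ := (p ^ (k + 1)).totient with hφdef
  -- the exponent
  obtain ⟨a, ha1, ha2⟩ : ∃ a : ℕ, φ ≤ a * (N + 1) ∧ a * N < φ := by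
    refine ⟨φ / (N + 1) + 1, ?_, ?_⟩
    · have := Nat.lt_div_mul_add (a := φ) (b := N + 1) (Nat.succ_pos N)
      rw [add_mul, one_mul]
      exact this.le
    · have h1 : (φ / (N + 1)) * (N + 1) ≤ φ := Nat.div_mul_le_self φ (N + 1)
      have h2 : N ≤ φ / (N + 1) := by
        rw [Nat.le_div_iff_mul_le (Nat.succ_pos N)]
        exact hφ.le
      rcases Nat.eq_or_lt_of_le h2 with h3 | h3
      · rw [← h3, add_mul, one_mul]
        calc N * N + N = k := by rw [hk]; ring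
          _ < φ := hφ
      · calc (φ / (N + 1) + 1) * N = φ / (N + 1) * N + N := by ring
          _ < φ / (N + 1) * N + φ / (N + 1) := by omega
          _ = φ / (N + 1) * (N + 1) := by ring
          _ ≤ φ := h1
  have hpi : (1 - ζ) ≠ 0 := by
    intro h
    have h1 : ζ = 1 := (sub_eq_zero.1 h).symm
    rw [h1] at hζ
    have h2 := hζ.dvd_of_pow_eq_one 1 (by simp)
    have h3 : p ^ (k + 1) = 1 := Nat.dvd_one.1 h2
    have h4 : 1 < p ^ (k + 1) := Nat.one_lt_pow (Nat.succ_ne_zero k) hp.out.one_lt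
    omega
  refine ⟨Ideal.Quotient.mk _ ((1 - ζ) ^ a), ?_, ?_⟩
  · rw [← map_pow, Ideal.Quotient.eq_zero_iff_mem, Ideal.mem_span_singleton, ← pow_mul]
    exact dvd_trans ⟨d, hd⟩ (pow_dvd_pow _ ha1)
  · intro e he0 hee h
    apply he0
    obtain ⟨e, rfl⟩ := Ideal.Quotient.mk_surjective e
    rw [← map_pow, ← map_mul, Ideal.Quotient.eq_zero_iff_mem, Ideal.mem_span_singleton, ← pow_mul] at h
    obtain ⟨w, hw⟩ := h
    have h1 : e = (1 - ζ) * ((1 - ζ) ^ (φ - a * N - 1) * c * w) := by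
      have h2 : (1 - ζ) ^ (a * N) * e = (1 - ζ) ^ (a * N) * ((1 - ζ) * ((1 - ζ) ^ (φ - a * N - 1) * c * w)) := by
        rw [mul_comm _ e, hw, hc]
        have h3 : φ = a * N + (1 + (φ - a * N - 1)) := by omega
        conv_lhs => rw [h3, pow_add, pow_add, pow_one]
        ring
      exact mul_left_cancel₀ (pow_ne_zero _ hpi) h2
    have hφ0 : φ ≠ 0 := by omega
    have h4 : (Ideal.Quotient.mk (Ideal.span {((p : ℕ) : Zab)}) e) ^ φ = 0 := by
      rw [← map_pow, Ideal.Quotient.eq_zero_iff_mem, Ideal.mem_span_singleton, h1, mul_pow]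
      exact Dvd.dvd.mul_right ⟨d, hd⟩ _
    have h5 : IsIdempotentElem (Ideal.Quotient.mk (Ideal.span {((p : ℕ) : Zab)}) e) := hee
    have h6 : (Ideal.Quotient.mk (Ideal.span {((p : ℕ) : Zab)}) e) ^ φ =
        Ideal.Quotient.mk (Ideal.span {((p : ℕ) : Zab)}) e := by
      obtain ⟨m, hm⟩ := Nat.exists_eq_succ_of_ne_zero hφ0
      rw [hm]
      exact h5.pow_succ_eq m
    rw [← h6, h4]

end Pool.Agent.ZAB
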