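import Pool.Agent.ZAB.P5a

set_option autoImplicit false

namespace Pool.Agent.ZAB

open Polynomial

/-! finite rings in which `x^q = x` -/

theorem isReduced_of_pow {E : Type} [CommRing E] {q : ℕ} (hq1 : 1 < q) (hq : ∀ x : E, x ^ q = x) :
    IsReduced E := by
  constructor
  rintro x ⟨n, hn⟩
  have h : ∀ m : ℕ, x ^ (q ^ m) = x := by
    intro m
    induction m with
    | zero => simp
    | succ m ih => rw [pow_succ, pow_mul, ih, hq]
  rw [← h n]
  exact pow_eq_zero_of_le (Nat.lt_pow_self hq1).le hn

theorem card_field_le {F : Type} [Field F] {q : ℕ} (hq1 : 1 < q) (hq : ∀ x : F, x ^ q = x) :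
    Nat.card F ≤ q := by
  classical
  have hne := FiniteField.X_pow_card_sub_X_ne_zero F hq1
  have hroot : ∀ x : F, x ∈ (X ^ q - X : F[X]).roots.toFinset := by
    intro x
    rw [Multiset.mem_toFinset, mem_roots hne]
    simp [IsRoot, hq x]
  have hfin : Finite F := by
    refine Set.finite_univ_iff.1 (Set.Finite.subset (Finset.finite_toSet (X ^ q - X : F[X]).roots.toFinset) ?_)
    intro x _
    exact hroot x
  letI : Fintype F := Fintype.ofFinite F
  rw [Nat.card_eq_fintype_card]
  calc Fintype.card F = (Finset.univ : Finset F).card := rfl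
    _ ≤ (X ^ q - X : F[X]).roots.toFinset.card := Finset.card_le_card fun x _ => hroot x
    _ ≤ Multiset.card (X ^ q - X : F[X]).roots := Multiset.toFinset_card_le _
    _ ≤ (X ^ q - X : F[X]).natDegree := card_roots' _
    _ = q := FiniteField.X_pow_card_sub_X_natDegree_eq F hq1

theorem pow_quot {E : Type} [CommRing E] {q : ℕ} (hq : ∀ x : E, x ^ q = x) (I : Ideal E) (x : E ⧸ I) :
    x ^ q = x := by
  obtain ⟨x, rfl⟩ := Ideal.Quotient.mk_surjective x
  rw [← map_pow, hq]

/-- the number of elements is at most `q` to the number of maximal ideals -/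
theorem card_le_pow {E : Type} [CommRing E] [Finite E] {q : ℕ} (hq1 : 1 < q) (hq : ∀ x : E, x ^ q = x) :
    Nat.card E ≤ q ^ Nat.card (MaximalSpectrum E) := by
  classical
  have := isReduced_of_pow hq1 hq
  have hf : Finite (MaximalSpectrum E) := inferInstance
  letI : Fintype (MaximalSpectrum E) := Fintype.ofFinite _
  rw [Nat.card_congr (IsArtinianRing.equivPi E).toEquiv, Nat.card_pi, Nat.card_eq_fintype_card]
  calc ∏ I : MaximalSpectrum E, Nat.card (E ⧸ I.asIdeal) ≤ ∏ _I : MaximalSpectrum E, q := by
        apply Finset.prod_le_prod' 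
        intro I _
        have := I.isMaximal
        letI : Field (E ⧸ I.asIdeal) := Ideal.Quotient.field _
        exact card_field_le hq1 (pow_quot hq I.asIdeal)
    _ = q ^ Fintype.card (MaximalSpectrum E) := by
        rw [Finset.prod_const, Finset.card_univ]

theorem card_field_eq {F : Type} [Field F] [Finite F] {q N : ℕ} (hq1 : 1 < q) (hqN : q = N + 1)
    (hpow : ∀ x : F, x ^ q = x) (hqF : ((q : ℕ) : F) = 0) (z : F) (hz : (cyclotomic N F).eval z = 0) :
    Nat.card F = q := by
  classical
  refine le_antisymm (card_field_le hq1 hpow) ?_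
  have hN : 0 < N := by omega
  have hNF : ((N : ℕ) : F) ≠ 0 := by
    have h1 : ((N : ℕ) : F) = -1 := by
      rw [hqN, Nat.cast_add, Nat.cast_one] at hqF
      exact eq_neg_of_add_eq_zero_left hqF
    rw [h1]
    exact neg_ne_zero.2 one_ne_zero
  have : NeZero ((N : ℕ) : F) := ⟨hNF⟩
  have hprim : IsPrimitiveRoot z N := by
    rw [← isRoot_cyclotomic_iff]
    exact hz
  letI : Fintype F := Fintype.ofFinite F
  have hz0 : z ≠ 0 := by
    rintro rfl
    have := hprim.pow_eq_one
    rw [zero_pow hN.ne'] at this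
    exact zero_ne_one this
  have h5 : orderOf (Units.mk0 z hz0) ∣ Fintype.card Fˣ := orderOf_dvd_card
  have h4 : orderOf (Units.mk0 z hz0) = N := by
    rw [← orderOf_units, Units.val_mk0]
    exact hprim.eq_orderOf.symm
  rw [h4, Fintype.card_units] at h5
  have h7 := Fintype.one_lt_card (α := F)
  have h6 : 0 < Fintype.card F - 1 := by omega
  have := Nat.le_of_dvd h6 h5
  rw [Nat.card_eq_fintype_card]
  omega

theorem field_hom_of_ring {E : Type} [CommRing E] [Finite E] {q N : ℕ} (hq1 : 1 < q) (hqN : q = N + 1)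
    (hpow : ∀ x : E, x ^ q = x) (hqE : ((q : ℕ) : E) = 0) (z : E) (hz : (cyclotomic N E).eval z = 0)
    (k : Type) [Field k] [Finite k] (hk : Nat.card k = q) : Nonempty (k →+* E) := by
  classical
  have hred := isReduced_of_pow hq1 hpow
  have key : ∀ I : MaximalSpectrum E, Nonempty (k →+* (E ⧸ I.asIdeal)) := by
    intro I
    have := I.isMaximal
    letI : Field (E ⧸ I.asIdeal) := Ideal.Quotient.field _
    have hfq : Finite (E ⧸ I.asIdeal) := Finite.of_surjective _ (Ideal.Quotient.mk_surjective (I := I.asIdeal))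
    have hqF : ((q : ℕ) : E ⧸ I.asIdeal) = 0 := by
      rw [← map_natCast (Ideal.Quotient.mk I.asIdeal), hqE, map_zero]
    have hzF : (cyclotomic N (E ⧸ I.asIdeal)).eval (Ideal.Quotient.mk I.asIdeal z) = 0 := by
      rw [← map_cyclotomic N (Ideal.Quotient.mk I.asIdeal), eval_map, eval₂_at_apply, hz, map_zero]
    have hc := card_field_eq hq1 hqN (pow_quot hpow I.asIdeal) hqF _ hzF
    letI : Fintype k := Fintype.ofFinite k
    letI : Fintype (E ⧸ I.asIdeal) := Fintype.ofFinite _
    rw [Nat.card_eq_fintype_card] at hc hk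
    exact ⟨(FiniteField.ringEquivOfCardEq (K := k) (K' := E ⧸ I.asIdeal) (by rw [hc, hk])).toRingHom⟩
  exact ⟨((IsArtinianRing.equivPi E).symm.toRingEquiv.toRingHom).comp
    (RingHom.pi fun I => Classical.choice (key I))⟩

/-! the subring generated by a root of unity -/

section
variable {p : ℕ} [hp : Fact p.Prime]

theorem finite_closure {N : ℕ} (hN : 0 < N) (z : ZabMod p) (hz : z ^ N = 1) :
    Finite (Subring.closure {z}) := by
  letI : Algebra (ZMod p) (ZabMod p) := ZMod.algebra _ p
  have hint : IsIntegral (ZMod p) z := IsIntegral.of_pow hN (by rw [hz]; exact isIntegral_one)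
  have hfg := hint.fg_adjoin_singleton
  have hmf : Module.Finite (ZMod p) (Algebra.adjoin (ZMod p) {z}) := Module.Finite.iff_fg.2 hfg
  have hfin : Finite (Algebra.adjoin (ZMod p) {z}) := Module.finite_of_finite (ZMod p)
  have hle : Subring.closure {z} ≤ (Algebra.adjoin (ZMod p) {z}).toSubring := by
    apply Subring.closure_le.2
    rw [Set.singleton_subset_iff]
    exact Algebra.self_mem_adjoin_singleton (ZMod p) z
  exact Finite.of_injective _ (Subring.inclusion_injective hle)

theorem pow_closure {s : ℕ} (z : ZabMod p) (hz : z ^ (p ^ s) = z) (x : Subring.closure {z}) :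
    x ^ (p ^ s) = x := by
  have hle : Subring.closure {z} ≤
      RingHom.eqLocus (iterateFrobenius (ZabMod p) p s) (RingHom.id (ZabMod p)) := by
    apply Subring.closure_le.2
    rw [Set.singleton_subset_iff]
    change iterateFrobenius (ZabMod p) p s z = z
    rw [iterateFrobenius_def, hz]
  have h := hle x.2
  have h2 : iterateFrobenius (ZabMod p) p s x = x := h
  rw [iterateFrobenius_def] at h2
  exact Subtype.ext h2

/-- a primitive root of unity in `Zab` -/
theorem exists_root (N : ℕ) (hN : 0 < N) : ∃ ζ : Zab, IsPrimitiveRoot ζ N := by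
  have hζC := Complex.isPrimitiveRoot_exp N hN.ne'
  refine ⟨⟨_, mem_zab_of_pow hN hζC.pow_eq_one⟩, ?_⟩
  apply IsPrimitiveRoot.of_map_of_injective (f := Zab.subtype) (hf := Subtype.val_injective)
  exact hζC

/-- every finite field of characteristic `p` maps to `ZabMod p` -/
theorem exists_field_hom (k : Type) [Field k] [Finite k] [CharP k p] : Nonempty (k →+* ZabMod p) := by
  classical
  letI : Fintype k := Fintype.ofFinite k
  obtain ⟨s, -, hs⟩ := FiniteField.card k p
  obtain ⟨N, hqN⟩ : ∃ N, Fintype.card k = N + 1 := ⟨Fintype.card k - 1, by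
    have := Fintype.one_lt_card (α := k)
    omega⟩
  have hq1 : 1 < N + 1 := by rw [← hqN]; exact Fintype.one_lt_card
  have hN : 0 < N := by omega
  obtain ⟨ζ, hζ⟩ := exists_root N hN
  set z : ZabMod p := Ideal.Quotient.mk _ ζ with hzdef
  have hzN : z ^ N = 1 := by rw [hzdef, ← map_pow, hζ.pow_eq_one, map_one]
  have hzq : z ^ (p ^ (s : ℕ)) = z := by
    rw [← hs, hqN, pow_succ, hzN, one_mul]
  have hfin := finite_closure hN z hzN
  have hpow : ∀ x : Subring.closure {z}, x ^ (N + 1) = x := by
    intro x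
    rw [← hqN, hs]
    exact pow_closure z hzq x
  have hzE : z ∈ Subring.closure {z} := Subring.subset_closure (Set.mem_singleton z)
  have hcycE : (cyclotomic N (Subring.closure {z})).eval (⟨z, hzE⟩ : Subring.closure {z}) = 0 := by
    have h1 : (cyclotomic N Zab).eval ζ = 0 := hζ.isRoot_cyclotomic hN
    have h2 : (cyclotomic N (ZabMod p)).eval z = 0 := by
      rw [hzdef, ← map_cyclotomic N (Ideal.Quotient.mk (Ideal.span {((p : ℕ) : Zab)})), eval_map,
        eval₂_at_apply, h1, map_zero]
    apply Subtype.ext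
    have h3 : ((Subring.closure {z}).subtype) ((cyclotomic N (Subring.closure {z})).eval
        (⟨z, hzE⟩ : Subring.closure {z})) = (cyclotomic N (ZabMod p)).eval z := by
      rw [← map_cyclotomic N (Subring.closure {z}).subtype, eval_map, ← eval₂_at_apply]
      rfl
    rw [h2] at h3
    exact h3
  have hqE : ((N + 1 : ℕ) : Subring.closure {z}) = 0 := by
    apply Subtype.ext
    have h1 : ((N + 1 : ℕ) : ZabMod p) = 0 := by
      rw [CharP.cast_eq_zero_iff (ZabMod p) p, ← hqN, hs]
      exact dvd_pow_self p (PNat.ne_zero s)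
    exact (map_natCast (Subring.closure {z}).subtype (N + 1)).trans h1
  obtain ⟨σ⟩ := field_hom_of_ring hq1 rfl hpow hqE ⟨z, hzE⟩ hcycE k
    (by rw [Nat.card_eq_fintype_card, hqN])
  exact ⟨(Subring.closure {z}).subtype.comp σ⟩

end

end Pool.Agent.ZAB
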