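import Pool.Agent.ZAB.P5c

set_option autoImplicit false

namespace Pool.Agent.ZAB

open Polynomial

/-- a modulus `N` prime to `p` for which `totient N` is at least `n` times a number `s` with `p^s = 1` mod `N` -/
theorem exists_many (p : ℕ) (hp : p.Prime) (n : ℕ) :
    ∃ N s : ℕ, 0 < N ∧ 0 < s ∧ N ∣ p ^ s - 1 ∧ n * s ≤ N.totient := by
  classical
  have hinf : ({l : ℕ | l.Prime} \ ({2, p} : Set ℕ)).Infinite :=
    Nat.infinite_setOf_prime.diff (Set.toFinite _)
  obtain ⟨T, hT, hTc⟩ := hinf.exists_subset_card_eq (n + 1)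
  have hTp : ∀ l ∈ T, l.Prime ∧ l ≠ 2 ∧ l ≠ p := by
    intro l hl
    obtain ⟨h1, h2⟩ := hT hl
    simp only [Set.mem_insert_iff, Set.mem_singleton_iff, not_or] at h2
    exact ⟨h1, h2.1, h2.2⟩
  have htot : ∀ U : Finset ℕ, U ⊆ T → (∏ l ∈ U, l).totient = 2 ^ U.card * ∏ l ∈ U, (l - 1) / 2 := by
    intro U
    induction U using Finset.induction_on with
    | empty => intro _; simp
    | insert l U hl ih =>
      intro hU
      have hlT := hTp l (hU (Finset.mem_insert_self l U))
      have hUT : U ⊆ T := fun x hx => hU (Finset.mem_insert_of_mem hx)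
      have hcop : Nat.Coprime l (∏ l ∈ U, l) := by
        apply Nat.Coprime.prod_right
        intro m hm
        rw [Nat.coprime_primes hlT.1 (hTp m (hUT hm)).1]
        rintro rfl
        exact hl hm
      rw [Finset.prod_insert hl, Finset.prod_insert hl, Nat.totient_mul hcop, ih hUT,
        Nat.totient_prime hlT.1, Finset.card_insert_of_notMem hl]
      have hodd : l - 1 = 2 * ((l - 1) / 2) := by
        have h1 := hlT.1.eq_two_or_odd
        have h2 : l % 2 = 1 := by
          rcases h1 with h | h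
          · exact absurd h hlT.2.1
          · exact h
        omega
      conv_lhs => rw [hodd]
      ring
  set h := ∏ l ∈ T, (l - 1) / 2 with hh
  have hhpos : 0 < h := by
    apply Finset.prod_pos
    intro l hl
    have h1 := (hTp l hl).1.two_le
    have h2 := (hTp l hl).2.1
    omega
  refine ⟨∏ l ∈ T, l, 2 * h, ?_, by omega, ?_, ?_⟩
  · exact Finset.prod_pos fun l hl => (hTp l hl).1.pos
  · apply Finset.prod_primes_dvd
    · exact fun l hl => (hTp l hl).1.prime
    · intro l hl
      obtain ⟨h1, h2, h3⟩ := hTp l hl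
      have hodd : l - 1 = 2 * ((l - 1) / 2) := by
        have h2 : l % 2 = 1 := by
          rcases h1.eq_two_or_odd with h | h
          · exact absurd h h2
          · exact h
        omega
      have hdvd : l - 1 ∣ 2 * h := by
        rw [hodd]
        exact Nat.mul_dvd_mul_left 2 (Finset.dvd_prod_of_mem _ hl)
      have hcop : Nat.Coprime p l := (Nat.coprime_primes hp h1).2 (Ne.symm h3)
      have hf : p ^ (l - 1) ≡ 1 [MOD l] := by
        have := Nat.ModEq.pow_totient hcop
        rwa [Nat.totient_prime h1] at this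
      obtain ⟨m, hm⟩ := hdvd
      have hf2 : p ^ (2 * h) ≡ 1 [MOD l] := by
        rw [hm, pow_mul]
        simpa using hf.pow m
      exact (Nat.modEq_iff_dvd' (Nat.one_le_pow _ _ hp.pos)).1 hf2.symm
  · rw [htot T (Finset.Subset.refl T), hTc]
    have h1 : n ≤ 2 ^ n := Nat.lt_two_pow_self.le
    calc n * (2 * h) ≤ 2 ^ n * (2 * h) := Nat.mul_le_mul_right _ h1
      _ = 2 ^ (n + 1) * h := by ring

section
variable {p : ℕ} [hp : Fact p.Prime]

theorem eval₂_mem_closure {R : Type} [CommRing R] (z : R) (P : ℤ[X]) :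
    eval₂ (Int.castRingHom R) z P ∈ Subring.closure {z} := by
  rw [eval₂_eq_sum_range]
  refine sum_mem fun i _ => mul_mem ?_ (pow_mem (Subring.subset_closure (Set.mem_singleton z)) _)
  exact intCast_mem _ _

theorem mk_aeval_mem (ζ : Zab) (P : ℤ[X]) :
    Ideal.Quotient.mk (Ideal.span {((p : ℕ) : Zab)}) (aeval ζ P) ∈
      Subring.closure {Ideal.Quotient.mk (Ideal.span {((p : ℕ) : Zab)}) ζ} := by
  have h1 : Ideal.Quotient.mk (Ideal.span {((p : ℕ) : Zab)}) (aeval ζ P) =
      eval₂ (Int.castRingHom _) (Ideal.Quotient.mk (Ideal.span {((p : ℕ) : Zab)}) ζ) P := by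
    rw [aeval_def, hom_eval₂]
    congr 1
  rw [h1]
  exact eval₂_mem_closure _ _

/-- the powers `1, ζ, .., ζ^(φ(N)-1)` are independent modulo `p` -/
theorem card_lower {N : ℕ} (hN : 0 < N) (ζ : Zab) (hζ : IsPrimitiveRoot ζ N)
    (hfin : Finite (Subring.closure {Ideal.Quotient.mk (Ideal.span {((p : ℕ) : Zab)}) ζ})) :
    p ^ N.totient ≤
      Nat.card (Subring.closure {Ideal.Quotient.mk (Ideal.span {((p : ℕ) : Zab)}) ζ}) := by
  classical
  have hζC : IsPrimitiveRoot (ζ : ℂ) N := hζ.map_of_injective (f := Zab.subtype) Subtype.val_injective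
  let P : (Fin N.totient → ZMod p) → ℤ[X] := fun c => ∑ i : Fin N.totient, C (((c i).val : ℕ) : ℤ) * X ^ (i : ℕ)
  have hPdeg : ∀ c, (P c).degree < (N.totient : ℕ) := by
    intro c
    refine lt_of_le_of_lt (degree_sum_le _ _) ?_
    rw [Finset.sup_lt_iff (WithBot.bot_lt_coe _)]
    intro i _
    refine lt_of_le_of_lt (degree_C_mul_X_pow_le _ _) ?_
    exact_mod_cast i.2
  have hPcoeff : ∀ c (i : Fin N.totient), (P c).coeff i = (((c i).val : ℕ) : ℤ) := by
    intro c i
    simp only [P, finsetSum_coeff, coeff_C_mul, coeff_X_pow]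
    rw [Finset.sum_eq_single i]
    · simp
    · intro j _ hj
      rw [if_neg (fun h => hj (Fin.ext h.symm)), mul_zero]
    · intro h
      exact absurd (Finset.mem_univ i) h
  have hinj : Function.Injective (fun c : Fin N.totient → ZMod p =>
      (⟨_, mk_aeval_mem ζ (P c)⟩ : Subring.closure {Ideal.Quotient.mk (Ideal.span {((p : ℕ) : Zab)}) ζ})) := by
    intro c c' h
    have h1 : Ideal.Quotient.mk (Ideal.span {((p : ℕ) : Zab)}) (aeval ζ (P c)) =
        Ideal.Quotient.mk (Ideal.span {((p : ℕ) : Zab)}) (aeval ζ (P c')) := congrArg Subtype.val h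
    rw [Ideal.Quotient.eq, Ideal.mem_span_singleton] at h1
    obtain ⟨w, hw⟩ := h1
    set D := P c - P c' with hD
    have hwC : aeval (ζ : ℂ) D = (p : ℂ) * (w : ℂ) := by
      have h2 := congrArg (fun z : Zab => (z : ℂ)) hw
      have h3 : ((aeval ζ (P c) - aeval ζ (P c') : Zab) : ℂ) = aeval (ζ : ℂ) D := by
        rw [hD, map_sub]
        have h4 : ∀ Q : ℤ[X], ((aeval ζ Q : Zab) : ℂ) = aeval (ζ : ℂ) Q := by
          intro Q
          have := hom_eval₂ Q (algebraMap ℤ Zab) Zab.subtype ζ
          rw [aeval_def, aeval_def]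
          rw [show ((eval₂ (algebraMap ℤ Zab) ζ Q : Zab) : ℂ) = Zab.subtype (eval₂ (algebraMap ℤ Zab) ζ Q) from rfl,
            this]
          congr 1
        rw [← h4, ← h4]
        rfl
      rw [← h3]
      simpa using h2
    have hp0 : (p : ℂ) ≠ 0 := Nat.cast_ne_zero.2 hp.out.ne_zero
    have hwf : (w : ℂ) ∈ IntermediateField.adjoin ℚ {(ζ : ℂ)} := by
      have h2 : (w : ℂ) = aeval (ζ : ℂ) D / (p : ℂ) := by
        rw [hwC]; field_simp
      rw [h2]
      exact div_mem (adjoin_int_le_field _ _ (Polynomial.aeval_mem_adjoin_singleton ℤ _))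
        (IntermediateField.natCast_mem _ p)
    obtain ⟨g, hg⟩ := exists_poly_zeta hζC hN (w : ℂ) hwf (zab_integral _ w.2)
    have hΦ : cyclotomic N ℤ = minpoly ℤ (ζ : ℂ) := cyclotomic_eq_minpoly hζC hN
    have hroot : aeval (ζ : ℂ) (cyclotomic N ℤ) = 0 := by rw [hΦ]; exact minpoly.aeval ℤ _
    set r := g %ₘ cyclotomic N ℤ with hr
    have hrdeg : r.degree < (N.totient : ℕ) := by
      have := degree_modByMonic_lt g (cyclotomic.monic N ℤ)
      rwa [degree_cyclotomic] at this
    have hgr : aeval (ζ : ℂ) r = (w : ℂ) := by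
      rw [hr, aeval_modByMonic_eq_self_of_root hroot, hg]
    have hzero : aeval (ζ : ℂ) (D - C (p : ℤ) * r) = 0 := by
      rw [map_sub, map_mul, hwC, hgr, aeval_C]
      simp
    have hdvd : cyclotomic N ℤ ∣ D - C (p : ℤ) * r := by
      rw [hΦ]
      exact minpoly.isIntegrallyClosed_dvd (hζC.isIntegral hN) hzero
    have hdeg : (D - C (p : ℤ) * r).degree < (cyclotomic N ℤ).degree := by
      rw [degree_cyclotomic]
      refine lt_of_le_of_lt (degree_sub_le _ _) (max_lt ?_ ?_)
      · exact lt_of_le_of_lt (degree_sub_le _ _) (max_lt (hPdeg c) (hPdeg c'))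
      · refine lt_of_le_of_lt ?_ hrdeg
        calc (C (p : ℤ) * r).degree ≤ (C (p : ℤ)).degree + r.degree := degree_mul_le _ _
          _ ≤ 0 + r.degree := add_le_add degree_C_le le_rfl
          _ = r.degree := zero_add _
    have h0 : D - C (p : ℤ) * r = 0 := by
      by_contra hne
      have := degree_le_of_dvd hdvd hne
      exact absurd hdeg (not_lt.2 this)
    have h5 : D = C (p : ℤ) * r := sub_eq_zero.1 h0
    funext i
    have h6 : D.coeff i = (p : ℤ) * r.coeff i := by rw [h5, coeff_C_mul]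
    rw [hD, coeff_sub, hPcoeff, hPcoeff] at h6
    have h7 := congrArg (fun z : ℤ => (z : ZMod p)) h6
    simp only [Int.cast_sub, Int.cast_natCast, Int.cast_mul, CharP.cast_eq_zero, zero_mul,
      ZMod.natCast_zmod_val] at h7
    exact sub_eq_zero.1 h7
  have hcard := Nat.card_le_card_of_injective _ hinj
  rw [Nat.card_fun, Nat.card_zmod] at hcard
  simpa using hcard

/-- `ZabMod p` has partitions of unity of any length into nonzero orthogonal idempotents -/
theorem exists_idem (n : ℕ) :
    ∃ e : Fin (n + 1) → ZabMod p, (∀ i, e i ≠ 0) ∧ (∀ i, e i * e i = e i) ∧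
      (∀ i j, i ≠ j → e i * e j = 0) ∧ ∑ i, e i = 1 := by
  classical
  obtain ⟨N, s, hN, hs, hdvd, htot⟩ := exists_many p hp.out (n + 1)
  obtain ⟨ζ, hζ⟩ := exists_root N hN
  set z : ZabMod p := Ideal.Quotient.mk _ ζ with hzdef
  have hzN : z ^ N = 1 := by rw [hzdef, ← map_pow, hζ.pow_eq_one, map_one]
  have hzq : z ^ (p ^ s) = z := by
    obtain ⟨m, hm⟩ := hdvd
    have hpos : 0 < p ^ s := pow_pos hp.out.pos _
    have h1 : p ^ s = N * m + 1 := by omega
    rw [h1, pow_succ, pow_mul, hzN, one_pow, one_mul]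
  have hfin : Finite (Subring.closure {z}) := finite_closure hN z hzN
  have hpow : ∀ x : Subring.closure {z}, x ^ (p ^ s) = x := fun x => pow_closure z hzq x
  have hq1 : 1 < p ^ s := Nat.one_lt_pow hs.ne' hp.out.one_lt
  have hred := isReduced_of_pow hq1 hpow
  have hup := card_le_pow hq1 hpow
  have hlow : p ^ N.totient ≤ Nat.card (Subring.closure {z}) := card_lower hN ζ hζ hfin
  have hM : n + 1 ≤ Nat.card (MaximalSpectrum (Subring.closure {z})) := by
    have h1 : p ^ N.totient ≤ p ^ (s * Nat.card (MaximalSpectrum (Subring.closure {z}))) := by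
      rw [pow_mul]
      exact le_trans hlow hup
    have h2 := (Nat.pow_le_pow_iff_right hp.out.one_lt).1 h1
    have h3 : s * (n + 1) ≤ s * Nat.card (MaximalSpectrum (Subring.closure {z})) := by
      rw [mul_comm s (n + 1)]
      exact le_trans htot h2
    exact Nat.le_of_mul_le_mul_left h3 hs
  have hfM : Finite (MaximalSpectrum (Subring.closure {z})) := inferInstance
  letI : Fintype (MaximalSpectrum (Subring.closure {z})) := Fintype.ofFinite _
  rw [Nat.card_eq_fintype_card] at hM
  obtain ⟨ι⟩ : Nonempty (Fin (n + 1) ↪ MaximalSpectrum (Subring.closure {z})) :=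
    Function.Embedding.nonempty_of_card_le (by rw [Fintype.card_fin]; exact hM)
  obtain ⟨κ, hκ⟩ : ∃ κ : MaximalSpectrum (Subring.closure {z}) → Fin (n + 1), Function.Surjective κ :=
    ⟨Function.invFun ι, Function.invFun_surjective ι.injective⟩
  let E := Subring.closure {z}
  let Ψ := (IsArtinianRing.equivPi (Subring.closure {z})).symm
  let ε : Fin (n + 1) → (∀ I : MaximalSpectrum (Subring.closure {z}), (Subring.closure {z}) ⧸ I.asIdeal) :=
    fun i I => if κ I = i then 1 else 0
  refine ⟨fun i => ((Ψ (ε i) : Subring.closure {z}) : ZabMod p), ?_, ?_, ?_, ?_⟩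
  · intro i h
    have h1 : Ψ (ε i) = 0 := Subtype.ext h
    have h2 : ε i = 0 := by
      rw [← map_zero Ψ] at h1
      exact Ψ.injective h1
    obtain ⟨I, hI⟩ := hκ i
    have h3 := congrFun h2 I
    simp only [ε, hI, if_true, Pi.zero_apply] at h3
    have := I.isMaximal
    have hnt : Nontrivial ((Subring.closure {z}) ⧸ I.asIdeal) := Ideal.Quotient.nontrivial_iff.2 this.ne_top
    exact one_ne_zero h3
  · intro i
    have h1 : ε i * ε i = ε i := by
      funext I
      simp only [ε, Pi.mul_apply]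
      split_ifs <;> simp
    rw [← Subring.coe_mul, ← map_mul, h1]
  · intro i j hij
    have h1 : ε i * ε j = 0 := by
      funext I
      simp only [ε, Pi.mul_apply, Pi.zero_apply]
      by_cases h : κ I = i
      · rw [if_neg (fun h' => hij (h.symm.trans h')), mul_zero]
      · rw [if_neg h, zero_mul]
    rw [← Subring.coe_mul, ← map_mul, h1, map_zero]
    rfl
  · have h1 : ∑ i, ε i = 1 := by
      funext I
      rw [Finset.sum_apply]
      simp [ε]
    have h2 : ((∑ i, Ψ (ε i) : Subring.closure {z}) : ZabMod p) = 1 := by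
      rw [← map_sum, h1, map_one]
      rfl
    rw [← h2]
    exact (map_sum (Subring.closure {z}).subtype _ _).symm

end

end Pool.Agent.ZAB
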