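import Pool.Agent.ZAB.P5a

set_option autoImplicit false

namespace Pool.Agent.ZAB

open MvPolynomial

section
variable {p : ℕ} [hp : Fact p.Prime]

/-- an integral equation modulo `p` lifts to the integers -/
theorem lift_integral {σ : Type} (F : Set (MvPolynomial σ ℤ)) (g : MvPolynomial σ ℤ)
    (h : IntegralOver (Ideal.span (MvPolynomial.map (Int.castRingHom (ZMod p)) '' F))
      (MvPolynomial.map (Int.castRingHom (ZMod p)) g)) :
    ∃ (m : ℕ) (A : ℕ → MvPolynomial σ ℤ) (H : MvPolynomial σ ℤ),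
      (∀ i, A i ∈ Ideal.span F ^ i) ∧
      g ^ (m + 1) + ∑ i ∈ Finset.range (m + 1), A (i + 1) * g ^ (m - i) = C (p : ℤ) * H := by
  classical
  obtain ⟨m, a, ha, heq⟩ := h
  set φ : MvPolynomial σ ℤ →+* MvPolynomial σ (ZMod p) :=
    MvPolynomial.map (Int.castRingHom (ZMod p)) with hφ
  have hsurj : Function.Surjective φ := MvPolynomial.map_surjective _ ZMod.intCast_surjective
  have hI : Ideal.span (φ '' F) = (Ideal.span F).map φ := by
    rw [Ideal.map_span]
  have hlift : ∀ i, ∃ A ∈ Ideal.span F ^ i, φ A = a i := by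
    intro i
    have h1 := ha i
    rw [hI, ← Ideal.map_pow, Ideal.mem_map_iff_of_surjective φ hsurj] at h1
    exact h1
  choose A hA hA' using hlift
  have h0 : φ (g ^ (m + 1) + ∑ i ∈ Finset.range (m + 1), A (i + 1) * g ^ (m - i)) = 0 := by
    rw [map_add, map_pow, map_sum, ← heq]
    congr 1
    apply Finset.sum_congr rfl
    intro i _
    rw [map_mul, map_pow, hA']
  have hdvd : C (p : ℤ) ∣ g ^ (m + 1) + ∑ i ∈ Finset.range (m + 1), A (i + 1) * g ^ (m - i) := by
    rw [C_dvd_iff_dvd_coeff]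
    intro i
    have h1 := congrArg (coeff i) h0
    rw [hφ, coeff_map, coeff_zero] at h1
    exact (ZMod.intCast_zmod_eq_zero_iff_dvd _ p).1 h1
  obtain ⟨H, hH⟩ := hdvd
  exact ⟨m, A, H, hA, hH⟩

/-- a root of a monic polynomial with integral coefficients is integral -/
theorem isIntegral_of_eq (v : ℂ) (m : ℕ) (b : ℕ → ℂ) (hb : ∀ i, IsIntegral ℤ (b i)) (d : ℂ)
    (hd : IsIntegral ℤ d) (h : v ^ (m + 1) + ∑ i ∈ Finset.range (m + 1), b i * v ^ (m - i) = d) :
    IsIntegral ℤ v := by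
  classical
  let O := integralClosure ℤ ℂ
  let b' : ℕ → O := fun i => ⟨b i, hb i⟩
  let d' : O := ⟨d, hd⟩
  let Q : Polynomial O := ∑ i ∈ Finset.range (m + 1), Polynomial.C (b' i) * Polynomial.X ^ (m - i) -
    Polynomial.C d'
  have hQ : Q.degree ≤ (m : ℕ) := by
    refine le_trans (Polynomial.degree_sub_le _ _) (max_le ?_ ?_)
    · refine le_trans (Polynomial.degree_sum_le _ _) (Finset.sup_le ?_)
      intro i _
      refine le_trans (Polynomial.degree_C_mul_X_pow_le _ _) ?_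
      exact_mod_cast Nat.sub_le m i
    · refine le_trans Polynomial.degree_C_le ?_
      exact_mod_cast Nat.zero_le m
  have hmonic := Polynomial.monic_X_pow_add (n := m + 1) (lt_of_le_of_lt hQ (by exact_mod_cast Nat.lt_succ_self m))
  have hint : IsIntegral O v := by
    refine ⟨_, hmonic, ?_⟩
    simp only [Q, Polynomial.eval₂_add, Polynomial.eval₂_sub, Polynomial.eval₂_pow, Polynomial.eval₂_X,
      Polynomial.eval₂_finsetSum, Polynomial.eval₂_mul, Polynomial.eval₂_C]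
    have h1 : ∀ i, algebraMap O ℂ (b' i) = b i := fun i => rfl
    have h2 : algebraMap O ℂ d' = d := rfl
    simp only [h1, h2]
    rw [← h]
    ring
  exact isIntegral_trans v hint

theorem aeval_pow_frob {σ : Type} (s : ℕ) (y : σ → ZabMod p) (g : MvPolynomial σ ℤ) :
    aeval (fun i => y i ^ (p ^ s)) g = (aeval y g) ^ (p ^ s) := by
  have h : ((aeval (fun i => y i ^ (p ^ s)) : MvPolynomial σ ℤ →ₐ[ℤ] ZabMod p) :
      MvPolynomial σ ℤ →+* ZabMod p) =
      (iterateFrobenius (ZabMod p) p s).comp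
        ((aeval y : MvPolynomial σ ℤ →ₐ[ℤ] ZabMod p) : MvPolynomial σ ℤ →+* ZabMod p) := by
    apply MvPolynomial.ringHom_ext
    · intro z
      simp
    · intro i
      simp [iterateFrobenius_def]
  have h2 := congrArg (fun k : MvPolynomial σ ℤ →+* ZabMod p => k g) h
  have h3 : iterateFrobenius (ZabMod p) p s (aeval y g) = (aeval y g) ^ (p ^ s) :=
    iterateFrobenius_def _ _ _
  rw [← h3]
  exact h2

theorem coe_aeval {σ : Type} (Y : σ → Zab) (g : MvPolynomial σ ℤ) :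
    ((aeval Y g : Zab) : ℂ) = aeval (fun i => (Y i : ℂ)) g := by
  have h : Zab.subtype.comp ((aeval Y : MvPolynomial σ ℤ →ₐ[ℤ] Zab) : MvPolynomial σ ℤ →+* Zab) =
      ((aeval (fun i => (Y i : ℂ)) : MvPolynomial σ ℤ →ₐ[ℤ] ℂ) : MvPolynomial σ ℤ →+* ℂ) := by
    apply MvPolynomial.ringHom_ext
    · intro z
      simp
    · intro i
      simp
  exact congrArg (fun k : MvPolynomial σ ℤ →+* ℂ => k g) h

theorem mk_aeval {σ : Type} (Y : σ → Zab) (g : MvPolynomial σ ℤ) :
    (Ideal.Quotient.mk (Ideal.span {((p : ℕ) : Zab)}) (aeval Y g)) =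
      aeval (fun i => Ideal.Quotient.mk (Ideal.span {((p : ℕ) : Zab)}) (Y i)) g := by
  have h : (Ideal.Quotient.mk (Ideal.span {((p : ℕ) : Zab)})).comp
      ((aeval Y : MvPolynomial σ ℤ →ₐ[ℤ] Zab) : MvPolynomial σ ℤ →+* Zab) =
      ((aeval (fun i => Ideal.Quotient.mk (Ideal.span {((p : ℕ) : Zab)}) (Y i)) :
        MvPolynomial σ ℤ →ₐ[ℤ] ZabMod p) : MvPolynomial σ ℤ →+* ZabMod p) := by
    apply MvPolynomial.ringHom_ext
    · intro z
      simp
    · intro i
      simp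
  exact congrArg (fun k : MvPolynomial σ ℤ →+* ZabMod p => k g) h

/-- integral dependence modulo `p` gives the implication in `ZabMod p` -/
theorem sufficient {σ : Type} (F : Set (MvPolynomial σ ℤ)) (g : MvPolynomial σ ℤ)
    (h : IntegralOver (Ideal.span (MvPolynomial.map (Int.castRingHom (ZMod p)) '' F))
      (MvPolynomial.map (Int.castRingHom (ZMod p)) g))
    (x : σ → ZabMod p) (hx : ∀ f ∈ F, aeval x f = 0) : aeval x g = 0 := by
  classical
  obtain ⟨m, A, H, hA, heq⟩ := lift_integral F g h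
  obtain ⟨s, hs⟩ : ∃ s : ℕ, m + 1 ≤ p ^ s := ⟨m + 1, (Nat.lt_pow_self hp.out.one_lt).le⟩
  choose y hy using fun i => exists_frob_iter p s (x i)
  choose Y hY using fun i => Ideal.Quotient.mk_surjective (y i)
  have hxy : x = fun i => y i ^ (p ^ s) := funext fun i => (hy i).symm
  have hyY : y = fun i => Ideal.Quotient.mk (Ideal.span {((p : ℕ) : Zab)}) (Y i) :=
    funext fun i => (hY i).symm
  set q := p ^ s with hq
  have hqpos : 0 < q := pow_pos hp.out.pos _
  obtain ⟨π, hπ⟩ := IsAlgClosed.exists_pow_nat_eq ((p : ℕ) : ℂ) hqpos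
  have hp0 : ((p : ℕ) : ℂ) ≠ 0 := Nat.cast_ne_zero.2 hp.out.ne_zero
  have hπ0 : π ≠ 0 := by
    rintro rfl
    rw [zero_pow hqpos.ne'] at hπ
    exact hp0 hπ.symm
  have hπint : IsIntegral ℤ π := IsIntegral.of_pow hqpos (by rw [hπ]; exact zab_integral _ (natCast_mem Zab p))
  let O := integralClosure ℤ ℂ
  let π' : O := ⟨π, hπint⟩
  let Yo : σ → O := fun i => ⟨(Y i : ℂ), zab_integral _ (Y i).2⟩
  have hρ : ∀ z : O, (z : ℂ) = algebraMap O ℂ z := fun z => rfl
  have hcoe : ∀ G : MvPolynomial σ ℤ, ((aeval Yo G : O) : ℂ) = ((aeval Y G : Zab) : ℂ) := by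
    intro G
    rw [coe_aeval]
    have h1 : (algebraMap O ℂ).comp
        ((aeval Yo : MvPolynomial σ ℤ →ₐ[ℤ] O) : MvPolynomial σ ℤ →+* O) =
        ((aeval (fun i => (Y i : ℂ)) : MvPolynomial σ ℤ →ₐ[ℤ] ℂ) : MvPolynomial σ ℤ →+* ℂ) := by
      apply MvPolynomial.ringHom_ext
      · intro z
        simp
      · intro i
        simp only [RingHom.comp_apply, RingHom.coe_coe, aeval_X]
        rfl
    exact congrArg (fun k : MvPolynomial σ ℤ →+* ℂ => k G) h1
  -- the `f_j` at `Y` are divisible by `π`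
  have hdiv : ∀ f ∈ F, π' ∣ aeval Yo f := by
    intro f hfF
    have h1 : (aeval y f) ^ q = 0 := by
      rw [hq, ← aeval_pow_frob, ← hxy]
      exact hx f hfF
    rw [hyY, ← mk_aeval, ← map_pow, Ideal.Quotient.eq_zero_iff_mem, Ideal.mem_span_singleton] at h1
    obtain ⟨c, hc⟩ := h1
    have hc' : ((aeval Y f : Zab) : ℂ) ^ q = (p : ℂ) * (c : ℂ) := by
      have := congrArg (fun z : Zab => (z : ℂ)) hc
      simpa using this
    have hu : IsIntegral ℤ (((aeval Y f : Zab) : ℂ) / π) := by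
      apply IsIntegral.of_pow hqpos
      rw [div_pow, hc', hπ, mul_div_cancel_left₀ _ hp0]
      exact zab_integral _ c.2
    refine ⟨⟨_, hu⟩, ?_⟩
    apply Subtype.ext
    rw [hcoe]
    change _ = π * (((aeval Y f : Zab) : ℂ) / π)
    rw [mul_div_cancel₀ _ hπ0]
  have hIle : (Ideal.span F).map
      ((aeval Yo : MvPolynomial σ ℤ →ₐ[ℤ] O) : MvPolynomial σ ℤ →+* O) ≤ Ideal.span {π'} := by
    rw [Ideal.map_span, Ideal.span_le]
    rintro _ ⟨f, hfF, rfl⟩
    exact Ideal.mem_span_singleton.2 (hdiv f hfF)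
  have hpowdiv : ∀ i, π' ^ i ∣ aeval Yo (A i) := by
    intro i
    have h1 := Ideal.mem_map_of_mem
      ((aeval Yo : MvPolynomial σ ℤ →ₐ[ℤ] O) : MvPolynomial σ ℤ →+* O) (hA i)
    rw [Ideal.map_pow] at h1
    have h2 := Ideal.pow_right_mono hIle i h1
    rw [Ideal.span_singleton_pow, Ideal.mem_span_singleton] at h2
    exact h2
  choose b hb using hpowdiv
  set Gc : ℂ := ((aeval Y g : Zab) : ℂ) with hGc
  have hev := congrArg (fun P => ((aeval Yo P : O) : ℂ)) heq
  have hev2 : Gc ^ (m + 1) + ∑ i ∈ Finset.range (m + 1), (π ^ (i + 1) * (b (i + 1) : ℂ)) * Gc ^ (m - i) =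
      π ^ q * ((aeval Yo H : O) : ℂ) := by
    rw [hπ]
    have e1 : ((aeval Yo (g ^ (m + 1) + ∑ i ∈ Finset.range (m + 1), A (i + 1) * g ^ (m - i)) : O) : ℂ) =
        Gc ^ (m + 1) + ∑ i ∈ Finset.range (m + 1), (π ^ (i + 1) * (b (i + 1) : ℂ)) * Gc ^ (m - i) := by
      rw [hρ, map_add, map_pow, map_sum, map_add, map_pow, map_sum]
      congr 1
      · rw [hGc, ← hcoe]
        rfl
      · apply Finset.sum_congr rfl
        intro i _
        rw [map_mul, map_pow, hb, map_mul, map_mul, map_pow, map_pow]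
        rw [hGc, ← hcoe]
        rfl
    have e2 : ((aeval Yo (C (p : ℤ) * H) : O) : ℂ) = (p : ℂ) * ((aeval Yo H : O) : ℂ) := by
      rw [hρ, map_mul, map_mul]
      congr 1
      simp
    rw [← e1, ← e2]
    exact hev
  have hv : IsIntegral ℤ (Gc / π) := by
    refine isIntegral_of_eq (Gc / π) m (fun i => (b (i + 1) : ℂ)) (fun i => (b (i + 1)).2)
      (π ^ (q - (m + 1)) * ((aeval Yo H : O) : ℂ)) ((hπint.pow _).mul (aeval Yo H : O).2) ?_
    have hπm : π ^ (m + 1) ≠ 0 := pow_ne_zero _ hπ0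
    apply mul_left_cancel₀ hπm
    rw [mul_add, ← mul_pow, mul_div_cancel₀ _ hπ0, Finset.mul_sum]
    have e3 : π ^ (m + 1) * (π ^ (q - (m + 1)) * ((aeval Yo H : O) : ℂ)) = π ^ q * ((aeval Yo H : O) : ℂ) := by
      rw [← mul_assoc, ← pow_add]
      congr 2
      omega
    rw [e3, ← hev2]
    congr 1
    apply Finset.sum_congr rfl
    intro i hi
    have hi' : i ≤ m := Nat.lt_succ_iff.1 (Finset.mem_range.1 hi)
    have e4 : π ^ (m + 1) = π ^ (i + 1) * π ^ (m - i) := by
      rw [← pow_add]; congr 1; omega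
    rw [e4, div_pow]
    have hπmi : π ^ (m - i) ≠ 0 := pow_ne_zero _ hπ0
    field_simp
  have hfinal : ((aeval Y g) ^ q : Zab) ∈ Ideal.span {((p : ℕ) : Zab)} := by
    refine mem_span_of_integral p hp.out.ne_zero _ ((Gc / π) ^ q) (hv.pow q) ?_
    rw [div_pow, hπ, mul_div_cancel₀ _ hp0]
    simp [hGc]
  rw [hxy, hq, aeval_pow_frob, hyY, ← mk_aeval, ← map_pow, Ideal.Quotient.eq_zero_iff_mem, ← hq]
  exact hfinal

end

end Pool.Agent.ZAB
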