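import Pool.Agent.ZAB.P3b
import Pool.Agent.ZAB.P4
import Pool.Agent.ZAB.P5b
import Pool.Agent.ZAB.P5d
import Pool.Agent.ZAB.P6a

set_option autoImplicit false

namespace Pool.Agent.ZAB

open MvPolynomial

section
variable {p : ℕ} [hp : Fact p.Prime]

/-- over some finite field there are polynomials `Y` in one variable for which all `f(Y)`, `f` in `F`, are divisible by a power of the variable which does not divide `g(Y)` -/
def Arc (p : ℕ) {σ : Type} (F : Set (MvPolynomial σ ℤ)) (g : MvPolynomial σ ℤ) : Prop :=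
  ∃ (k : Type) (_ : Field k) (_ : Finite k) (_ : CharP k p) (N : ℕ) (Y : σ → Polynomial k),
    (∀ f ∈ F, Polynomial.X ^ (N + 1) ∣ aeval Y f) ∧ ¬ Polynomial.X ^ (N + 1) ∣ aeval Y g

/-- a point over `ZabMod p` at which the `f` vanish and `g` does not vanish on any component -/
theorem local_point {σ : Type} (F : Set (MvPolynomial σ ℤ)) (g : MvPolynomial σ ℤ) (h : Arc p F g) :
    ∃ y : σ → ZabMod p, (∀ f ∈ F, aeval y f = 0) ∧
      ∀ e : ZabMod p, e ≠ 0 → e * e = e → e * aeval y g ≠ 0 := by
  classical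
  obtain ⟨k, ik, ikf, ikc, N, Y, hf, hg⟩ := h
  obtain ⟨τ⟩ := exists_field_hom (p := p) k
  obtain ⟨t, ht, hte⟩ := exists_unif p N
  let ev : Polynomial k →+* ZabMod p := Polynomial.eval₂RingHom τ t
  have hevX : ev Polynomial.X = t := by simp [ev]
  have hevC : ∀ a, ev (Polynomial.C a) = τ a := fun a => by simp [ev]
  have hev : ∀ F : MvPolynomial σ ℤ, aeval (fun i => ev (Y i)) F = ev (aeval Y F) := by
    intro F
    have h3 : ((aeval (fun i => ev (Y i)) : MvPolynomial σ ℤ →ₐ[ℤ] ZabMod p) :
        MvPolynomial σ ℤ →+* ZabMod p) =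
        ev.comp ((aeval Y : MvPolynomial σ ℤ →ₐ[ℤ] Polynomial k) :
          MvPolynomial σ ℤ →+* Polynomial k) := by
      apply MvPolynomial.ringHom_ext
      · intro z
        simp
      · intro i
        simp
    exact congrArg (fun k : MvPolynomial σ ℤ →+* ZabMod p => k F) h3
  refine ⟨fun i => ev (Y i), ?_, ?_⟩
  · intro f hfF
    rw [hev]
    obtain ⟨w, hw⟩ := hf f hfF
    rw [hw, map_mul, map_pow, hevX, ht, zero_mul]
  · intro e he0 hee hzero
    rw [hev] at hzero
    rw [Polynomial.X_pow_dvd_iff] at hg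
    push Not at hg
    obtain ⟨d, hd1, hd2⟩ := hg
    have hex : ∃ l, (aeval Y g).coeff l ≠ 0 := ⟨d, hd2⟩
    set l := Nat.find hex with hl
    have hl1 : (aeval Y g).coeff l ≠ 0 := Nat.find_spec hex
    have hl2 : l ≤ N := le_trans (Nat.find_min' hex hd2) (Nat.lt_succ_iff.1 hd1)
    have hl3 : Polynomial.X ^ l ∣ aeval Y g := by
      rw [Polynomial.X_pow_dvd_iff]
      intro c hc
      by_contra hne
      exact Nat.find_min hex hc hne
    obtain ⟨U, hU⟩ := hl3
    have hU0 : U.coeff 0 ≠ 0 := by
      intro h0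
      apply hl1
      rw [hU, Polynomial.coeff_X_pow_mul', if_pos le_rfl, Nat.sub_self, h0]
    have hUdec : U = Polynomial.C (U.coeff 0) + Polynomial.X * U.divX := by
      conv_lhs => rw [← Polynomial.X_mul_divX_add U]
      ring
    have h4 : e * t ^ N * τ (U.coeff 0) = 0 := by
      have h5 : t ^ (N - l) * (e * ev (aeval Y g)) = 0 := by rw [hzero, mul_zero]
      have h6 : t ^ (N - l) * (e * ev (aeval Y g)) =
          e * t ^ N * τ (U.coeff 0) + e * t ^ (N + 1) * ev U.divX := by
        rw [hU, map_mul, map_pow, hevX]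
        have h7 : ev U = τ (U.coeff 0) + t * ev U.divX := by
          conv_lhs => rw [hUdec]
          rw [map_add, map_mul, hevC, hevX]
        rw [h7]
        have h8 : t ^ N = t ^ (N - l) * t ^ l := by rw [← pow_add]; congr 1; omega
        rw [pow_succ, h8]
        ring
      rw [h6, ht, mul_zero, zero_mul, add_zero] at h5
      exact h5
    apply hte e he0 hee
    have h9 : τ (U.coeff 0) * τ (U.coeff 0)⁻¹ = 1 := by rw [← map_mul, mul_inv_cancel₀ hU0, map_one]
    calc e * t ^ N = e * t ^ N * (τ (U.coeff 0) * τ (U.coeff 0)⁻¹) := by rw [h9, mul_one]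
      _ = e * t ^ N * τ (U.coeff 0) * τ (U.coeff 0)⁻¹ := by ring
      _ = 0 := by rw [h4, zero_mul]

/-- evaluation commutes with cutting by an idempotent -/
theorem mul_aeval {σ : Type} (e : ZabMod p) (x y : σ → ZabMod p) (h : ∀ i, e * x i = e * y i)
    (hee : e * e = e) (F : MvPolynomial σ ℤ) : e * aeval x F = e * aeval y F := by
  classical
  set J : Ideal (ZabMod p) := Ideal.span {1 - e} with hJ
  have hker : ∀ a b : ZabMod p, Ideal.Quotient.mk J a = Ideal.Quotient.mk J b ↔ e * a = e * b := by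
    intro a b
    rw [Ideal.Quotient.eq, hJ, Ideal.mem_span_singleton]
    constructor
    · rintro ⟨c, hc⟩
      have h1 : e * a - e * b = 0 := by
        rw [← mul_sub, hc, ← mul_assoc, mul_sub, hee, mul_one, sub_self, zero_mul]
      exact sub_eq_zero.1 h1
    · intro h1
      refine ⟨a - b, ?_⟩
      rw [sub_mul, one_mul, mul_sub e, h1, sub_self, sub_zero]
  have key : (Ideal.Quotient.mk J).comp
      ((aeval x : MvPolynomial σ ℤ →ₐ[ℤ] ZabMod p) : MvPolynomial σ ℤ →+* ZabMod p) =
      (Ideal.Quotient.mk J).comp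
      ((aeval y : MvPolynomial σ ℤ →ₐ[ℤ] ZabMod p) : MvPolynomial σ ℤ →+* ZabMod p) := by
    apply MvPolynomial.ringHom_ext
    · intro z
      simp
    · intro i
      simp only [RingHom.comp_apply, RingHom.coe_coe, aeval_X]
      exact (hker _ _).2 (h i)
  have h2 := congrArg (fun k : MvPolynomial σ ℤ →+* (ZabMod p ⧸ J) => k F) key
  exact (hker _ _).1 h2

/-- for finitely many variables: no integral dependence gives an arc -/
theorem arc_of_not_integral {n : ℕ} (F : Set (MvPolynomial (Fin n) ℤ)) (hF : F.Finite)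
    (g : MvPolynomial (Fin n) ℤ)
    (h : ¬ IntegralOver (Ideal.span (MvPolynomial.map (Int.castRingHom (ZMod p)) '' F))
      (MvPolynomial.map (Int.castRingHom (ZMod p)) g)) : Arc p F g := by
  obtain ⟨S, iS, hS, ψ, h1, h2⟩ := exists_chain p
    (Ideal.span (MvPolynomial.map (Int.castRingHom (ZMod p)) '' F)) (Submodule.fg_span (hF.image _))
    (MvPolynomial.map (Int.castRingHom (ZMod p)) g) h
  exact chain_poly hS (ψ.comp (MvPolynomial.map (Int.castRingHom (ZMod p)))) F g h1
    (fun f hf => h2 _ (Ideal.subset_span ⟨f, hf, rfl⟩))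

theorem not_integral_of_arc {σ : Type} (F : Set (MvPolynomial σ ℤ)) (g : MvPolynomial σ ℤ) (h : Arc p F g) :
    ¬ IntegralOver (Ideal.span (MvPolynomial.map (Int.castRingHom (ZMod p)) '' F))
      (MvPolynomial.map (Int.castRingHom (ZMod p)) g) := by
  intro hi
  obtain ⟨y, hy1, hy2⟩ := local_point F g h
  have := sufficient F g hi y hy1
  exact hy2 1 one_ne_zero (one_mul 1) (by rw [this, mul_zero])

/-- gluing: if every `g i` has an arc on `F` and `C i` then at one point all of `F` vanishes and no `g i` lies in the ideal generated by `C i` -/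
theorem glue {σ : Type} (F : Set (MvPolynomial σ ℤ)) {k : ℕ} (C : Fin (k + 1) → Set (MvPolynomial σ ℤ))
    (g : Fin (k + 1) → MvPolynomial σ ℤ) (h : ∀ i, Arc p (F ∪ C i) (g i)) :
    ∃ x : σ → ZabMod p, (∀ f ∈ F, aeval x f = 0) ∧
      ∀ i, aeval x (g i) ∉ Ideal.span ((fun c => aeval x c) '' C i) := by
  classical
  choose y hy1 hy2 using fun i => local_point (F ∪ C i) (g i) (h i)
  obtain ⟨e, he0, hee, hort, hsum⟩ := exists_idem (p := p) k
  let x : σ → ZabMod p := fun v => ∑ i, e i * y i v
  have hx : ∀ i v, e i * x v = e i * y i v := by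
    intro i v
    change e i * ∑ j, e j * y j v = _
    rw [Finset.mul_sum, Finset.sum_eq_single i]
    · rw [← mul_assoc, hee]
    · intro j _ hj
      rw [← mul_assoc, hort i j (Ne.symm hj), zero_mul]
    · intro hi
      exact absurd (Finset.mem_univ i) hi
  have hF : ∀ i (Q : MvPolynomial σ ℤ), e i * aeval x Q = e i * aeval (y i) Q :=
    fun i Q => mul_aeval (e i) x (y i) (hx i) (hee i) Q
  refine ⟨x, ?_, ?_⟩
  · intro f hfF
    calc aeval x f = (∑ i, e i) * aeval x f := by rw [hsum, one_mul]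
      _ = ∑ i, e i * aeval x f := Finset.sum_mul _ _ _
      _ = ∑ i, e i * aeval (y i) f := Finset.sum_congr rfl fun i _ => hF i _
      _ = 0 := Finset.sum_eq_zero fun i _ => by rw [hy1 i f (Or.inl hfF), mul_zero]
  · intro i h0
    have h2 : ∀ z ∈ Ideal.span ((fun c => aeval x c) '' C i), e i * z = 0 := by
      intro z hz
      induction hz using Submodule.span_induction with
      | mem z hz =>
        obtain ⟨c, hc, rfl⟩ := hz
        change e i * aeval x c = 0
        rw [hF, hy1 i c (Or.inr hc), mul_zero]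
      | zero => rw [mul_zero]
      | add a b _ _ ha hb => rw [mul_add, ha, hb, add_zero]
      | smul a b _ hb => rw [smul_eq_mul, mul_left_comm, hb, mul_zero]
    have h3 := h2 _ h0
    rw [hF] at h3
    exact hy2 i (e i) (he0 i) (hee i) h3

end

end Pool.Agent.ZAB
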