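import Pool.Agent.ZAB.P6a

set_option autoImplicit false

namespace Pool.Agent.ZAB

open MvPolynomial

/-- a root of a monic polynomial with integral coefficients is integral -/
theorem isIntegral_of_eq' {V Ω : Type*} [CommRing V] [Field Ω] [Algebra V Ω] (v : Ω) (m : ℕ)
    (b : ℕ → Ω) (hb : ∀ i, IsIntegral V (b i)) (d : Ω)
    (hd : IsIntegral V d) (h : v ^ (m + 1) + ∑ i ∈ Finset.range (m + 1), b i * v ^ (m - i) = d) :
    IsIntegral V v := by
  classical
  let O := integralClosure V Ω
  let b' : ℕ → O := fun i => ⟨b i, hb i⟩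
  let d' : O := ⟨d, hd⟩
  let Q : Polynomial O := ∑ i ∈ Finset.range (m + 1), Polynomial.C (b' i) * Polynomial.X ^ (m - i) -
    Polynomial.C d'
  have hQ : Q.degree ≤ (m : ℕ) := by
    refine le_trans (Polynomial.degree_sub_le _ _) (max_le ?_ ?_)
    · refine le_trans (Polynomial.degree_sum_le _ _) (Finset.sup_le ?_)
      intro i _
      refine le_trans (Polynomial.degree_C_mul_X_pow_le _ _) ?_
      exact_mod_cast Nat.sub_le m i
    · refine le_trans Polynomial.degree_C_le ?_
      exact_mod_cast Nat.zero_le m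
  have hmonic := Polynomial.monic_X_pow_add (n := m + 1) (lt_of_le_of_lt hQ (by exact_mod_cast Nat.lt_succ_self m))
  have hint : IsIntegral O v := by
    refine ⟨_, hmonic, ?_⟩
    simp only [Q, Polynomial.eval₂_add, Polynomial.eval₂_sub, Polynomial.eval₂_pow, Polynomial.eval₂_X,
      Polynomial.eval₂_finsetSum, Polynomial.eval₂_mul, Polynomial.eval₂_C]
    have h1 : ∀ i, algebraMap O Ω (b' i) = b i := fun i => rfl
    have h2 : algebraMap O Ω d' = d := rfl
    simp only [h1, h2]
    rw [← h]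
    ring
  exact isIntegral_trans v hint

theorem aux_pow_div {Ω : Type*} [Field Ω] {π : Ω} (hπ0 : π ≠ 0) {i m : ℕ} (hi : i ≤ m) (b G : Ω) :
    π ^ (m + 1) * (b * (G / π) ^ (m - i)) = π ^ (i + 1) * b * G ^ (m - i) := by
  have e4 : π ^ (m + 1) = π ^ (i + 1) * π ^ (m - i) := by
    rw [← pow_add]; congr 1; omega
  rw [e4, div_pow]
  have hπmi : π ^ (m - i) ≠ 0 := pow_ne_zero _ hπ0
  field_simp

/-- the integral closure argument over an arbitrary integrally closed domain -/
theorem dvd_pow_of_integral {V : Type} [CommRing V] [IsDomain V] [IsIntegrallyClosed V] {σ : Type}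
    (ε : MvPolynomial σ ℤ →+* V) (β : V) (hβ : β ≠ 0) (p q m : ℕ) (hq : m + 1 ≤ q) (hp : β ∣ (p : V))
    (F : Set (MvPolynomial σ ℤ)) (hF : ∀ f ∈ F, β ∣ ε f ^ q) (g : MvPolynomial σ ℤ)
    (A : ℕ → MvPolynomial σ ℤ) (H : MvPolynomial σ ℤ) (hA : ∀ i, A i ∈ Ideal.span F ^ i)
    (heq : g ^ (m + 1) + ∑ i ∈ Finset.range (m + 1), A (i + 1) * g ^ (m - i) = C (p : ℤ) * H) :
    β ∣ ε g ^ q := by
  classical
  let K := FractionRing V
  let Ω := AlgebraicClosure K
  have hqpos : 0 < q := by omega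
  obtain ⟨π, hπ⟩ := IsAlgClosed.exists_pow_nat_eq (algebraMap V Ω β) hqpos
  have hinj : Function.Injective (algebraMap V Ω) := by
    rw [IsScalarTower.algebraMap_eq V K Ω]
    exact (algebraMap K Ω).injective.comp (IsFractionRing.injective V K)
  have hβ0 : algebraMap V Ω β ≠ 0 := by
    intro h
    exact hβ (hinj (by rw [h, map_zero]))
  have hπ0 : π ≠ 0 := by
    rintro rfl
    rw [zero_pow hqpos.ne'] at hπ
    exact hβ0 hπ.symm
  have hπint : IsIntegral V π := IsIntegral.of_pow hqpos (by rw [hπ]; exact isIntegral_algebraMap)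
  let O := integralClosure V Ω
  let π' : O := ⟨π, hπint⟩
  obtain ⟨γ, hγ⟩ := hp
  -- the `f_j` are divisible by `π`
  have hdiv : ∀ f ∈ F, π' ∣ algebraMap V O (ε f) := by
    intro f hfF
    obtain ⟨c, hc⟩ := hF f hfF
    have hu : IsIntegral V (algebraMap V Ω (ε f) / π) := by
      apply IsIntegral.of_pow hqpos
      rw [div_pow, ← map_pow, hc, hπ, map_mul, mul_div_cancel_left₀ _ hβ0]
      exact isIntegral_algebraMap
    refine ⟨⟨_, hu⟩, ?_⟩
    apply Subtype.ext
    change algebraMap V Ω (ε f) = π * (algebraMap V Ω (ε f) / π)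
    rw [mul_div_cancel₀ _ hπ0]
  have hIle : (Ideal.span F).map ((algebraMap V O).comp ε) ≤ Ideal.span {π'} := by
    rw [Ideal.map_span, Ideal.span_le]
    rintro _ ⟨f, hfF, rfl⟩
    exact Ideal.mem_span_singleton.2 (hdiv f hfF)
  have hpowdiv : ∀ i, π' ^ i ∣ algebraMap V O (ε (A i)) := by
    intro i
    have h1 := Ideal.mem_map_of_mem ((algebraMap V O).comp ε) (hA i)
    rw [Ideal.map_pow] at h1
    have h2 := Ideal.pow_right_mono hIle i h1
    rw [Ideal.span_singleton_pow, Ideal.mem_span_singleton] at h2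
    exact h2
  choose b hb using hpowdiv
  have hb' : ∀ i, algebraMap V Ω (ε (A i)) = π ^ i * (b i : Ω) := by
    intro i
    have := congrArg (fun z : O => (z : Ω)) (hb i)
    exact this
  set G : Ω := algebraMap V Ω (ε g) with hG
  have hev2 : G ^ (m + 1) + ∑ i ∈ Finset.range (m + 1), (π ^ (i + 1) * (b (i + 1) : Ω)) * G ^ (m - i) =
      π ^ q * (algebraMap V Ω (γ * ε H)) := by
    have hev := congrArg (fun P => algebraMap V Ω (ε P)) heq
    simp only [map_add, map_mul, map_pow, map_sum] at hev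
    have e2 : ε (C (p : ℤ)) = (p : V) := by simp
    rw [e2, hγ] at hev
    rw [hπ, ← map_mul, ← mul_assoc, map_mul, ← hev]
    congr 1
    apply Finset.sum_congr rfl
    intro i _
    rw [hb']
  have hv : IsIntegral V (G / π) := by
    refine isIntegral_of_eq' (G / π) m (fun i => (b (i + 1) : Ω)) (fun i => (b (i + 1)).2)
      (π ^ (q - (m + 1)) * (algebraMap V Ω (γ * ε H))) ((hπint.pow _).mul isIntegral_algebraMap) ?_
    have hπm : π ^ (m + 1) ≠ 0 := pow_ne_zero _ hπ0
    apply mul_left_cancel₀ hπm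
    rw [mul_add, ← mul_pow, mul_div_cancel₀ _ hπ0, Finset.mul_sum]
    have e3 : π ^ (m + 1) * (π ^ (q - (m + 1)) * (algebraMap V Ω (γ * ε H))) =
        π ^ q * (algebraMap V Ω (γ * ε H)) := by
      rw [← mul_assoc, ← pow_add]
      congr 2
      omega
    rw [e3, ← hev2]
    congr 1
    apply Finset.sum_congr rfl
    intro i hi
    have hi' : i ≤ m := Nat.lt_succ_iff.1 (Finset.mem_range.1 hi)
    exact aux_pow_div hπ0 hi' _ _
  have hw : IsIntegral V (algebraMap V K (ε g ^ q) / algebraMap V K β) := by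
    have h1 : algebraMap K Ω (algebraMap V K (ε g ^ q) / algebraMap V K β) = (G / π) ^ q := by
      rw [map_div₀, ← IsScalarTower.algebraMap_apply V K Ω, ← IsScalarTower.algebraMap_apply V K Ω,
        div_pow, hπ, hG, map_pow]
    have h2 : IsIntegral V (algebraMap K Ω (algebraMap V K (ε g ^ q) / algebraMap V K β)) := by
      rw [h1]
      exact hv.pow q
    exact (isIntegral_algebraMap_iff (algebraMap K Ω).injective).1 h2
  obtain ⟨y, hy⟩ := IsIntegrallyClosed.algebraMap_eq_of_integral hw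
  refine ⟨y, ?_⟩
  apply IsFractionRing.injective V K
  have hβK : algebraMap V K β ≠ 0 := by
    intro h
    exact hβ (IsFractionRing.injective V K (by rw [h, map_zero]))
  rw [map_mul, hy, mul_div_cancel₀ _ hβK]

end Pool.Agent.ZAB
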