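import Pool.Agent.ZAB.Dec

set_option autoImplicit false

/-!
# The divisibility test over the group ring of a cyclic group (package E1)
-/

namespace Pool.Agent.ZAB

/-- the class in the cyclic group of order `r` of the exponent of the first variable -/
def gcl (r : ℕ) (m : List ℕ) : Multiplicative (ZMod r) :=
  Multiplicative.ofAdd ((cnt 0 m : ℕ) : ZMod r)

theorem e1_cnt_nil (v : ℕ) : cnt v [] = 0 := rfl

theorem e1_cnt_cons (v a : ℕ) (m : List ℕ) :
    cnt v (a :: m) = cnt v m + if a = v then 1 else 0 := by
  unfold cnt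
  by_cases h : a = v <;> simp [h]

theorem e1_prod (d r : ℕ) (m : List ℕ) :
    (m.map (xi d r)).prod =
      Polynomial.C (MonoidAlgebra.of (ZMod d) (Multiplicative (ZMod r)) (gcl r m)) *
        Polynomial.X ^ cnt 1 m := by
  induction m with
  | nil =>
    have h : gcl r [] = 1 := by
      simp [gcl, e1_cnt_nil]
    rw [h, map_one, map_one, e1_cnt_nil]
    simp
  | cons a m ih =>
    rw [List.map_cons, List.prod_cons, ih]
    by_cases h0 : a = 0
    · subst h0
      have h1 : cnt 1 (0 :: m) = cnt 1 m := by rw [e1_cnt_cons]; simp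
      have h2 : gcl r (0 :: m) = Multiplicative.ofAdd 1 * gcl r m := by
        unfold gcl
        rw [e1_cnt_cons, ← ofAdd_add]
        congr 1
        simp [add_comm]
      rw [h1, h2, map_mul, map_mul]
      simp only [xi, if_true]
      ring
    · by_cases h1 : a = 1
      · subst h1
        have h1 : cnt 1 (1 :: m) = cnt 1 m + 1 := by rw [e1_cnt_cons]; simp
        have h2 : gcl r (1 :: m) = gcl r m := by
          unfold gcl
          rw [e1_cnt_cons]
          simp
        rw [h1, h2]
        simp only [xi, if_true]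
        simp only [one_ne_zero, if_false]
        ring
      · have h3 : cnt 1 (a :: m) = cnt 1 m := by rw [e1_cnt_cons]; simp [h1]
        have h2 : gcl r (a :: m) = gcl r m := by
          unfold gcl
          rw [e1_cnt_cons]
          simp [h0]
        rw [h3, h2]
        simp only [xi, h0, h1, if_false, one_mul]

open Classical in
theorem e1_coeff (d r : ℕ) (P : Pol) (b : ℕ) (u : Multiplicative (ZMod r)) :
    (((Pol.ev (xi d r) P).coeff b).coeff u) =
      ((P.filter fun c => c.1 && (decide (cnt 1 c.2 = b) && decide (gcl r c.2 = u))).length : ZMod d) -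
        ((P.filter fun c => !c.1 && (decide (cnt 1 c.2 = b) && decide (gcl r c.2 = u))).length : ZMod d) := by
  induction P with
  | nil => simp [Pol.ev]
  | cons c P ih =>
    have hc : Pol.ev (xi d r) (c :: P) =
        (if c.1 then 1 else -1) * (c.2.map (xi d r)).prod + Pol.ev (xi d r) P := by
      simp [Pol.ev]
    rw [hc, Polynomial.coeff_add, MonoidAlgebra.coeff_add, Finsupp.add_apply, ih, e1_prod]
    obtain ⟨s, m⟩ := c
    clear hc
    have key : ((Polynomial.C (MonoidAlgebra.of (ZMod d) (Multiplicative (ZMod r)) (gcl r m)) *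
        Polynomial.X ^ cnt 1 m).coeff b).coeff u =
          if cnt 1 m = b ∧ gcl r m = u then (1 : ZMod d) else 0 := by
      rw [Polynomial.coeff_C_mul_X_pow]
      by_cases h1 : cnt 1 m = b
      · rw [if_pos h1.symm]
        by_cases h2 : gcl r m = u
        · rw [if_pos ⟨h1, h2⟩]
          simp [MonoidAlgebra.of, h2]
        · rw [if_neg (fun h => h2 h.2)]
          simp [MonoidAlgebra.of, h2]
      · rw [if_neg (fun h => h1 h.symm), if_neg (fun h => h1 h.1)]
        simp
    revert key
    generalize (Polynomial.C (MonoidAlgebra.of (ZMod d) (Multiplicative (ZMod r)) (gcl r m)) *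
        Polynomial.X ^ cnt 1 m) = W
    intro key
    cases s
    · have e : ((if ((false, m) : Bool × List ℕ).1 = true then (1 : Polynomial (MonoidAlgebra (ZMod d) (Multiplicative (ZMod r)))) else -1) * W) = -W := by
        rw [if_neg (by simp)]
        exact neg_one_mul W
      rw [e, Polynomial.coeff_neg, MonoidAlgebra.coeff_neg, Finsupp.neg_apply, key]
      by_cases h1 : cnt 1 m = b
      · by_cases h2 : gcl r m = u
        · simp [h1, h2]
          ring
        · simp [h1, h2]
      · simp [h1]
    · have e : ((if ((true, m) : Bool × List ℕ).1 = true then (1 : Polynomial (MonoidAlgebra (ZMod d) (Multiplicative (ZMod r)))) else -1) * W) = W := by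
        rw [if_pos rfl, one_mul]
      rw [e, key]
      by_cases h1 : cnt 1 m = b
      · by_cases h2 : gcl r m = u
        · simp [h1, h2]
          ring
        · simp [h1, h2]
      · simp [h1]

theorem gcl_eq_iff (r : ℕ) (m m' : List ℕ) : gcl r m = gcl r m' ↔ cnt 0 m % r = cnt 0 m' % r := by
  unfold gcl
  rw [Multiplicative.ofAdd.apply_eq_iff_eq, ZMod.natCast_eq_natCast_iff']

theorem ctest_iff (d r N : ℕ) (P : Pol) :
    ctest d r N P ↔ Polynomial.X ^ (N + 1) ∣ Pol.ev (xi d r) P := by
  classical
  rw [Polynomial.X_pow_dvd_iff]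
  have hf : ∀ (c : Bool × List ℕ), (P.filter fun c' => c'.1 && (decide (cnt 1 c'.2 = cnt 1 c.2) &&
      decide (cnt 0 c'.2 % r = cnt 0 c.2 % r))) =
      P.filter fun c' => c'.1 && (decide (cnt 1 c'.2 = cnt 1 c.2) && decide (gcl r c'.2 = gcl r c.2)) := by
    intro c
    apply List.filter_congr
    intro a _
    congr 2
    rw [Bool.eq_iff_iff, decide_eq_true_iff, decide_eq_true_iff, gcl_eq_iff]
  have hg : ∀ (c : Bool × List ℕ), (P.filter fun c' => !c'.1 && (decide (cnt 1 c'.2 = cnt 1 c.2) &&
      decide (cnt 0 c'.2 % r = cnt 0 c.2 % r))) =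
      P.filter fun c' => !c'.1 && (decide (cnt 1 c'.2 = cnt 1 c.2) && decide (gcl r c'.2 = gcl r c.2)) := by
    intro c
    apply List.filter_congr
    intro a _
    congr 2
    rw [Bool.eq_iff_iff, decide_eq_true_iff, decide_eq_true_iff, gcl_eq_iff]
  constructor
  · intro h b hb
    rw [← MonoidAlgebra.coeff_eq_zero]
    ext u
    rw [e1_coeff, Finsupp.zero_apply]
    by_cases hs : ∃ c ∈ P, cnt 1 c.2 = b ∧ gcl r c.2 = u
    · obtain ⟨c, hc, rfl, rfl⟩ := hs
      have h1 := h c hc (by omega)
      rw [hf, hg, ← ZMod.natCast_eq_natCast_iff'] at h1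
      rw [h1, sub_self]
    · push Not at hs
      have e1 : (P.filter fun c => c.1 && (decide (cnt 1 c.2 = b) && decide (gcl r c.2 = u))) = [] := by
        rw [List.filter_eq_nil_iff]
        intro c hc
        have := hs c hc
        simp only [Bool.and_eq_true, decide_eq_true_eq, not_and]
        intro _ h2
        exact this h2
      have e2 : (P.filter fun c => !c.1 && (decide (cnt 1 c.2 = b) && decide (gcl r c.2 = u))) = [] := by
        rw [List.filter_eq_nil_iff]
        intro c hc
        have := hs c hc
        simp only [Bool.and_eq_true, decide_eq_true_eq, not_and]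
        intro _ h2
        exact this h2
      rw [e1, e2]
      simp
  · intro h c hc hN
    have h1 := e1_coeff d r P (cnt 1 c.2) (gcl r c.2)
    rw [h _ (by omega), MonoidAlgebra.coeff_zero, Finsupp.zero_apply] at h1
    rw [hf, hg, ← ZMod.natCast_eq_natCast_iff']
    exact (sub_eq_zero.1 h1.symm)

end Pool.Agent.ZAB
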